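import Mathlib

/-!
# Coefficients of a normalised Hecke eigenform
-/

set_option autoImplicit false

open ComplexConjugate

namespace Pool.Agent.H44.PC

/-- `a` is the sequence of the coefficients of a normalised eigenform of the Hecke operators `T_ℓ`, `ℓ ∤ N`, of weight
`k`, level `N` and nebentypus `ε` (coefficients at `n` prime to `N`) -/
structure Eig (N k : ℕ) (ε : DirichletCharacter ℂ N) (a : ℕ → ℂ) : Prop where
  one : a 1 = 1
  mul : ∀ m n : ℕ, m.Coprime n → m.Coprime N → n.Coprime N → a (m * n) = a m * a n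
  hecke : ∀ ℓ : ℕ, ℓ.Prime → ¬ ℓ ∣ N → ∀ r : ℕ,
    a (ℓ ^ (r + 2)) = a ℓ * a (ℓ ^ (r + 1)) - ε ℓ * (ℓ : ℂ) ^ (k - 1) * a (ℓ ^ r)
  adj : ∀ ℓ : ℕ, ℓ.Prime → ¬ ℓ ∣ N → conj (a ℓ) = conj (ε ℓ) * a ℓ

/-- the power sums `s_f = α^f + β^f` where `α + β = a`, `α β = b` -/
def psum (a b : ℂ) : ℕ → ℂ
  | 0 => 2
  | 1 => a
  | (f + 2) => a * psum a b (f + 1) - b * psum a b f

end Pool.Agent.H44.PC
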