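import Pool.Agent.H44.PC.Sel
import Pool.Agent.H44.PC.Eig

/-!
# Eigenforms, base change, attached representations: definitions
-/

set_option autoImplicit false

open NumberField Matrix Polynomial UpperHalfPlane ModularForm
open scoped MatrixGroups

namespace Pool.Agent.H44.PC

/-! ### forms -/

/-- the coefficients of the `q`-expansion of `h` -/
noncomputable def coef {N k : ℕ}
    (h : CuspForm ((CongruenceSubgroup.Gamma1 N).map (Matrix.SpecialLinearGroup.mapGL ℝ)) (k : ℤ)) (n : ℕ) : ℂ :=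
  (qExpansion 1 h).coeff n

/-- `h`, a cusp form of weight `k` on `Γ_1(N)`, has nebentypus `ε` and is a normalised eigenform of the Hecke operators
`T_ℓ`, `ℓ ∤ N`, of eigenvalues the coefficients `a_ℓ` -/
structure HeckeForm {N k : ℕ} (ε : DirichletCharacter ℂ N)
    (h : CuspForm ((CongruenceSubgroup.Gamma1 N).map (Matrix.SpecialLinearGroup.mapGL ℝ)) (k : ℤ)) : Prop where
  neb : ∀ γ : SL(2, ℤ), γ ∈ CongruenceSubgroup.Gamma0 N → ∀ z : ℍ,
    ((h : ℍ → ℂ) ∣[(k : ℤ)] γ) z = ε ((γ 1 1 : ℤ) : ZMod N) * h z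
  one : coef h 1 = 1
  hecke : ∀ ℓ : ℕ, ℓ.Prime → ¬ ℓ ∣ N → ∀ n : ℕ, 0 < n →
    coef h (ℓ * n) + (if ℓ ∣ n then ε (ℓ : ZMod N) * (ℓ : ℂ) ^ (k - 1) * coef h (n / ℓ) else 0) =
      coef h ℓ * coef h n

/-- the properties of a newform of level `M`, even weight `k` and trivial nebentypus which are used: eigenform of the
Fricke involution `z ↦ -1/(M z)`, with eigenvalue `w`, and at the primes `ℓ` dividing `N` an Euler factor
`(1 - a_ℓ ℓ^{-s} + b ℓ^{-2s})⁻¹` without pole at `s = k/2` (`b = 0` if `ℓ` divides `M`, `b = ℓ^{k-1}` if not) -/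
structure Newf (N : ℕ) {M k : ℕ} (w : ℂ)
    (h : CuspForm ((CongruenceSubgroup.Gamma1 M).map (Matrix.SpecialLinearGroup.mapGL ℝ)) (k : ℤ)) : Prop where
  fricke : ∀ z z' : ℍ, (z' : ℂ) = -1 / (M * (z : ℂ)) → h z' = w * (M : ℂ) ^ (k / 2) * (z : ℂ) ^ k * h z
  euler : ∀ ℓ : ℕ, ℓ.Prime → ℓ ∣ N → ∃ b : ℂ,
    (∀ n : ℕ, 0 < n → coef h (ℓ * n) + (if ℓ ∣ n then b * coef h (n / ℓ) else 0) = coef h ℓ * coef h n) ∧
    1 - coef h ℓ / (ℓ : ℂ) ^ (k / 2) + b / (ℓ : ℂ) ^ k ≠ 0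

/-- the Hecke eigenvalue, at a prime of norm `q = ℓ^f`, of the base change of an eigenform of even weight `k` and
nebentypus `ε` with `T_ℓ`-eigenvalues `a ℓ`: `(α^f + β^f) / ℓ^{f(k/2-1)}`, where `α + β = a ℓ`, `α β = ε(ℓ) ℓ^{k-1}` -/
noncomputable def tBC {N : ℕ} (k : ℕ) (ε : DirichletCharacter ℂ N) (a : ℕ → ℂ) (q : ℕ) : ℂ :=
  psum (a q.minFac) (ε (q.minFac : ZMod N) * (q.minFac : ℂ) ^ (k - 1)) (q.factorization q.minFac) /
    (q.minFac : ℂ) ^ (q.factorization q.minFac * (k / 2 - 1))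

/-- for `ζ` a primitive `N`-th root of unity: the Dirichlet character `χ` modulo `N` is a character of `Gal(F/ℚ)` -/
def CharOf {N : ℕ} (ζ : AlgebraicClosure ℚ) (F : IntermediateField ℚ (AlgebraicClosure ℚ))
    (χ : DirichletCharacter ℂ N) : Prop :=
  ∀ τ ∈ F.fixingSubgroup, ∀ n : ℕ, τ ζ = ζ ^ n → χ (n : ZMod N) = 1

/-! ### primes -/

/-- the good primes of `F` -/
abbrev GoodPrime (F : IntermediateField ℚ (AlgebraicClosure ℚ)) [NumberField F] (N : ℕ) : Type :=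
  {v : Ideal (𝓞 F) // v.IsPrime ∧ v ≠ ⊥ ∧ (Ideal.absNorm v).Coprime N}

/-- `g ∈ G_F` is an (arithmetic) Frobenius element at the prime `v` of `F` -/
def IsFrob {F : IntermediateField ℚ (AlgebraicClosure ℚ)} [NumberField F] (v : Ideal (𝓞 F))
    (g : F.fixingSubgroup) : Prop :=
  ∃ P : Ideal (𝓞 (AlgebraicClosure ℚ)), P.IsPrime ∧ P.comap (algebraMap (𝓞 F) (𝓞 (AlgebraicClosure ℚ))) = v ∧
    ∀ x : 𝓞 (AlgebraicClosure ℚ), (g : (AlgebraicClosure ℚ) ≃ₐ[ℚ] (AlgebraicClosure ℚ)) • x - x ^ (Ideal.absNorm v) ∈ P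

/-! ### attached representations -/

section att

variable {K : Type} [NontriviallyNormedField K] {L : Type} [NontriviallyNormedField L] [NormedAlgebra K L]
  {E : Subfield ℂ}

/-- `r` is the representation of `G_ℚ` over `L` attached to the eigenform with coefficients `a`, weight `k` and
nebentypus `ε` along the embedding `ι : E → L` : for every prime `ℓ` not dividing `N p`, `r(Frob_ℓ)` (arithmetic
Frobenius elements) has characteristic polynomial `X² - a(ℓ) X + ε(ℓ) ℓ^{k-1}` -/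
structure AttQ (ι : E →+* L) (p : ℕ) {N : ℕ} (k : ℕ) (ε : DirichletCharacter ℂ N) (a : ℕ → ℂ)
    (r : ((AlgebraicClosure ℚ) ≃ₐ[ℚ] (AlgebraicClosure ℚ)) →* Matrix (Fin 2) (Fin 2) L) : Prop where
  cont : Continuous r
  frob : ∀ ℓ : ℕ, ℓ.Prime → ¬ ℓ ∣ N * p → ∀ P : Ideal (𝓞 (AlgebraicClosure ℚ)), P.IsPrime →
    (ℓ : 𝓞 (AlgebraicClosure ℚ)) ∈ P → ∀ τ : (AlgebraicClosure ℚ) ≃ₐ[ℚ] (AlgebraicClosure ℚ),
      (∀ x : 𝓞 (AlgebraicClosure ℚ), τ • x - x ^ ℓ ∈ P) → ∃ A e : E, (A : ℂ) = a ℓ ∧ (e : ℂ) = ε (ℓ : ZMod N) ∧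
        (r τ).charpoly = X ^ 2 - C (ι A) * X + C (ι e * (ℓ : L) ^ (k - 1))

/-- `ρ` is the absolutely irreducible representation of `G_F` over `K ⊂ L` attached to the base change to `F` of the
eigenform with coefficients `a`, weight `k` and nebentypus `ε` along the embedding `ι : E → L` : for every prime `v` of
`F` prime to `N p`, `ρ(Frob_v)` has characteristic polynomial `X² - t_v X + N v`, `t_v = tBC k ε a (N v)` -/
structure AttF (ι : E →+* L) (p : ℕ) {N : ℕ} (k : ℕ) (ε : DirichletCharacter ℂ N) (a : ℕ → ℂ)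
    {F : IntermediateField ℚ (AlgebraicClosure ℚ)} [NumberField F]
    (ρ : F.fixingSubgroup →* Matrix (Fin 2) (Fin 2) K) : Prop where
  cont : Continuous ρ
  irr : Submodule.span K (Set.range ρ) = ⊤
  frob : ∀ v : Ideal (𝓞 F), v.IsPrime → v ≠ ⊥ → (Ideal.absNorm v).Coprime (N * p) →
    ∀ g : F.fixingSubgroup, IsFrob v g → ∃ x : E, (x : ℂ) = tBC k ε a (Ideal.absNorm v) ∧
      (ρ g).charpoly.map (algebraMap K L) = X ^ 2 - C (ι x) * X + C ((Ideal.absNorm v : ℕ) : L)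

end att

end Pool.Agent.H44.PC
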