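import Pool.Agent.H44.PC.Frob
import Pool.Agent.H89.FrobD.Cor

/-!
# Every element of `Gal(ℚ̄/ℚ)` is, on a given finite Galois extension, a power of a Frobenius element
-/

set_option autoImplicit false
set_option linter.style.haveILetI false

open NumberField
open scoped Pointwise

namespace Pool.Agent.H44.PC

open Pool.Agent.H89.FrobD

theorem exists_prime_GP (L : Type) [Field L] [NumberField L] [IsGalois ℚ L] (g : Gal(L/ℚ)) (B : ℕ) :
    ∃ p : ℕ, p.Prime ∧ B < p ∧ GP L (Subgroup.zpowers g) p := by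
  classical
  have hB : Pool.Agent.H71.FD.Null (fun p => p ≤ B) := Pool.Agent.H71.FD.Null_of_bounded B fun p _ hp => hp
  have hg : (0 : ℝ) < (gens L (Subgroup.zpowers g) : ℝ) / (Nat.card Gal(L/ℚ) : ℝ) := by
    refine div_pos (Nat.cast_pos.2 (one_le_gens L g)) (Nat.cast_pos.2 Nat.card_pos)
  obtain ⟨x, hx, h⟩ := GP_count L (Subgroup.zpowers g) hB
    ((gens L (Subgroup.zpowers g) : ℝ) / (Nat.card Gal(L/ℚ) : ℝ) / 2) (half_pos hg) 2
  have h1 : (0 : ℝ) < x / Real.log x :=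
    div_pos (by exact_mod_cast (by omega : 0 < x)) (Real.log_pos (by exact_mod_cast (by omega : 1 < x)))
  have h2 : (0 : ℝ) < Pool.Agent.H71.FD.cn (fun p => GP L (Subgroup.zpowers g) p ∧ ¬ p ≤ B) x := by
    refine lt_of_lt_of_le (mul_pos ?_ h1) h
    linarith
  have h3 : 0 < Pool.Agent.H71.FD.cn (fun p => GP L (Subgroup.zpowers g) p ∧ ¬ p ≤ B) x := by
    exact_mod_cast h2
  unfold Pool.Agent.H71.FD.cn at h3
  obtain ⟨p, hp⟩ := Finset.card_pos.1 h3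
  have hp' : p.Prime ∧ GP L (Subgroup.zpowers g) p ∧ ¬ p ≤ B := by
    simpa using (by simpa only [Finset.mem_filter] using hp :
      p ∈ Finset.Icc 1 x ∧ p.Prime ∧ GP L (Subgroup.zpowers g) p ∧ ¬ p ≤ B).2
  exact ⟨p, hp'.1, not_le.1 hp'.2.2, hp'.2.1⟩

instance (L : IntermediateField ℚ (AlgebraicClosure ℚ)) : Algebra.IsIntegral (𝓞 L) (𝓞 (AlgebraicClosure ℚ)) := by
  constructor
  intro x
  have h : IsIntegral ℤ x := RingOfIntegers.isIntegral x
  exact h.tower_top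

theorem frob_approx (L : IntermediateField ℚ (AlgebraicClosure ℚ)) [FiniteDimensional ℚ L] [IsGalois ℚ L] (g : ((AlgebraicClosure ℚ) ≃ₐ[ℚ] (AlgebraicClosure ℚ))) (B : ℕ) :
    ∃ (p : ℕ) (P : Ideal (𝓞 (AlgebraicClosure ℚ))) (τ : ((AlgebraicClosure ℚ) ≃ₐ[ℚ] (AlgebraicClosure ℚ))) (i j : ℕ), p.Prime ∧ B < p ∧ P.IsPrime ∧ (p : 𝓞 (AlgebraicClosure ℚ)) ∈ P ∧
      (∀ x : 𝓞 (AlgebraicClosure ℚ), τ • x - x ^ p ∈ P) ∧ (∀ x ∈ L, (τ ^ j) x = g x) ∧ ∀ x ∈ L, τ x = (g ^ i) x := by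
  haveI : NumberField L := ⟨⟩
  let gL : Gal(L/ℚ) := AlgEquiv.restrictNormal g L
  obtain ⟨p, hp, hpB, hd, Q, hQ, hQs⟩ := exists_prime_GP L gL B
  haveI := hQ.1
  obtain ⟨P, hP, hPQ⟩ := (inferInstance : Nonempty (Q.primesOver (𝓞 (AlgebraicClosure ℚ))))
  have hpQ := mem_of_over L hQ
  have hPQ' : P.comap (algebraMap (𝓞 L) (𝓞 (AlgebraicClosure ℚ))) = Q := hPQ.over.symm
  have hpP : (p : 𝓞 (AlgebraicClosure ℚ)) ∈ P := by
    rw [← hPQ', Ideal.mem_comap, map_natCast] at hpQ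
    exact hpQ
  obtain ⟨τ, hτ⟩ := exists_frob P hp hpP
  let τL : Gal(L/ℚ) := AlgEquiv.restrictNormal τ L
  have hτL : ∀ x : 𝓞 L, τL • x - x ^ p ∈ Q := by
    intro x
    rw [← hPQ', Ideal.mem_comap, map_sub, map_pow]
    have h1 : algebraMap (𝓞 L) (𝓞 (AlgebraicClosure ℚ)) (τL • x) = τ • algebraMap (𝓞 L) (𝓞 (AlgebraicClosure ℚ)) x := by
      apply RingOfIntegers.coe_injective
      exact AlgEquiv.restrictNormal_commutes τ L (x : L)
    rw [h1]
    exact hτ _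
  obtain ⟨τ', h1, h2⟩ := frob_elt L hp hd Q hQ
  have h3 : τL = τ' := by
    have h4 : τL * τ'⁻¹ ∈ Ideal.inertia Gal(L/ℚ) Q := by
      rw [AddSubgroup.mem_inertia]
      intro x
      have h5 := hτL (τ'⁻¹ • x)
      have h6 := h2 (τ'⁻¹ • x)
      rw [smul_inv_smul] at h6
      have h7 := sub_mem h5 h6
      rw [mul_smul]
      simpa using h7
    have h5 := unram L hp hd Q hQ
    have h6 := (Nat.card_eq_one_iff_unique.1 h5).1
    have h7 : (⟨τL * τ'⁻¹, h4⟩ : Ideal.inertia Gal(L/ℚ) Q) = 1 := Subsingleton.elim _ _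
    have h8 := congrArg Subtype.val h7
    exact mul_inv_eq_one.1 h8
  have h4 : Subgroup.zpowers τL = Subgroup.zpowers gL := by rw [h3, h1, hQs]
  have h5 : gL ∈ Submonoid.powers τL := by
    rw [mem_powers_iff_mem_zpowers, h4]
    exact Subgroup.mem_zpowers _
  have h6 : τL ∈ Submonoid.powers gL := by
    rw [mem_powers_iff_mem_zpowers, ← h4]
    exact Subgroup.mem_zpowers _
  obtain ⟨j, hj⟩ := h5
  obtain ⟨i, hi⟩ := h6
  have hpow : ∀ (σ : ((AlgebraicClosure ℚ) ≃ₐ[ℚ] (AlgebraicClosure ℚ))) (n : ℕ) (x : L), ((AlgEquiv.restrictNormal σ L) ^ n) x = (σ ^ n) (x : (AlgebraicClosure ℚ)) := by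
    intro σ n x
    have h7 : AlgEquiv.restrictNormal (σ ^ n) L = (AlgEquiv.restrictNormal σ L) ^ n :=
      map_pow (AlgEquiv.restrictNormalHom L) σ n
    rw [← h7]
    exact AlgEquiv.restrictNormal_commutes (σ ^ n) L x
  refine ⟨p, P, τ, i, j, hp, hpB, hP, hpP, hτ, fun x hx => ?_, fun x hx => ?_⟩
  · have h7 := hpow τ j ⟨x, hx⟩
    rw [← h7]
    show ((τL ^ j) ⟨x, hx⟩ : (AlgebraicClosure ℚ)) = g x
    have hj' : τL ^ j = gL := hj
    rw [hj']
    exact AlgEquiv.restrictNormal_commutes g L ⟨x, hx⟩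
  · have h7 := hpow g i ⟨x, hx⟩
    rw [← h7]
    show _ = ((gL ^ i) ⟨x, hx⟩ : (AlgebraicClosure ℚ))
    have hi' : gL ^ i = τL := hi
    rw [hi']
    exact (AlgEquiv.restrictNormal_commutes τ L ⟨x, hx⟩).symm

end Pool.Agent.H44.PC
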