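import Mathlib

/-!
# A weight function for the action of a subgroup of finite index of the modular group
-/

set_option autoImplicit false

open MeasureTheory Set
open UpperHalfPlane hiding I
open scoped MatrixGroups Modular Pointwise

namespace Pool.Agent.H44.PC

/-- vertical lines are null sets -/
theorem line_null (c : ℝ) : (volume : Measure ℂ) {z : ℂ | z.re = c} = 0 := by
  have h : {z : ℂ | z.re = c} = Complex.measurableEquivRealProd ⁻¹' (({c} : Set ℝ) ×ˢ (univ : Set ℝ)) := by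
    ext z
    simp [Complex.measurableEquivRealProd_apply]
  rw [h, Complex.volume_preserving_equiv_real_prod.measure_preimage_equiv, Measure.volume_eq_prod,
    Measure.prod_prod]
  simp

theorem null_fd : (volume : Measure ℍ) (ModularGroup.fd \ ModularGroup.fdo) = 0 := by
  rw [volume_eq_lintegral]
  apply setLIntegral_measure_zero
  have h1 : (fun z : ℍ => (z : ℂ)) '' (ModularGroup.fd \ ModularGroup.fdo) ⊆
      Metric.sphere (0 : ℂ) 1 ∪ ({z : ℂ | z.re = 1 / 2} ∪ {z : ℂ | z.re = -(1 / 2)}) := by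
    rintro _ ⟨z, ⟨hz, hz'⟩, rfl⟩
    obtain ⟨h1, h2⟩ := hz
    by_cases h3 : 1 < Complex.normSq (z : ℂ)
    · right
      have h4 : ¬ |z.re| < (1 : ℝ) / 2 := fun h => hz' ⟨h3, h⟩
      have h5 : |z.re| = 1 / 2 := le_antisymm h2 (not_lt.1 h4)
      rcases (abs_eq (by norm_num)).1 h5 with h | h
      · left; exact h
      · right; exact h
    · left
      have h4 : Complex.normSq (z : ℂ) = 1 := le_antisymm (not_lt.1 h3) h1
      rw [mem_sphere_zero_iff_norm]
      have h5 : ‖(z : ℂ)‖ ^ 2 = 1 := by rw [← Complex.normSq_eq_norm_sq]; exact h4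
      have h6 : 0 ≤ ‖(z : ℂ)‖ := norm_nonneg _
      nlinarith
  refine measure_mono_null h1 ?_
  rw [measure_union_null_iff, measure_union_null_iff]
  exact ⟨Measure.addHaar_sphere _ _ _, line_null _, line_null _⟩

theorem volume_fdo : (volume : Measure ℍ) ModularGroup.fdo < ⊤ := by
  rw [volume_eq_lintegral]
  have h1 : (fun z : ℍ => (z : ℂ)) '' ModularGroup.fdo ⊆
      Complex.measurableEquivRealProd ⁻¹' (Ioo (-(1 / 2) : ℝ) (1 / 2) ×ˢ Ioi (1 / 2 : ℝ)) := by
    rintro _ ⟨z, hz, rfl⟩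
    have h2 := ModularGroup.three_lt_four_mul_im_sq_of_mem_fdo hz
    have h3 : 0 < z.im := z.im_pos
    have h4 := abs_lt.1 hz.2
    refine ⟨⟨?_, ?_⟩, ?_⟩
    · exact h4.1
    · exact h4.2
    · change (1 / 2 : ℝ) < z.im
      nlinarith
  refine lt_of_le_of_lt (lintegral_mono_set h1) ?_
  have h2 : ∫⁻ z in Complex.measurableEquivRealProd ⁻¹' (Ioo (-(1 / 2) : ℝ) (1 / 2) ×ˢ Ioi (1 / 2 : ℝ)),
      ↑((1 / ‖z.im‖₊) ^ 2 : NNReal) =
      ∫⁻ p in (Ioo (-(1 / 2) : ℝ) (1 / 2) ×ˢ Ioi (1 / 2 : ℝ)), ↑((1 / ‖p.2‖₊) ^ 2 : NNReal)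
        ∂((volume : Measure ℝ).prod volume) := by
    have h := Complex.volume_preserving_equiv_real_prod
    rw [Measure.volume_eq_prod] at h
    rw [← h.setLIntegral_comp_preimage_emb Complex.measurableEquivRealProd.measurableEmbedding]
    rfl
  rw [h2, ← Measure.prod_restrict, lintegral_prod]
  · have h3 : (∫⁻ y in Ioi (1 / 2 : ℝ), ↑((1 / ‖y‖₊) ^ 2 : NNReal)) < ⊤ := by
      have h4 : IntegrableOn (fun y : ℝ => y ^ (-2 : ℝ)) (Ioi (1 / 2 : ℝ)) :=
        integrableOn_Ioi_rpow_of_lt (by norm_num) (by norm_num)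
      have h5 := h4.2
      rw [hasFiniteIntegral_iff_enorm] at h5
      refine lt_of_le_of_lt (le_of_eq ?_) h5
      apply setLIntegral_congr_fun measurableSet_Ioi
      intro y hy
      have hy0 : (0 : ℝ) < y := lt_trans (by norm_num) hy
      change ((↑((1 / ‖y‖₊) ^ 2 : NNReal)) : ENNReal) = ‖y ^ (-2 : ℝ)‖ₑ
      rw [enorm_eq_nnnorm]
      congr 1
      apply NNReal.eq
      rw [coe_nnnorm, Real.rpow_neg hy0.le, NNReal.coe_pow, NNReal.coe_div, coe_nnnorm]
      rw [show (2 : ℝ) = ((2 : ℕ) : ℝ) by norm_num, Real.rpow_natCast]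
      rw [Real.norm_of_nonneg hy0.le, Real.norm_of_nonneg (by positivity)]
      simp
    change (∫⁻ _ in Ioo (-(1 / 2) : ℝ) (1 / 2),
      ∫⁻ y in Ioi (1 / 2 : ℝ), ↑((1 / ‖y‖₊) ^ 2 : NNReal)) < ⊤
    rw [lintegral_const]
    refine ENNReal.mul_lt_top h3 ?_
    rw [Measure.restrict_apply_univ, Real.volume_Ioo]
    exact ENNReal.ofReal_lt_top
  · fun_prop

noncomputable section

/-- half the indicator function of the open fundamental domain -/
def w0 (z : ℍ) : ℝ := ModularGroup.fdo.indicator (fun _ => (1 / 2 : ℝ)) z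

theorem measurable_w0 : Measurable w0 :=
  measurable_const.indicator ModularGroup.isOpen_fdo.measurableSet

theorem w0_nonneg (z : ℍ) : 0 ≤ w0 z := indicator_nonneg (fun _ _ => by norm_num) z

theorem integrable_w0 : Integrable w0 volume := by
  unfold w0
  rw [integrable_indicator_iff ModularGroup.isOpen_fdo.measurableSet]
  exact integrableOn_const volume_fdo.ne

theorem measurable_sl (g : SL(2, ℤ)) : Measurable fun z : ℍ => g • z := by
  have h : Continuous fun z : ℍ => (Matrix.SpecialLinearGroup.mapGL ℝ g : GL (Fin 2) ℝ) • z :=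
    continuous_const_smul _
  exact h.measurable

theorem mp_sl (g : SL(2, ℤ)) : MeasurePreserving (fun z : ℍ => g • z) volume volume :=
  measurePreserving_smul (Matrix.SpecialLinearGroup.mapGL ℝ g : GL (Fin 2) ℝ) (volume : Measure ℍ)

instance : Countable SL(2, ℤ) := by
  have h : Countable (Matrix (Fin 2) (Fin 2) ℤ) := inferInstanceAs (Countable (Fin 2 → Fin 2 → ℤ))
  exact Subtype.countable

theorem ae_orbit : ∀ᵐ z : ℍ, ∃ g : SL(2, ℤ), g • z ∈ ModularGroup.fdo := by
  have h1 : (volume : Measure ℍ) (⋃ g : SL(2, ℤ),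
      (fun z : ℍ => g • z) ⁻¹' (ModularGroup.fd \ ModularGroup.fdo)) = 0 := by
    rw [measure_iUnion_null_iff]
    intro g
    have hm : MeasurableSet (ModularGroup.fd \ ModularGroup.fdo) :=
      ModularGroup.isClosed_fd.measurableSet.diff ModularGroup.isOpen_fdo.measurableSet
    rw [(mp_sl g).measure_preimage hm.nullMeasurableSet]
    exact null_fd
  have h2 := measure_eq_zero_iff_ae_notMem.1 h1
  filter_upwards [h2] with z hz
  obtain ⟨g, hg⟩ := ModularGroup.exists_smul_mem_fd z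
  refine ⟨g, ?_⟩
  by_contra hcon
  exact hz (mem_iUnion.2 ⟨g, hg, hcon⟩)

theorem hasSum_w0 (z : ℍ) (hz : ∃ g : SL(2, ℤ), g • z ∈ ModularGroup.fdo) :
    HasSum (fun g : SL(2, ℤ) => w0 (g • z)) 1 := by
  classical
  obtain ⟨g₀, hg₀⟩ := hz
  have hne : g₀ ≠ -g₀ := by
    intro h
    have h1 := congrArg (fun m : SL(2, ℤ) => (m : Matrix (Fin 2) (Fin 2) ℤ)) h
    simp only [Matrix.SpecialLinearGroup.coe_neg] at h1
    have h2 : (g₀ : Matrix (Fin 2) (Fin 2) ℤ) = 0 := by
      ext i j
      have := congrFun (congrFun h1 i) j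
      simp only [Matrix.neg_apply] at this
      simp only [Matrix.zero_apply]
      omega
    have h3 := g₀.det_coe
    rw [h2, Matrix.det_zero] at h3
    exact absurd h3 (by norm_num)
  have hneg : (-g₀) • z = g₀ • z := by
    exact ModularGroup.SL_neg_smul g₀ z
  have h1 : HasSum (fun g : SL(2, ℤ) => w0 (g • z)) (∑ g ∈ ({g₀, -g₀} : Finset SL(2, ℤ)), w0 (g • z)) := by
    apply hasSum_sum_of_ne_finset_zero
    intro g hg
    unfold w0
    apply indicator_of_notMem
    intro h
    have h2 : (g * g₀⁻¹) • (g₀ • z) ∈ ModularGroup.fdo := by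
      rw [smul_smul, inv_mul_cancel_right]
      exact h
    rcases ModularGroup.eq_one_or_neg_one_of_mem_fdo_mem_fdo hg₀ h2 with h3 | h3
    · apply hg
      rw [mul_inv_eq_one] at h3
      simp [h3]
    · apply hg
      have : g = -g₀ := by
        rw [mul_inv_eq_iff_eq_mul] at h3
        rw [h3, neg_mul, one_mul]
      simp [this]
  rw [Finset.sum_pair hne, hneg] at h1
  have h2 : w0 (g₀ • z) = 1 / 2 := indicator_of_mem hg₀ _
  rw [h2] at h1
  norm_num at h1
  exact h1

/-- **The weight.** -/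
theorem exists_weight (G : Subgroup SL(2, ℤ)) [G.FiniteIndex] :
    ∃ w : ℍ → ℝ, Measurable w ∧ (∀ z, 0 ≤ w z) ∧ Integrable w volume ∧
      ∀ᵐ z : ℍ, HasSum (fun g : G => w ((g : SL(2, ℤ)) • z)) 1 := by
  classical
  have : Finite (SL(2, ℤ) ⧸ G) := Subgroup.finite_quotient_of_finiteIndex
  let : Fintype (SL(2, ℤ) ⧸ G) := Fintype.ofFinite _
  refine ⟨fun z => ∑ i : SL(2, ℤ) ⧸ G, w0 (Quotient.out i • z), ?_, ?_, ?_, ?_⟩
  · exact Finset.measurable_sum _ fun i _ => measurable_w0.comp (measurable_sl _)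
  · exact fun z => Finset.sum_nonneg fun i _ => w0_nonneg _
  · exact integrable_finsetSum _ fun i _ => (mp_sl _).integrable_comp_of_integrable integrable_w0
  · filter_upwards [ae_orbit] with z hz
    have h1 := hasSum_w0 z hz
    let e : G × (SL(2, ℤ) ⧸ G) ≃ SL(2, ℤ) :=
      { toFun := fun p => Quotient.out p.2 * (p.1 : SL(2, ℤ))
        invFun := fun h => (⟨(Quotient.out (h : SL(2, ℤ) ⧸ G))⁻¹ * h, by
          rw [← QuotientGroup.eq]
          exact QuotientGroup.out_eq' _⟩, (h : SL(2, ℤ) ⧸ G))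
        left_inv := by
          rintro ⟨g, i⟩
          have h2 : ((Quotient.out i * (g : SL(2, ℤ)) : SL(2, ℤ)) : SL(2, ℤ) ⧸ G) = i := by
            rw [QuotientGroup.mk_mul_of_mem _ g.2]
            exact QuotientGroup.out_eq' i
          simp only [h2]
          ext1
          · ext1
            simp
          · rfl
        right_inv := by
          intro h
          simp }
    have h2 : HasSum (fun p : G × (SL(2, ℤ) ⧸ G) => w0 ((Quotient.out p.2 * (p.1 : SL(2, ℤ))) • z)) 1 :=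
      (e.hasSum_iff (f := fun g : SL(2, ℤ) => w0 (g • z))).2 h1
    refine h2.prod_fiberwise fun g => ?_
    have h3 := hasSum_fintype fun i : SL(2, ℤ) ⧸ G => w0 (Quotient.out i • ((g : SL(2, ℤ)) • z))
    simpa only [mul_smul] using h3

end

end Pool.Agent.H44.PC
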