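import Pool.Agent.H44.PC.Unfold
import Pool.Agent.H44.PC.Weight

/-!
# The Hecke eigenvalue and its conjugate
-/

set_option autoImplicit false
set_option linter.style.haveILetI false

open UpperHalfPlane Matrix ModularForm MeasureTheory ComplexConjugate
open scoped MatrixGroups

namespace Pool.Agent.H44.PC

noncomputable section

/-- the slash operator preserves continuity -/
theorem continuous_slash (k : ℤ) {f : ℍ → ℂ} (hf : Continuous f) (g : GL (Fin 2) ℝ) :
    Continuous (f ∣[k] g) := by
  rw [slash_def]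
  have h2 : Continuous fun τ : ℍ => f (g • τ) := hf.comp (continuous_const_smul g)
  have h1 : Continuous fun τ : ℍ => σ g (f (g • τ)) := by
    by_cases hd : 0 < g.det.val
    · simp only [σ, hd, ↓reduceIte]
      exact h2
    · simp only [σ, hd, ↓reduceIte]
      exact Complex.continuous_conj.comp h2
  have h3 : Continuous fun τ : ℍ => denom g τ := by
    unfold denom
    exact (continuous_const.mul continuous_coe).add continuous_const
  have h4 : Continuous fun τ : ℍ => denom g τ ^ (-k) :=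
    h3.zpow₀ (-k) fun τ => Or.inl (denom_ne_zero g τ)
  exact (h1.mul continuous_const).mul h4

/-- nonempty open sets have positive measure -/
theorem volume_pos_of_isOpen {U : Set ℍ} (hU : IsOpen U) (hne : U.Nonempty) :
    (volume : Measure ℍ) U ≠ 0 := by
  intro h0
  rw [volume_eq_lintegral] at h0
  have hopen : IsOpen ((fun z : ℍ => (z : ℂ)) '' U) := isOpenEmbedding_coe.isOpenMap U hU
  have hpos : (volume : Measure ℂ) ((fun z : ℍ => (z : ℂ)) '' U) ≠ 0 :=
    (hopen.measure_pos volume (hne.image _)).ne'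
  rw [setLIntegral_eq_zero_iff hopen.measurableSet (by fun_prop)] at h0
  apply hpos
  rw [measure_eq_zero_iff_ae_notMem]
  filter_upwards [h0] with z hz hzU
  have h1 := hz hzU
  obtain ⟨τ, hτ, rfl⟩ := hzU
  have h2 : (τ : ℂ).im ≠ 0 := τ.im_ne_zero
  rw [ENNReal.coe_eq_zero] at h1
  have h3 : (1 / ‖(τ : ℂ).im‖₊ : NNReal) ≠ 0 := by
    apply one_div_ne_zero
    rw [Ne, nnnorm_eq_zero]
    exact h2
  exact h3 (pow_eq_zero_iff (two_ne_zero) |>.1 h1)

theorem eq_zero_of_ae {f : ℍ → ℂ} (hf : Continuous f) (h : ∀ᵐ z, f z = 0) : f = 0 := by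
  funext z₀
  by_contra hne
  have hU : IsOpen {z : ℍ | f z ≠ 0} := isOpen_ne_fun hf continuous_const
  apply volume_pos_of_isOpen hU ⟨z₀, hne⟩
  rw [measure_eq_zero_iff_ae_notMem]
  filter_upwards [h] with z hz hz'
  exact hz' hz

/-- `petersson k f f` is real and nonnegative -/
theorem petersson_self (k : ℤ) (f : ℍ → ℂ) (z : ℍ) :
    petersson k f f z = ((‖f z‖ ^ 2 * z.im ^ k : ℝ) : ℂ) := by
  rw [petersson]
  push_cast
  rw [← Complex.normSq_eq_conj_mul_self, Complex.normSq_eq_norm_sq]
  push_cast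
  rfl

theorem adj_of_TT {N k : ℕ} [NeZero N] {l : ℕ} (hl : l.Prime) (hN : ¬ l ∣ N)
    (ε : DirichletCharacter ℂ N)
    (h : CuspForm ((CongruenceSubgroup.Gamma1 N).map (Matrix.SpecialLinearGroup.mapGL ℝ)) (k : ℤ))
    (h0 : (h : ℍ → ℂ) ≠ 0)
    (neb : ∀ r : SL(2, ℤ), r ∈ CongruenceSubgroup.Gamma0 N → ∀ z,
      ((h : ℍ → ℂ) ∣[(k : ℤ)] r) z = ε ((r 1 1 : ℤ) : ZMod N) * h z)
    (A : ℂ) (hA : TT ε (k : ℤ) l h = fun z => A * h z) :
    conj A = conj (ε (l : ZMod N)) * A := by
  obtain ⟨w, hwm, hw0, hwi, hw1⟩ := exists_weight (CongruenceSubgroup.Gamma0 N)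
  have hcont : Continuous (h : ℍ → ℂ) := ModularFormClass.continuous h
  obtain ⟨C, hC⟩ := CuspFormClass.petersson_bounded_left (k : ℤ)
    ((CongruenceSubgroup.Gamma1 N).map (Matrix.SpecialLinearGroup.mapGL ℝ)) h h
  have key := petersson_TT hl hN hwm hw0 hwi hw1 ε (k : ℤ) hcont hcont
    (continuous_slash _ hcont) (continuous_slash _ hcont) neb neb hC hC
  rw [hA] at key
  set P : ℍ → ℝ := fun z => ‖h z‖ ^ 2 * z.im ^ (k : ℤ) with hP
  have hPp : ∀ z, petersson (k : ℤ) h h z = ((P z : ℝ) : ℂ) := fun z => petersson_self _ _ z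
  have hP0 : ∀ z, 0 ≤ P z := fun z => mul_nonneg (sq_nonneg _) (zpow_nonneg z.im_pos.le _)
  have hPc : Continuous P := by
    have h1 := petersson_continuous (k : ℤ) hcont hcont
    have h2 : P = fun z => (petersson (k : ℤ) h h z).re := by
      funext z
      rw [hPp, Complex.ofReal_re]
    rw [h2]
    exact Complex.continuous_re.comp h1
  have hPb : ∀ z, ‖P z‖ ≤ C := by
    intro z
    have h1 := hC z
    rwa [hPp, Complex.norm_real] at h1
  have e1 : ∀ z, w z • petersson (k : ℤ) (fun z => A * h z) h z = conj A * ((w z * P z : ℝ) : ℂ) := by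
    intro z
    have h1 : petersson (k : ℤ) (fun z => A * h z) h z = conj A * petersson (k : ℤ) h h z := by
      rw [petersson, petersson, map_mul]
      ring
    rw [h1, hPp, Complex.real_smul]
    push_cast
    ring
  have e2 : ∀ z, w z • petersson (k : ℤ) h (fun z => A * h z) z = A * ((w z * P z : ℝ) : ℂ) := by
    intro z
    have h1 : petersson (k : ℤ) h (fun z => A * h z) z = A * petersson (k : ℤ) h h z := by
      rw [petersson, petersson]
      ring
    rw [h1, hPp, Complex.real_smul]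
    push_cast
    ring
  simp only [e1, e2] at key
  rw [integral_const_mul, integral_const_mul, integral_complex_ofReal] at key
  have hint : Integrable (fun z => w z * P z) := by
    refine hwi.mul_bdd (c := C) hPc.aestronglyMeasurable (Filter.Eventually.of_forall hPb)
  have hI : ((∫ z, w z * P z : ℝ) : ℂ) ≠ 0 := by
    rw [Complex.ofReal_ne_zero]
    intro hz
    rw [integral_eq_zero_iff_of_nonneg (fun z => mul_nonneg (hw0 z) (hP0 z)) hint] at hz
    have hall : ∀ᵐ z : ℍ, ∀ g : CongruenceSubgroup.Gamma0 N,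
        w ((g : SL(2, ℤ)) • z) * P ((g : SL(2, ℤ)) • z) = 0 := by
      haveI := countable_Gamma0 (N := N)
      rw [ae_all_iff]
      intro g
      exact (mp_sl (g : SL(2, ℤ))).quasiMeasurePreserving.ae hz
    apply h0
    apply eq_zero_of_ae hcont
    filter_upwards [hall, hw1] with z hz1 hz2
    have h1 : ∃ g : CongruenceSubgroup.Gamma0 N, w ((g : SL(2, ℤ)) • z) ≠ 0 := by
      by_contra hcon
      push Not at hcon
      have h2 : HasSum (fun g : CongruenceSubgroup.Gamma0 N => w ((g : SL(2, ℤ)) • z)) 0 := by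
        simp only [hcon]
        exact hasSum_zero
      exact one_ne_zero (hz2.unique h2)
    obtain ⟨g, hg⟩ := h1
    have h2 : P ((g : SL(2, ℤ)) • z) = 0 := (mul_eq_zero.1 (hz1 g)).resolve_left hg
    have h3 : h ((g : SL(2, ℤ)) • z) = 0 := by
      have h4 := (mul_eq_zero.1 h2).resolve_right (zpow_ne_zero _ (im_ne_zero _))
      exact norm_eq_zero.1 (pow_eq_zero_iff two_ne_zero |>.1 h4)
    have h4 := neb g g.2 z
    rw [SL_slash_apply, h3, zero_mul] at h4
    have h5 := eps_gamma ε g g.2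
    exact (mul_eq_zero.1 h4.symm).resolve_left (right_ne_zero_of_mul_eq_one h5)
  rw [← mul_assoc] at key
  exact mul_right_cancel₀ hI key

end

end Pool.Agent.H44.PC
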