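import Pool.Agent.H44.PC.Sel

/-!
# The operator on `H^1_f` given by an element normalising `G_F` and an intertwining matrix
-/

set_option autoImplicit false
set_option linter.unusedSectionVars false

open NumberField Matrix

namespace Pool.Agent.H44.PC

noncomputable section

/-- a linear operator whose `2^j`-th power is a scalar which is not a `2^j`-th power -/
theorem even_finrank_of_pow {K V : Type*} [Field K] [AddCommGroup V] [Module K V] (f : V →ₗ[K] V) (c : K) (j : ℕ)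
    (hf : f ^ (2 ^ j) = c • (1 : V →ₗ[K] V)) (hc : ¬ ∃ d : K, d ^ (2 ^ j) = c) : Even (Module.finrank K V) := by
  by_contra hodd
  rw [Nat.not_even_iff_odd] at hodd
  have hcop : Nat.gcd (Module.finrank K V) (2 ^ j) = 1 := Nat.Coprime.pow_right j (Nat.coprime_two_right.2 hodd)
  have hc0 : c ≠ 0 := fun h => hc ⟨0, by rw [h, zero_pow (pow_ne_zero j two_ne_zero)]⟩
  have h2 := congrArg LinearMap.det hf
  rw [map_pow, LinearMap.det_smul, map_one, mul_one] at h2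
  have hb := Nat.gcd_eq_gcd_ab (Module.finrank K V) (2 ^ j)
  rw [hcop] at hb
  set a := Nat.gcdA (Module.finrank K V) (2 ^ j)
  set b := Nat.gcdB (Module.finrank K V) (2 ^ j)
  refine hc ⟨LinearMap.det f ^ a * c ^ b, ?_⟩
  calc (LinearMap.det f ^ a * c ^ b) ^ (2 ^ j) = (LinearMap.det f ^ (2 ^ j)) ^ a * (c ^ (2 ^ j)) ^ b := by
        rw [mul_pow]
        congr 1
        · rw [← _root_.zpow_natCast, ← _root_.zpow_natCast, ← _root_.zpow_mul, ← _root_.zpow_mul, mul_comm]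
        · rw [← _root_.zpow_natCast, ← _root_.zpow_natCast, ← _root_.zpow_mul, ← _root_.zpow_mul, mul_comm]
    _ = c ^ ((Module.finrank K V : ℤ) * a + ((2 ^ j : ℕ) : ℤ) * b) := by
        rw [h2, zpow_add₀ hc0, _root_.zpow_mul, _root_.zpow_mul, _root_.zpow_natCast, _root_.zpow_natCast]
    _ = c := by rw [← hb, Nat.cast_one, zpow_one]

variable {p : ℕ} [Fact p.Prime] {K : Type} [NontriviallyNormedField K] [NormedAlgebra ℚ_[p] K]
  {F : IntermediateField ℚ (AlgebraicClosure ℚ)} (ρ : F.fixingSubgroup →* Matrix (Fin 2) (Fin 2) K)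

/-- data: `τ` normalises `G_F`, `τ^n ∈ G_F`, `T` intertwines `ρ` and its conjugate, `T^n = c ρ(τ^n)` -/
structure Tw (τ : ((AlgebraicClosure ℚ) ≃ₐ[ℚ] (AlgebraicClosure ℚ))) (T : Matrix (Fin 2) (Fin 2) K) (c : K)
    (n : ℕ) : Prop where
  nrm : ∀ g ∈ F.fixingSubgroup, τ⁻¹ * g * τ ∈ F.fixingSubgroup
  pw : τ ^ n ∈ F.fixingSubgroup
  int : ∀ g : F.fixingSubgroup, T * ρ ⟨τ⁻¹ * g * τ, nrm g g.2⟩ = ρ g * T
  TT : T ^ n = c • ρ ⟨τ ^ n, pw⟩

variable {ρ} {τ : ((AlgebraicClosure ℚ) ≃ₐ[ℚ] (AlgebraicClosure ℚ))} {T : Matrix (Fin 2) (Fin 2) K} {c₀ : K} {n : ℕ}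

namespace Tw

/-- conjugation -/
def cj (h : Tw ρ τ T c₀ n) (g : F.fixingSubgroup) : F.fixingSubgroup := ⟨τ⁻¹ * g * τ, h.nrm g g.2⟩

theorem cj_mul (h : Tw ρ τ T c₀ n) (a b : F.fixingSubgroup) : h.cj (a * b) = h.cj a * h.cj b := by
  apply Subtype.ext
  simp only [cj, Subgroup.coe_mul]
  group

theorem continuous_cj (h : Tw ρ τ T c₀ n) : Continuous h.cj := by
  refine Continuous.subtype_mk ?_ _
  exact (continuous_const.mul continuous_subtype_val).mul continuous_const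

/-- the operator on functions -/
def op (h : Tw ρ τ T c₀ n) : (F.fixingSubgroup → Fin 2 → K) →ₗ[K] (F.fixingSubgroup → Fin 2 → K) where
  toFun c := fun g => T.mulVec (c (h.cj g))
  map_add' a b := by
    funext g
    simp only [Pi.add_apply, Matrix.mulVec_add]
  map_smul' x a := by
    funext g
    simp only [Pi.smul_apply, Matrix.mulVec_smul, RingHom.id_apply]

theorem op_apply (h : Tw ρ τ T c₀ n) (c : F.fixingSubgroup → Fin 2 → K) (g : F.fixingSubgroup) : h.op c g = T.mulVec (c (h.cj g)) := rfl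

theorem op_cobd (h : Tw ρ τ T c₀ n) (m : Fin 2 → K) : h.op (cobd (vec ρ) m) = cobd (vec ρ) (T.mulVec m) := by
  funext g
  rw [op_apply]
  show T.mulVec ((ρ (h.cj g)).mulVec m - m) = (ρ g).mulVec (T.mulVec m) - T.mulVec m
  rw [Matrix.mulVec_sub, Matrix.mulVec_mulVec, Matrix.mulVec_mulVec, ← h.int g]
  rfl

theorem op_cont (h : Tw ρ τ T c₀ n) {c : F.fixingSubgroup → Fin 2 → K} (hc : Continuous c) : Continuous (h.op c) := by
  have h3 : Continuous fun v : Fin 2 → K => T.mulVec v :=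
    Continuous.matrix_mulVec continuous_const continuous_id
  exact h3.comp (hc.comp h.continuous_cj)

theorem op_coc (h : Tw ρ τ T c₀ n) {c : F.fixingSubgroup → Fin 2 → K} (hc : ∀ g g', c (g * g') = c g + vec ρ g (c g'))
    (g g' : F.fixingSubgroup) : h.op c (g * g') = h.op c g + vec ρ g (h.op c g') := by
  rw [op_apply, op_apply, op_apply, h.cj_mul, hc]
  show T.mulVec (c (h.cj g) + (ρ (h.cj g)).mulVec (c (h.cj g'))) = T.mulVec (c (h.cj g)) + (ρ g).mulVec (T.mulVec _)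
  rw [Matrix.mulVec_add, Matrix.mulVec_mulVec, Matrix.mulVec_mulVec, ← h.int g]
  rfl

/-- the action on `𝓞 ℚ̄` as a ring homomorphism -/
def ooMap (τ : ((AlgebraicClosure ℚ) ≃ₐ[ℚ] (AlgebraicClosure ℚ))) : 𝓞 (AlgebraicClosure ℚ) →+* 𝓞 (AlgebraicClosure ℚ) := MulSemiringAction.toRingHom ((AlgebraicClosure ℚ) ≃ₐ[ℚ] (AlgebraicClosure ℚ)) (𝓞 (AlgebraicClosure ℚ)) τ

theorem ooMap_apply (τ : ((AlgebraicClosure ℚ) ≃ₐ[ℚ] (AlgebraicClosure ℚ))) (x : 𝓞 (AlgebraicClosure ℚ)) : ooMap τ x = τ • x := rfl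

theorem op_unr (h : Tw ρ τ T c₀ n) {c : F.fixingSubgroup → Fin 2 → K} {P : Ideal (𝓞 (AlgebraicClosure ℚ))}
    (hc : UnrAt (vec ρ) (P.comap (ooMap τ)) c) : UnrAt (vec ρ) P (h.op c) := by
  obtain ⟨m, hm⟩ := hc
  refine ⟨T.mulVec m, fun g hg => ?_⟩
  rw [op_apply, hm (h.cj g) ?_]
  · exact congrFun (h.op_cobd m) g
  · intro x
    rw [Ideal.mem_comap, map_sub, ooMap_apply, ooMap_apply]
    show τ • ((h.cj g : F.fixingSubgroup) : ((AlgebraicClosure ℚ) ≃ₐ[ℚ] (AlgebraicClosure ℚ))) • x - τ • x ∈ P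
    have h1 : τ • ((h.cj g : F.fixingSubgroup) : ((AlgebraicClosure ℚ) ≃ₐ[ℚ] (AlgebraicClosure ℚ))) • x =
        (g : ((AlgebraicClosure ℚ) ≃ₐ[ℚ] (AlgebraicClosure ℚ))) • τ • x := by
      rw [smul_smul, smul_smul]
      congr 1
      simp only [cj]
      group
    rw [h1]
    exact hg (τ • x)

theorem dec_key (h : Tw ρ τ T c₀ n) (j : (AlgebraicClosure ℚ) →+* ℂ_[p]) (i : Dec F.fixingSubgroup j)
    (x : (AlgebraicClosure ℚ)) :
    i.1.2.toEquiv ((j.comp (τ : (AlgebraicClosure ℚ) →+* (AlgebraicClosure ℚ))) x) =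
      (j.comp (τ : (AlgebraicClosure ℚ) →+* (AlgebraicClosure ℚ))) (h.cj i.1.1 • x) := by
  have h2 := i.2 (τ x)
  show i.1.2.toEquiv (j (τ x)) =
    j (τ ((h.cj i.1.1 : ((AlgebraicClosure ℚ) ≃ₐ[ℚ] (AlgebraicClosure ℚ))) x))
  rw [h2]
  congr 1
  show (i.1.1 : ((AlgebraicClosure ℚ) ≃ₐ[ℚ] (AlgebraicClosure ℚ))) (τ x) = τ ((τ⁻¹ * i.1.1 * τ) x)
  simp only [AlgEquiv.mul_apply]
  rw [show τ (τ⁻¹ ((i.1.1 : ((AlgebraicClosure ℚ) ≃ₐ[ℚ] (AlgebraicClosure ℚ))) (τ x))) =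
    (τ * τ⁻¹) ((i.1.1 : ((AlgebraicClosure ℚ) ≃ₐ[ℚ] (AlgebraicClosure ℚ))) (τ x)) from rfl, mul_inv_cancel]
  rfl

/-- conjugation on the decomposition groups -/
def dec (h : Tw ρ τ T c₀ n) (j : (AlgebraicClosure ℚ) →+* ℂ_[p]) (i : Dec F.fixingSubgroup j) :
    Dec F.fixingSubgroup (j.comp (τ : (AlgebraicClosure ℚ) →+* (AlgebraicClosure ℚ))) :=
  ⟨(h.cj i.1.1, i.1.2), h.dec_key j i⟩

theorem op_cris (h : Tw ρ τ T c₀ n) {c : F.fixingSubgroup → Fin 2 → K} {j : (AlgebraicClosure ℚ) →+* ℂ_[p]}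
    (hc : CrisAt (vec ρ) (j.comp (τ : (AlgebraicClosure ℚ) →+* (AlgebraicClosure ℚ))) c) :
    CrisAt (vec ρ) j (h.op c) := by
  have hf : ∀ i : Dec F.fixingSubgroup j,
      (vec ρ i.1.1).restrictScalars ℚ_[p] ∘ₗ (Matrix.mulVecLin T).restrictScalars ℚ_[p] =
        (Matrix.mulVecLin T).restrictScalars ℚ_[p] ∘ₗ (vec ρ (h.dec j i).1.1).restrictScalars ℚ_[p] := by
    intro i
    refine LinearMap.ext fun v => ?_
    show (ρ i.1.1).mulVec (T.mulVec v) = T.mulVec ((ρ (h.cj i.1.1)).mulVec v)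
    rw [Matrix.mulVec_mulVec, Matrix.mulVec_mulVec, ← h.int i.1.1]
    rfl
  have hh : ∀ i : Dec F.fixingSubgroup j, BC.act p i.1.2 = BC.act p (h.dec j i).1.2 := fun i => rfl
  exact Dies.map hc ((Matrix.mulVecLin T).restrictScalars ℚ_[p]) (h.dec j) hf hh

theorem op_Z1f (h : Tw ρ τ T c₀ n) {c : F.fixingSubgroup → Fin 2 → K}
    (hc : c ∈ Z1f (AlgebraicClosure ℚ) p (vec ρ)) : h.op c ∈ Z1f (AlgebraicClosure ℚ) p (vec ρ) := by
  obtain ⟨h1, h1', h2, h3⟩ := hc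
  refine ⟨h.op_cont h1, h.op_coc h1', fun P hP h0 hp => ?_, fun j => ?_⟩
  · refine h.op_unr (h2 _ ?_ ?_ ?_)
    · exact Ideal.comap_isPrime _ _
    · intro hbot
      apply h0
      rw [eq_bot_iff]
      intro x hx
      have h4 : τ⁻¹ • x ∈ P.comap (ooMap τ) := by
        rw [Ideal.mem_comap, ooMap_apply, smul_inv_smul]
        exact hx
      rw [hbot, Ideal.mem_bot] at h4
      rw [Ideal.mem_bot]
      rw [← smul_inv_smul τ x, h4, smul_zero]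
    · rw [Ideal.mem_comap, map_natCast]
      exact hp
  · exact h.op_cris (h3 _)

/-- the operator on the cocycles -/
def opZ (h : Tw ρ τ T c₀ n) : Z1f (AlgebraicClosure ℚ) p (vec ρ) →ₗ[K] Z1f (AlgebraicClosure ℚ) p (vec ρ) :=
  h.op.restrict fun _ hc => h.op_Z1f hc

/-- the operator on `H^1_f` -/
def opH (h : Tw ρ τ T c₀ n) :
    Quo (Z1f (AlgebraicClosure ℚ) p (vec ρ)) (B1 (vec ρ)) →ₗ[K] Quo (Z1f (AlgebraicClosure ℚ) p (vec ρ)) (B1 (vec ρ)) :=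
  Submodule.mapQ ((B1 (vec ρ)).comap (Z1f (AlgebraicClosure ℚ) p (vec ρ)).subtype)
    ((B1 (vec ρ)).comap (Z1f (AlgebraicClosure ℚ) p (vec ρ)).subtype) h.opZ (by
    rintro c ⟨m, hm⟩
    refine ⟨T.mulVec m, ?_⟩
    have hm' : cobd (vec ρ) m = (c : F.fixingSubgroup → Fin 2 → K) := hm
    show cobd (vec ρ) (T.mulVec m) = h.op c
    rw [← h.op_cobd, hm'])

theorem op_iter (h : Tw ρ τ T c₀ n) (m : ℕ) (c : F.fixingSubgroup → Fin 2 → K) (g : F.fixingSubgroup) :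
    (h.op ^ m) c g = (T ^ m).mulVec (c (h.cj^[m] g)) := by
  induction m generalizing c with
  | zero =>
    rw [pow_zero, pow_zero, Matrix.one_mulVec]
    rfl
  | succ m ih =>
    rw [pow_succ, Module.End.mul_apply, ih, op_apply, Matrix.mulVec_mulVec, ← pow_succ,
      Function.iterate_succ_apply']

theorem cj_iter (h : Tw ρ τ T c₀ n) (m : ℕ) (g : F.fixingSubgroup) :
    ((h.cj^[m] g : F.fixingSubgroup) : ((AlgebraicClosure ℚ) ≃ₐ[ℚ] (AlgebraicClosure ℚ))) =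
      (τ ^ m)⁻¹ * g * τ ^ m := by
  induction m with
  | zero => simp
  | succ m ih =>
    rw [Function.iterate_succ_apply']
    show τ⁻¹ * ((h.cj^[m] g : F.fixingSubgroup) : ((AlgebraicClosure ℚ) ≃ₐ[ℚ] (AlgebraicClosure ℚ))) * τ = _
    rw [ih, pow_succ, _root_.mul_inv_rev]
    simp only [mul_assoc]

theorem op_pow (h : Tw ρ τ T c₀ n) {c : F.fixingSubgroup → Fin 2 → K}
    (h2 : ∀ g g', c (g * g') = c g + (ρ g).mulVec (c g')) :
    (h.op ^ n) c = c₀ • c + cobd (vec ρ) (c₀ • c ⟨τ ^ n, h.pw⟩) := by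
  have h1 : c 1 = 0 := by
    have h3 := h2 1 1
    rw [mul_one, map_one, Matrix.one_mulVec] at h3
    exact left_eq_add.1 h3
  funext g
  set s : F.fixingSubgroup := ⟨τ ^ n, h.pw⟩ with hs
  have h4 : h.cj^[n] g = s⁻¹ * (g * s) := by
    apply Subtype.ext
    rw [h.cj_iter]
    simp only [hs, Subgroup.coe_mul, Subgroup.coe_inv, mul_assoc]
  have h5 : c s⁻¹ = -(ρ s⁻¹).mulVec (c s) := by
    have h6 := h2 s⁻¹ s
    rw [inv_mul_cancel, h1] at h6
    exact eq_neg_of_add_eq_zero_left h6.symm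
  have h7 : ρ s * ρ s⁻¹ = 1 := by rw [← map_mul, mul_inv_cancel, map_one]
  rw [op_iter, h.TT, h4, h2, h2, h5]
  show (c₀ • ρ s).mulVec _ = c₀ • c g + ((ρ g).mulVec (c₀ • c s) - c₀ • c s)
  rw [Matrix.smul_mulVec, Matrix.mulVec_add, Matrix.mulVec_neg, Matrix.mulVec_mulVec, Matrix.mulVec_mulVec,
    h7, Matrix.one_mulVec, Matrix.one_mulVec, Matrix.mulVec_smul]
  module

theorem opZ_pow (h : Tw ρ τ T c₀ n) (m : ℕ) (c : Z1f (AlgebraicClosure ℚ) p (vec ρ)) :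
    (((h.opZ ^ m) c : Z1f (AlgebraicClosure ℚ) p (vec ρ)) : F.fixingSubgroup → Fin 2 → K) = (h.op ^ m) c := by
  induction m generalizing c with
  | zero => rfl
  | succ m ih =>
    rw [pow_succ, Module.End.mul_apply, ih, pow_succ, Module.End.mul_apply]
    rfl

/-- the class of a cocycle -/
def cls (ρ : F.fixingSubgroup →* Matrix (Fin 2) (Fin 2) K) :
    Z1f (AlgebraicClosure ℚ) p (vec ρ) →ₗ[K] Quo (Z1f (AlgebraicClosure ℚ) p (vec ρ)) (B1 (vec ρ)) :=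
  Submodule.mkQ ((B1 (vec ρ)).comap (Z1f (AlgebraicClosure ℚ) p (vec ρ)).subtype)

theorem cls_surj : Function.Surjective (cls (p := p) ρ) :=
  Submodule.mkQ_surjective ((B1 (vec ρ)).comap (Z1f (AlgebraicClosure ℚ) p (vec ρ)).subtype)

theorem cls_zero {c : Z1f (AlgebraicClosure ℚ) p (vec ρ)}
    (hc : (c : F.fixingSubgroup → Fin 2 → K) ∈ B1 (vec ρ)) : cls (p := p) ρ c = 0 :=
  (Submodule.Quotient.mk_eq_zero ((B1 (vec ρ)).comap (Z1f (AlgebraicClosure ℚ) p (vec ρ)).subtype)).2 hc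

theorem opH_cls (h : Tw ρ τ T c₀ n) (c : Z1f (AlgebraicClosure ℚ) p (vec ρ)) :
    h.opH (cls ρ c) = cls ρ (h.opZ c) := rfl

theorem opH_pow_cls (h : Tw ρ τ T c₀ n) (m : ℕ) (c : Z1f (AlgebraicClosure ℚ) p (vec ρ)) :
    (h.opH ^ m) (cls ρ c) = cls ρ ((h.opZ ^ m) c) := by
  induction m generalizing c with
  | zero => rfl
  | succ m ih => rw [pow_succ, Module.End.mul_apply, opH_cls, ih, pow_succ, Module.End.mul_apply]

theorem opH_pow (h : Tw ρ τ T c₀ n) :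
    (h.opH (p := p)) ^ n = c₀ • (1 : Quo (Z1f (AlgebraicClosure ℚ) p (vec ρ)) (B1 (vec ρ)) →ₗ[K]
      Quo (Z1f (AlgebraicClosure ℚ) p (vec ρ)) (B1 (vec ρ))) := by
  refine LinearMap.ext fun x => ?_
  obtain ⟨c, rfl⟩ := cls_surj x
  rw [opH_pow_cls]
  show cls ρ ((h.opZ ^ n) c) = c₀ • cls ρ c
  rw [← map_smul, ← sub_eq_zero, ← map_sub]
  refine cls_zero ⟨c₀ • (c : F.fixingSubgroup → Fin 2 → K) ⟨τ ^ n, h.pw⟩, ?_⟩
  show cobd (vec ρ) _ = (((h.opZ ^ n) c : Z1f (AlgebraicClosure ℚ) p (vec ρ)) : F.fixingSubgroup → Fin 2 → K) -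
    c₀ • (c : F.fixingSubgroup → Fin 2 → K)
  rw [opZ_pow, h.op_pow c.2.2]
  abel

/-- THE SELMER GROUP HAS EVEN DIMENSION -/
theorem even {j : ℕ} (h : Tw ρ τ T c₀ (2 ^ j)) (hc : ¬ ∃ d : K, d ^ (2 ^ j) = c₀) :
    Even (selDim ρ (AlgebraicClosure ℚ) p) :=
  even_finrank_of_pow h.opH c₀ j h.opH_pow hc

end Tw

end

end Pool.Agent.H44.PC
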