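import Mathlib

/-!
# Two absolutely irreducible representations with the same trace are isomorphic
-/

set_option autoImplicit false

open Matrix

namespace Pool.Agent.H44.PC

section

variable {K : Type*} [Field K] {n : Type*} [Fintype n] [DecidableEq n] {G : Type*} [Group G]

/-- the extension to the group algebra -/
noncomputable def ext (r : G →* Matrix n n K) : MonoidAlgebra K G →ₐ[K] Matrix n n K := MonoidAlgebra.lift K _ G r

theorem ext_single (r : G →* Matrix n n K) (g : G) (x : K) : ext r (MonoidAlgebra.single g x) = x • r g := by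
  rw [ext, MonoidAlgebra.lift_single]

theorem ext_surj (r : G →* Matrix n n K) (h : Submodule.span K (Set.range r) = ⊤) :
    Function.Surjective (ext r) := by
  intro M
  have hM : M ∈ Submodule.span K (Set.range r) := by rw [h]; trivial
  induction hM using Submodule.span_induction with
  | mem x hx =>
    obtain ⟨g, rfl⟩ := hx
    exact ⟨MonoidAlgebra.single g 1, by rw [ext_single, one_smul]⟩
  | zero => exact ⟨0, map_zero _⟩
  | add x y _ _ hx hy =>
    obtain ⟨a, rfl⟩ := hx
    obtain ⟨b, rfl⟩ := hy
    exact ⟨a + b, map_add _ _ _⟩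
  | smul c x _ hx =>
    obtain ⟨a, rfl⟩ := hx
    exact ⟨c • a, map_smul _ _ _⟩

theorem trace_ext (r1 r2 : G →* Matrix n n K) (htr : ∀ g, trace (r1 g) = trace (r2 g)) (x : MonoidAlgebra K G) :
    trace (ext r1 x) = trace (ext r2 x) := by
  induction x using MonoidAlgebra.induction_linear with
  | zero => simp
  | add f g hf hg => rw [map_add, map_add, trace_add, trace_add, hf, hg]
  | single g a => rw [ext_single, ext_single, trace_smul, trace_smul, htr]

theorem ext_zero_iff (r1 r2 : G →* Matrix n n K) (h1 : Submodule.span K (Set.range r1) = ⊤)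
    (htr : ∀ g, trace (r1 g) = trace (r2 g)) (x : MonoidAlgebra K G) (h : ext r2 x = 0) : ext r1 x = 0 := by
  rw [Matrix.ext_iff_trace_mul_left]
  intro M
  obtain ⟨y, rfl⟩ := ext_surj r1 h1 M
  rw [mul_zero, trace_zero, ← map_mul, trace_ext r1 r2 htr, map_mul, h, mul_zero, trace_zero]

theorem exists_inter (r1 r2 : G →* Matrix n n K) (h1 : Submodule.span K (Set.range r1) = ⊤)
    (h2 : Submodule.span K (Set.range r2) = ⊤) (htr : ∀ g, trace (r1 g) = trace (r2 g)) :
    ∃ T T' : Matrix n n K, T * T' = 1 ∧ T' * T = 1 ∧ ∀ g, T * r1 g = r2 g * T := by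
  classical
  let s : Matrix n n K → MonoidAlgebra K G := Function.surjInv (ext_surj r1 h1)
  have hs : ∀ M, ext r1 (s M) = M := Function.surjInv_eq (ext_surj r1 h1)
  have key : ∀ x y : MonoidAlgebra K G, ext r1 x = ext r1 y → ext r2 x = ext r2 y := by
    intro x y h
    have := ext_zero_iff r2 r1 h2 (fun g => (htr g).symm) (x - y) (by rw [map_sub, h, sub_self])
    rwa [map_sub, sub_eq_zero] at this
  let f : Matrix n n K →ₐ[K] Matrix n n K := AlgHom.ofLinearMap
    { toFun := fun M => ext r2 (s M)
      map_add' := fun M N => by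
        rw [← map_add]
        apply key
        rw [map_add, hs, hs, hs]
      map_smul' := fun c M => by
        rw [RingHom.id_apply, ← map_smul]
        apply key
        rw [map_smul, hs, hs] }
    (by
      show ext r2 (s 1) = 1
      refine Eq.trans (key (s 1) 1 ?_) (map_one (ext r2))
      rw [map_one, hs])
    (by
      intro M N
      show ext r2 (s (M * N)) = ext r2 (s M) * ext r2 (s N)
      rw [← map_mul]
      apply key
      rw [map_mul, hs, hs, hs])
  have hf : ∀ M, f M = ext r2 (s M) := fun M => rfl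
  have hfr : ∀ g, f (r1 g) = r2 g := by
    intro g
    rw [hf]
    have h3 : ext r2 (MonoidAlgebra.single g 1) = r2 g := by rw [ext_single, one_smul]
    rw [← h3]
    apply key
    rw [hs, ext_single, one_smul]
  have hinj : Function.Injective f := by
    rw [injective_iff_map_eq_zero]
    intro M hM
    rw [hf] at hM
    rw [← hs M]
    exact ext_zero_iff r1 r2 h1 htr _ hM
  have hsurj : Function.Surjective f := by
    intro M
    obtain ⟨x, rfl⟩ := ext_surj r2 h2 M
    exact ⟨ext r1 x, by rw [hf]; exact key _ _ (hs _)⟩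
  let e : Matrix n n K ≃ₐ[K] Matrix n n K := AlgEquiv.ofBijective f ⟨hinj, hsurj⟩
  let e2 : Module.End K (n → K) ≃ₐ[K] Module.End K (n → K) :=
    (Matrix.toLinAlgEquiv'.symm.trans e).trans Matrix.toLinAlgEquiv'
  obtain ⟨T, hT⟩ := AlgEquiv.eq_linearEquivConjAlgEquiv e2
  refine ⟨LinearMap.toMatrix' (T : (n → K) →ₗ[K] (n → K)), LinearMap.toMatrix' (T.symm : (n → K) →ₗ[K] (n → K)),
    ?_, ?_, fun g => ?_⟩
  · rw [← LinearMap.toMatrix'_comp]
    simp
  · rw [← LinearMap.toMatrix'_comp]
    simp
  · have h3 : e2 (Matrix.toLinAlgEquiv' (r1 g)) = Matrix.toLinAlgEquiv' (r2 g) := by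
      show Matrix.toLinAlgEquiv' (f (Matrix.toLinAlgEquiv'.symm (Matrix.toLinAlgEquiv' (r1 g)))) = _
      rw [AlgEquiv.symm_apply_apply, hfr]
    rw [hT] at h3
    have h4 : (T : (n → K) →ₗ[K] (n → K)) ∘ₗ (Matrix.toLin' (r1 g)) =
        (Matrix.toLin' (r2 g)) ∘ₗ (T : (n → K) →ₗ[K] (n → K)) := by
      refine LinearMap.ext fun x => ?_
      have h5 := LinearMap.congr_fun h3 (T x)
      simpa using h5
    have h6 := congrArg LinearMap.toMatrix' h4
    rw [LinearMap.toMatrix'_comp, LinearMap.toMatrix'_comp] at h6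
    simpa using h6

end

end Pool.Agent.H44.PC
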