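import Pool.Agent.H44.PC.Tr
import Pool.Agent.H44.PC.Inter
import Pool.Agent.H44.PC.Core
import Pool.Agent.H44.PC.Defs

/-!
# The intertwining matrix
-/

set_option autoImplicit false
set_option linter.style.haveILetI false
set_option linter.unusedSectionVars false

open NumberField Matrix Polynomial
open scoped Pointwise

namespace Pool.Agent.H44.PC

section mat

variable {K : Type*} [Field K]

theorem sq_of_charpoly {A : Matrix (Fin 2) (Fin 2) K} {t d : K} (h : A.charpoly = X ^ 2 - C t * X + C d) :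
    A * A = t • A - d • 1 := by
  have h1 := Matrix.aeval_self_charpoly A
  rw [h] at h1
  simp only [map_add, map_sub, map_pow, map_mul, aeval_X, aeval_C] at h1
  rw [Algebra.algebraMap_eq_smul_one, Algebra.algebraMap_eq_smul_one, smul_mul_assoc, one_mul, pow_two] at h1
  have h2 : A * A = t • A - d • 1 + (A * A - t • A + d • (1 : Matrix (Fin 2) (Fin 2) K)) := by abel
  rw [h2, h1, add_zero]

theorem trace_of_charpoly {A : Matrix (Fin 2) (Fin 2) K} {t d : K} (h : A.charpoly = X ^ 2 - C t * X + C d) :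
    A.trace = t := by
  have h1 := Matrix.trace_eq_neg_charpoly_coeff A
  rw [h] at h1
  simpa [coeff_X, coeff_C] using h1

theorem det_of_charpoly {A : Matrix (Fin 2) (Fin 2) K} {t d : K} (h : A.charpoly = X ^ 2 - C t * X + C d) :
    A.det = d := by
  have h1 := Matrix.det_eq_sign_charpoly_coeff A
  rw [h] at h1
  simpa [coeff_X, coeff_C] using h1

theorem trace_pow_eq {A B : Matrix (Fin 2) (Fin 2) K} {t d : K} (hA : A.charpoly = X ^ 2 - C t * X + C d)
    (hB : B.charpoly = X ^ 2 - C t * X + C d) (j : ℕ) : (A ^ j).trace = (B ^ j).trace := by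
  induction j using Nat.strong_induction_on with
  | _ j ih =>
    match j with
    | 0 => simp
    | 1 => rw [pow_one, pow_one, trace_of_charpoly hA, trace_of_charpoly hB]
    | (j + 2) =>
      have key : ∀ {M : Matrix (Fin 2) (Fin 2) K}, M.charpoly = X ^ 2 - C t * X + C d →
          (M ^ (j + 2)).trace = t * (M ^ (j + 1)).trace - d * (M ^ j).trace := by
        intro M hM
        have h1 : M ^ (j + 2) = t • M ^ (j + 1) - d • M ^ j := by
          rw [pow_add, pow_two, sq_of_charpoly hM, mul_sub, mul_smul_comm, mul_smul_comm, ← pow_succ, mul_one]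
        rw [h1, trace_sub, trace_smul, trace_smul, smul_eq_mul, smul_eq_mul]
      rw [key hA, key hB, ih (j + 1) (by omega), ih j (by omega)]

theorem trace_sq (T : Matrix (Fin 2) (Fin 2) K) : T.trace ^ 2 = (T * T).trace + 2 * T.det := by
  rw [Matrix.trace_fin_two, Matrix.trace_fin_two, Matrix.det_fin_two, Matrix.mul_apply, Matrix.mul_apply]
  simp only [Fin.sum_univ_two]
  ring

theorem scalar_of_comm {S : Set (Matrix (Fin 2) (Fin 2) K)} (hS : Submodule.span K S = ⊤)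
    (M : Matrix (Fin 2) (Fin 2) K) (h : ∀ A ∈ S, M * A = A * M) : ∃ c : K, M = c • 1 := by
  have h1 : ∀ A : Matrix (Fin 2) (Fin 2) K, M * A = A * M := by
    intro A
    have hA : A ∈ Submodule.span K S := by rw [hS]; trivial
    induction hA using Submodule.span_induction with
    | mem x hx => exact h x hx
    | zero => simp
    | add x y _ _ hx hy => rw [mul_add, add_mul, hx, hy]
    | smul c x _ hx => rw [mul_smul_comm, smul_mul_assoc, hx]
  refine ⟨M 0 0, ?_⟩
  have h2 := h1 !![0, 1; 0, 0]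
  have h3 := h1 !![0, 0; 1, 0]
  have a1 := congrFun (congrFun h2 0) 1
  have a2 := congrFun (congrFun h2 1) 1
  have a3 := congrFun (congrFun h3 0) 0
  simp [Matrix.mul_apply, Fin.sum_univ_two] at a1 a2 a3
  ext i j
  fin_cases i <;> fin_cases j <;> simp [a1, a2, a3]

end mat

variable {p : ℕ} [Fact p.Prime] {K : Type} [NontriviallyNormedField K] [NormedAlgebra ℚ_[p] K]
  {F : IntermediateField ℚ (AlgebraicClosure ℚ)} [NumberField F] [IsGalois ℚ F]

omit [NumberField F] in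
theorem apply_mem (τ : ((AlgebraicClosure ℚ) ≃ₐ[ℚ] (AlgebraicClosure ℚ))) {x : (AlgebraicClosure ℚ)} (hx : x ∈ F) : τ x ∈ F := by
  have h := AlgEquiv.restrictNormal_commutes τ F ⟨x, hx⟩
  have h2 : τ x = ((AlgEquiv.restrictNormal τ F ⟨x, hx⟩ : F) : (AlgebraicClosure ℚ)) := h.symm
  rw [h2]
  exact SetLike.coe_mem _

omit [NumberField F] in
theorem conj_mem (τ : ((AlgebraicClosure ℚ) ≃ₐ[ℚ] (AlgebraicClosure ℚ))) (g : ((AlgebraicClosure ℚ) ≃ₐ[ℚ] (AlgebraicClosure ℚ))) (hg : g ∈ F.fixingSubgroup) : τ⁻¹ * g * τ ∈ F.fixingSubgroup := by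
  rw [IntermediateField.mem_fixingSubgroup_iff] at hg ⊢
  intro x hx
  show τ⁻¹ (g (τ x)) = x
  rw [hg _ (apply_mem τ hx)]
  show (τ⁻¹ * τ) x = x
  rw [inv_mul_cancel]
  rfl

/-- conjugation on `G_F` -/
noncomputable def cjF (τ : ((AlgebraicClosure ℚ) ≃ₐ[ℚ] (AlgebraicClosure ℚ))) (g : F.fixingSubgroup) : F.fixingSubgroup := ⟨τ⁻¹ * g * τ, conj_mem τ g g.2⟩

omit [NumberField F] in
theorem cjF_mul (τ : ((AlgebraicClosure ℚ) ≃ₐ[ℚ] (AlgebraicClosure ℚ))) (a b : F.fixingSubgroup) : cjF τ (a * b) = cjF τ a * cjF τ b := by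
  apply Subtype.ext
  simp only [cjF, Subgroup.coe_mul]
  group

omit [NumberField F] in
theorem cjF_pow (τ : ((AlgebraicClosure ℚ) ≃ₐ[ℚ] (AlgebraicClosure ℚ))) (a : F.fixingSubgroup) (j : ℕ) : cjF τ (a ^ j) = cjF τ a ^ j := by
  induction j with
  | zero =>
    apply Subtype.ext
    simp [cjF]
  | succ j ih => rw [pow_succ, cjF_mul, ih, pow_succ]

omit [NumberField F] in
theorem continuous_cjF (τ : ((AlgebraicClosure ℚ) ≃ₐ[ℚ] (AlgebraicClosure ℚ))) : Continuous (cjF (F := F) τ) := by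
  refine Continuous.subtype_mk ?_ _
  exact (continuous_const.mul continuous_subtype_val).mul continuous_const

/-- the representation with Hecke eigenvalues `t` (a function of the norm), away from `M` -/
structure HasFrob (ρ : F.fixingSubgroup →* Matrix (Fin 2) (Fin 2) K) (t : ℕ → K) (M : ℕ) : Prop where
  cont : Continuous ρ
  irr : Submodule.span K (Set.range ρ) = ⊤
  pos : 0 < M
  frob : ∀ v : Ideal (𝓞 F), v.IsPrime → v ≠ ⊥ → (Ideal.absNorm v).Coprime M → ∀ g : F.fixingSubgroup, IsFrob v g →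
    (ρ g).charpoly = X ^ 2 - C (t (Ideal.absNorm v)) * X + C ((Ideal.absNorm v : ℕ) : K)

variable {ρ : F.fixingSubgroup →* Matrix (Fin 2) (Fin 2) K} {t : ℕ → K} {M : ℕ}

theorem HasFrob.charpoly (h : HasFrob ρ t M) {q : ℕ} (hq : q.Prime) (hqM : M < q) {P : Ideal (𝓞 (AlgebraicClosure ℚ))}
    (hP : P.IsPrime) (hqP : (q : 𝓞 (AlgebraicClosure ℚ)) ∈ P) (g : F.fixingSubgroup) (hg : ∀ x : 𝓞 (AlgebraicClosure ℚ), (g : ((AlgebraicClosure ℚ) ≃ₐ[ℚ] (AlgebraicClosure ℚ))) • x - x ^ q ∈ P) :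
    (ρ g).charpoly = X ^ 2 - C (t q) * X + C (q : K) := by
  have h1 := absNorm_eq hq P hqP g hg
  have h2 : (P.comap (algebraMap (𝓞 F) (𝓞 (AlgebraicClosure ℚ)))) ≠ ⊥ := by
    intro h0
    have h3 : (q : 𝓞 F) ∈ P.comap (algebraMap (𝓞 F) (𝓞 (AlgebraicClosure ℚ))) := by
      rw [Ideal.mem_comap, map_natCast]
      exact hqP
    rw [h0, Ideal.mem_bot, Nat.cast_eq_zero] at h3
    exact hq.ne_zero h3
  have h4 := h.frob (P.comap (algebraMap (𝓞 F) (𝓞 (AlgebraicClosure ℚ)))) (Ideal.comap_isPrime _ _) h2 (by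
    rw [h1]
    exact (Nat.Prime.coprime_iff_not_dvd hq).2 fun h5 => absurd (Nat.le_of_dvd h.pos h5) (not_le.2 hqM)) g
    ⟨P, hP, rfl, by rw [h1]; exact hg⟩
  rw [h1] at h4
  exact h4

theorem HasFrob.trace_cj (h : HasFrob ρ t M) (τ : ((AlgebraicClosure ℚ) ≃ₐ[ℚ] (AlgebraicClosure ℚ))) (g : F.fixingSubgroup) : (ρ (cjF τ g)).trace = (ρ g).trace := by
  have hc : Continuous fun A : Matrix (Fin 2) (Fin 2) K => A.trace := Continuous.matrix_trace continuous_id
  have key := eq_of_frob (F := F) (fun g => (ρ (cjF τ g)).trace) (fun g => (ρ g).trace)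
    (hc.comp (h.cont.comp (continuous_cjF τ))) (hc.comp h.cont) M (by
      intro q P σ j hq hqM hP hqP hσ
      show (ρ (cjF τ (σ ^ j))).trace = (ρ (σ ^ j)).trace
      rw [cjF_pow, map_pow, map_pow]
      have h1 := h.charpoly hq hqM hP hqP σ hσ
      have h2 := h.charpoly hq hqM (P := P.comap (Tw.ooMap τ)) (Ideal.comap_isPrime _ _)
        (by rw [Ideal.mem_comap, map_natCast]; exact hqP) (cjF τ σ) (by
          intro x
          rw [Ideal.mem_comap, map_sub, map_pow, Tw.ooMap_apply, Tw.ooMap_apply]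
          have h3 : τ • ((cjF τ σ : F.fixingSubgroup) : ((AlgebraicClosure ℚ) ≃ₐ[ℚ] (AlgebraicClosure ℚ))) • x = (σ : ((AlgebraicClosure ℚ) ≃ₐ[ℚ] (AlgebraicClosure ℚ))) • τ • x := by
            rw [smul_smul, smul_smul]
            congr 1
            simp only [cjF]
            group
          rw [h3]
          exact hσ (τ • x))
      exact trace_pow_eq h2 h1 j)
  exact congrFun key g

omit [NumberField F] in
theorem cjF_iter (τ : ((AlgebraicClosure ℚ) ≃ₐ[ℚ] (AlgebraicClosure ℚ))) (m : ℕ) (g : F.fixingSubgroup) :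
    (((cjF τ)^[m] g : F.fixingSubgroup) : ((AlgebraicClosure ℚ) ≃ₐ[ℚ] (AlgebraicClosure ℚ))) =
      (τ ^ m)⁻¹ * g * τ ^ m := by
  induction m with
  | zero => simp
  | succ m ih =>
    rw [Function.iterate_succ_apply']
    show τ⁻¹ * (((cjF τ)^[m] g : F.fixingSubgroup) : ((AlgebraicClosure ℚ) ≃ₐ[ℚ] (AlgebraicClosure ℚ))) * τ = _
    rw [ih, pow_succ, _root_.mul_inv_rev]
    simp only [mul_assoc]

/-- the intertwining matrix -/
theorem HasFrob.exists_tw (h : HasFrob ρ t M) (τ : ((AlgebraicClosure ℚ) ≃ₐ[ℚ] (AlgebraicClosure ℚ))) (n : ℕ)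
    (hτ : τ ^ n ∈ F.fixingSubgroup) :
    ∃ (T : Matrix (Fin 2) (Fin 2) K) (c : K), Tw ρ τ T c n ∧ T.det ≠ 0 := by
  let r1 : F.fixingSubgroup →* Matrix (Fin 2) (Fin 2) K :=
    { toFun := fun g => ρ (cjF τ g)
      map_one' := by
        have : cjF (F := F) τ 1 = 1 := by
          apply Subtype.ext
          simp [cjF]
        rw [this, map_one]
      map_mul' := fun a b => by rw [cjF_mul, map_mul] }
  have hr1 : Submodule.span K (Set.range r1) = ⊤ := by
    rw [← h.irr]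
    congr 1
    ext A
    constructor
    · rintro ⟨g, rfl⟩
      exact ⟨cjF τ g, rfl⟩
    · rintro ⟨g, rfl⟩
      refine ⟨cjF τ⁻¹ g, ?_⟩
      show ρ (cjF τ (cjF τ⁻¹ g)) = ρ g
      congr 1
      apply Subtype.ext
      simp only [cjF]
      group
  obtain ⟨T, T', h1, h2, h3⟩ := exists_inter r1 ρ hr1 h.irr (fun g => h.trace_cj τ g)
  have hint : ∀ g : F.fixingSubgroup, T * ρ (cjF τ g) = ρ g * T := h3
  have hintn : ∀ (m : ℕ) (g : F.fixingSubgroup), T ^ m * ρ ((cjF τ)^[m] g) = ρ g * T ^ m := by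
    intro m
    induction m with
    | zero =>
      intro g
      rw [pow_zero, one_mul, mul_one]
      rfl
    | succ m ih =>
      intro g
      rw [Function.iterate_succ_apply, pow_succ', mul_assoc, ih, ← mul_assoc, hint, mul_assoc]
  set s : F.fixingSubgroup := ⟨τ ^ n, hτ⟩ with hs
  have hss : ρ s * ρ s⁻¹ = 1 := by rw [← map_mul, mul_inv_cancel, map_one]
  have hss' : ρ s⁻¹ * ρ s = 1 := by rw [← map_mul, inv_mul_cancel, map_one]
  have hcomm : ∀ A ∈ Set.range ρ, (T ^ n * ρ s⁻¹) * A = A * (T ^ n * ρ s⁻¹) := by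
    rintro _ ⟨g, rfl⟩
    have h5 := hintn n g
    have h6 : (cjF τ)^[n] g = s⁻¹ * g * s := by
      apply Subtype.ext
      rw [cjF_iter]
      rfl
    rw [h6, map_mul, map_mul] at h5
    have h7 : ρ s⁻¹ * ρ g = ρ s⁻¹ * ρ g * ρ s * ρ s⁻¹ := by rw [mul_assoc (ρ s⁻¹ * ρ g), hss, mul_one]
    calc T ^ n * ρ s⁻¹ * ρ g = T ^ n * (ρ s⁻¹ * ρ g) := mul_assoc _ _ _
      _ = T ^ n * (ρ s⁻¹ * ρ g * ρ s * ρ s⁻¹) := by rw [← h7]
      _ = T ^ n * (ρ s⁻¹ * ρ g * ρ s) * ρ s⁻¹ := (mul_assoc _ _ _).symm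
      _ = ρ g * (T ^ n * ρ s⁻¹) := by rw [h5, mul_assoc]
  obtain ⟨c, hc⟩ := scalar_of_comm h.irr _ hcomm
  refine ⟨T, c, ⟨fun g hg => conj_mem τ g hg, hτ, hint, ?_⟩, ?_⟩
  · have h7 : T ^ n = T ^ n * ρ s⁻¹ * ρ s := by rw [mul_assoc (T ^ n), hss', mul_one]
    rw [h7, hc, smul_mul_assoc, one_mul]
  · intro h0
    have h8 := congrArg Matrix.det h1
    rw [Matrix.det_mul, h0, zero_mul, Matrix.det_one] at h8
    exact zero_ne_one h8

end Pool.Agent.H44.PC
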