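import Pool.Agent.H44.PC.Period

/-!
# The ring of integers of a non-archimedean field, its isometric automorphisms, and `B_cris`

The definitions are for a general non-archimedean field `L`, the application is to `L = ℂ_p`.
-/

set_option autoImplicit false

open Ideal

namespace Pool.Agent.H44.PC

noncomputable section

variable (L : Type) [NormedField L] [IsUltrametricDist L]

omit [IsUltrametricDist L] in
theorem OO_mul {a b : L} (ha : ‖a‖ ≤ 1) (hb : ‖b‖ ≤ 1) : ‖a * b‖ ≤ 1 := by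
  rw [norm_mul]
  exact mul_le_one₀ ha (norm_nonneg _) hb

theorem OO_add {a b : L} (ha : ‖a‖ ≤ 1) (hb : ‖b‖ ≤ 1) : ‖a + b‖ ≤ 1 :=
  (IsUltrametricDist.norm_add_le_max a b).trans (max_le ha hb)

omit [IsUltrametricDist L] in
theorem OO_neg {a : L} (ha : ‖a‖ ≤ 1) : ‖-a‖ ≤ 1 := by simpa using ha

omit [IsUltrametricDist L] in
theorem OO_one : ‖(1 : L)‖ ≤ 1 := by simp

omit [IsUltrametricDist L] in
theorem OO_zero : ‖(0 : L)‖ ≤ 1 := by simp

/-- the ring of integers of `L`: the elements of norm at most `1` -/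
def OO : Subring L where
  carrier := {x | ‖x‖ ≤ 1}
  mul_mem' := OO_mul L
  one_mem' := OO_one L
  add_mem' := OO_add L
  zero_mem' := OO_zero L
  neg_mem' := OO_neg L

/-- the isometric automorphisms of the field `L` -/
structure IsoAut (L : Type) [NormedField L] where
  toEquiv : L ≃+* L
  norm_eq : ∀ x, ‖toEquiv x‖ = ‖x‖

variable {L}

theorem IsoAut.mem_iff (s : IsoAut L) (x : L) : x ∈ OO L ↔ s.toEquiv x ∈ OO L := by
  show ‖x‖ ≤ 1 ↔ ‖s.toEquiv x‖ ≤ 1
  rw [s.norm_eq]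

/-- the action of an isometric automorphism of `L` on the ring of integers -/
def IsoAut.int (s : IsoAut L) : OO L ≃+* OO L := RingEquiv.restrict s.toEquiv (OO L) (OO L) s.mem_iff

/-! ### the case of `ℂ_p` -/

variable (p : ℕ) [Fact p.Prime]

theorem norm_p : ‖(p : ℂ_[p])‖ = (p : ℝ)⁻¹ := by
  have h := PadicComplex.norm_extends' p (p : ℚ_[p])
  rw [Padic.norm_p] at h
  rw [← h]
  congr 1
  exact (map_natCast (algebraMap ℚ_[p] ℂ_[p]) p).symm

theorem p_pos : (0 : ℝ) < p := Nat.cast_pos.2 (Fact.out : p.Prime).pos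

theorem p_ne : (p : ℂ_[p]) ≠ 0 := by
  rw [← norm_pos_iff, norm_p]
  exact inv_pos.2 (p_pos p)

theorem mem_span_pow (n : ℕ) (x : OO ℂ_[p]) :
    x ∈ span {(p : OO ℂ_[p])} ^ n ↔ ‖(x : ℂ_[p])‖ ≤ ((p : ℝ)⁻¹) ^ n := by
  rw [Ideal.span_singleton_pow, Ideal.mem_span_singleton]
  constructor
  · rintro ⟨y, rfl⟩
    push_cast
    rw [norm_mul, norm_pow, norm_p]
    exact mul_le_of_le_one_right (pow_nonneg (inv_nonneg.2 (p_pos p).le) n) y.2
  · intro h
    have h0 : (p : ℂ_[p]) ^ n ≠ 0 := pow_ne_zero _ (p_ne p)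
    refine ⟨⟨(x : ℂ_[p]) / (p : ℂ_[p]) ^ n, ?_⟩, ?_⟩
    · show ‖(x : ℂ_[p]) / (p : ℂ_[p]) ^ n‖ ≤ 1
      rw [norm_div, norm_pow, norm_p]
      exact div_le_one_of_le₀ h (pow_nonneg (inv_nonneg.2 (p_pos p).le) n)
    · apply Subtype.ext
      push_cast
      rw [mul_div_cancel₀ _ h0]

theorem OO_not_isUnit : ¬ IsUnit (p : OO ℂ_[p]) := by
  intro h
  obtain ⟨y, hy⟩ := h.exists_right_inv
  have h1 := congrArg (fun z : OO ℂ_[p] => ‖(z : ℂ_[p])‖) hy
  simp only [Subring.coe_mul, Subring.coe_one, norm_mul, norm_one] at h1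
  have h2 : ‖((p : OO ℂ_[p]) : ℂ_[p])‖ = (p : ℝ)⁻¹ := by
    push_cast
    exact norm_p p
  rw [h2] at h1
  have h3 : (p : ℝ)⁻¹ * ‖(y : ℂ_[p])‖ ≤ (p : ℝ)⁻¹ := mul_le_of_le_one_right (inv_nonneg.2 (p_pos p).le) y.2
  have h4 : (p : ℝ)⁻¹ < 1 := inv_lt_one_of_one_lt₀ (Nat.one_lt_cast.2 (Fact.out : p.Prime).one_lt)
  linarith

instance OO_fact : Fact (¬ IsUnit (p : OO ℂ_[p])) := ⟨OO_not_isUnit p⟩

theorem tendsto_pinv : Filter.Tendsto (fun n : ℕ => ((p : ℝ)⁻¹) ^ n) Filter.atTop (nhds 0) :=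
  tendsto_pow_atTop_nhds_zero_of_lt_one (inv_nonneg.2 (p_pos p).le)
    (inv_lt_one_of_one_lt₀ (Nat.one_lt_cast.2 (Fact.out : p.Prime).one_lt))

theorem OO_haus : IsHausdorff (span {(p : OO ℂ_[p])}) (OO ℂ_[p]) where
  haus' x hx := by
    have h : ∀ n : ℕ, ‖(x : ℂ_[p])‖ ≤ ((p : ℝ)⁻¹) ^ n := by
      intro n
      have h1 := hx n
      rw [SModEq.zero, smul_eq_mul, Ideal.mul_top] at h1
      exact (mem_span_pow p n x).1 h1
    have h2 : ‖(x : ℂ_[p])‖ ≤ 0 := ge_of_tendsto' (tendsto_pinv p) h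
    exact Subtype.ext (norm_le_zero_iff.1 h2)

theorem OO_prec : IsPrecomplete (span {(p : OO ℂ_[p])}) (OO ℂ_[p]) where
  prec' f hf := by
    have h : ∀ m n : ℕ, m ≤ n → ‖(f m : ℂ_[p]) - f n‖ ≤ ((p : ℝ)⁻¹) ^ m := by
      intro m n hmn
      have h1 := hf hmn
      rw [smul_eq_mul, Ideal.mul_top, SModEq.sub_mem, mem_span_pow] at h1
      simpa using h1
    have hc : CauchySeq (fun n => (f n : ℂ_[p])) := by
      refine cauchySeq_of_le_tendsto_0 (fun n : ℕ => 2 * ((p : ℝ)⁻¹) ^ n) ?_ ?_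
      · intro n m N hn hm
        rw [dist_eq_norm]
        have h1 := h N n hn
        have h2 := h N m hm
        have h3 : (f n : ℂ_[p]) - f m = -((f N : ℂ_[p]) - f n) + ((f N : ℂ_[p]) - f m) := by ring
        rw [h3]
        refine (norm_add_le _ _).trans ?_
        rw [norm_neg]
        linarith
      · have := (tendsto_pinv p).const_mul 2
        simpa using this
    obtain ⟨x, hx⟩ := cauchySeq_tendsto_of_complete hc
    have hx1 : ‖x‖ ≤ 1 := le_of_tendsto hx.norm (Filter.Eventually.of_forall fun n => (f n).2)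
    refine ⟨⟨x, hx1⟩, fun n => ?_⟩
    rw [smul_eq_mul, Ideal.mul_top, SModEq.sub_mem, mem_span_pow]
    have h4 : Filter.Tendsto (fun m => ‖(f n : ℂ_[p]) - f m‖) Filter.atTop (nhds ‖(f n : ℂ_[p]) - x‖) :=
      (tendsto_const_nhds.sub hx).norm
    have h5 := le_of_tendsto h4 (Filter.eventually_atTop.2 ⟨n, fun m hm => h n m hm⟩)
    simpa using h5

instance OO_complete : IsAdicComplete (span {(p : OO ℂ_[p])}) (OO ℂ_[p]) :=
  { OO_haus p, OO_prec p with }

/-- the ring `B_cris` (over the ring of integers of `ℂ_p`), as a vector space over `ℚ_p` -/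
def BC : Type := Bcris (OO ℂ_[p]) p

instance BC.add : AddCommGroup (BC p) := (inferInstance : AddCommGroup (Bcris (OO ℂ_[p]) p))

instance BC.module : Module ℚ_[p] (BC p) := (inferInstance : Module ℚ_[p] (Bcris (OO ℂ_[p]) p))

/-- the unit element of `B_cris` -/
def BC.one : BC p := (1 : Bcris (OO ℂ_[p]) p)

/-- the action of the isometric automorphism `s` of `ℂ_p` on `B_cris` -/
def BC.act (s : IsoAut ℂ_[p]) : BC p →ₗ[ℚ_[p]] BC p := Bcris.lin p s.int

end

end Pool.Agent.H44.PC
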