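import Pool.Agent.H44.PC.Split2
import Mathlib.NumberTheory.Cyclotomic.CyclotomicCharacter
import Mathlib.RingTheory.RootsOfUnity.AlgebraicallyClosed

/-!
# The `p`-adic cyclotomic character and the determinant of a representation with Frobenius charpolys
-/

set_option autoImplicit false
set_option linter.style.haveILetI false
set_option linter.unusedSectionVars false

open NumberField Matrix Polynomial
open scoped Pointwise

namespace Pool.Agent.H44.PC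

/-- the `p`-adic cyclotomic character of `Gal(ℚ̄/ℚ)` -/
noncomputable def cycChar (p : ℕ) [Fact p.Prime] : ((AlgebraicClosure ℚ) ≃ₐ[ℚ] (AlgebraicClosure ℚ)) →* ℤ_[p]ˣ :=
  (cyclotomicCharacter (AlgebraicClosure ℚ) p).comp (MulSemiringAction.toRingAut ((AlgebraicClosure ℚ) ≃ₐ[ℚ] (AlgebraicClosure ℚ)) (AlgebraicClosure ℚ))

theorem continuous_cycChar (p : ℕ) [Fact p.Prime] : Continuous (cycChar p) :=
  cyclotomicCharacter.continuous p ℚ (AlgebraicClosure ℚ)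

theorem hasRoots (p : ℕ) [Fact p.Prime] (i : ℕ) : HasEnoughRootsOfUnity (AlgebraicClosure ℚ) (p ^ i) := by
  haveI : NeZero (p ^ i) := ⟨pow_ne_zero _ (Fact.out : p.Prime).ne_zero⟩
  haveI : NeZero ((p ^ i : ℕ) : (AlgebraicClosure ℚ)) := ⟨Nat.cast_ne_zero.2 (NeZero.ne _)⟩
  infer_instance

/-- `cycChar p τ` modulo `p ^ n` is the exponent by which `τ` acts on the `p ^ n`-th roots of unity -/
theorem cycChar_spec (p : ℕ) [Fact p.Prime] (τ : ((AlgebraicClosure ℚ) ≃ₐ[ℚ] (AlgebraicClosure ℚ))) (n : ℕ) (t : (AlgebraicClosure ℚ)) (ht : t ^ p ^ n = 1) :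
    τ t = t ^ (((cycChar p τ : ℤ_[p]ˣ) : ℤ_[p]).toZModPow n).val := by
  haveI := hasRoots p
  exact cyclotomicCharacter.spec (L := (AlgebraicClosure ℚ)) p (MulSemiringAction.toRingAut ((AlgebraicClosure ℚ) ≃ₐ[ℚ] (AlgebraicClosure ℚ)) (AlgebraicClosure ℚ) τ) t ht

/-- the value of the cyclotomic character at a Frobenius element at `l ≠ p` is `l` -/
theorem cycChar_frob (p : ℕ) [Fact p.Prime] {l : ℕ} (hl : l.Prime) (hlp : l ≠ p) (P : Ideal (𝓞 (AlgebraicClosure ℚ)))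
    (hP : P.IsPrime) (hlP : (l : 𝓞 (AlgebraicClosure ℚ)) ∈ P) (τ : ((AlgebraicClosure ℚ) ≃ₐ[ℚ] (AlgebraicClosure ℚ))) (hτ : ∀ x : 𝓞 (AlgebraicClosure ℚ), τ • x - x ^ l ∈ P) :
    ((cycChar p τ : ℤ_[p]ˣ) : ℤ_[p]) = (l : ℤ_[p]) := by
  refine PadicInt.ext_of_toZModPow.1 fun n => ?_
  rw [map_natCast]
  haveI := hasRoots p
  haveI : NeZero (p ^ n) := ⟨pow_ne_zero _ (Fact.out : p.Prime).ne_zero⟩
  obtain ⟨ζ, hζ⟩ := HasEnoughRootsOfUnity.exists_primitiveRoot (AlgebraicClosure ℚ) (p ^ n)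
  have hN : ¬ l ∣ p ^ n := by
    intro h
    exact hlp ((Nat.prime_dvd_prime_iff_eq hl Fact.out).1 (hl.dvd_of_dvd_pow h))
  have h1 := cyc_frob hζ hl hN P hlP τ hτ
  have h2 := cycChar_spec p τ n ζ hζ.pow_eq_one
  rw [cyc_eq_iff hζ, h1, ZMod.natCast_zmod_val] at h2
  exact h2.symm

/-- the cyclotomic character -/
theorem exists_cyclo (p : ℕ) [Fact p.Prime] : ∃ χ : ((AlgebraicClosure ℚ) ≃ₐ[ℚ] (AlgebraicClosure ℚ)) →* ℤ_[p]ˣ, Continuous χ ∧
    ∀ l : ℕ, l.Prime → l ≠ p → ∀ P : Ideal (𝓞 (AlgebraicClosure ℚ)), P.IsPrime → (l : 𝓞 (AlgebraicClosure ℚ)) ∈ P →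
      ∀ τ : ((AlgebraicClosure ℚ) ≃ₐ[ℚ] (AlgebraicClosure ℚ)), (∀ x : 𝓞 (AlgebraicClosure ℚ), τ • x - x ^ l ∈ P) → ((χ τ : ℤ_[p]ˣ) : ℤ_[p]) = (l : ℤ_[p]) :=
  ⟨cycChar p, continuous_cycChar p, fun _ hl hlp P hP hlP τ hτ => cycChar_frob p hl hlp P hP hlP τ hτ⟩

variable {p : ℕ} [Fact p.Prime] {K : Type} [NontriviallyNormedField K] [NormedAlgebra ℚ_[p] K]
  {F : IntermediateField ℚ (AlgebraicClosure ℚ)} [NumberField F] [IsGalois ℚ F]
  {ρ : F.fixingSubgroup →* Matrix (Fin 2) (Fin 2) K} {t : ℕ → K} {M : ℕ}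

/-- the determinant of a representation with `charpoly (ρ (Frob v)) = X² - t(N v) X + N v` is the
cyclotomic character -/
theorem HasFrob.det_cycChar (h : HasFrob ρ t M) (hpM : p ∣ M) (g : F.fixingSubgroup) :
    (ρ g).det = algebraMap ℚ_[p] K (((cycChar p (g : ((AlgebraicClosure ℚ) ≃ₐ[ℚ] (AlgebraicClosure ℚ))) : ℤ_[p]ˣ) : ℤ_[p]) : ℚ_[p]) := by
  have hdet : Continuous fun A : Matrix (Fin 2) (Fin 2) K => A.det := Continuous.matrix_det continuous_id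
  have hch : Continuous fun g : F.fixingSubgroup =>
      algebraMap ℚ_[p] K (((cycChar p (g : ((AlgebraicClosure ℚ) ≃ₐ[ℚ] (AlgebraicClosure ℚ))) : ℤ_[p]ˣ) : ℤ_[p]) : ℚ_[p]) := by
    have h0 : Continuous fun g : F.fixingSubgroup => ((cycChar p (g : ((AlgebraicClosure ℚ) ≃ₐ[ℚ] (AlgebraicClosure ℚ))) : ℤ_[p]ˣ) : ℤ_[p]) :=
      Units.continuous_val.comp ((continuous_cycChar p).comp continuous_subtype_val)
    exact (continuous_algebraMap ℚ_[p] K).comp (continuous_subtype_val.comp h0)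
  have key := eq_of_frob (F := F) (fun g => (ρ g).det)
    (fun g => algebraMap ℚ_[p] K (((cycChar p (g : ((AlgebraicClosure ℚ) ≃ₐ[ℚ] (AlgebraicClosure ℚ))) : ℤ_[p]ˣ) : ℤ_[p]) : ℚ_[p]))
    (hdet.comp h.cont) hch M (by
      intro q P σ j hq hqM hP hqP hσ
      have hqp : q ≠ p := by
        rintro rfl
        exact absurd (Nat.le_of_dvd h.pos hpM) (not_le.2 hqM)
      have h1 := h.charpoly hq hqM hP hqP σ hσ
      have h2 := cycChar_frob p hq hqp P hP hqP (σ : ((AlgebraicClosure ℚ) ≃ₐ[ℚ] (AlgebraicClosure ℚ))) hσ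
      show (ρ (σ ^ j)).det = algebraMap ℚ_[p] K (((cycChar p ((σ ^ j : F.fixingSubgroup) : ((AlgebraicClosure ℚ) ≃ₐ[ℚ] (AlgebraicClosure ℚ))) : ℤ_[p]ˣ) : ℤ_[p]) : ℚ_[p])
      rw [map_pow, Matrix.det_pow, det_of_charpoly h1, Subgroup.coe_pow, map_pow, Units.val_pow_eq_pow_val,
        h2]
      push_cast
      rfl)
  exact congrFun key g

section general

/-- a ring endomorphism which is congruent to `x ↦ x ^ q` modulo `Q` is `ζ ↦ ζ ^ q` on the roots of unity of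
order prime to `Q` -/
theorem root_frob {S : Type*} [CommRing S] [IsDomain S] (φ : S →+* S) (Q : Ideal S) (q : ℕ)
    (H : ∀ x, φ x - x ^ q ∈ Q) {ζ : S} {m : ℕ} (hζ : ζ ^ m = 1) (hk' : (m : S) ∉ Q) : φ ζ = ζ ^ q := by
  have hm : m ≠ 0 := by rintro rfl; exact hk' (by simp)
  obtain ⟨k, hk, hζ⟩ := IsPrimitiveRoot.exists_pos hζ hm
  have hk' : (k : S) ∉ Q := fun h ↦ hk' (Q.mem_of_dvd (Nat.cast_dvd_cast (hζ.2 m ‹_›)) h)
  have : NeZero k := ⟨hk.ne'⟩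
  obtain ⟨i, hi, e⟩ := hζ.eq_pow_of_pow_eq_one (ξ := φ ζ) (by rw [← map_pow, hζ.1, map_one])
  have (j : ℕ) : 1 - ζ ^ ((q + k - i) * j) ∈ Q := by
    rw [← Ideal.mul_unit_mem_iff_mem _ ((hζ.isUnit NeZero.out).pow (i * j)),
      sub_mul, one_mul, ← pow_add, ← add_mul, tsub_add_cancel_of_le (by linarith), add_mul,
        pow_add, pow_mul _ k, hζ.1, one_pow, mul_one, pow_mul, e, ← map_pow, mul_comm, pow_mul]
    exact H _
  have h₁ := sum_mem (t := Finset.range k) fun j _ ↦ this j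
  have h₂ := geom_sum_mul (ζ ^ (q + k - i)) k
  rw [pow_right_comm, hζ.1, one_pow, sub_self, mul_eq_zero, sub_eq_zero] at h₂
  rcases h₂ with h₂ | h₂
  · simp [h₂, pow_mul, hk'] at h₁
  replace h₂ := congr($h₂ * ζ ^ i)
  rw [one_mul, ← pow_add, tsub_add_cancel_of_le (by linarith), pow_add, hζ.1, mul_one] at h₂
  rw [h₂, e]

/-- the value of the cyclotomic character at an element congruent to `x ↦ x ^ q` modulo a prime above `q` -/
theorem cycChar_frob' (p : ℕ) [Fact p.Prime] {q : ℕ} (hqp : q.Coprime p) (P : Ideal (𝓞 (AlgebraicClosure ℚ)))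
    (hP : P.IsPrime) (hqP : (q : 𝓞 (AlgebraicClosure ℚ)) ∈ P) (τ : ((AlgebraicClosure ℚ) ≃ₐ[ℚ] (AlgebraicClosure ℚ))) (hτ : ∀ x : 𝓞 (AlgebraicClosure ℚ), τ • x - x ^ q ∈ P) :
    ((cycChar p τ : ℤ_[p]ˣ) : ℤ_[p]) = (q : ℤ_[p]) := by
  refine PadicInt.ext_of_toZModPow.1 fun n => ?_
  rw [map_natCast]
  haveI := hasRoots p
  haveI : NeZero (p ^ n) := ⟨pow_ne_zero _ (Fact.out : p.Prime).ne_zero⟩
  obtain ⟨ζ, hζ⟩ := HasEnoughRootsOfUnity.exists_primitiveRoot (AlgebraicClosure ℚ) (p ^ n)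
  have h2 := cycChar_spec p τ n ζ hζ.pow_eq_one
  have hzi : IsIntegral ℤ ζ := hζ.isIntegral (NeZero.pos _)
  let z : 𝓞 (AlgebraicClosure ℚ) := ⟨ζ, hzi⟩
  have hz : z ^ (p ^ n) = 1 := by
    apply RingOfIntegers.coe_injective
    show ζ ^ (p ^ n) = 1
    exact hζ.pow_eq_one
  have hNP : ((p ^ n : ℕ) : 𝓞 (AlgebraicClosure ℚ)) ∉ P := by
    intro h
    have hc : IsCoprime (q : ℤ) ((p ^ n : ℕ) : ℤ) := Nat.isCoprime_iff_coprime.2 (hqp.pow_right n)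
    obtain ⟨a, b, hab⟩ := hc
    apply hP.ne_top
    rw [Ideal.eq_top_iff_one]
    have h2 : (1 : 𝓞 (AlgebraicClosure ℚ)) = (a : 𝓞 (AlgebraicClosure ℚ)) * (q : 𝓞 (AlgebraicClosure ℚ)) + (b : 𝓞 (AlgebraicClosure ℚ)) * ((p ^ n : ℕ) : 𝓞 (AlgebraicClosure ℚ)) := by
      have := congrArg (fun n : ℤ => (n : 𝓞 (AlgebraicClosure ℚ))) hab
      push_cast at this ⊢
      exact this.symm
    rw [h2]
    exact P.add_mem (P.mul_mem_left _ hqP) (P.mul_mem_left _ h)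
  have h3 := root_frob (MulSemiringAction.toRingHom ((AlgebraicClosure ℚ) ≃ₐ[ℚ] (AlgebraicClosure ℚ)) (𝓞 (AlgebraicClosure ℚ)) τ) P q hτ hz hNP
  have h4 : τ ζ = ζ ^ q := congrArg (fun y : 𝓞 (AlgebraicClosure ℚ) => (y : (AlgebraicClosure ℚ))) h3
  have h5 := (cyc_eq_iff hζ τ q).1 h4
  rw [cyc_eq_iff hζ, h5, ZMod.natCast_zmod_val] at h2
  exact h2.symm

/-- the value of the cyclotomic character at a Frobenius element at the prime `v` of `F` is the norm of `v` -/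
theorem cycChar_isFrob (p : ℕ) [Fact p.Prime] (v : Ideal (𝓞 F)) (hv : (Ideal.absNorm v).Coprime p) (g : F.fixingSubgroup)
    (hg : IsFrob v g) : ((cycChar p (g : ((AlgebraicClosure ℚ) ≃ₐ[ℚ] (AlgebraicClosure ℚ))) : ℤ_[p]ˣ) : ℤ_[p]) = (Ideal.absNorm v : ℤ_[p]) := by
  obtain ⟨P, hP, hPv, hg⟩ := hg
  refine cycChar_frob' p hv P hP ?_ _ hg
  have h1 : ((Ideal.absNorm v : ℕ) : 𝓞 F) ∈ v := Ideal.absNorm_mem v
  rw [← hPv, Ideal.mem_comap, map_natCast, hPv] at h1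
  exact h1

theorem charpoly_of {A : Matrix (Fin 2) (Fin 2) K} {t d : K} (ht : A.trace = t) (hd : A.det = d) :
    A.charpoly = X ^ 2 - C t * X + C d := by
  rw [Matrix.charpoly_fin_two, ht, hd]

/-- `HasFrob` says that `ρ` is continuous, absolutely irreducible, with cyclotomic determinant, and that the
trace at a Frobenius element at `v` is `t (N v)` -/
theorem hasFrob_iff (hpM : p ∣ M) : HasFrob ρ t M ↔ (Continuous ρ ∧ Submodule.span K (Set.range ρ) = ⊤ ∧ 0 < M ∧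
    (∀ g : F.fixingSubgroup, (ρ g).det = algebraMap ℚ_[p] K (((cycChar p (g : ((AlgebraicClosure ℚ) ≃ₐ[ℚ] (AlgebraicClosure ℚ))) : ℤ_[p]ˣ) : ℤ_[p]) : ℚ_[p])) ∧
    ∀ v : Ideal (𝓞 F), v.IsPrime → v ≠ ⊥ → (Ideal.absNorm v).Coprime M → ∀ g : F.fixingSubgroup, IsFrob v g →
      (ρ g).trace = t (Ideal.absNorm v)) := by
  constructor
  · intro h
    exact ⟨h.cont, h.irr, h.pos, fun g => h.det_cycChar hpM g, fun v hv h0 hM g hg =>
      trace_of_charpoly (h.frob v hv h0 hM g hg)⟩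
  · rintro ⟨h1, h2, h3, h4, h5⟩
    refine ⟨h1, h2, h3, fun v hv h0 hM g hg => charpoly_of (h5 v hv h0 hM g hg) ?_⟩
    rw [h4, cycChar_isFrob p v (Nat.Coprime.coprime_dvd_right hpM hM) g hg]
    rw [PadicInt.coe_natCast]
    exact map_natCast (algebraMap ℚ_[p] K) _

end general

end Pool.Agent.H44.PC
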