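import Pool.Agent.H44.PC.Eig

/-!
# The Euler product of `∑ χ(n) a(n) n^{-s}` for a normalised eigenform
-/

set_option autoImplicit false

open ComplexConjugate

namespace Pool.Agent.H44.PC

theorem psum_eq (α β : ℂ) (f : ℕ) : psum (α + β) (α * β) f = α ^ f + β ^ f := by
  induction f using Nat.strong_induction_on with
  | _ f ih =>
    match f with
    | 0 => norm_num [psum]
    | 1 => simp [psum]
    | (f + 2) =>
      rw [psum, ih (f + 1) (by omega), ih f (by omega)]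
      ring

section

variable {N k : ℕ} {ε : DirichletCharacter ℂ N} {a : ℕ → ℂ}

lemma conj_eps_mul {ℓ : ℕ} (hℓ : ℓ.Coprime N) : conj (ε ℓ) * ε ℓ = 1 := by
  have hu : IsUnit ((ℓ : ℕ) : ZMod N) := (ZMod.isUnit_iff_coprime ℓ N).mpr hℓ
  obtain ⟨u, hu⟩ := hu
  have h1 : ‖ε ℓ‖ = 1 := by
    rw [← hu]
    exact DirichletCharacter.unit_norm_eq_one ε u
  rw [← Complex.normSq_eq_conj_mul_self, Complex.normSq_eq_norm_sq, h1]
  norm_num

theorem conj_prime_pow (h : Eig N k ε a) {ℓ : ℕ} (hp : ℓ.Prime) (hℓ : ¬ ℓ ∣ N) (r : ℕ) :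
    conj (a (ℓ ^ r)) = conj (ε ℓ) ^ r * a (ℓ ^ r) := by
  have hc : ℓ.Coprime N := (Nat.Prime.coprime_iff_not_dvd hp).mpr hℓ
  have he := conj_eps_mul (ε := ε) hc
  induction r using Nat.strong_induction_on with
  | _ r ih =>
    match r with
    | 0 => simp [h.one]
    | 1 => simp [h.adj ℓ hp hℓ]
    | (r + 2) =>
      rw [h.hecke ℓ hp hℓ r, map_sub, map_mul, map_mul, map_mul, ih (r + 1) (by omega),
        ih r (by omega), h.adj ℓ hp hℓ, map_pow, Complex.conj_natCast]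
      have h2 : conj (ε ℓ) ^ (r + 2) * (a ℓ * a (ℓ ^ (r + 1)) - ε ℓ * (ℓ : ℂ) ^ (k - 1) * a (ℓ ^ r))
          = conj (ε ℓ) ^ (r + 2) * (a ℓ * a (ℓ ^ (r + 1)))
            - (conj (ε ℓ) * ε ℓ) * (conj (ε ℓ) ^ (r + 1) * ((ℓ : ℂ) ^ (k - 1) * a (ℓ ^ r))) := by
        ring
      rw [h2, he]
      ring

theorem conj_coeff (h : Eig N k ε a) (n : ℕ) (hn : n ≠ 0) (hc : n.Coprime N) :
    conj (a n) = conj (ε n) * a n := by
  revert hn hc
  induction n using Nat.recOnPosPrimePosCoprime with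
  | zero => intro h0; exact absurd rfl h0
  | one => intro _ _; simp [h.one]
  | prime_pow p n hp hn =>
    intro _ hc
    have hc' : p.Coprime N := (Nat.coprime_pow_left_iff hn p N).mp hc
    rw [conj_prime_pow h hp ((Nat.Prime.coprime_iff_not_dvd hp).mp hc') n]
    simp
  | coprime m n hm hn hmn ihm ihn =>
    intro _ hc
    have hc1 : m.Coprime N := Nat.Coprime.coprime_mul_right hc
    have hc2 : n.Coprime N := Nat.Coprime.coprime_mul_left hc
    rw [h.mul m n hmn hc1 hc2, map_mul, ihm (by omega) hc1, ihn (by omega) hc2]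
    push_cast
    rw [map_mul, map_mul]
    ring

/-- the general term -/
noncomputable def term (χ : DirichletCharacter ℂ N) (a : ℕ → ℂ) (s : ℂ) (n : ℕ) : ℂ :=
  χ n * a n / (n : ℂ) ^ s

/-- the bracket (inverse of the Euler factor) -/
noncomputable def bracket (k : ℕ) (ε χ : DirichletCharacter ℂ N) (a : ℕ → ℂ) (s : ℂ) (ℓ : ℕ) : ℂ :=
  1 - χ ℓ * a ℓ * (ℓ : ℂ) ^ (-s) + χ ℓ ^ 2 * ε ℓ * (ℓ : ℂ) ^ (k - 1) * ((ℓ : ℂ) ^ (-s)) ^ 2

lemma term_pow (χ : DirichletCharacter ℂ N) (a : ℕ → ℂ) (s : ℂ) (ℓ e : ℕ) :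
    term χ a s (ℓ ^ e) = (χ ℓ * (ℓ : ℂ) ^ (-s)) ^ e * a (ℓ ^ e) := by
  unfold term
  have h1 : (((ℓ ^ e : ℕ) : ℂ)) ^ s = ((ℓ : ℂ) ^ s) ^ e := by
    push_cast
    rw [← Complex.natCast_cpow_natCast_mul, mul_comm, Complex.cpow_mul_nat]
  rw [h1, Complex.cpow_neg, mul_pow, inv_pow]
  have h2 : χ ((ℓ ^ e : ℕ) : ZMod N) = χ ℓ ^ e := by simp
  rw [h2]
  ring

/-- the local computation -/
theorem local_mul (h : Eig N k ε a) (χ : DirichletCharacter ℂ N) {s : ℂ}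
    (hs : Summable (fun n : ℕ => ‖term χ a s n‖)) {ℓ : ℕ} (hp : ℓ.Prime) :
    (∑' e : ℕ, term χ a s (ℓ ^ e)) * bracket k ε χ a s ℓ = 1 := by
  have hinj : Function.Injective fun e : ℕ => ℓ ^ e := Nat.pow_right_injective hp.two_le
  have hsum : Summable fun e : ℕ => term χ a s (ℓ ^ e) :=
    (hs.comp_injective hinj).of_norm
  by_cases hℓ : ℓ ∣ N
  · have hχ : χ ℓ = 0 := by
      apply MulChar.map_nonunit
      rw [ZMod.isUnit_iff_coprime]
      intro hc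
      exact (Nat.Prime.coprime_iff_not_dvd hp).mp hc hℓ
    have h1 : ∀ e : ℕ, e ≠ 0 → term χ a s (ℓ ^ e) = 0 := by
      intro e he
      rw [term_pow, hχ, zero_mul, zero_pow he, zero_mul]
    rw [tsum_eq_single 0 h1, term_pow]
    simp [bracket, hχ, h.one]
  · set x : ℂ := χ ℓ * (ℓ : ℂ) ^ (-s) with hx
    set b : ℂ := ε ℓ * (ℓ : ℂ) ^ (k - 1) with hb
    set G : ℕ → ℂ := fun e => term χ a s (ℓ ^ e) with hG
    have hG0 : G 0 = 1 := by simp [hG, term_pow, h.one]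
    have hG1 : G 1 = x * a ℓ := by simp [hG, term_pow, hx]
    have hrec : ∀ e, G (e + 2) = a ℓ * x * G (e + 1) - b * x ^ 2 * G e := by
      intro e
      simp only [hG, term_pow]
      rw [h.hecke ℓ hp hℓ e]
      ring
    have hS1 : Summable fun e => G (e + 1) := (summable_nat_add_iff 1).mpr hsum
    have h0 : ∑' e, G e = G 0 + ∑' e, G (e + 1) := hsum.tsum_eq_zero_add
    have h1 : ∑' e, G (e + 1) = G 1 + ∑' e, G (e + 2) := hS1.tsum_eq_zero_add
    have h2 : ∑' e, G (e + 2) = a ℓ * x * ∑' e, G (e + 1) - b * x ^ 2 * ∑' e, G e := by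
      rw [tsum_congr hrec, Summable.tsum_sub (hS1.mul_left _) (hsum.mul_left _), tsum_mul_left,
        tsum_mul_left]
    have hbr : bracket k ε χ a s ℓ = 1 - a ℓ * x + b * x ^ 2 := by
      simp only [bracket, hx, hb]
      ring
    rw [hbr]
    rw [h2, hG1] at h1
    rw [hG0] at h0
    linear_combination h0 + h1 - (a ℓ * x) * h0

theorem euler_ne' (h : Eig N k ε a) (χ : DirichletCharacter ℂ N) {s : ℂ}
    (hs : Summable (fun n : ℕ => ‖term χ a s n‖)) {ℓ : ℕ} (hp : ℓ.Prime) :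
    bracket k ε χ a s ℓ ≠ 0 := right_ne_zero_of_mul_eq_one (local_mul h χ hs hp)

theorem euler' (h : Eig N k ε a) (χ : DirichletCharacter ℂ N) {s : ℂ} (hs0 : s ≠ 0)
    (hs : Summable (fun n : ℕ => ‖term χ a s n‖)) :
    HasProd (fun ℓ : Nat.Primes => (bracket k ε χ a s ℓ)⁻¹) (∑' n : ℕ, term χ a s n) := by
  have h1 : term χ a s 1 = 1 := by simp [term, h.one]
  have h0 : term χ a s 0 = 0 := by simp [term, Complex.zero_cpow hs0]
  have hmul : ∀ {m n : ℕ}, m.Coprime n → term χ a s (m * n) = term χ a s m * term χ a s n := by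
    intro m n hmn
    have hcp : (((m * n : ℕ) : ℂ)) ^ s = (m : ℂ) ^ s * (n : ℂ) ^ s := by
      push_cast
      exact Complex.natCast_mul_natCast_cpow m n s
    have hχ : χ ((m * n : ℕ) : ZMod N) = χ m * χ n := by push_cast; rw [map_mul]
    unfold term
    rw [hcp, hχ]
    by_cases hm : m.Coprime N
    · by_cases hn : n.Coprime N
      · rw [h.mul m n hmn hm hn]
        rw [div_mul_div_comm]
        ring
      · have : χ (n : ZMod N) = 0 := by
          apply MulChar.map_nonunit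
          rwa [ZMod.isUnit_iff_coprime]
        rw [this]
        simp
    · have : χ (m : ZMod N) = 0 := by
        apply MulChar.map_nonunit
        rwa [ZMod.isUnit_iff_coprime]
      rw [this]
      simp
  have := EulerProduct.eulerProduct_hasProd h1 hmul hs h0
  convert this using 2 with ℓ
  exact inv_eq_of_mul_eq_one_left (local_mul h χ hs ℓ.2)

/-- **Euler product** of `∑ χ(n) a(n) n^{-s}`. -/
theorem euler (h : Eig N k ε a) (χ : DirichletCharacter ℂ N) {s : ℂ} (hs0 : s ≠ 0)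
    (hs : Summable (fun n : ℕ => ‖χ n * a n / (n : ℂ) ^ s‖)) :
    HasProd (fun ℓ : Nat.Primes => (1 - χ ℓ * a ℓ * (ℓ : ℂ) ^ (-s)
      + χ ℓ ^ 2 * ε ℓ * (ℓ : ℂ) ^ (k - 1) * ((ℓ : ℂ) ^ (-s)) ^ 2)⁻¹)
      (∑' n : ℕ, χ n * a n / (n : ℂ) ^ s) :=
  euler' h χ hs0 hs

/-- the Euler factors do not vanish -/
theorem euler_ne (h : Eig N k ε a) (χ : DirichletCharacter ℂ N) {s : ℂ}
    (hs : Summable (fun n : ℕ => ‖χ n * a n / (n : ℂ) ^ s‖)) {ℓ : ℕ} (hp : ℓ.Prime) :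
    1 - χ ℓ * a ℓ * (ℓ : ℂ) ^ (-s)
      + χ ℓ ^ 2 * ε ℓ * (ℓ : ℂ) ^ (k - 1) * ((ℓ : ℂ) ^ (-s)) ^ 2 ≠ 0 :=
  euler_ne' h χ hs hp

end

end Pool.Agent.H44.PC
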