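import Pool.Agent.H44.PC.Cyclo

/-!
# Representations which extend to `G_ℚ` over a larger field
-/

set_option autoImplicit false
set_option linter.style.haveILetI false
set_option linter.unusedSectionVars false

open NumberField Matrix Polynomial
open scoped Pointwise

namespace Pool.Agent.H44.PC

section span

variable {L : Type*} [Field L] {n : Type*} [Fintype n] [DecidableEq n] {G : Type*} [Group G]

theorem span_of_surj (r : G →* Matrix n n L) (h : Function.Surjective (ext r)) :
    Submodule.span L (Set.range r) = ⊤ := by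
  rw [eq_top_iff]
  intro M _
  obtain ⟨x, rfl⟩ := h M
  induction x using MonoidAlgebra.induction_linear with
  | zero =>
    rw [map_zero]
    exact zero_mem _
  | add f g hf hg =>
    rw [map_add]
    exact add_mem (hf trivial) (hg trivial)
  | single g a =>
    rw [ext_single]
    exact Submodule.smul_mem _ _ (Submodule.subset_span ⟨g, rfl⟩)

/-- a representation with the same trace as an absolutely irreducible one of the same dimension is absolutely
irreducible -/
theorem span_of_trace (r1 r2 : G →* Matrix n n L) (h1 : Submodule.span L (Set.range r1) = ⊤)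
    (htr : ∀ g, trace (r1 g) = trace (r2 g)) : Submodule.span L (Set.range r2) = ⊤ := by
  let f1 : MonoidAlgebra L G →ₗ[L] Matrix n n L := (ext r1).toLinearMap
  let f2 : MonoidAlgebra L G →ₗ[L] Matrix n n L := (ext r2).toLinearMap
  have hker : LinearMap.ker f2 ≤ LinearMap.ker f1 := by
    intro x hx
    rw [LinearMap.mem_ker] at hx ⊢
    exact ext_zero_iff r1 r2 h1 htr x hx
  have hr : LinearMap.range f2 = ⊤ := by
    let e := f2.quotKerEquivRange
    let g : (MonoidAlgebra L G ⧸ LinearMap.ker f2) →ₗ[L] Matrix n n L := (LinearMap.ker f2).liftQ f1 hker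
    have hg : Function.Surjective g := by
      intro M
      obtain ⟨x, hx⟩ := ext_surj r1 h1 M
      exact ⟨Submodule.Quotient.mk x, hx⟩
    have hg2 : Function.Surjective (g ∘ₗ e.symm.toLinearMap) := hg.comp e.symm.surjective
    have h3 := LinearMap.finrank_range_of_inj (f := (LinearMap.range f2).subtype) Subtype.val_injective
    apply Submodule.eq_top_of_finrank_eq
    refine le_antisymm (Submodule.finrank_le _) ?_
    have h4 := LinearMap.finrank_range_le (g ∘ₗ e.symm.toLinearMap)
    rw [LinearMap.range_eq_top.2 hg2, finrank_top] at h4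
    exact h4
  exact span_of_surj r2 (LinearMap.range_eq_top.1 hr)

end span

variable {p : ℕ} [Fact p.Prime] {K : Type} [NontriviallyNormedField K] [NormedAlgebra ℚ_[p] K]
  {F : IntermediateField ℚ (AlgebraicClosure ℚ)} [NumberField F] [IsGalois ℚ F]
  {ρ : F.fixingSubgroup →* Matrix (Fin 2) (Fin 2) K} {t : ℕ → K} {M : ℕ}
  {L : Type} [NontriviallyNormedField L] [NormedAlgebra K L]

/-- extension of scalars -/
noncomputable def extL (L : Type) [Field L] [Algebra K L] (ρ : F.fixingSubgroup →* Matrix (Fin 2) (Fin 2) K) :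
    F.fixingSubgroup →* Matrix (Fin 2) (Fin 2) L :=
  ((algebraMap K L).mapMatrix : Matrix (Fin 2) (Fin 2) K →+* Matrix (Fin 2) (Fin 2) L).toMonoidHom.comp ρ

omit [NumberField F] [IsGalois ℚ F] in
theorem extL_apply (g : F.fixingSubgroup) : extL L ρ g = (ρ g).map (algebraMap K L) := rfl

omit [NumberField F] [IsGalois ℚ F] in
theorem span_extL (h : Submodule.span K (Set.range ρ) = ⊤) : Submodule.span L (Set.range (extL L ρ)) = ⊤ := by
  have key : ∀ A : Matrix (Fin 2) (Fin 2) K, A.map (algebraMap K L) ∈ Submodule.span L (Set.range (extL L ρ)) := by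
    intro A
    have hA : A ∈ Submodule.span K (Set.range ρ) := by rw [h]; trivial
    induction hA using Submodule.span_induction with
    | mem x hx =>
      obtain ⟨g, rfl⟩ := hx
      exact Submodule.subset_span ⟨g, rfl⟩
    | zero =>
      rw [Matrix.map_zero _ (map_zero _)]
      exact zero_mem _
    | add x y _ _ hx hy =>
      rw [Matrix.map_add _ (map_add _)]
      exact add_mem hx hy
    | smul c x _ hx =>
      have : (c • x).map (algebraMap K L) = algebraMap K L c • x.map (algebraMap K L) := by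
        ext i j
        simp
      rw [this]
      exact Submodule.smul_mem _ _ hx
  rw [eq_top_iff]
  intro A _
  have hA : A = ∑ i, ∑ j, A i j • (Matrix.single i j (1 : K)).map (algebraMap K L) := by
    conv_lhs => rw [Matrix.matrix_eq_sum_single A]
    refine Finset.sum_congr rfl fun i _ => Finset.sum_congr rfl fun j _ => ?_
    rw [Matrix.map_single, map_one, Matrix.smul_single, smul_eq_mul, mul_one]
  rw [hA]
  exact Submodule.sum_mem _ fun i _ => Submodule.sum_mem _ fun j _ => Submodule.smul_mem _ _ (key _)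

/-- **The Selmer group has even dimension if the representation extends to `G_ℚ` over a larger field `L` and, for
some `τ` with `τ^(2^j) ∈ G_F`, no product of the trace of the extension at `τ` and a `2^j`-th root of unity is in `K`.** -/
theorem HasFrob.even_ext (h : HasFrob ρ t M)
    (r : ((AlgebraicClosure ℚ) ≃ₐ[ℚ] (AlgebraicClosure ℚ)) →* Matrix (Fin 2) (Fin 2) L)
    (htr : ∀ g : F.fixingSubgroup,
      (r (g : ((AlgebraicClosure ℚ) ≃ₐ[ℚ] (AlgebraicClosure ℚ)))).trace = algebraMap K L (ρ g).trace)
    (τ : ((AlgebraicClosure ℚ) ≃ₐ[ℚ] (AlgebraicClosure ℚ))) (j : ℕ) (hτ : τ ^ (2 ^ j) ∈ F.fixingSubgroup)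
    (hK : ∀ z : L, z ^ (2 ^ j) = 1 → z * (r τ).trace ∉ Set.range (algebraMap K L)) :
    Even (selDim ρ (AlgebraicClosure ℚ) p) := by
  obtain ⟨T, c, hT, hdet⟩ := h.exists_tw τ (2 ^ j) hτ
  refine hT.even ?_
  rintro ⟨d, rfl⟩
  let r1 : F.fixingSubgroup →* Matrix (Fin 2) (Fin 2) L := extL L ρ
  let r2 : F.fixingSubgroup →* Matrix (Fin 2) (Fin 2) L := r.comp F.fixingSubgroup.subtype
  have htr' : ∀ g, trace (r1 g) = trace (r2 g) := by
    intro g
    show ((ρ g).map (algebraMap K L)).trace = (r (g : ((AlgebraicClosure ℚ) ≃ₐ[ℚ] (AlgebraicClosure ℚ)))).trace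
    rw [htr]
    exact (AddMonoidHom.map_trace (algebraMap K L) (ρ g)).symm
  have hs1 : Submodule.span L (Set.range r1) = ⊤ := span_extL h.irr
  have hs2 := span_of_trace r1 r2 hs1 htr'
  obtain ⟨B, B', hB1, hB2, hB3⟩ := exists_inter r1 r2 hs1 hs2 htr'
  set TL : Matrix (Fin 2) (Fin 2) L := T.map (algebraMap K L) with hTL
  have hTdet : IsUnit T.det := isUnit_iff_ne_zero.2 hdet
  have hTi : T * T⁻¹ = 1 := Matrix.mul_nonsing_inv _ hTdet
  have hTi' : T⁻¹ * T = 1 := Matrix.nonsing_inv_mul _ hTdet
  set TL' : Matrix (Fin 2) (Fin 2) L := T⁻¹.map (algebraMap K L) with hTL'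
  have hmapmul : ∀ X Y : Matrix (Fin 2) (Fin 2) K, (X * Y).map (algebraMap K L) =
      X.map (algebraMap K L) * Y.map (algebraMap K L) := fun X Y => Matrix.map_mul
  have hmapone : (1 : Matrix (Fin 2) (Fin 2) K).map (algebraMap K L) = 1 :=
    Matrix.map_one _ (map_zero _) (map_one _)
  have e1 : TL * TL' = 1 := by rw [hTL, hTL', ← hmapmul, hTi, hmapone]
  have e2 : TL' * TL = 1 := by rw [hTL, hTL', ← hmapmul, hTi', hmapone]
  -- the second intertwining matrix
  set U : Matrix (Fin 2) (Fin 2) L := B' * r τ * B with hU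
  have hUint : ∀ g : F.fixingSubgroup, U * r1 (cjF τ g) = r1 g * U := by
    intro g
    have a1 : B * r1 (cjF τ g) = r2 (cjF τ g) * B := hB3 _
    have a2 : r τ * r2 (cjF τ g) = r2 g * r τ := by
      show r τ * r ((cjF τ g : F.fixingSubgroup) : ((AlgebraicClosure ℚ) ≃ₐ[ℚ] (AlgebraicClosure ℚ))) = r (g : ((AlgebraicClosure ℚ) ≃ₐ[ℚ] (AlgebraicClosure ℚ))) * r τ
      rw [← map_mul, ← map_mul]
      congr 1
      simp only [cjF]
      group
    have a3 : B' * r2 g = r1 g * B' := by
      have := hB3 g
      calc B' * r2 g = B' * r2 g * (B * B') := by rw [hB1, mul_one]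
        _ = B' * (r2 g * B) * B' := by simp only [mul_assoc]
        _ = B' * (B * r1 g) * B' := by rw [this]
        _ = (B' * B) * r1 g * B' := by simp only [mul_assoc]
        _ = r1 g * B' := by rw [hB2, one_mul]
    calc U * r1 (cjF τ g) = B' * r τ * (B * r1 (cjF τ g)) := by rw [hU]; simp only [mul_assoc]
      _ = B' * (r τ * r2 (cjF τ g)) * B := by rw [a1]; simp only [mul_assoc]
      _ = (B' * r2 g) * r τ * B := by rw [a2]; simp only [mul_assoc]
      _ = r1 g * U := by rw [a3, hU]; simp only [mul_assoc]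
  have hTint : ∀ g : F.fixingSubgroup, TL * r1 (cjF τ g) = r1 g * TL := by
    intro g
    show T.map (algebraMap K L) * (ρ (cjF τ g)).map (algebraMap K L) = (ρ g).map (algebraMap K L) * _
    rw [← hmapmul, ← hmapmul]
    congr 1
    exact hT.int g
  have hcomm : ∀ A ∈ Set.range r1, (U * TL') * A = A * (U * TL') := by
    rintro _ ⟨g, rfl⟩
    have b1 : TL' * r1 g = r1 (cjF τ g) * TL' := by
      calc TL' * r1 g = TL' * r1 g * (TL * TL') := by rw [e1, mul_one]
        _ = TL' * (r1 g * TL) * TL' := by simp only [mul_assoc]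
        _ = TL' * (TL * r1 (cjF τ g)) * TL' := by rw [hTint]
        _ = (TL' * TL) * r1 (cjF τ g) * TL' := by simp only [mul_assoc]
        _ = r1 (cjF τ g) * TL' := by rw [e2, one_mul]
    calc U * TL' * r1 g = U * (TL' * r1 g) := mul_assoc _ _ _
      _ = (U * r1 (cjF τ g)) * TL' := by rw [b1]; simp only [mul_assoc]
      _ = r1 g * (U * TL') := by rw [hUint]; simp only [mul_assoc]
  obtain ⟨μ, hμ⟩ := scalar_of_comm hs1 _ hcomm
  have hUT : U = μ • TL := by
    calc U = U * (TL' * TL) := by rw [e2, mul_one]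
      _ = (U * TL') * TL := (mul_assoc _ _ _).symm
      _ = μ • TL := by rw [hμ, smul_mul_assoc, one_mul]
  -- the powers
  set n : ℕ := 2 ^ j with hn
  set s : F.fixingSubgroup := ⟨τ ^ n, hτ⟩ with hs
  have hUU : U ^ n = r1 s := by
    have a3 : B' * r2 s = r1 s * B' := by
      have := hB3 s
      calc B' * r2 s = B' * r2 s * (B * B') := by rw [hB1, mul_one]
        _ = B' * (r2 s * B) * B' := by simp only [mul_assoc]
        _ = B' * (B * r1 s) * B' := by rw [this]
        _ = (B' * B) * r1 s * B' := by simp only [mul_assoc]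
        _ = r1 s * B' := by rw [hB2, one_mul]
    have a4 : (r τ) ^ n = r2 s := by
      rw [← map_pow]
      rfl
    have a5 : ∀ m : ℕ, U ^ m = B' * (r τ) ^ m * B := by
      intro m
      induction m with
      | zero => rw [pow_zero, pow_zero, mul_one, hB2]
      | succ m ih =>
        calc U ^ (m + 1) = B' * (r τ) ^ m * (B * B') * r τ * B := by
              rw [pow_succ, ih, hU]
              simp only [mul_assoc]
          _ = B' * (r τ) ^ (m + 1) * B := by
              rw [hB1, mul_one, pow_succ]
              simp only [mul_assoc]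
    rw [a5, a4, a3, mul_assoc, hB2, mul_one]
  have hmappow : ∀ m : ℕ, TL ^ m = (T ^ m).map (algebraMap K L) := by
    intro m
    induction m with
    | zero => rw [pow_zero, pow_zero, hmapone]
    | succ m ih => rw [pow_succ, pow_succ, hmapmul, ih]
  have hTT : TL ^ n = (algebraMap K L (d ^ n)) • r1 s := by
    rw [hmappow, hT.TT]
    ext i j
    simp [r1, extL_apply, hs]
  have hunit : r1 s ≠ 0 := by
    intro h0
    have : r1 s * r1 s⁻¹ = 1 := by rw [← map_mul, mul_inv_cancel, map_one]
    rw [h0, zero_mul] at this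
    exact zero_ne_one this
  have hμ2 : μ ^ n * algebraMap K L (d ^ n) = 1 := by
    have h5 : (μ ^ n * algebraMap K L (d ^ n)) • r1 s = (1 : L) • r1 s := by
      rw [mul_smul, ← hTT, one_smul, ← hUU, hUT, _root_.smul_pow]
    exact smul_left_injective L hunit h5
  have hn0 : n ≠ 0 := pow_ne_zero j two_ne_zero
  have hd : algebraMap K L d ≠ 0 := by
    intro h0
    rw [map_pow, h0, zero_pow hn0, mul_zero] at hμ2
    exact zero_ne_one hμ2
  have hz : (μ * algebraMap K L d)⁻¹ ^ n = 1 := by
    rw [inv_pow, mul_pow, ← map_pow, hμ2, inv_one]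
  refine hK _ hz ?_
  have hμ0 : μ ≠ 0 := by
    rintro rfl
    rw [zero_pow hn0, zero_mul] at hμ2
    exact zero_ne_one hμ2
  have htrU : (r τ).trace = U.trace := by
    rw [hU, mul_assoc, Matrix.trace_mul_comm, mul_assoc, hB1, mul_one]
  have htrT : TL.trace = algebraMap K L T.trace := (AddMonoidHom.map_trace (algebraMap K L) T).symm
  rw [htrU, hUT, Matrix.trace_smul, htrT, smul_eq_mul]
  refine ⟨d⁻¹ * T.trace, ?_⟩
  rw [map_mul, map_inv₀]
  field_simp

end Pool.Agent.H44.PC
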