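import Pool.Agent.H44.PC.Split

/-!
# The splitting law, second part
-/

set_option autoImplicit false
set_option linter.style.haveILetI false
set_option linter.unusedSectionVars false

open NumberField MulAction
open scoped Pointwise

namespace Pool.Agent.H44.PC

open Pool.Agent.H89.FrobD

variable {N : ℕ} [NeZero N] {ζ : (AlgebraicClosure ℚ)} (hζ : IsPrimitiveRoot ζ N)

theorem under_eq {l : ℕ} (hl : l.Prime) {R : Type*} [CommRing R] (P : Ideal R) [P.IsPrime] (h : (l : R) ∈ P) :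
    P.under ℤ = Ideal.span {(l : ℤ)} := by
  have h1 : (Ideal.span {(l : ℤ)}).IsMaximal :=
    PrincipalIdealRing.isMaximal_of_irreducible (Nat.prime_iff_prime_int.1 hl).irreducible
  have h2 : Ideal.span {(l : ℤ)} ≤ P.under ℤ := by
    rw [Ideal.span_singleton_le_iff_mem]
    show algebraMap ℤ R (l : ℤ) ∈ P
    simpa using h
  exact (h1.eq_of_le (Ideal.IsPrime.under ℤ P).ne_top h2).symm

/-- a Frobenius element at a prime above `l` acts on `ζ` by `ζ ↦ ζ^l` -/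
theorem cyc_frob {l : ℕ} (hl : l.Prime) (hN : ¬ l ∣ N) (P : Ideal (𝓞 (AlgebraicClosure ℚ))) [hP : P.IsPrime]
    (hlP : (l : 𝓞 (AlgebraicClosure ℚ)) ∈ P) (τ : ((AlgebraicClosure ℚ) ≃ₐ[ℚ] (AlgebraicClosure ℚ))) (hτ : ∀ x : 𝓞 (AlgebraicClosure ℚ), τ • x - x ^ l ∈ P) :
    ((cyc hζ τ : (ZMod N)ˣ) : ZMod N) = l := by
  rw [← cyc_eq_iff hζ]
  have hcard : Nat.card (ℤ ⧸ P.under ℤ) = l := by
    rw [under_eq hl P hlP]
    exact Int.card_ideal_quot l
  have h1 : IsArithFrobAt ℤ τ P := by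
    intro x
    rw [hcard]
    exact hτ x
  have hzi : IsIntegral ℤ ζ := hζ.isIntegral (NeZero.pos N)
  let z : 𝓞 (AlgebraicClosure ℚ) := ⟨ζ, hzi⟩
  have hz : z ^ N = 1 := by
    apply RingOfIntegers.coe_injective
    show ζ ^ N = 1
    exact hζ.pow_eq_one
  have hNP : (N : 𝓞 (AlgebraicClosure ℚ)) ∉ P := by
    intro h
    have hc : IsCoprime (l : ℤ) (N : ℤ) := Nat.isCoprime_iff_coprime.2 ((Nat.Prime.coprime_iff_not_dvd hl).2 hN)
    obtain ⟨a, b, hab⟩ := hc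
    apply hP.ne_top
    rw [Ideal.eq_top_iff_one]
    have h2 : (1 : 𝓞 (AlgebraicClosure ℚ)) = (a : 𝓞 (AlgebraicClosure ℚ)) * (l : 𝓞 (AlgebraicClosure ℚ)) + (b : 𝓞 (AlgebraicClosure ℚ)) * (N : 𝓞 (AlgebraicClosure ℚ)) := by
      have := congrArg (fun n : ℤ => (n : 𝓞 (AlgebraicClosure ℚ))) hab
      push_cast at this
      exact this.symm
    rw [h2]
    exact P.add_mem (P.mul_mem_left _ hlP) (P.mul_mem_left _ h)
  have h2 := h1.apply_of_pow_eq_one hz hNP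
  rw [hcard] at h2
  have h3 := congrArg (fun x : 𝓞 (AlgebraicClosure ℚ) => (x : (AlgebraicClosure ℚ))) h2
  exact h3

variable {F : IntermediateField ℚ (AlgebraicClosure ℚ)} [NumberField F] [IsGalois ℚ F]

theorem restrict_eq_one_iff (τ : ((AlgebraicClosure ℚ) ≃ₐ[ℚ] (AlgebraicClosure ℚ))) :
    (AlgEquiv.restrictNormal τ F : Gal(F/ℚ)) = 1 ↔ τ ∈ F.fixingSubgroup := by
  rw [IntermediateField.mem_fixingSubgroup_iff]
  constructor
  · intro h x hx
    have h1 := AlgEquiv.restrictNormal_commutes τ F ⟨x, hx⟩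
    rw [h] at h1
    exact h1.symm
  · intro h
    refine AlgEquiv.ext fun x => ?_
    have h1 := AlgEquiv.restrictNormal_commutes τ F x
    apply Subtype.ext
    have h2 : ((AlgEquiv.restrictNormal τ F x : F) : (AlgebraicClosure ℚ)) = τ (x : (AlgebraicClosure ℚ)) := h1
    rw [h2, h _ x.2]
    rfl

/-- THE SPLITTING LAW -/
theorem splitting (hF : F ≤ IntermediateField.adjoin ℚ {ζ}) {l : ℕ} (hl : l.Prime) (hN : ¬ l ∣ N) :
    ∃ f : ℕ, 0 < f ∧ (∀ m : ℕ, (∀ χ ∈ charGrp hζ F, χ (l : ZMod N) ^ m = 1) ↔ f ∣ m) ∧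
      (∀ v : Ideal (𝓞 F), v.IsPrime → (l : 𝓞 F) ∈ v → Ideal.absNorm v = l ^ f) ∧
      (∀ P : Ideal (𝓞 (AlgebraicClosure ℚ)), P.IsPrime → (l : 𝓞 (AlgebraicClosure ℚ)) ∈ P → ∀ τ : ((AlgebraicClosure ℚ) ≃ₐ[ℚ] (AlgebraicClosure ℚ)), (∀ x : 𝓞 (AlgebraicClosure ℚ), τ • x - x ^ l ∈ P) →
        ∀ m : ℕ, τ ^ m ∈ F.fixingSubgroup ↔ f ∣ m) ∧
      {v : Ideal (𝓞 F) | v.IsPrime ∧ (l : 𝓞 F) ∈ v}.ncard * f = Nat.card (charGrp hζ F) := by
  haveI : Fact l.Prime := ⟨hl⟩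
  have hco : l.Coprime N := (Nat.Prime.coprime_iff_not_dvd hl).2 hN
  have hd := disc_F F N hζ hF hl hN
  let u : (ZMod N)ˣ := ZMod.unitOfCoprime l hco
  have hu : (u : ZMod N) = l := ZMod.coe_unitOfCoprime l hco
  let H : Subgroup (ZMod N)ˣ := F.fixingSubgroup.map (cyc hζ)
  let f : ℕ := orderOf (QuotientGroup.mk u : (ZMod N)ˣ ⧸ H)
  have hf0 : 0 < f := (isOfFinOrder_of_finite (QuotientGroup.mk u : (ZMod N)ˣ ⧸ H)).orderOf_pos
  have hpow : ∀ τ : ((AlgebraicClosure ℚ) ≃ₐ[ℚ] (AlgebraicClosure ℚ)), cyc hζ τ = u → ∀ m : ℕ, τ ^ m ∈ F.fixingSubgroup ↔ f ∣ m := by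
    intro τ hτ m
    rw [← cyc_mem_iff hζ hF, map_pow, hτ, orderOf_dvd_iff_pow_eq_one, ← QuotientGroup.mk_pow,
      QuotientGroup.eq_one_iff]
  have hfrob : ∀ P : Ideal (𝓞 (AlgebraicClosure ℚ)), P.IsPrime → (l : 𝓞 (AlgebraicClosure ℚ)) ∈ P → ∀ τ : ((AlgebraicClosure ℚ) ≃ₐ[ℚ] (AlgebraicClosure ℚ)), (∀ x : 𝓞 (AlgebraicClosure ℚ), τ • x - x ^ l ∈ P) →
        ∀ m : ℕ, τ ^ m ∈ F.fixingSubgroup ↔ f ∣ m := by
    intro P hP hlP τ hτ
    refine hpow τ (Units.ext ?_)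
    rw [cyc_frob hζ hl hN P hlP τ hτ, hu]
  have hmem : ∀ v : Ideal (𝓞 F), v.IsPrime → (l : 𝓞 F) ∈ v → v ∈ (pZ l).primesOver (𝓞 F) := by
    intro v hv hlv
    haveI := hv
    exact ⟨hv, ⟨(under_eq hl v hlv).symm⟩⟩
  -- the residue degree
  have hdeg : ∀ v : Ideal (𝓞 F), v.IsPrime → (l : 𝓞 F) ∈ v → v.inertiaDeg ℤ = f := by
    intro v hv hlv
    haveI := hv
    have hvm := hmem v hv hlv
    haveI := hvm.2
    haveI := pZ_prime hl
    haveI := pZ_max hl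
    obtain ⟨P, hP, hPv⟩ := (inferInstance : Nonempty (v.primesOver (𝓞 (AlgebraicClosure ℚ))))
    have hPv' : P.comap (algebraMap (𝓞 F) (𝓞 (AlgebraicClosure ℚ))) = v := hPv.over.symm
    have hlP : (l : 𝓞 (AlgebraicClosure ℚ)) ∈ P := by
      rw [← hPv', Ideal.mem_comap, map_natCast] at hlv
      exact hlv
    obtain ⟨τ, hτ⟩ := exists_frob P hl hlP
    obtain ⟨τ', h1, h2⟩ := frob_elt F hl hd v hvm
    let τF : Gal(F/ℚ) := AlgEquiv.restrictNormal τ F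
    have hτF : ∀ x : 𝓞 F, τF • x - x ^ l ∈ v := by
      intro x
      rw [← hPv', Ideal.mem_comap, map_sub, map_pow]
      have h1 : algebraMap (𝓞 F) (𝓞 (AlgebraicClosure ℚ)) (τF • x) = τ • algebraMap (𝓞 F) (𝓞 (AlgebraicClosure ℚ)) x := by
        apply RingOfIntegers.coe_injective
        exact AlgEquiv.restrictNormal_commutes τ F (x : F)
      rw [h1]
      exact hτ _
    have h3 : τF = τ' := by
      have h4 : τF * τ'⁻¹ ∈ Ideal.inertia Gal(F/ℚ) v := by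
        rw [AddSubgroup.mem_inertia]
        intro x
        have h5 := hτF (τ'⁻¹ • x)
        have h6 := h2 (τ'⁻¹ • x)
        rw [smul_inv_smul] at h6
        have h7 := sub_mem h5 h6
        rw [mul_smul]
        simpa using h7
      have h5 := unram F hl hd v hvm
      have h6 := (Nat.card_eq_one_iff_unique.1 h5).1
      have h7 : (⟨τF * τ'⁻¹, h4⟩ : Ideal.inertia Gal(F/ℚ) v) = 1 := Subsingleton.elim _ _
      have h8 := congrArg Subtype.val h7
      exact mul_inv_eq_one.1 h8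
    have h4 : Nat.card (stabilizer Gal(F/ℚ) v) = v.inertiaDeg ℤ := by
      have := Ideal.card_stabilizer_eq_card_inertia_mul_finrank (G := Gal(F/ℚ)) (pZ l) v
      rw [unram F hl hd v hvm, one_mul] at this
      exact this
    rw [← h4, ← h1, Nat.card_zpowers, ← h3]
    refine Nat.dvd_antisymm ?_ ?_
    · rw [orderOf_dvd_iff_pow_eq_one]
      have h5 : τ ^ f ∈ F.fixingSubgroup := (hfrob P hP hlP τ hτ f).2 dvd_rfl
      have h6 : AlgEquiv.restrictNormal (τ ^ f) F = τF ^ f := map_pow (AlgEquiv.restrictNormalHom F) τ f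
      rw [← h6]
      exact (restrict_eq_one_iff _).2 h5
    · rw [← hfrob P hP hlP τ hτ]
      have h6 : AlgEquiv.restrictNormal (τ ^ orderOf τF) F = τF ^ orderOf τF :=
        map_pow (AlgEquiv.restrictNormalHom F) τ _
      rw [pow_orderOf_eq_one] at h6
      exact (restrict_eq_one_iff _).1 h6
  refine ⟨f, hf0, fun m => ?_, fun v hv hlv => ?_, hfrob, ?_⟩
  · obtain ⟨τ, hτ⟩ := cyc_surj hζ u
    rw [← hpow τ hτ m, mem_GF_iff hζ hF]
    refine forall_congr' fun χ => forall_congr' fun _ => ?_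
    rw [map_pow, hτ, Units.val_pow_eq_pow_val, map_pow, hu]
  · haveI := hv
    haveI := (hmem v hv hlv).2
    rw [← hdeg v hv hlv]
    exact (Ideal.pow_inertiaDeg l v).symm
  · haveI := pZ_prime hl
    haveI := pZ_max hl
    have h1 := Ideal.ncard_primesOver_mul_ramificationIdxIn_mul_inertiaDegIn (pZ l) (𝓞 F) Gal(F/ℚ)
    obtain ⟨v, hv, hvl⟩ := (inferInstance : Nonempty ((pZ l).primesOver (𝓞 F)))
    have hlv := mem_of_over F ⟨hv, hvl⟩
    have h2 : (pZ l).ramificationIdxIn (𝓞 F) = 1 := by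
      rw [← Ideal.card_inertia_eq_ramificationIdxIn (G := Gal(F/ℚ)) (pZ l) v]
      exact unram F hl hd v ⟨hv, hvl⟩
    have h3 : (pZ l).inertiaDegIn (𝓞 F) = f := by
      rw [Ideal.inertiaDegIn_eq_inertiaDeg (pZ l) v Gal(F/ℚ)]
      exact hdeg v hv hlv
    rw [h2, h3, one_mul, IsGalois.card_aut_eq_finrank] at h1
    rw [card_charGrp hζ hF]
    have h4 : {v : Ideal (𝓞 F) | v.IsPrime ∧ (l : 𝓞 F) ∈ v} = (pZ l).primesOver (𝓞 F) := by
      ext v
      constructor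
      · rintro ⟨a, b⟩
        exact hmem v a b
      · intro h
        exact ⟨h.1, mem_of_over F h⟩
    rw [h4]
    exact h1

end Pool.Agent.H44.PC
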