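import Pool.Agent.H44.PC.Regroup
import Pool.Agent.H44.PC.Split2

/-!
# The `L`-function of the base change to an abelian field
-/

set_option autoImplicit false
set_option linter.style.haveILetI false
set_option linter.unusedSectionVars false

open NumberField
open scoped Pointwise

namespace Pool.Agent.H44.PC

noncomputable section

theorem tBC_pow {N : ℕ} (k : ℕ) (ε : DirichletCharacter ℂ N) (a : ℕ → ℂ) {l f : ℕ} (hl : l.Prime) (hf : 0 < f) :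
    tBC k ε a (l ^ f) = psum (a l) (ε (l : ZMod N) * (l : ℂ) ^ (k - 1)) f / (l : ℂ) ^ (f * (k / 2 - 1)) := by
  have h1 : (l ^ f).minFac = l := hl.pow_minFac hf.ne'
  have h2 : (l ^ f).factorization l = f := by
    rw [hl.factorization_pow]
    simp
  rw [tBC, h1, h2]

/-- the local term -/
def xloc {N : ℕ} (k : ℕ) (ε : DirichletCharacter ℂ N) (a : ℕ → ℂ) (s : ℂ) (q : ℕ) : ℂ :=
  -(tBC k ε a q * (q : ℂ) ^ (-1 - s)) + (q : ℂ) ^ (-1 - 2 * s)

theorem xloc_pow {N : ℕ} {k : ℕ} (hk : Even k) (hk0 : 0 < k) (ε : DirichletCharacter ℂ N) (a : ℕ → ℂ) (s : ℂ)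
    {l f : ℕ} (hl : l.Prime) (hf : 0 < f) :
    xloc k ε a s (l ^ f) =
      -(psum (a l) (ε (l : ZMod N) * (l : ℂ) ^ (k - 1)) f * ((l : ℂ) ^ (-(s + k / 2))) ^ f) +
        ((l : ℂ) ^ (k - 1) * ((l : ℂ) ^ (-(s + k / 2))) ^ 2) ^ f := by
  obtain ⟨c, rfl⟩ := hk
  have hc : 0 < c := by omega
  have hl0 : (l : ℂ) ≠ 0 := Nat.cast_ne_zero.2 hl.ne_zero
  have e1 : (((c + c : ℕ) : ℂ)) / 2 = c := by push_cast; ring
  have e2 : (c + c) / 2 - 1 = c - 1 := by omega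
  have e3 : ((c - 1 : ℕ) : ℂ) = c - 1 := by
    rw [Nat.cast_sub hc]
    simp
  have e4 : ((c + c - 1 : ℕ) : ℂ) = c + c - 1 := by
    rw [Nat.cast_sub (by omega)]
    push_cast
    ring
  rw [xloc, tBC_pow _ _ _ hl hf, e1, e2]
  have p1 : ((l ^ f : ℕ) : ℂ) ^ (-1 - s) = ((l : ℂ) ^ (-1 - s)) ^ f := by
    push_cast
    rw [← Complex.natCast_cpow_natCast_mul, mul_comm, Complex.cpow_mul_nat]
  have p2 : ((l ^ f : ℕ) : ℂ) ^ (-1 - 2 * s) = ((l : ℂ) ^ (-1 - 2 * s)) ^ f := by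
    push_cast
    rw [← Complex.natCast_cpow_natCast_mul, mul_comm, Complex.cpow_mul_nat]
  rw [p1, p2]
  have q1 : (l : ℂ) ^ (-1 - s) / (l : ℂ) ^ (c - 1) = (l : ℂ) ^ (-(s + c)) := by
    rw [← Complex.cpow_natCast, ← Complex.cpow_sub _ _ hl0, e3]
    congr 1
    ring
  have q2 : (l : ℂ) ^ (c + c - 1) * ((l : ℂ) ^ (-(s + c))) ^ 2 = (l : ℂ) ^ (-1 - 2 * s) := by
    have h3 : ((l : ℂ) ^ (-(s + c))) ^ 2 = (l : ℂ) ^ (((2 : ℕ) : ℂ) * (-(s + c))) :=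
      (Complex.cpow_nat_mul _ 2 _).symm
    rw [h3, ← Complex.cpow_natCast, ← Complex.cpow_add _ _ hl0, e4]
    congr 1
    push_cast
    ring
  rw [q2, ← q1, div_pow, ← pow_mul, mul_comm (c - 1) f]
  ring

theorem exists_roots (a b : ℂ) : ∃ α β : ℂ, α + β = a ∧ α * β = b := by
  obtain ⟨d, hd⟩ := IsAlgClosed.exists_pow_nat_eq (a ^ 2 - 4 * b) (n := 2) (by norm_num)
  refine ⟨(a + d) / 2, (a - d) / 2, by ring, ?_⟩
  have : (a + d) / 2 * ((a - d) / 2) = (a ^ 2 - d ^ 2) / 4 := by ring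
  rw [this, hd]
  ring

/-- the product over the characters of the local factors -/
theorem local_prod {N : ℕ} [NeZero N] (k : ℕ) (X : Subgroup (DirichletCharacter ℂ N)) [Fintype X]
    {ε : DirichletCharacter ℂ N} (hε : ε ∈ X) {l : ℕ} (hl : l.Prime) (hN : ¬ l ∣ N) {f : ℕ} (hf0 : 0 < f)
    (hf : ∀ m : ℕ, (∀ χ ∈ X, χ (l : ZMod N) ^ m = 1) ↔ f ∣ m) (u A : ℂ) :
    (1 + (-(psum A (ε (l : ZMod N) * (l : ℂ) ^ (k - 1)) f * u ^ f) + ((l : ℂ) ^ (k - 1) * u ^ 2) ^ f)) ^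
        (Nat.card X / f) =
      ∏ χ : X, (1 - (χ : DirichletCharacter ℂ N) l * A * u +
        (χ : DirichletCharacter ℂ N) l ^ 2 * ε l * (l : ℂ) ^ (k - 1) * u ^ 2) := by
  obtain ⟨α, β, h1, h2⟩ := exists_roots A (ε (l : ZMod N) * (l : ℂ) ^ (k - 1))
  have hco : l.Coprime N := (Nat.Prime.coprime_iff_not_dvd hl).2 hN
  have hu : ((ZMod.unitOfCoprime l hco : (ZMod N)ˣ) : ZMod N) = l := ZMod.coe_unitOfCoprime l hco
  have hf' : ∀ m : ℕ, (∀ χ ∈ X, χ ((ZMod.unitOfCoprime l hco : (ZMod N)ˣ) : ZMod N) ^ m = 1) ↔ f ∣ m := by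
    intro m
    rw [hu]
    exact hf m
  have e1 := (prod_X X (ZMod.unitOfCoprime l hco) f hf0 hf' (α * u)).2
  have e2 := (prod_X X (ZMod.unitOfCoprime l hco) f hf0 hf' (β * u)).2
  rw [hu] at e1 e2
  have h3 : ∏ χ : X, (1 - (χ : DirichletCharacter ℂ N) l * A * u +
        (χ : DirichletCharacter ℂ N) l ^ 2 * ε l * (l : ℂ) ^ (k - 1) * u ^ 2) =
      (∏ χ : X, (1 - (χ : DirichletCharacter ℂ N) l * (α * u))) *
        ∏ χ : X, (1 - (χ : DirichletCharacter ℂ N) l * (β * u)) := by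
    rw [← Finset.prod_mul_distrib]
    refine Finset.prod_congr rfl fun χ _ => ?_
    have : (χ : DirichletCharacter ℂ N) l ^ 2 * ε l * (l : ℂ) ^ (k - 1) * u ^ 2 =
        (χ : DirichletCharacter ℂ N) l ^ 2 * (ε l * (l : ℂ) ^ (k - 1)) * u ^ 2 := by ring
    rw [this, ← h1, ← h2]
    ring
  rw [h3, e1, e2, ← mul_pow, ← h1, ← h2, psum_eq]
  congr 1
  have h4 : ε (l : ZMod N) ^ f = 1 := (hf f).2 dvd_rfl ε hε
  have h5 : ((l : ℂ) ^ (k - 1) * u ^ 2) ^ f = (α * β) ^ f * (u ^ 2) ^ f := by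
    rw [h2, mul_pow, mul_pow, h4, one_mul]
  rw [h5]
  ring

variable {F : IntermediateField ℚ (AlgebraicClosure ℚ)} [NumberField F]

theorem exists_prime_mem (v : Ideal (𝓞 F)) (hv : v.IsPrime) (h0 : v ≠ ⊥) :
    ∃ l : ℕ, l.Prime ∧ (l : 𝓞 F) ∈ v ∧ l ∣ Ideal.absNorm v := by
  have h1 : (Ideal.absNorm v : 𝓞 F) ∈ v := Ideal.absNorm_mem v
  have h2 : Ideal.absNorm v ≠ 0 := by
    intro h
    exact h0 (Ideal.absNorm_eq_zero_iff.1 h)
  have key : ∀ n : ℕ, n ≠ 0 → (n : 𝓞 F) ∈ v → ∃ l : ℕ, l.Prime ∧ (l : 𝓞 F) ∈ v ∧ l ∣ n := by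
    intro n
    induction n using Nat.strong_induction_on with
    | _ n ih =>
      intro hn hnv
      have hn1 : n ≠ 1 := by
        rintro rfl
        apply hv.ne_top
        rw [Ideal.eq_top_iff_one]
        simpa using hnv
      obtain ⟨m, hm⟩ := Nat.minFac_dvd n
      have hp := Nat.minFac_prime hn1
      have h3 : (n.minFac : 𝓞 F) * (m : 𝓞 F) ∈ v := by
        rw [← Nat.cast_mul, ← hm]
        exact hnv
      rcases hv.mem_or_mem h3 with h4 | h4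
      · exact ⟨n.minFac, hp, h4, Nat.minFac_dvd n⟩
      · have hm0 : m ≠ 0 := by
          rintro rfl
          rw [mul_zero] at hm
          exact hn hm
        have hmn : m < n := by
          conv_rhs => rw [hm]
          have := hp.two_le
          nlinarith [Nat.pos_of_ne_zero hm0]
        obtain ⟨l, h5, h6, h7⟩ := ih m hmn hm0 h4
        exact ⟨l, h5, h6, h7.trans ⟨n.minFac, by rw [mul_comm]; exact hm⟩⟩
  exact key _ h2 h1

/-- the prime number below a good prime -/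
def below (N : ℕ) (v : GoodPrime F N) : Nat.Primes :=
  ⟨(exists_prime_mem v.1 v.2.1 v.2.2.1).choose, (exists_prime_mem v.1 v.2.1 v.2.2.1).choose_spec.1⟩

theorem below_mem (N : ℕ) (v : GoodPrime F N) : (((below N v : Nat.Primes) : ℕ) : 𝓞 F) ∈ v.1 :=
  (exists_prime_mem v.1 v.2.1 v.2.2.1).choose_spec.2.1

theorem fib_mem (N : ℕ) {l : Nat.Primes} (v : GoodPrime F N) (h : below N v = l) :
    ((l : ℕ) : 𝓞 F) ∈ v.1 := by
  subst h
  exact below_mem N v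

theorem below_dvd (N : ℕ) (v : GoodPrime F N) : ¬ ((below N v : Nat.Primes) : ℕ) ∣ N := by
  have h1 : ((below N v : Nat.Primes) : ℕ) ∣ Ideal.absNorm v.1 :=
    (exists_prime_mem v.1 v.2.1 v.2.2.1).choose_spec.2.2
  intro h2
  have h3 := Nat.dvd_gcd h1 h2
  rw [v.2.2.2] at h3
  exact (below N v).2.one_lt.ne' (Nat.dvd_one.1 h3)

theorem prime_unique {v : Ideal (𝓞 F)} (hv : v.IsPrime) {l q : ℕ} (hl : l.Prime) (hq : q.Prime)
    (h1 : (l : 𝓞 F) ∈ v) (h2 : (q : 𝓞 F) ∈ v) : l = q := by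
  haveI := hv
  have h3 := under_eq hl v h1
  rw [under_eq hq v h2, Ideal.span_singleton_eq_span_singleton, Int.associated_iff_natAbs] at h3
  simpa using h3.symm

variable [IsGalois ℚ F] {N : ℕ} [NeZero N] {ζ : (AlgebraicClosure ℚ)} (hζ : IsPrimitiveRoot ζ N)

include hζ in
theorem finite_fib (_hF : F ≤ IntermediateField.adjoin ℚ {ζ}) (l : Nat.Primes) :
    Finite {v : GoodPrime F N // below N v = l} := by
  have h1 : {v : Ideal (𝓞 F) | v.IsPrime ∧ ((l : ℕ) : 𝓞 F) ∈ v}.Finite := by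
    have := Pool.Agent.H89.FrobD.fin_over F l.2
    refine this.subset ?_
    rintro v ⟨hv, hlv⟩
    haveI := hv
    exact ⟨hv, ⟨(under_eq l.2 v hlv).symm⟩⟩
  haveI := h1.to_subtype
  refine Finite.of_injective (β := {v : Ideal (𝓞 F) | v.IsPrime ∧ ((l : ℕ) : 𝓞 F) ∈ v})
    (fun v => ⟨v.1.1, v.1.2.1, fib_mem N v.1 v.2⟩) ?_
  intro v w h
  apply Subtype.ext
  apply Subtype.ext
  have h2 : (v.1.1 : Ideal (𝓞 F)) = w.1.1 := Subtype.mk.inj h
  exact h2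

theorem below_eq (v : GoodPrime F N) {l : Nat.Primes} (h : ((l : ℕ) : 𝓞 F) ∈ v.1) : below N v = l :=
  Subtype.ext (prime_unique v.2.1 (below N v).2 l.2 (below_mem N v) h)

include hζ in
/-- the fibre over a good prime -/
theorem card_fib (hF : F ≤ IntermediateField.adjoin ℚ {ζ}) (l : Nat.Primes) (hN : ¬ (l : ℕ) ∣ N) :
    Nat.card {v : GoodPrime F N // below N v = l} =
      {v : Ideal (𝓞 F) | v.IsPrime ∧ ((l : ℕ) : 𝓞 F) ∈ v}.ncard := by
  rw [← Nat.card_coe_set_eq]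
  refine Nat.card_congr ⟨fun v => ⟨v.1.1, v.1.2.1, fib_mem N v.1 v.2⟩,
    fun v => ⟨⟨v.1, v.2.1, ?_, ?_⟩, ?_⟩, ?_, ?_⟩
  · intro h0
    have h1 := v.2.2
    rw [h0, Ideal.mem_bot, Nat.cast_eq_zero] at h1
    exact l.2.ne_zero h1
  · obtain ⟨f, -, -, h2, -, -⟩ := splitting (F := F) hζ hF l.2 hN
    rw [h2 v.1 v.2.1 v.2.2]
    exact Nat.Coprime.pow_left f ((Nat.Prime.coprime_iff_not_dvd l.2).2 hN)
  · exact below_eq _ v.2.2
  · intro v
    rfl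
  · intro v
    rfl

end

end Pool.Agent.H44.PC
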