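import Pool.Agent.H44.PC.Ext
import Pool.Agent.H44.PC.LSide

/-!
# The Selmer group of the base change of an eigenform to an abelian field
-/

set_option autoImplicit false
set_option linter.style.haveILetI false
set_option linter.unusedSectionVars false

open NumberField Matrix Polynomial
open scoped Pointwise

namespace Pool.Agent.H44.PC

variable {p : ℕ} [Fact p.Prime] {K : Type} [NontriviallyNormedField K] [NormedAlgebra ℚ_[p] K]
  {L : Type} [NontriviallyNormedField L] [NormedAlgebra K L] {E : Subfield ℂ}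

variable {F : IntermediateField ℚ (AlgebraicClosure ℚ)} [NumberField F] [IsGalois ℚ F] {N : ℕ} {k : ℕ} {ε : DirichletCharacter ℂ N}
  {a : ℕ → ℂ} {ι : E →+* L} {ρ : F.fixingSubgroup →* Matrix (Fin 2) (Fin 2) K} {r : ((AlgebraicClosure ℚ) ≃ₐ[ℚ] (AlgebraicClosure ℚ)) →* Matrix (Fin 2) (Fin 2) L}

omit [IsGalois ℚ F] in
theorem AttF.hasFrob [NeZero N] (h : AttF ι p k ε a ρ) : ∃ t : ℕ → K, HasFrob ρ t (N * p) ∧
    ∀ q : ℕ, ∀ v : Ideal (𝓞 F), v.IsPrime → v ≠ ⊥ → (Ideal.absNorm v).Coprime (N * p) → Ideal.absNorm v = q →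
      (∃ g : F.fixingSubgroup, IsFrob v g) → ∃ x : E, (x : ℂ) = tBC k ε a q ∧ ι x = algebraMap K L (t q) := by
  classical
  let Q : ℕ → K → Prop := fun q y => ∃ x : E, (x : ℂ) = tBC k ε a q ∧ ι x = algebraMap K L y
  have huniq : ∀ q y y', Q q y → Q q y' → y = y' := by
    rintro q y y' ⟨x, hx, hy⟩ ⟨x', hx', hy'⟩
    have : x = x' := Subtype.ext (hx.trans hx'.symm)
    subst this
    exact (algebraMap K L).injective (hy.symm.trans hy')
  let t : ℕ → K := fun q => if hq : ∃ y, Q q y then hq.choose else 0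
  have ht : ∀ q y, Q q y → t q = y := by
    intro q y hy
    have hq : ∃ y, Q q y := ⟨y, hy⟩
    have : t q = hq.choose := dif_pos hq
    rw [this]
    exact huniq q _ _ hq.choose_spec hy
  have key : ∀ v : Ideal (𝓞 F), v.IsPrime → v ≠ ⊥ → (Ideal.absNorm v).Coprime (N * p) → ∀ g : F.fixingSubgroup, IsFrob v g →
      Q (Ideal.absNorm v) (ρ g).trace ∧ (ρ g).det = ((Ideal.absNorm v : ℕ) : K) := by
    intro v hv h0 hc g hg
    obtain ⟨x, hx, hch⟩ := h.frob v hv h0 hc g hg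
    have h1 : ((ρ g).map (algebraMap K L)).charpoly = X ^ 2 - C (ι x) * X + C ((Ideal.absNorm v : ℕ) : L) := by
      rw [← hch]
      exact Matrix.charpoly_map (ρ g) (algebraMap K L)
    have h2 := trace_of_charpoly h1
    have h3 := det_of_charpoly h1
    refine ⟨⟨x, hx, ?_⟩, ?_⟩
    · rw [← h2]
      exact (AddMonoidHom.map_trace (algebraMap K L) (ρ g)).symm
    · apply (algebraMap K L).injective
      rw [map_natCast, ← h3]
      exact (algebraMap K L).map_det (ρ g)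
  refine ⟨t, ⟨h.cont, h.irr, Nat.mul_pos (NeZero.pos N) (Fact.out : p.Prime).pos, ?_⟩, ?_⟩
  · intro v hv h0 hc g hg
    obtain ⟨h1, h2⟩ := key v hv h0 hc g hg
    rw [ht _ _ h1]
    exact charpoly_of rfl h2
  · rintro q v hv h0 hc rfl ⟨g, hg⟩
    obtain ⟨h1, -⟩ := key v hv h0 hc g hg
    rw [ht _ _ h1]
    exact h1

/-- the inverse of the cyclotomic character, with values in `L` -/
noncomputable def cycL (p : ℕ) [Fact p.Prime] (K L : Type) [NontriviallyNormedField K] [NormedAlgebra ℚ_[p] K]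
    [NontriviallyNormedField L] [NormedAlgebra K L] : ((AlgebraicClosure ℚ) ≃ₐ[ℚ] (AlgebraicClosure ℚ)) →* L :=
  (algebraMap K L).toMonoidHom.comp ((algebraMap ℚ_[p] K).toMonoidHom.comp
    ((PadicInt.Coe.ringHom : ℤ_[p] →+* ℚ_[p]).toMonoidHom.comp ((Units.coeHom ℤ_[p]).comp (cycChar p)⁻¹)))

theorem continuous_cycL : Continuous (cycL p K L) := by
  have h0 : Continuous fun g : ((AlgebraicClosure ℚ) ≃ₐ[ℚ] (AlgebraicClosure ℚ)) => (((cycChar p g)⁻¹ : ℤ_[p]ˣ) : ℤ_[p]) :=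
    Units.continuous_val.comp (continuous_cycChar p).inv
  exact (continuous_algebraMap K L).comp ((continuous_algebraMap ℚ_[p] K).comp (continuous_subtype_val.comp h0))

theorem cycL_frob {l : ℕ} (hl : l.Prime) (hlp : l ≠ p) (P : Ideal (𝓞 (AlgebraicClosure ℚ)))
    (hP : P.IsPrime) (hlP : (l : 𝓞 (AlgebraicClosure ℚ)) ∈ P) (τ : ((AlgebraicClosure ℚ) ≃ₐ[ℚ] (AlgebraicClosure ℚ))) (hτ : ∀ x : 𝓞 (AlgebraicClosure ℚ), τ • x - x ^ l ∈ P) :
    cycL p K L τ * l = 1 := by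
  have h1 := cycChar_frob p hl hlp P hP hlP τ hτ
  have h2 : (((cycChar p τ)⁻¹ : ℤ_[p]ˣ) : ℤ_[p]) * (l : ℤ_[p]) = 1 := by
    rw [← h1, ← Units.val_mul, inv_mul_cancel, Units.val_one]
  have h3 := congrArg (fun z : ℤ_[p] => algebraMap K L (algebraMap ℚ_[p] K (z : ℚ_[p]))) h2
  simp only [PadicInt.coe_mul, map_mul, PadicInt.coe_natCast, map_natCast, PadicInt.coe_one, map_one] at h3
  exact h3

/-- the twist of `r` by a power of the cyclotomic character -/
noncomputable def twL (p : ℕ) [Fact p.Prime] (K : Type) {L : Type} [NontriviallyNormedField K]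
    [NormedAlgebra ℚ_[p] K] [NontriviallyNormedField L] [NormedAlgebra K L]
    (r : ((AlgebraicClosure ℚ) ≃ₐ[ℚ] (AlgebraicClosure ℚ)) →* Matrix (Fin 2) (Fin 2) L) (m : ℕ) : ((AlgebraicClosure ℚ) ≃ₐ[ℚ] (AlgebraicClosure ℚ)) →* Matrix (Fin 2) (Fin 2) L where
  toFun g := (cycL p K L g) ^ m • r g
  map_one' := by rw [map_one, map_one, one_pow, one_smul]
  map_mul' x y := by rw [map_mul, map_mul, mul_pow, smul_mul_smul_comm]

theorem twL_apply (m : ℕ) (g : ((AlgebraicClosure ℚ) ≃ₐ[ℚ] (AlgebraicClosure ℚ))) : twL p K r m g = (cycL p K L g) ^ m • r g := rfl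

variable [NeZero N] {ζ : (AlgebraicClosure ℚ)} (hζ : IsPrimitiveRoot ζ N)

include hζ in
/-- the traces agree on `G_F` -/
theorem trace_eq (hF : F ≤ IntermediateField.adjoin ℚ {ζ}) (hk : Even k) (hk0 : 0 < k)
    (hε : ε ∈ charGrp hζ F) (hρ : AttF ι p k ε a ρ) (hr : AttQ ι p k ε a r) (g : F.fixingSubgroup) :
    (twL p K r (k / 2 - 1) (g : ((AlgebraicClosure ℚ) ≃ₐ[ℚ] (AlgebraicClosure ℚ)))).trace = algebraMap K L (ρ g).trace := by
  set m := k / 2 - 1 with hm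
  have hk2 : k - 1 = 2 * m + 1 := by
    obtain ⟨c, rfl⟩ := hk
    omega
  have hc1 : Continuous fun g : F.fixingSubgroup => (twL p K r m (g : ((AlgebraicClosure ℚ) ≃ₐ[ℚ] (AlgebraicClosure ℚ)))).trace := by
    have : Continuous fun g : F.fixingSubgroup => (cycL p K L (g : ((AlgebraicClosure ℚ) ≃ₐ[ℚ] (AlgebraicClosure ℚ)))) ^ m * (r (g : ((AlgebraicClosure ℚ) ≃ₐ[ℚ] (AlgebraicClosure ℚ)))).trace :=
      ((continuous_cycL.comp continuous_subtype_val).pow m).mul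
        ((Continuous.matrix_trace continuous_id).comp (hr.cont.comp continuous_subtype_val))
    refine this.congr fun g => ?_
    rw [twL_apply, Matrix.trace_smul, smul_eq_mul]
  have hc2 : Continuous fun g : F.fixingSubgroup => algebraMap K L (ρ g).trace :=
    (continuous_algebraMap K L).comp ((Continuous.matrix_trace continuous_id).comp hρ.cont)
  refine congrFun (eq_of_frob (F := F) _ _ hc1 hc2 (N * p) ?_) g
  intro q P τ j hq hqM hP hqP hτ
  have hqM' : ¬ q ∣ N * p := fun hd =>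
    absurd (Nat.le_of_dvd (Nat.mul_pos (NeZero.pos N) (Fact.out : p.Prime).pos) hd) (not_le.2 hqM)
  have hqN : ¬ q ∣ N := fun hd => hqM' (hd.trans (dvd_mul_right _ _))
  have hqp : q ≠ p := by
    rintro rfl
    exact hqM' (dvd_mul_left _ _)
  haveI := hP
  set v := P.comap (algebraMap (𝓞 F) (𝓞 (AlgebraicClosure ℚ))) with hv
  have hnorm : Ideal.absNorm v = q := absNorm_eq hq P hqP τ hτ
  have hv0 : v ≠ ⊥ := by
    intro h0
    have h3 : (q : 𝓞 F) ∈ v := by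
      rw [hv, Ideal.mem_comap, map_natCast]
      exact hqP
    rw [h0, Ideal.mem_bot, Nat.cast_eq_zero] at h3
    exact hq.ne_zero h3
  have hcop : (Ideal.absNorm v).Coprime (N * p) := by
    rw [hnorm]
    exact (Nat.Prime.coprime_iff_not_dvd hq).2 hqM'
  obtain ⟨x, hx, hch⟩ := hρ.frob v (Ideal.comap_isPrime _ _) hv0 hcop τ ⟨P, hP, rfl, by rw [hnorm]; exact hτ⟩
  obtain ⟨A, e, hA, he, hchr⟩ := hr.frob q hq hqM' P hP hqP (τ : ((AlgebraicClosure ℚ) ≃ₐ[ℚ] (AlgebraicClosure ℚ))) hτ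
  obtain ⟨f, hf0, hf1, -, hf3, -⟩ := splitting (F := F) hζ hF hq hqN
  have hf : f ∣ 1 := (hf3 P hP hqP (τ : ((AlgebraicClosure ℚ) ≃ₐ[ℚ] (AlgebraicClosure ℚ))) hτ 1).1 (by rw [pow_one]; exact τ.2)
  have hεq : ε (q : ZMod N) = 1 := by
    have := (hf1 1).2 hf ε hε
    rwa [pow_one] at this
  have he1 : e = 1 := Subtype.ext (he.trans hεq)
  have hxA : x * (q : E) ^ m = A := by
    apply Subtype.ext
    rw [Subfield.coe_mul, SubmonoidClass.coe_pow, hx, hA, hnorm]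
    have hb := tBC_pow k ε a hq (one_pos : 0 < 1)
    rw [pow_one] at hb
    rw [hb, one_mul, ← hm]
    have hq0 : (q : ℂ) ^ m ≠ 0 := pow_ne_zero _ (Nat.cast_ne_zero.2 hq.ne_zero)
    show psum (a q) _ 1 / (q : ℂ) ^ m * ((q : E) : ℂ) ^ m = a q
    rw [show (((q : E) : E) : ℂ) = (q : ℂ) from map_natCast E.subtype q, div_mul_cancel₀ _ hq0]
    rfl
  have hxL : ι A = ι x * (q : L) ^ m := by
    rw [← hxA, map_mul, map_pow, map_natCast]
  have hu := cycL_frob (K := K) (L := L) hq hqp P hP hqP (τ : ((AlgebraicClosure ℚ) ≃ₐ[ℚ] (AlgebraicClosure ℚ))) hτ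
  have h1 : (extL L ρ τ).charpoly = X ^ 2 - C (ι x) * X + C ((q : ℕ) : L) := by
    rw [hnorm] at hch
    rw [← hch]
    exact Matrix.charpoly_map (ρ τ) (algebraMap K L)
  have h2 : (twL p K r m (τ : ((AlgebraicClosure ℚ) ≃ₐ[ℚ] (AlgebraicClosure ℚ)))).charpoly = X ^ 2 - C (ι x) * X + C ((q : ℕ) : L) := by
    refine charpoly_of ?_ ?_
    · rw [twL_apply, Matrix.trace_smul, trace_of_charpoly hchr, hxL, smul_eq_mul]
      calc cycL p K L (τ : ((AlgebraicClosure ℚ) ≃ₐ[ℚ] (AlgebraicClosure ℚ))) ^ m * (ι x * (q : L) ^ m) = (cycL p K L (τ : ((AlgebraicClosure ℚ) ≃ₐ[ℚ] (AlgebraicClosure ℚ))) * q) ^ m * ι x := by ring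
        _ = ι x := by rw [hu, one_pow, one_mul]
    · rw [twL_apply, Matrix.det_smul, det_of_charpoly hchr, he1, map_one, one_mul, hk2]
      simp only [Fintype.card_fin]
      calc (cycL p K L (τ : ((AlgebraicClosure ℚ) ≃ₐ[ℚ] (AlgebraicClosure ℚ))) ^ m) ^ 2 * (q : L) ^ (2 * m + 1) = (cycL p K L (τ : ((AlgebraicClosure ℚ) ≃ₐ[ℚ] (AlgebraicClosure ℚ))) * q) ^ (2 * m) * q := by ring
        _ = q := by rw [hu, one_pow, one_mul]
  have h3 := trace_pow_eq h2 h1 j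
  rw [← map_pow, ← map_pow] at h3
  show (twL p K r m ((τ ^ j : F.fixingSubgroup) : ((AlgebraicClosure ℚ) ≃ₐ[ℚ] (AlgebraicClosure ℚ)))).trace = algebraMap K L (ρ (τ ^ j)).trace
  rw [Subgroup.coe_pow, h3]
  exact (AddMonoidHom.map_trace (algebraMap K L) (ρ (τ ^ j))).symm

include hζ in
/-- **The Selmer group of the base change has even dimension if, for some prime `ℓ` of residue degree `2^j`, no product
of the image of `a(ℓ)` and a `2^j`-th root of unity is in `K`.** -/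
theorem selmer_even_ext (hF : F ≤ IntermediateField.adjoin ℚ {ζ}) (hk : Even k) (hk0 : 0 < k)
    (hε : ε ∈ charGrp hζ F) (hρ : AttF ι p k ε a ρ) (hr : AttQ ι p k ε a r) {l : ℕ} (hl : l.Prime)
    (hlM : ¬ l ∣ N * p) (w : Ideal (𝓞 F)) (hw : w.IsPrime) (hlw : (l : 𝓞 F) ∈ w) (j : ℕ)
    (hnorm : Ideal.absNorm w = l ^ 2 ^ j)
    (hK : ∀ A : E, (A : ℂ) = a l → ∀ z : L, z ^ 2 ^ j = 1 → z * ι A ∉ Set.range (algebraMap K L)) :
    Even (selDim ρ (AlgebraicClosure ℚ) p) := by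
  have hlN : ¬ l ∣ N := fun h => hlM (h.trans (dvd_mul_right _ _))
  have hlp : l ≠ p := by
    rintro rfl
    exact hlM (dvd_mul_left _ _)
  obtain ⟨f, hf0, -, hf1, hf2, -⟩ := splitting (F := F) hζ hF hl hlN
  have hf : f = 2 ^ j := by
    have h3 := hf1 w hw hlw
    rw [hnorm] at h3
    exact (Nat.pow_right_injective hl.two_le h3).symm
  subst hf
  haveI := hw
  obtain ⟨P, hP, hPw⟩ := (inferInstance : Nonempty (w.primesOver (𝓞 (AlgebraicClosure ℚ))))
  have hPw' : P.comap (algebraMap (𝓞 F) (𝓞 (AlgebraicClosure ℚ))) = w := hPw.over.symm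
  have hlP : (l : 𝓞 (AlgebraicClosure ℚ)) ∈ P := by
    have h3 := hlw
    rw [← hPw', Ideal.mem_comap, map_natCast] at h3
    exact h3
  obtain ⟨τ, hτ⟩ := exists_frob P hl hlP
  have hτ2 : τ ^ 2 ^ j ∈ F.fixingSubgroup := (hf2 P hP hlP τ hτ (2 ^ j)).2 dvd_rfl
  obtain ⟨t, ht, -⟩ := hρ.hasFrob
  refine ht.even_ext (twL p K r (k / 2 - 1)) (trace_eq hζ hF hk hk0 hε hρ hr) τ j hτ2 ?_
  rintro z hz ⟨y, hy⟩
  obtain ⟨A, e, hA, -, hchr⟩ := hr.frob l hl hlM P hP hlP τ hτ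
  refine hK A hA z hz ⟨y * (l : K) ^ (k / 2 - 1), ?_⟩
  have hu := cycL_frob (K := K) (L := L) hl hlp P hP hlP τ hτ
  rw [map_mul, hy, twL_apply, Matrix.trace_smul, trace_of_charpoly hchr, smul_eq_mul, map_pow, map_natCast]
  calc z * (cycL p K L τ ^ (k / 2 - 1) * ι A) * (l : L) ^ (k / 2 - 1) =
      z * ((cycL p K L τ * l) ^ (k / 2 - 1) * ι A) := by ring
    _ = z * ι A := by rw [hu, one_pow, one_mul]

end Pool.Agent.H44.PC
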