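import Pool.Agent.H44.PC.Euler

/-!
# The order of vanishing of `∏_χ D_χ` at a real point is even

`D χ` is the entire continuation of `∑ χ(n) a(n) n^{-s}`, `a` the coefficients of a normalised
eigenform with nebentypus `ε`.  Since `conj a(n) = conj ε(n) a(n)`, `conj (D χ (conj s)) = D (εχ)⁻¹ s`.
-/

set_option autoImplicit false

open ComplexConjugate Filter Topology

namespace Pool.Agent.H44.PC

lemma analyticAt_conj_conj {F : ℂ → ℂ} {x : ℝ} (hF : AnalyticAt ℂ F (x : ℂ)) :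
    AnalyticAt ℂ (conj ∘ F ∘ conj) (x : ℂ) := by
  rw [Complex.analyticAt_iff_eventually_differentiableAt] at hF ⊢
  have h1 : Tendsto (conj : ℂ → ℂ) (𝓝 (x : ℂ)) (𝓝 (x : ℂ)) := by
    have := (Complex.continuous_conj.tendsto (x : ℂ))
    rwa [Complex.conj_ofReal] at this
  filter_upwards [h1.eventually hF] with z hz
  exact differentiableAt_conj_conj_iff.mpr hz

/-- the order of `conj ∘ F ∘ conj` at a real point -/
lemma analyticOrderAt_conj_conj {F : ℂ → ℂ} {x : ℝ} (hF : AnalyticAt ℂ F (x : ℂ)) :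
    analyticOrderAt (conj ∘ F ∘ conj) (x : ℂ) = analyticOrderAt F (x : ℂ) := by
  have h1 : Tendsto (conj : ℂ → ℂ) (𝓝 (x : ℂ)) (𝓝 (x : ℂ)) := by
    have := (Complex.continuous_conj.tendsto (x : ℂ))
    rwa [Complex.conj_ofReal] at this
  by_cases ht : analyticOrderAt F (x : ℂ) = ⊤
  · rw [ht, analyticOrderAt_eq_top]
    rw [analyticOrderAt_eq_top] at ht
    filter_upwards [h1.eventually ht] with z hz
    simp [hz]
  · obtain ⟨n, hn⟩ := ENat.ne_top_iff_exists.mp ht
    rw [← hn]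
    obtain ⟨g, hg, hg0, hfg⟩ := hF.analyticOrderAt_eq_natCast.mp hn.symm
    rw [(analyticAt_conj_conj hF).analyticOrderAt_eq_natCast]
    refine ⟨conj ∘ g ∘ conj, analyticAt_conj_conj hg, ?_, ?_⟩
    · simpa using hg0
    · filter_upwards [h1.eventually hfg] with z hz
      simp only [Function.comp_apply, hz, smul_eq_mul, map_mul, map_pow, map_sub,
        Complex.conj_conj, Complex.conj_ofReal]

section

variable {N k : ℕ} {ε : DirichletCharacter ℂ N} {a : ℕ → ℂ}
  {D : DirichletCharacter ℂ N → ℂ → ℂ}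

/-- termwise conjugation -/
lemma conj_term (h : Eig N k ε a) (χ : DirichletCharacter ℂ N) {s : ℂ} (hs : s ≠ 0) (n : ℕ) :
    conj (χ n * a n / (n : ℂ) ^ (conj s)) = ((ε * χ)⁻¹ : DirichletCharacter ℂ N) n * a n /
      (n : ℂ) ^ s := by
  have hp : conj ((n : ℂ) ^ (conj s)) = (n : ℂ) ^ s := by
    have harg : (n : ℂ).arg ≠ Real.pi := by
      rw [Complex.natCast_arg]
      exact Real.pi_ne_zero.symm
    rw [Complex.cpow_conj _ _ harg, Complex.conj_conj, Complex.conj_natCast]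
  rw [map_div₀, hp, map_mul]
  by_cases hn : n = 0
  · subst hn
    simp [Complex.zero_cpow hs]
  by_cases hc : n.Coprime N
  · rw [conj_coeff h n hn hc]
    have h1 : conj (χ n) = χ⁻¹ n := MulChar.star_apply' χ _
    have h2 : conj (ε n) = ε⁻¹ n := MulChar.star_apply' ε _
    rw [h1, h2, mul_inv, MulChar.mul_apply]
    ring
  · have h0 : ∀ ψ : DirichletCharacter ℂ N, ψ (n : ZMod N) = 0 := by
      intro ψ
      apply MulChar.map_nonunit
      rwa [ZMod.isUnit_iff_coprime]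
    rw [h0 χ, h0]
    simp

/-- `conj (D χ (conj s)) = D (εχ)⁻¹ s` for all `s` -/
theorem conj_D (h : Eig N k ε a) (hD : ∀ χ, Differentiable ℂ (D χ))
    (hsum : ∀ χ, ∀ s : ℂ, (k : ℝ) / 2 + 1 < s.re →
      HasSum (fun n : ℕ => χ n * a n / (n : ℂ) ^ s) (D χ s))
    (χ : DirichletCharacter ℂ N) : conj ∘ D χ ∘ conj = D (ε * χ)⁻¹ := by
  have hE : Differentiable ℂ (conj ∘ D χ ∘ conj) := fun z =>
    differentiableAt_conj_conj_iff.mpr (hD χ _)
  have hA1 : AnalyticOnNhd ℂ (conj ∘ D χ ∘ conj) Set.univ := fun z _ => hE.analyticAt z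
  have hA2 : AnalyticOnNhd ℂ (D (ε * χ)⁻¹) Set.univ := fun z _ => (hD _).analyticAt z
  refine AnalyticOnNhd.eq_of_eventuallyEq hA1 hA2 (z₀ := ((k : ℂ) / 2 + 2)) ?_
  have hopen : IsOpen {s : ℂ | (k : ℝ) / 2 + 1 < s.re} := isOpen_lt continuous_const Complex.continuous_re
  have hmem : ((k : ℂ) / 2 + 2) ∈ {s : ℂ | (k : ℝ) / 2 + 1 < s.re} := by
    have : ((k : ℂ) / 2 + 2).re = (k : ℝ) / 2 + 2 := by
      have : ((k : ℂ) / 2 + 2) = (((k : ℝ) / 2 + 2 : ℝ) : ℂ) := by push_cast; ring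
      rw [this, Complex.ofReal_re]
    simp only [Set.mem_ofPred_eq, this]
    linarith
  filter_upwards [hopen.mem_nhds hmem] with s hs
  have hs : (k : ℝ) / 2 + 1 < s.re := hs
  have hs0 : s ≠ 0 := by
    rintro rfl
    simp only [Complex.zero_re] at hs
    have : (0 : ℝ) ≤ k := Nat.cast_nonneg k
    linarith
  have h1 := hsum χ (conj s) (by simpa using hs)
  have h2 := h1.map (starRingEnd ℂ) Complex.continuous_conj
  have h3 := hsum (ε * χ)⁻¹ s hs
  have h4 : (fun n : ℕ => ((ε * χ)⁻¹ : DirichletCharacter ℂ N) n * a n / (n : ℂ) ^ s)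
      = (starRingEnd ℂ) ∘ fun n : ℕ => χ n * a n / (n : ℂ) ^ (conj s) := by
    funext n
    exact (conj_term h χ hs0 n).symm
  rw [← h4] at h2
  exact h2.unique h3

/-- `D χ` is not identically zero -/
theorem D_ne (h : Eig N k ε a)
    (hsum : ∀ χ, ∀ s : ℂ, (k : ℝ) / 2 + 1 < s.re →
      HasSum (fun n : ℕ => χ n * a n / (n : ℂ) ^ s) (D χ s))
    (χ : DirichletCharacter ℂ N) : D χ ≠ 0 := by
  intro h0
  have hL : ∀ s : ℂ, (k : ℝ) / 2 + 1 < s.re → s ≠ 0 →
      LSeriesHasSum (fun n => χ n * a n) s (D χ s) := by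
    intro s hs hs0
    have h1 := hsum χ s hs
    have h2 : LSeries.term (fun n => χ n * a n) s = fun n : ℕ => χ n * a n / (n : ℂ) ^ s := by
      funext n
      rw [LSeries.term_def]
      split_ifs with hn
      · subst hn
        simp [Complex.zero_cpow hs0]
      · rfl
    unfold LSeriesHasSum
    rw [h2]
    exact h1
  have hk : (0 : ℝ) ≤ k := Nat.cast_nonneg k
  have hev : (fun x : ℝ ↦ LSeries (fun n => χ n * a n) x) =ᶠ[atTop] 0 := by
    filter_upwards [eventually_gt_atTop ((k : ℝ) / 2 + 1)] with x hx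
    have hx0 : (x : ℂ) ≠ 0 := by
      rw [Ne, Complex.ofReal_eq_zero]
      intro hx'
      rw [hx'] at hx
      linarith
    have := (hL (x : ℂ) (by simpa using hx) hx0).LSeries_eq
    rw [this, h0]
    rfl
  rcases LSeries_eventually_eq_zero_iff'.mp hev with h1 | h1
  · have := h1 1 one_ne_zero
    simp [h.one] at this
  · have hx : (k : ℝ) / 2 + 1 < ((((k : ℝ) / 2 + 2 : ℝ) : ℂ)).re := by
      rw [Complex.ofReal_re]
      linarith
    have hx0 : (((k : ℝ) / 2 + 2 : ℝ) : ℂ) ≠ 0 := by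
      rw [Ne, Complex.ofReal_eq_zero]
      linarith
    have h2 := (hL _ hx hx0).LSeriesSummable.abscissaOfAbsConv_le
    rw [h1] at h2
    exact absurd h2 (not_le.mpr (EReal.coe_lt_top _))

/-- all orders are finite -/
theorem order_ne_top (h : Eig N k ε a) (hD : ∀ χ, Differentiable ℂ (D χ))
    (hsum : ∀ χ, ∀ s : ℂ, (k : ℝ) / 2 + 1 < s.re →
      HasSum (fun n : ℕ => χ n * a n / (n : ℂ) ^ s) (D χ s))
    (χ : DirichletCharacter ℂ N) (z : ℂ) : analyticOrderAt (D χ) z ≠ ⊤ := by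
  intro ht
  rw [analyticOrderAt_eq_top] at ht
  apply D_ne h hsum χ
  have hA1 : AnalyticOnNhd ℂ (D χ) Set.univ := fun z _ => (hD χ).analyticAt z
  have hA2 : AnalyticOnNhd ℂ (0 : ℂ → ℂ) Set.univ := fun z _ => analyticAt_const
  exact AnalyticOnNhd.eq_of_eventuallyEq hA1 hA2 (z₀ := z) ht

/-- the order of a finite product -/
lemma analyticOrderAt_finset_prod {ι : Type*} (s : Finset ι) (F : ι → ℂ → ℂ) (z : ℂ)
    (hF : ∀ i ∈ s, AnalyticAt ℂ (F i) z) :
    AnalyticAt ℂ (fun w => ∏ i ∈ s, F i w) z ∧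
      analyticOrderAt (fun w => ∏ i ∈ s, F i w) z = ∑ i ∈ s, analyticOrderAt (F i) z := by
  classical
  induction s using Finset.induction_on with
  | empty =>
    simp only [Finset.prod_empty, Finset.sum_empty]
    refine ⟨analyticAt_const, ?_⟩
    rw [analyticAt_const.analyticOrderAt_eq_zero]
    exact one_ne_zero
  | insert i s hi ih =>
    obtain ⟨h1, h2⟩ := ih fun j hj => hF j (Finset.mem_insert_of_mem hj)
    have h3 := hF i (Finset.mem_insert_self i s)
    have h4 : (fun w => ∏ j ∈ insert i s, F j w) = (F i) * fun w => ∏ j ∈ s, F j w := by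
      funext w
      simp [Finset.prod_insert hi]
    rw [h4]
    refine ⟨h3.mul h1, ?_⟩
    rw [analyticOrderAt_mul h3 h1, h2, Finset.sum_insert hi]

/-- **Even order.** -/
theorem even_order (h : Eig N k ε a) (hD : ∀ χ, Differentiable ℂ (D χ))
    (hsum : ∀ χ, ∀ s : ℂ, (k : ℝ) / 2 + 1 < s.re →
      HasSum (fun n : ℕ => χ n * a n / (n : ℂ) ^ s) (D χ s))
    (X : Subgroup (DirichletCharacter ℂ N)) [Fintype X] (hε : ε ∈ X)
    (hX : ∀ χ ∈ X, χ * χ ≠ ε) (x : ℝ) :
    ∃ m : ℕ, analyticOrderAt (fun s => ∏ χ : X, D χ s) (x : ℂ) = ((2 * m : ℕ) : ℕ∞) := by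
  classical
  have hA : ∀ χ, AnalyticAt ℂ (D χ) (x : ℂ) := fun χ => (hD χ).analyticAt _
  -- natural number orders
  set o : DirichletCharacter ℂ N → ℕ := fun χ => analyticOrderNatAt (D χ) (x : ℂ) with ho
  have hoc : ∀ χ, ((o χ : ℕ) : ℕ∞) = analyticOrderAt (D χ) (x : ℂ) := fun χ =>
    Nat.cast_analyticOrderNatAt (order_ne_top h hD hsum χ _)
  have hinv : ∀ χ, o (ε * χ)⁻¹ = o χ := by
    intro χ
    have h1 := analyticOrderAt_conj_conj (hA χ)
    rw [conj_D h hD hsum χ, ← hoc, ← hoc] at h1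
    exact_mod_cast h1
  obtain ⟨-, hprod⟩ := analyticOrderAt_finset_prod (Finset.univ : Finset X)
    (fun χ : X => D (χ : DirichletCharacter ℂ N)) (x : ℂ) fun i _ => hA _
  rw [hprod]
  have hsumo : ∑ χ : X, analyticOrderAt (D (χ : DirichletCharacter ℂ N)) (x : ℂ)
      = ((∑ χ : X, o χ : ℕ) : ℕ∞) := by
    push_cast
    exact Finset.sum_congr rfl fun χ _ => (hoc _).symm
  rw [hsumo]
  have heven : Even (∑ χ : X, o χ) := by
    rw [← ZMod.natCast_eq_zero_iff_even]
    push_cast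
    let σ : X → X := fun χ => ⟨(ε * χ)⁻¹, X.inv_mem (X.mul_mem hε χ.2)⟩
    refine Finset.sum_involution (fun χ _ => σ χ) ?_ ?_ ?_ ?_
    · intro χ _
      have : o ((σ χ : X) : DirichletCharacter ℂ N) = o χ := hinv χ
      rw [this]
      exact CharTwo.add_self_eq_zero _
    · intro χ _ _ hfix
      have h1 : (ε * (χ : DirichletCharacter ℂ N))⁻¹ = χ := congrArg Subtype.val hfix
      have h2 : (χ : DirichletCharacter ℂ N)⁻¹ * (χ : DirichletCharacter ℂ N)⁻¹ = ε := by
        have h3 : (χ : DirichletCharacter ℂ N)⁻¹ = ε * χ := by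
          rw [← h1, inv_inv, h1]
        rw [h3]
        nth_rewrite 2 [← h3]
        rw [mul_assoc, mul_inv_cancel, mul_one]
      exact hX _ (X.inv_mem χ.2) h2
    · intro χ _
      exact Finset.mem_univ _
    · intro χ _
      apply Subtype.ext
      change (ε * (ε * (χ : DirichletCharacter ℂ N))⁻¹)⁻¹ = χ
      rw [mul_inv, inv_inv, inv_mul_cancel_left]
  obtain ⟨m, hm⟩ := heven
  exact ⟨m, by rw [hm]; congr 1; ring⟩

end

end Pool.Agent.H44.PC
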