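import Pool.Agent.H44.PC.Twist
import Pool.Agent.H44.PC.Order

/-!
# The functional equation and the parity of the order at the centre

`f` a cusp form on `Γ₁(N)` of even weight `k`, an eigenform of the Fricke involution with eigenvalue
`w`: the order of `L(f, s)` at `k / 2` is even iff `w = (-1) ^ (k / 2)`.
-/

set_option autoImplicit false

open UpperHalfPlane hiding I
open Complex Filter Topology
open scoped MatrixGroups Real CongruenceSubgroup

namespace Pool.Agent.H44.PC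

noncomputable section

/-- parity of the order from a functional equation -/
theorem parity_of_fe {G : ℂ → ℂ} {z₀ : ℂ} {c : ℂ} {u : ℂ → ℂ} (hG : AnalyticAt ℂ G z₀)
    (hu : ContinuousAt u 0) (hu0 : u 0 = 1) (hfe : ∀ t, G (z₀ + t) = c * u t * G (z₀ - t)) {n : ℕ}
    (hn : analyticOrderAt G z₀ = n) : (-1) ^ n = c := by
  obtain ⟨g, hg, hg0, hGg⟩ := hG.analyticOrderAt_eq_natCast.mp hn
  have hp : Tendsto (fun t : ℂ => z₀ + t) (𝓝 0) (𝓝 z₀) := by
    have h : Continuous fun t : ℂ => z₀ + t := by fun_prop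
    simpa using h.tendsto 0
  have hm : Tendsto (fun t : ℂ => z₀ - t) (𝓝 0) (𝓝 z₀) := by
    have h : Continuous fun t : ℂ => z₀ - t := by fun_prop
    simpa using h.tendsto 0
  have h1 : ∀ᶠ t in 𝓝[≠] (0 : ℂ), g (z₀ + t) = c * u t * ((-1) ^ n * g (z₀ - t)) := by
    have h2 : ∀ᶠ t in 𝓝 (0 : ℂ), G (z₀ + t) = t ^ n * g (z₀ + t) := by
      filter_upwards [hp.eventually hGg] with t ht
      rw [ht, smul_eq_mul, add_sub_cancel_left]
    have h3 : ∀ᶠ t in 𝓝 (0 : ℂ), G (z₀ - t) = t ^ n * ((-1) ^ n * g (z₀ - t)) := by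
      filter_upwards [hm.eventually hGg] with t ht
      rw [ht, smul_eq_mul, sub_sub_cancel_left, neg_pow]
      ring
    filter_upwards [h2.filter_mono nhdsWithin_le_nhds, h3.filter_mono nhdsWithin_le_nhds,
      self_mem_nhdsWithin] with t ht2 ht3 ht0
    have ht0' : t ^ n ≠ 0 := pow_ne_zero _ ht0
    have h4 := hfe t
    rw [ht2, ht3] at h4
    refine mul_left_cancel₀ ht0' ?_
    rw [h4]
    ring
  have h5 : Tendsto (fun t => g (z₀ + t)) (𝓝[≠] (0 : ℂ)) (𝓝 (g z₀)) :=
    (hg.continuousAt.tendsto.comp hp).mono_left nhdsWithin_le_nhds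
  have h6 : Tendsto (fun t => c * u t * ((-1) ^ n * g (z₀ - t))) (𝓝[≠] (0 : ℂ))
      (𝓝 (c * 1 * ((-1) ^ n * g z₀))) := by
    refine Tendsto.mono_left ?_ nhdsWithin_le_nhds
    refine Tendsto.mul (Tendsto.mul tendsto_const_nhds ?_) (Tendsto.mul tendsto_const_nhds
      (hg.continuousAt.tendsto.comp hm))
    rw [← hu0]
    exact hu
  have h7 := tendsto_nhds_unique (h5.congr' h1) h6
  have h8 : c * (-1) ^ n = 1 := by
    have : g z₀ * (c * (-1) ^ n) = g z₀ * 1 := by rw [mul_one]; nth_rewrite 2 [h7]; ring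
    exact mul_left_cancel₀ hg0 this
  have h9 : ((-1 : ℂ) ^ n) * (-1) ^ n = 1 := by
    rw [← mul_pow]
    norm_num
  calc (-1 : ℂ) ^ n = (c * (-1) ^ n) * (-1) ^ n := by rw [h8, one_mul]
    _ = c := by rw [mul_assoc, h9, mul_one]

section

variable {N : ℕ} [NeZero N] {k : ℕ}
  (f : CuspForm ((CongruenceSubgroup.Gamma1 N).map (Matrix.SpecialLinearGroup.mapGL ℝ)) (k : ℤ))

/-- `f` is an eigenform of the Fricke involution `(f | W_N)(z) = N^{-k/2} z^{-k} f(-1/(N z))`, with
eigenvalue `w` (even weight) -/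
def Fricke (w : ℂ) : Prop :=
  ∀ z : ℍ, f (ofComplex (-1 / (N * (z : ℂ)))) = w * (N : ℂ) ^ (k / 2) * (z : ℂ) ^ k * f z

variable {f}

/-- the functional equation of `Λ(f, s)` -/
theorem Lambda_fe (hk : 0 < (k : ℤ)) {w : ℂ} (hw : Fricke f w) (s : ℂ) :
    (N : ℂ) ^ (-s) * ModularForm.Λ hk f (-s) =
      w * (N : ℂ) ^ (k / 2) * I ^ k * ModularForm.Λ hk f (s + k) := by
  rw [CuspForm.Λ_eq_mellin hk f]
  set F : ℝ → ℂ := fun t => f (ofComplex (I * t)) with hF
  have hN : (0 : ℝ) < N := by exact_mod_cast Nat.pos_of_ne_zero (NeZero.ne N)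
  have h1 : mellin (fun t : ℝ => F ((N * t)⁻¹)) s = (N : ℂ) ^ (-s) * mellin F (-s) := by
    have h2 := mellin_comp_mul_left (fun t : ℝ => F t⁻¹) s hN
    rw [mellin_comp_inv] at h2
    simpa using h2
  have h3 : mellin (fun t : ℝ => F ((N * t)⁻¹)) s =
      mellin (fun t : ℝ => (w * (N : ℂ) ^ (k / 2) * I ^ k) • ((t : ℂ) ^ (k : ℂ) • F t)) s := by
    refine MeasureTheory.setIntegral_congr_fun measurableSet_Ioi fun t ht => ?_
    have ht : 0 < t := ht
    simp only []
    congr 1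
    have hz : 0 < (I * (t : ℂ)).im := by simpa using ht
    have h4 := hw ⟨I * t, hz⟩
    have h5 : F t = f ⟨I * t, hz⟩ := by
      simp only [hF]
      rw [ofComplex_apply_of_im_pos hz]
    have h6 : F ((N * t)⁻¹) = f (ofComplex (-1 / (N * (I * (t : ℂ))))) := by
      simp only [hF]
      congr 2
      push_cast
      have hI : I ≠ 0 := I_ne_zero
      have ht' : (t : ℂ) ≠ 0 := by exact_mod_cast ht.ne'
      have hN' : (N : ℂ) ≠ 0 := by exact_mod_cast hN.ne'
      field_simp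
      rw [I_sq]
    rw [h6]
    have h7 : f (ofComplex (-1 / (N * (I * (t : ℂ))))) =
        w * (N : ℂ) ^ (k / 2) * (I * (t : ℂ)) ^ k * f ⟨I * t, hz⟩ := h4
    rw [h7, ← h5, smul_eq_mul, smul_eq_mul, cpow_natCast, mul_pow]
    ring
  rw [← h1, h3, mellin_const_smul, mellin_cpow_smul, smul_eq_mul]

/-- the functional equation around the centre -/
theorem Lambda_fe' (hk : 0 < (k : ℤ)) (hke : Even k) {w : ℂ} (hw : Fricke f w) (t : ℂ) :
    ModularForm.Λ hk f (k / 2 + t) = (w * (-1) ^ (k / 2)) * (N : ℂ) ^ (-t) * ModularForm.Λ hk f (k / 2 - t) := by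
  have h := Lambda_fe hk hw (-(k / 2 + t))
  obtain ⟨r, rfl⟩ := hke
  have hN : (N : ℂ) ≠ 0 := by exact_mod_cast NeZero.ne N
  have hdiv : (r + r) / 2 = r := by omega
  rw [hdiv] at h ⊢
  have e1 : -(-(((r + r : ℕ) : ℂ) / 2 + t)) = ((r + r : ℕ) : ℂ) / 2 + t := by ring
  have e2 : -(((r + r : ℕ) : ℂ) / 2 + t) + ((r + r : ℕ) : ℂ) = ((r + r : ℕ) : ℂ) / 2 - t := by ring
  rw [e1, e2] at h
  have e3 : ((r + r : ℕ) : ℂ) / 2 = r := by push_cast; ring
  rw [e3] at h ⊢
  have e4 : (N : ℂ) ^ ((r : ℂ) + t) = (N : ℂ) ^ r * (N : ℂ) ^ t := by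
    rw [cpow_add _ _ hN, cpow_natCast]
  have e5 : (I : ℂ) ^ (r + r) = (-1) ^ r := by
    rw [← two_mul, pow_mul, I_sq]
  rw [e4, e5] at h
  have hN1 : (N : ℂ) ^ r ≠ 0 := pow_ne_zero _ hN
  have hN2 : (N : ℂ) ^ t ≠ 0 := by
    rw [Ne, cpow_eq_zero_iff]
    tauto
  rw [cpow_neg]
  field_simp
  refine mul_left_cancel₀ hN1 ?_
  linear_combination h

/-- the entire continuation of `∑ a_n n^{-s}` is unique -/
theorem entire_unique {D E : ℂ → ℂ} (hD : Differentiable ℂ D) (hE : Differentiable ℂ E) (x : ℝ)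
    (h : ∀ s : ℂ, x < s.re → D s = E s) : D = E := by
  have hA1 : AnalyticOnNhd ℂ D Set.univ := fun z _ => hD.analyticAt z
  have hA2 : AnalyticOnNhd ℂ E Set.univ := fun z _ => hE.analyticAt z
  refine AnalyticOnNhd.eq_of_eventuallyEq hA1 hA2 (z₀ := ((x + 1 : ℝ) : ℂ)) ?_
  have hopen : IsOpen {s : ℂ | x < s.re} := isOpen_lt continuous_const Complex.continuous_re
  have hmem : ((x + 1 : ℝ) : ℂ) ∈ {s : ℂ | x < s.re} := by
    simp only [Set.mem_ofPred_eq, ofReal_re]
    linarith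
  filter_upwards [hopen.mem_nhds hmem] with s hs
  exact h s hs

/-- **Parity of the order** of the `L`-function of an eigenform of the Fricke involution -/
theorem sign_parity (hk : 0 < k) (hke : Even k) {w : ℂ} (hw : Fricke f w) {D : ℂ → ℂ}
    (hD : Differentiable ℂ D) (hsum : ∀ s : ℂ, (k : ℝ) / 2 + 1 < s.re →
      HasSum (fun n : ℕ => (qExpansion 1 f).coeff n / (n : ℂ) ^ s) (D s)) {n : ℕ}
    (hn : analyticOrderAt D ((k : ℂ) / 2) = n) : (-1) ^ n = w * (-1) ^ (k / 2) := by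
  have hk' : 0 < (k : ℤ) := by exact_mod_cast hk
  have hwidth : ((CongruenceSubgroup.Gamma1 N).map
      (Matrix.SpecialLinearGroup.mapGL ℝ)).strictWidthInfty = 1 :=
    strictWidth_of_strictPeriods (CongruenceSubgroup.strictPeriods_Gamma1 N)
  have hDL : D = ModularForm.L hk' f := by
    refine entire_unique hD (CuspForm.differentiable_L hk' f) ((k : ℝ) / 2 + 1) fun s hs => ?_
    have h1 := CuspForm.hasSum_L (Γ := (CongruenceSubgroup.Gamma1 N).map
      (Matrix.SpecialLinearGroup.mapGL ℝ)) hk' f (s := s) (by simpa using hs)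
    rw [hwidth] at h1
    simp only [ofReal_one, one_cpow, one_mul] at h1
    exact (hsum s hs).unique h1
  have hkR : (0 : ℝ) < k := by exact_mod_cast hk
  have hre : 0 < ((k : ℂ) / 2).re := by
    have : ((k : ℂ) / 2) = (((k : ℝ) / 2 : ℝ) : ℂ) := by push_cast; ring
    rw [this, ofReal_re]
    positivity
  have hΛ : AnalyticAt ℂ (ModularForm.Λ hk' f) ((k : ℂ) / 2) :=
    (CuspForm.differentiable_Λ hk' f).analyticAt _
  have hinv : AnalyticAt ℂ (fun s => (Gammaℂ s)⁻¹) ((k : ℂ) / 2) := differentiable_Gammaℂ_inv.analyticAt _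
  have h2 : AnalyticAt ℂ (fun s => 2 / Gammaℂ s) ((k : ℂ) / 2) := by
    have e : (fun s => 2 / Gammaℂ s) = fun s => 2 * (Gammaℂ s)⁻¹ := by
      funext s
      rw [div_eq_mul_inv]
    rw [e]
    exact analyticAt_const.mul hinv
  have h3 : (fun s => 2 / Gammaℂ s) ((k : ℂ) / 2) ≠ 0 := by
    have h4 : Gammaℂ ((k : ℂ) / 2) ≠ 0 := by
      unfold Gammaℂ
      refine mul_ne_zero (mul_ne_zero two_ne_zero ?_) (Gamma_ne_zero_of_re_pos hre)
      rw [Ne, cpow_eq_zero_iff]
      simp [Real.pi_ne_zero]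
    exact div_ne_zero two_ne_zero h4
  have h5 : ModularForm.L hk' f = ModularForm.Λ hk' f * fun s => 2 / Gammaℂ s := by
    funext s
    rfl
  have h6 : analyticOrderAt (ModularForm.Λ hk' f) ((k : ℂ) / 2) = n := by
    rw [← hn, hDL, h5, analyticOrderAt_mul hΛ h2, h2.analyticOrderAt_eq_zero.2 h3, add_zero]
  have hNC : (N : ℂ) ≠ 0 := by exact_mod_cast NeZero.ne N
  refine parity_of_fe hΛ (u := fun t => (N : ℂ) ^ (-t)) ?_ (by simp) (fun t => Lambda_fe' hk' hke hw t) h6
  have : Continuous fun t : ℂ => (N : ℂ) ^ (-t) := by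
    simp_rw [cpow_def_of_ne_zero hNC]
    fun_prop
  exact this.continuousAt

end

section bad

variable {N k : ℕ} [NeZero N] {a : ℕ → ℂ}

/-- removing one Euler factor -/
theorem remove_one {l M : ℕ} (hl : l.Prime) (hlM : l.Coprime M) (b : ℂ)
    (hbad : ∀ n, 0 < n → a (l * n) + (if l ∣ n then b * a (n / l) else 0) = a l * a n)
    {s : ℂ} (hs : s ≠ 0) {v : ℂ} (h : HasSum (fun n : ℕ => if n.Coprime M then a n / (n : ℂ) ^ s else 0) v) :
    HasSum (fun n : ℕ => if n.Coprime (l * M) then a n / (n : ℂ) ^ s else 0)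
      ((1 - a l * (l : ℂ) ^ (-s) + b * ((l : ℂ) ^ (-s) * (l : ℂ) ^ (-s))) * v) := by
  have hinj : Function.Injective fun m : ℕ => l * m := fun x y hxy => Nat.eq_of_mul_eq_mul_left hl.pos hxy
  have hcop : ∀ m : ℕ, (l * m).Coprime M ↔ m.Coprime M := by
    intro m
    rw [Nat.coprime_mul_iff_left]
    exact ⟨fun h => h.2, fun h => ⟨hlM, h⟩⟩
  have hpow : ∀ m : ℕ, (((l * m : ℕ) : ℂ) ^ s)⁻¹ = (l : ℂ) ^ (-s) * ((m : ℂ) ^ s)⁻¹ := by
    intro m
    push_cast
    rw [natCast_mul_natCast_cpow, cpow_neg, mul_inv]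
  -- the shifted series
  have h0 : HasSum (fun n : ℕ => if l ∣ n then (if n.Coprime M then a (n / l) / (n : ℂ) ^ s else 0) else 0)
      ((l : ℂ) ^ (-s) * v) := by
    refine (hinj.hasSum_iff ?_).1 ?_
    · intro x hx
      rw [if_neg]
      rintro ⟨m, rfl⟩
      exact hx ⟨m, rfl⟩
    · refine (h.mul_left ((l : ℂ) ^ (-s))).congr_fun ?_
      intro m
      show (if l ∣ l * m then (if (l * m).Coprime M then a (l * m / l) / ((l * m : ℕ) : ℂ) ^ s else 0) else 0) = _
      rw [if_pos (dvd_mul_right l m), Nat.mul_div_cancel_left m hl.pos]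
      by_cases hm : m.Coprime M
      · rw [if_pos ((hcop m).2 hm), if_pos hm, div_eq_mul_inv, hpow]
        ring
      · rw [if_neg (fun h => hm ((hcop m).1 h)), if_neg hm, mul_zero]
  have h1 : HasSum (fun n : ℕ => if l ∣ n then (if n.Coprime M then a n / (n : ℂ) ^ s else 0) else 0)
      (a l * (l : ℂ) ^ (-s) * v - b * (l : ℂ) ^ (-s) * ((l : ℂ) ^ (-s) * v)) := by
    refine (hinj.hasSum_iff ?_).1 ?_
    · intro x hx
      rw [if_neg]
      rintro ⟨m, rfl⟩
      exact hx ⟨m, rfl⟩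
    · have h2 := (h.mul_left (a l * (l : ℂ) ^ (-s))).sub (h0.mul_left (b * (l : ℂ) ^ (-s)))
      refine h2.congr_fun ?_
      intro m
      show (if l ∣ l * m then (if (l * m).Coprime M then a (l * m) / ((l * m : ℕ) : ℂ) ^ s else 0) else 0) = _
      rw [if_pos (dvd_mul_right l m)]
      by_cases hm : m.Coprime M
      · rw [if_pos ((hcop m).2 hm), if_pos hm]
        rcases Nat.eq_zero_or_pos m with rfl | hm0
        · simp [zero_cpow hs]
        · have h3 : a (l * m) = a l * a m - (if l ∣ m then b * a (m / l) else 0) := by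
            rw [← hbad m hm0]
            ring
          rw [h3, div_eq_mul_inv, hpow]
          by_cases hd : l ∣ m
          · rw [if_pos hd, if_pos hd, if_pos hm]
            ring
          · rw [if_neg hd, if_neg hd]
            ring
      · rw [if_neg (fun h => hm ((hcop m).1 h)), if_neg hm, if_neg hm]
        simp
  have h4 := h.sub h1
  have h6 : v - (a l * (l : ℂ) ^ (-s) * v - b * (l : ℂ) ^ (-s) * ((l : ℂ) ^ (-s) * v)) =
      (1 - a l * (l : ℂ) ^ (-s) + b * ((l : ℂ) ^ (-s) * (l : ℂ) ^ (-s))) * v := by ring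
  rw [h6] at h4
  refine h4.congr_fun ?_
  · intro n
    have h5 : n.Coprime (l * M) ↔ ¬ l ∣ n ∧ n.Coprime M := by
      rw [Nat.coprime_mul_iff_right, Nat.coprime_comm, Nat.Prime.coprime_iff_not_dvd hl]
    by_cases hd : l ∣ n
    · rw [if_neg (fun h => (h5.1 h).1 hd), if_pos hd, sub_self]
    · rw [if_neg hd, sub_zero]
      by_cases hc : n.Coprime M
      · rw [if_pos hc, if_pos (h5.2 ⟨hd, hc⟩)]
      · rw [if_neg hc, if_neg (fun h => hc (h5.1 h).2)]

/-- removing all Euler factors at the primes dividing `N` -/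
theorem remove_bad (b : ℕ → ℂ) (hbad : ∀ l : ℕ, l.Prime → l ∣ N → ∀ n, 0 < n →
      a (l * n) + (if l ∣ n then b l * a (n / l) else 0) = a l * a n)
    {s : ℂ} (hs : s ≠ 0) {v : ℂ} (h : HasSum (fun n : ℕ => a n / (n : ℂ) ^ s) v) :
    HasSum (fun n : ℕ => (1 : DirichletCharacter ℂ N) n * a n / (n : ℂ) ^ s)
      ((∏ l ∈ N.primeFactors, (1 - a l * (l : ℂ) ^ (-s) + b l * ((l : ℂ) ^ (-s) * (l : ℂ) ^ (-s)))) * v) := by
  have key : ∀ S : Finset ℕ, S ⊆ N.primeFactors →
      HasSum (fun n : ℕ => if n.Coprime (∏ l ∈ S, l) then a n / (n : ℂ) ^ s else 0)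
        ((∏ l ∈ S, (1 - a l * (l : ℂ) ^ (-s) + b l * ((l : ℂ) ^ (-s) * (l : ℂ) ^ (-s)))) * v) := by
    intro S
    induction S using Finset.induction_on with
    | empty =>
      intro _
      simpa using h
    | insert l S hl ih =>
      intro hS
      have hlN := hS (Finset.mem_insert_self l S)
      have hlp := Nat.prime_of_mem_primeFactors hlN
      have h1 := ih fun x hx => hS (Finset.mem_insert_of_mem hx)
      have hco : l.Coprime (∏ x ∈ S, x) := by
        refine Nat.Coprime.prod_right fun x hx => ?_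
        refine (Nat.coprime_primes hlp (Nat.prime_of_mem_primeFactors (hS (Finset.mem_insert_of_mem hx)))).2 ?_
        rintro rfl
        exact hl hx
      have h2 := remove_one hlp hco (b l) (hbad l hlp (Nat.dvd_of_mem_primeFactors hlN)) hs h1
      rw [Finset.prod_insert hl, Finset.prod_insert hl, mul_assoc]
      exact h2
  have h1 := key N.primeFactors le_rfl
  convert h1 using 2 with n
  have h2 : n.Coprime (∏ l ∈ N.primeFactors, l) ↔ n.Coprime N := by
    constructor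
    · intro h3
      rw [Nat.coprime_comm, Nat.coprime_iff_gcd_eq_one]
      by_contra hne
      obtain ⟨l, hl, hld⟩ := Nat.exists_prime_and_dvd hne
      have hlN := hld.trans (Nat.gcd_dvd_left N n)
      have hln := hld.trans (Nat.gcd_dvd_right N n)
      have h4 : l ∣ ∏ l ∈ N.primeFactors, l :=
        Finset.dvd_prod_of_mem _ (Nat.mem_primeFactors.2 ⟨hl, hlN, NeZero.ne N⟩)
      have h5 := Nat.dvd_gcd hln h4
      rw [h3] at h5
      exact hl.one_lt.ne' (Nat.dvd_one.1 h5)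
    · intro h3
      exact Nat.Coprime.coprime_dvd_right (Nat.prod_primeFactors_dvd N) h3
  by_cases hc : n.Coprime N
  · rw [if_pos (h2.2 hc)]
    have : (1 : DirichletCharacter ℂ N) (n : ZMod N) = 1 := by
      rw [← ZMod.coe_unitOfCoprime n hc, MulChar.one_apply_coe]
    rw [this, one_mul]
  · rw [if_neg (fun h => hc (h2.1 h))]
    have : (1 : DirichletCharacter ℂ N) (n : ZMod N) = 0 := by
      apply MulChar.map_nonunit
      rwa [ZMod.isUnit_iff_coprime]
    rw [this]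
    simp

/-- the Euler factors at the primes dividing `N` do not change the order at the centre -/
theorem order_bad (b : ℕ → ℂ) (hbad : ∀ l : ℕ, l.Prime → l ∣ N → ∀ n, 0 < n →
      a (l * n) + (if l ∣ n then b l * a (n / l) else 0) = a l * a n)
    (hne : ∀ l : ℕ, l.Prime → l ∣ N → 1 - a l * (l : ℂ) ^ (-((k : ℂ) / 2)) +
      b l * ((l : ℂ) ^ (-((k : ℂ) / 2)) * (l : ℂ) ^ (-((k : ℂ) / 2))) ≠ 0) {D E : ℂ → ℂ}
    (hD : Differentiable ℂ D) (hE : Differentiable ℂ E)
    (hsum : ∀ s : ℂ, (k : ℝ) / 2 + 1 < s.re → HasSum (fun n : ℕ => a n / (n : ℂ) ^ s) (D s))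
    (hsumE : ∀ s : ℂ, (k : ℝ) / 2 + 1 < s.re →
      HasSum (fun n : ℕ => (1 : DirichletCharacter ℂ N) n * a n / (n : ℂ) ^ s) (E s)) :
    analyticOrderAt E ((k : ℂ) / 2) = analyticOrderAt D ((k : ℂ) / 2) := by
  set P : ℂ → ℂ := fun s => ∏ l ∈ N.primeFactors,
    (1 - a l * (l : ℂ) ^ (-s) + b l * ((l : ℂ) ^ (-s) * (l : ℂ) ^ (-s))) with hP
  have hfac : ∀ l ∈ N.primeFactors, Differentiable ℂ fun s : ℂ =>
      1 - a l * (l : ℂ) ^ (-s) + b l * ((l : ℂ) ^ (-s) * (l : ℂ) ^ (-s)) := by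
    intro l hl
    have hl0 : (l : ℂ) ≠ 0 := by
      exact_mod_cast (Nat.prime_of_mem_primeFactors hl).ne_zero
    simp_rw [cpow_def_of_ne_zero hl0]
    fun_prop
  have hPd : Differentiable ℂ P := Differentiable.fun_finsetProd hfac
  have h1 : E = P * D := by
    refine entire_unique hE (hPd.mul hD) ((k : ℝ) / 2 + 1) fun s hs => ?_
    have hs0 : s ≠ 0 := by
      rintro rfl
      rw [zero_re] at hs
      have : (0 : ℝ) ≤ k := Nat.cast_nonneg k
      linarith
    exact (hsumE s hs).unique (remove_bad b hbad hs0 (hsum s hs))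
  have h2 : P ((k : ℂ) / 2) ≠ 0 := by
    rw [hP]
    exact Finset.prod_ne_zero_iff.2 fun l hl =>
      hne l (Nat.prime_of_mem_primeFactors hl) (Nat.dvd_of_mem_primeFactors hl)
  have hPa : AnalyticAt ℂ P ((k : ℂ) / 2) := hPd.analyticAt _
  rw [h1, analyticOrderAt_mul hPa (hD.analyticAt _), hPa.analyticOrderAt_eq_zero.2 h2, zero_add]

end bad

section final

variable {N : ℕ} [NeZero N] {k : ℕ}

/-- the properties of a newform of level `M`, even weight `k` and trivial nebentypus which are used: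
eigenform of the Fricke involution, and at the primes dividing `N` the Euler factor
`(1 - a_l l^{-s} + b l^{-2s})⁻¹`, without pole at `s = k/2` -/
structure Newf0 (N : ℕ) {M : ℕ} (w : ℂ)
    (f : CuspForm ((CongruenceSubgroup.Gamma1 M).map (Matrix.SpecialLinearGroup.mapGL ℝ)) (k : ℤ)) : Prop where
  fricke : ∀ z : ℍ, f (ofComplex (-1 / (M * (z : ℂ)))) = w * (M : ℂ) ^ (k / 2) * (z : ℂ) ^ k * f z
  euler : ∀ l : ℕ, l.Prime → l ∣ N → ∃ b : ℂ, (∀ n : ℕ, 0 < n → (qExpansion 1 f).coeff (l * n) +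
    (if l ∣ n then b * (qExpansion 1 f).coeff (n / l) else 0) =
      (qExpansion 1 f).coeff l * (qExpansion 1 f).coeff n) ∧
    1 - (qExpansion 1 f).coeff l * (l : ℂ) ^ (-((k : ℂ) / 2)) +
      b * ((l : ℂ) ^ (-((k : ℂ) / 2)) * (l : ℂ) ^ (-((k : ℂ) / 2))) ≠ 0

/-- parity of the order of the `L`-function without the Euler factors at the primes dividing `N` -/
theorem Newf0.parity (hk : 0 < k) (hke : Even k) {M : ℕ} [NeZero M] {w : ℂ}
    {f : CuspForm ((CongruenceSubgroup.Gamma1 M).map (Matrix.SpecialLinearGroup.mapGL ℝ)) (k : ℤ)}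
    (h : Newf0 N w f) {E : ℂ → ℂ} (hE : Differentiable ℂ E)
    (hsumE : ∀ s : ℂ, (k : ℝ) / 2 + 1 < s.re →
      HasSum (fun n : ℕ => (1 : DirichletCharacter ℂ N) n * (qExpansion 1 f).coeff n / (n : ℂ) ^ s) (E s))
    {n : ℕ} (hn : analyticOrderAt E ((k : ℂ) / 2) = n) : (-1) ^ n = w * (-1) ^ (k / 2) := by
  have hk' : 0 < (k : ℤ) := by exact_mod_cast hk
  have hwidth : ((CongruenceSubgroup.Gamma1 M).map
      (Matrix.SpecialLinearGroup.mapGL ℝ)).strictWidthInfty = 1 :=
    strictWidth_of_strictPeriods (CongruenceSubgroup.strictPeriods_Gamma1 M)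
  have hsum : ∀ s : ℂ, (k : ℝ) / 2 + 1 < s.re →
      HasSum (fun n : ℕ => (qExpansion 1 f).coeff n / (n : ℂ) ^ s) (ModularForm.L hk' f s) := by
    intro s hs
    have h1 := CuspForm.hasSum_L (Γ := (CongruenceSubgroup.Gamma1 M).map
      (Matrix.SpecialLinearGroup.mapGL ℝ)) hk' f (s := s) (by simpa using hs)
    rw [hwidth] at h1
    simpa only [ofReal_one, one_cpow, one_mul] using h1
  choose! b hb1 hb2 using h.euler
  have h2 := order_bad b hb1 hb2 (CuspForm.differentiable_L hk' f) hE hsum hsumE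
  exact sign_parity hk hke h.fricke (CuspForm.differentiable_L hk' f) hsum (h2 ▸ hn)

/-- **Even order**: for each `χ ∈ X` such that `f ⊗ χ` has trivial nebentypus, the forms `f ⊗ χ` and `f ⊗ χω` are of the
same level and have the same Fricke eigenvalue; `ω ∈ X` of order two -/
theorem even_order_pair (hk : 0 < k) (hke : Even k)
    {f : CuspForm ((CongruenceSubgroup.Gamma1 N).map (Matrix.SpecialLinearGroup.mapGL ℝ)) (k : ℤ)}
    {ε : DirichletCharacter ℂ N} (he : Eig N k ε fun n => (qExpansion 1 f).coeff n)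
    {D : DirichletCharacter ℂ N → ℂ → ℂ} (hD : ∀ χ, Differentiable ℂ (D χ))
    (hsum : ∀ χ, ∀ s : ℂ, (k : ℝ) / 2 + 1 < s.re →
      HasSum (fun n : ℕ => χ n * (qExpansion 1 f).coeff n / (n : ℂ) ^ s) (D χ s))
    (X : Subgroup (DirichletCharacter ℂ N)) [Fintype X] (hε : ε ∈ X) {ω : DirichletCharacter ℂ N} (hω : ω ∈ X)
    (hω1 : ω ≠ 1) (hω2 : ω * ω = 1)
    (htw : ∀ χ ∈ X, χ * χ * ε = 1 → ∃ (M : ℕ) (_ : NeZero M) (w : ℂ)
      (f₁ f₂ : CuspForm ((CongruenceSubgroup.Gamma1 M).map (Matrix.SpecialLinearGroup.mapGL ℝ)) (k : ℤ)),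
        (∀ n : ℕ, n.Coprime N → (qExpansion 1 f₁).coeff n = χ n * (qExpansion 1 f).coeff n) ∧
        (∀ n : ℕ, n.Coprime N → (qExpansion 1 f₂).coeff n = (χ * ω) n * (qExpansion 1 f).coeff n) ∧
        Newf0 N w f₁ ∧ Newf0 N w f₂) :
    ∃ m : ℕ, analyticOrderAt (fun s => ∏ χ : X, D χ s) (((k : ℝ) / 2 : ℝ) : ℂ) = ((2 * m : ℕ) : ℕ∞) := by
  classical
  have hx : (((k : ℝ) / 2 : ℝ) : ℂ) = (k : ℂ) / 2 := by push_cast; ring
  set x : ℝ := (k : ℝ) / 2 with hxdef
  have hA : ∀ χ, AnalyticAt ℂ (D χ) (x : ℂ) := fun χ => (hD χ).analyticAt _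
  set o : DirichletCharacter ℂ N → ℕ := fun χ => analyticOrderNatAt (D χ) (x : ℂ) with ho
  have hoc : ∀ χ, ((o χ : ℕ) : ℕ∞) = analyticOrderAt (D χ) (x : ℂ) := fun χ =>
    Nat.cast_analyticOrderNatAt (order_ne_top he hD hsum χ _)
  have hinv : ∀ χ, o (ε * χ)⁻¹ = o χ := by
    intro χ
    have h1 := analyticOrderAt_conj_conj (hA χ)
    rw [conj_D he hD hsum χ, ← hoc, ← hoc] at h1
    exact_mod_cast h1
  -- the characters with trivial nebentypus
  have hpar : ∀ (χ : DirichletCharacter ℂ N) (M : ℕ) (_ : NeZero M) (w : ℂ)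
      (f' : CuspForm ((CongruenceSubgroup.Gamma1 M).map (Matrix.SpecialLinearGroup.mapGL ℝ)) (k : ℤ)),
      (∀ n : ℕ, n.Coprime N → (qExpansion 1 f').coeff n = χ n * (qExpansion 1 f).coeff n) → Newf0 N w f' →
      (-1 : ℂ) ^ (o χ) = w * (-1) ^ (k / 2) := by
    intro χ M _ w f' h12 hf'
    refine hf'.parity hk hke (hD χ) (fun s hs => ?_) (by rw [← hx, ← hoc χ])
    have h3 := hsum χ s hs
    convert h3 using 2 with n
    by_cases hc : n.Coprime N
    · have h4 : (1 : DirichletCharacter ℂ N) (n : ZMod N) = 1 := by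
        rw [← ZMod.coe_unitOfCoprime n hc, MulChar.one_apply_coe]
      rw [h4, one_mul, h12 n hc]
    · have h4 : ∀ ψ : DirichletCharacter ℂ N, ψ (n : ZMod N) = 0 := by
        intro ψ
        apply MulChar.map_nonunit
        rwa [ZMod.isUnit_iff_coprime]
      rw [h4 1, h4 χ]
      simp
  have hsame : ∀ χ ∈ X, χ * χ * ε = 1 → ((o χ : ℕ) : ZMod 2) + ((o (χ * ω) : ℕ) : ZMod 2) = 0 := by
    intro χ hχ hχ2
    obtain ⟨M, hM, w, f₁, f₂, h1, h2, hf1, hf2⟩ := htw χ hχ hχ2
    have h5 : (-1 : ℂ) ^ (o χ + o (χ * ω)) = 1 := by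
      rw [pow_add, hpar χ M hM w f₁ h1 hf1, ← hpar (χ * ω) M hM w f₂ h2 hf2, ← pow_add, ← two_mul, pow_mul]
      norm_num
    have h6 : Even (o χ + o (χ * ω)) := by
      by_contra hodd
      rw [Nat.not_even_iff_odd] at hodd
      rw [hodd.neg_one_pow] at h5
      norm_num at h5
    rw [← Nat.cast_add]
    exact (ZMod.natCast_eq_zero_iff_even).2 h6
  obtain ⟨-, hprod⟩ := analyticOrderAt_finset_prod (Finset.univ : Finset X)
    (fun χ : X => D (χ : DirichletCharacter ℂ N)) (x : ℂ) fun i _ => hA _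
  rw [hprod]
  have hsumo : ∑ χ : X, analyticOrderAt (D (χ : DirichletCharacter ℂ N)) (x : ℂ)
      = ((∑ χ : X, o χ : ℕ) : ℕ∞) := by
    push_cast
    exact Finset.sum_congr rfl fun χ _ => (hoc _).symm
  rw [hsumo]
  have heven : Even (∑ χ : X, o χ) := by
    rw [← ZMod.natCast_eq_zero_iff_even]
    push_cast
    let σ : X → X := fun χ => if (χ : DirichletCharacter ℂ N) * χ * ε = 1 then χ * ⟨ω, hω⟩ else
      ⟨(ε * χ)⁻¹, X.inv_mem (X.mul_mem hε χ.2)⟩
    have hσ1 : ∀ χ : X, (χ : DirichletCharacter ℂ N) * χ * ε = 1 → σ χ = χ * ⟨ω, hω⟩ := fun χ h => if_pos h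
    have hσ2 : ∀ χ : X, (χ : DirichletCharacter ℂ N) * χ * ε ≠ 1 →
        σ χ = ⟨(ε * χ)⁻¹, X.inv_mem (X.mul_mem hε χ.2)⟩ := fun χ h => if_neg h
    refine Finset.sum_involution (fun χ _ => σ χ) ?_ ?_ ?_ ?_
    · intro χ _
      by_cases h : (χ : DirichletCharacter ℂ N) * χ * ε = 1
      · rw [hσ1 χ h]
        exact hsame χ χ.2 h
      · have h7 : o ((σ χ : X) : DirichletCharacter ℂ N) = o χ := by
          rw [hσ2 χ h]
          exact hinv χ
        rw [h7]
        exact CharTwo.add_self_eq_zero _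
    · intro χ _ _ hfix
      by_cases h : (χ : DirichletCharacter ℂ N) * χ * ε = 1
      · rw [hσ1 χ h] at hfix
        have h8 : (χ : DirichletCharacter ℂ N) * ω = χ := congrArg Subtype.val hfix
        exact hω1 (mul_eq_left.1 h8)
      · rw [hσ2 χ h] at hfix
        apply h
        have h8 : (ε * (χ : DirichletCharacter ℂ N))⁻¹ = χ := congrArg Subtype.val hfix
        have h9 : (χ : DirichletCharacter ℂ N) * (ε * (χ : DirichletCharacter ℂ N)) = 1 := by
          nth_rewrite 1 [← h8]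
          exact inv_mul_cancel _
        rw [← h9, mul_assoc, mul_comm ε]
    · intro χ _
      exact Finset.mem_univ _
    · intro χ _
      by_cases h : (χ : DirichletCharacter ℂ N) * χ * ε = 1
      · have h1 : ((σ χ : X) : DirichletCharacter ℂ N) * (σ χ : X) * ε = 1 := by
          rw [hσ1 χ h]
          show (χ : DirichletCharacter ℂ N) * ω * (χ * ω) * ε = 1
          rw [mul_mul_mul_comm, hω2, mul_one, h]
        show σ (σ χ) = χ
        rw [hσ1 _ h1, hσ1 χ h]
        apply Subtype.ext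
        show (χ : DirichletCharacter ℂ N) * ω * ω = χ
        rw [mul_assoc, hω2, mul_one]
      · have h1 : ((σ χ : X) : DirichletCharacter ℂ N) * (σ χ : X) * ε ≠ 1 := by
          rw [hσ2 χ h]
          show (ε * (χ : DirichletCharacter ℂ N))⁻¹ * (ε * (χ : DirichletCharacter ℂ N))⁻¹ * ε ≠ 1
          intro h2
          apply h
          have h3 : (ε * (χ : DirichletCharacter ℂ N)) * (ε * (χ : DirichletCharacter ℂ N)) = ε := by
            have h4 := congrArg (fun ψ => (ε * (χ : DirichletCharacter ℂ N)) * (ε * (χ : DirichletCharacter ℂ N)) * ψ) h2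
            simp only [mul_one] at h4
            rw [← h4]
            group
          have h5 : ε * ((χ : DirichletCharacter ℂ N) * χ * ε) = ε * 1 := by
            rw [mul_one]
            nth_rewrite 3 [← h3]
            rw [mul_assoc, mul_assoc, mul_comm (χ : DirichletCharacter ℂ N) ε]
          exact mul_left_cancel h5
        show σ (σ χ) = χ
        rw [hσ2 _ h1]
        apply Subtype.ext
        rw [hσ2 χ h]
        change (ε * (ε * (χ : DirichletCharacter ℂ N))⁻¹)⁻¹ = χ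
        rw [mul_inv, inv_inv, inv_mul_cancel_left]
  obtain ⟨m, hm⟩ := heven
  exact ⟨m, by rw [hm]; congr 1; ring⟩

end final

end

end Pool.Agent.H44.PC
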