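import Pool.Agent.H44.PC.Eig

/-!
# The coefficients of a Hecke eigenform are multiplicative
-/

set_option autoImplicit false

open ComplexConjugate

namespace Pool.Agent.H44.PC

theorem eig_of_hecke {N k : ℕ} {ε : DirichletCharacter ℂ N} {a : ℕ → ℂ} (h1 : a 1 = 1)
    (hT : ∀ l : ℕ, l.Prime → ¬ l ∣ N → ∀ n : ℕ, 0 < n →
      a (l * n) + (if l ∣ n then ε (l : ZMod N) * (l : ℂ) ^ (k - 1) * a (n / l) else 0) = a l * a n)
    (hadj : ∀ l : ℕ, l.Prime → ¬ l ∣ N → conj (a l) = conj (ε (l : ZMod N)) * a l) :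
    Eig N k ε a := by
  -- the three-term relation
  have h3 : ∀ l : ℕ, l.Prime → ¬ l ∣ N → ∀ (n : ℕ), 0 < n → ∀ r : ℕ,
      a (l ^ (r + 2) * n) = a l * a (l ^ (r + 1) * n) -
        ε l * (l : ℂ) ^ (k - 1) * a (l ^ r * n) := by
    intro l hl hN n hn r
    have hpos : 0 < l ^ (r + 1) * n := Nat.mul_pos (pow_pos hl.pos _) hn
    have h := hT l hl hN (l ^ (r + 1) * n) hpos
    have hd : l ∣ l ^ (r + 1) * n := (dvd_pow_self l (Nat.succ_ne_zero r)).mul_right n
    rw [if_pos hd] at h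
    have e1 : l * (l ^ (r + 1) * n) = l ^ (r + 2) * n := by ring
    have e2 : l ^ (r + 1) * n / l = l ^ r * n := by
      rw [pow_succ, mul_comm (l ^ r) l, mul_assoc]
      exact Nat.mul_div_cancel_left _ hl.pos
    rw [e1, e2] at h
    linear_combination h
  have h3' : ∀ l : ℕ, l.Prime → ¬ l ∣ N → ∀ r : ℕ,
      a (l ^ (r + 2)) = a l * a (l ^ (r + 1)) - ε l * (l : ℂ) ^ (k - 1) * a (l ^ r) := by
    intro l hl hN r
    simpa only [mul_one] using h3 l hl hN 1 one_pos r
  have hp : ∀ l : ℕ, l.Prime → ¬ l ∣ N → ∀ n : ℕ, 0 < n → ¬ l ∣ n → ∀ r : ℕ,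
      a (l ^ r * n) = a (l ^ r) * a n ∧ a (l ^ (r + 1) * n) = a (l ^ (r + 1)) * a n := by
    intro l hl hN n hn hln r
    induction r with
    | zero =>
      refine ⟨by rw [pow_zero, one_mul, h1, one_mul], ?_⟩
      have h := hT l hl hN n hn
      rw [if_neg hln, add_zero] at h
      rw [zero_add, pow_one]
      exact h
    | succ r ih =>
      refine ⟨ih.2, ?_⟩
      rw [show r + 1 + 1 = r + 2 from rfl, h3 l hl hN n hn r, h3' l hl hN r, ih.1, ih.2]
      ring
  refine ⟨h1, ?_, h3', hadj⟩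
  intro m
  induction m using Nat.strong_induction_on with
  | _ m ih =>
    intro n hmn hmN hnN
    rcases Nat.eq_zero_or_pos n with rfl | hn
    · rw [Nat.coprime_zero_right] at hmn
      rw [hmn, h1, one_mul, one_mul]
    rcases Nat.lt_or_ge 1 m with hm | hm
    · set l := m.minFac with hl'
      have hl : l.Prime := Nat.minFac_prime (by omega)
      have hlm : l ∣ m := Nat.minFac_dvd m
      have hlN : ¬ l ∣ N := fun h => hl.one_lt.ne' (Nat.eq_one_of_dvd_coprimes hmN hlm h)
      have hln : ¬ l ∣ n := fun h => hl.one_lt.ne' (Nat.eq_one_of_dvd_coprimes hmn hlm h)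
      obtain ⟨r, m', hm', hmr⟩ := Nat.exists_eq_pow_mul_and_not_dvd (by omega : m ≠ 0) l hl.ne_one
      have hr : r ≠ 0 := by
        rintro rfl
        rw [pow_zero, one_mul] at hmr
        exact hm' (hmr ▸ hlm)
      have hm'0 : 0 < m' := by
        rcases Nat.eq_zero_or_pos m' with h | h
        · rw [h, mul_zero] at hmr
          omega
        · exact h
      have hlt : m' < m := by
        rw [hmr]
        have : 1 < l ^ r := Nat.one_lt_pow hr hl.one_lt
        nlinarith
      have hdvd : m' ∣ m := ⟨l ^ r, by rw [mul_comm]; exact hmr⟩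
      have h2 := ih m' hlt n (Nat.Coprime.coprime_dvd_left hdvd hmn)
        (Nat.Coprime.coprime_dvd_left hdvd hmN) hnN
      have h4 : ¬ l ∣ m' * n := fun h => (hl.dvd_mul.1 h).elim hm' hln
      rw [hmr, mul_assoc, (hp l hl hlN (m' * n) (Nat.mul_pos hm'0 hn) h4 r).1, h2,
        (hp l hl hlN m' hm'0 hm' r).1, mul_assoc]
    · rcases Nat.lt_or_ge m 1 with h0 | h0
      · have hm0 : m = 0 := by omega
        subst hm0
        rw [Nat.coprime_zero_left] at hmn
        rw [hmn, h1, mul_one, mul_one]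
      · have hm1 : m = 1 := le_antisymm hm h0
        rw [hm1, h1, one_mul, one_mul]

end Pool.Agent.H44.PC
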