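import Pool.Agent.H44.PC.LSide

/-!
# The `L`-function of the base change has even order at the centre
-/

set_option autoImplicit false
set_option linter.style.haveILetI false
set_option linter.unusedSectionVars false

open NumberField
open scoped Pointwise

namespace Pool.Agent.H44.PC

variable {F : IntermediateField ℚ (AlgebraicClosure ℚ)} [NumberField F] [IsGalois ℚ F] {N : ℕ} [NeZero N] {ζ : (AlgebraicClosure ℚ)}
  (hζ : IsPrimitiveRoot ζ N)

/-- the bound for the local terms -/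
theorem xloc_bound {k : ℕ} (hk : Even k) (hk0 : 0 < k) (ε : DirichletCharacter ℂ N) (a : ℕ → ℂ) {s : ℂ}
    (hs : 1 < s.re) {l f n : ℕ} (hl : l.Prime) (hf0 : 0 < f) (hfn : f ≤ n) {M : ℝ}
    (hM : ‖a l * (l : ℂ) ^ (-(s + k / 2))‖ + (l : ℝ) ^ (-3 : ℝ) ≤ M) :
    ‖xloc k ε a s (l ^ f)‖ ≤ 2 * (‖a l * (l : ℂ) ^ (-(s + k / 2))‖ + (l : ℝ) ^ (-3 : ℝ)) * (1 + M) ^ n +
      (l : ℝ) ^ (-3 : ℝ) := by
  set u : ℂ := (l : ℂ) ^ (-(s + k / 2)) with hu
  set b : ℂ := ε (l : ZMod N) * (l : ℂ) ^ (k - 1) with hb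
  have hl1 : (1 : ℝ) < l := by exact_mod_cast hl.one_lt
  have hl0 : (0 : ℝ) < l := by linarith
  have hε : ‖ε (l : ZMod N)‖ ≤ 1 := DirichletCharacter.norm_le_one ε _
  have hB : ‖(l : ℂ) ^ (k - 1) * u ^ 2‖ ≤ (l : ℝ) ^ (-3 : ℝ) := by
    rw [norm_mul, norm_pow, norm_pow, hu, Complex.norm_natCast, Complex.norm_natCast_cpow_of_pos hl.pos,
      ← Real.rpow_natCast, ← Real.rpow_natCast, ← Real.rpow_mul hl0.le, ← Real.rpow_add hl0]
    refine Real.rpow_le_rpow_of_exponent_le hl1.le ?_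
    have e1 : (-(s + (k : ℂ) / 2)).re = -(s.re + k / 2) := by
      simp
    have e2 : ((k - 1 : ℕ) : ℝ) = k - 1 := by
      rw [Nat.cast_sub (by omega)]
      simp
    rw [e1, e2]
    push_cast
    nlinarith
  have hB2 : ‖b * u ^ 2‖ ≤ (l : ℝ) ^ (-3 : ℝ) := by
    rw [hb, mul_assoc, norm_mul]
    exact (mul_le_of_le_one_left (norm_nonneg _) hε).trans hB
  have hB1 : (l : ℝ) ^ (-3 : ℝ) ≤ 1 := Real.rpow_le_one_of_one_le_of_nonpos hl1.le (by norm_num)
  have hB0 : 0 ≤ (l : ℝ) ^ (-3 : ℝ) := Real.rpow_nonneg hl0.le _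
  rw [xloc_pow hk hk0 ε a s hl hf0, ← hu, ← hb]
  refine (norm_add_le _ _).trans ?_
  rw [norm_neg]
  have h1 := (psum_bound (a l) b u f).2 hf0
  have hA0 : 0 ≤ ‖a l * u‖ := norm_nonneg _
  have hS : (1 : ℝ) ≤ 1 + ‖a l * u‖ + ‖b * u ^ 2‖ := by
    have := norm_nonneg (b * u ^ 2)
    linarith
  have hM0 : 0 ≤ M := by linarith
  have h2 : (1 + ‖a l * u‖ + ‖b * u ^ 2‖) ^ (f - 1) ≤ (1 + M) ^ n := by
    refine (pow_le_pow_right₀ hS (by omega : f - 1 ≤ n)).trans ?_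
    exact pow_le_pow_left₀ (by linarith) (by linarith) n
  have h3 : 2 * (‖a l * u‖ + ‖b * u ^ 2‖) * (1 + ‖a l * u‖ + ‖b * u ^ 2‖) ^ (f - 1) ≤
      2 * (‖a l * u‖ + (l : ℝ) ^ (-3 : ℝ)) * (1 + M) ^ n := by
    refine mul_le_mul (by linarith) h2 (by positivity) (by linarith)
  have h4 : ‖((l : ℂ) ^ (k - 1) * u ^ 2) ^ f‖ ≤ (l : ℝ) ^ (-3 : ℝ) := by
    rw [norm_pow]
    refine (pow_le_of_le_one (norm_nonneg _) (hB.trans hB1) hf0.ne').trans hB
  linarith

include hζ in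
theorem analytic_gen (hF : F ≤ IntermediateField.adjoin ℚ {ζ}) {k : ℕ} (hk : Even k) (hk0 : 0 < k)
    {ε : DirichletCharacter ℂ N} {a : ℕ → ℂ} (h : Eig N k ε a) (D : DirichletCharacter ℂ N → ℂ → ℂ)
    (hD : ∀ χ, Differentiable ℂ (D χ))
    (hsum : ∀ χ, ∀ s : ℂ, (k : ℝ) / 2 + 1 < s.re → HasSum (fun n : ℕ => χ n * a n / (n : ℂ) ^ s) (D χ s))
    (hε : ε ∈ charGrp hζ F)
    (hord : ∀ [Fintype (charGrp hζ F)], ∃ m : ℕ,
      analyticOrderAt (fun s => ∏ χ : charGrp hζ F, D χ s) (((k : ℝ) / 2 : ℝ) : ℂ) = ((2 * m : ℕ) : ℕ∞)) :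
    ∃ Λ : ℂ → ℂ, Differentiable ℂ Λ ∧
      (∀ s : ℂ, 1 < s.re → HasProd (fun v : GoodPrime F N =>
        (1 - tBC k ε a (Ideal.absNorm v.1) * (Ideal.absNorm v.1 : ℂ) ^ (-1 - s) +
          (Ideal.absNorm v.1 : ℂ) ^ (-1 - 2 * s))⁻¹) (Λ s)) ∧
      ∃ m : ℕ, analyticOrderAt Λ 0 = ((2 * m : ℕ) : ℕ∞) := by
  classical
  haveI : Fintype (charGrp hζ F) := Fintype.ofFinite _
  set X := charGrp hζ F with hX
  refine ⟨fun s => ∏ χ : X, D χ (s + k / 2), ?_, fun s hs => ?_, ?_⟩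
  · refine Differentiable.fun_finsetProd fun χ _ => ?_
    exact (hD χ).comp (differentiable_id.add_const _)
  · set s' : ℂ := s + k / 2 with hs'
    have hre : (k : ℝ) / 2 + 1 < s'.re := by
      rw [hs']
      simp
      linarith
    have hs0 : s' ≠ 0 := by
      intro h0
      rw [h0, Complex.zero_re] at hre
      have : (0 : ℝ) ≤ k := Nat.cast_nonneg k
      linarith
    have hnorm : ∀ χ : DirichletCharacter ℂ N, Summable (fun n : ℕ => ‖χ n * a n / (n : ℂ) ^ s'‖) := fun χ =>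
      (hsum χ s' hre).summable.norm
    haveI : ∀ l, Fintype {v : GoodPrime F N // below N v = l} := fun l => by
      haveI := finite_fib (F := F) hζ hF l
      exact Fintype.ofFinite _
    let x : GoodPrime F N → ℂ := fun v => xloc k ε a s (Ideal.absNorm v.1)
    let G : Nat.Primes → ℂ := fun l => ∏ χ : X, (1 - (χ : DirichletCharacter ℂ N) (l : ℕ) * a l * (l : ℂ) ^ (-s') +
      (χ : DirichletCharacter ℂ N) (l : ℕ) ^ 2 * ε (l : ℕ) * (l : ℂ) ^ (k - 1) * ((l : ℂ) ^ (-s')) ^ 2)⁻¹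
    have hG : HasProd G (∏ χ : X, D χ s') := by
      refine hasProd_prod fun χ _ => ?_
      have h1 := euler h (χ : DirichletCharacter ℂ N) hs0 (hnorm χ)
      rw [(hsum χ s' hre).tsum_eq] at h1
      exact h1
    have hcard : ∀ l : Nat.Primes, Fintype.card {v : GoodPrime F N // below N v = l} ≤ Nat.card X := by
      intro l
      by_cases hN : (l : ℕ) ∣ N
      · have : IsEmpty {v : GoodPrime F N // below N v = l} := ⟨fun v => below_dvd N v.1 (by rw [v.2]; exact hN)⟩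
        rw [Fintype.card_eq_zero]
        exact Nat.zero_le _
      · obtain ⟨f, hf0, -, -, -, h5⟩ := splitting (F := F) hζ hF l.2 hN
        rw [← Nat.card_eq_fintype_card, card_fib (F := F) hζ hF l hN, ← h5]
        exact Nat.le_mul_of_pos_right _ hf0
    have hx : Summable x := by
      have hA : Summable fun l : Nat.Primes => ‖(1 : DirichletCharacter ℂ N) (l : ℕ) * a l / ((l : ℕ) : ℂ) ^ s'‖ :=
        (hnorm 1).comp_injective Nat.Primes.coe_nat_injective
      have hBs : Summable fun l : Nat.Primes => ((l : ℕ) : ℝ) ^ (-3 : ℝ) :=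
        Nat.Primes.summable_rpow.2 (by norm_num)
      set A : Nat.Primes → ℝ := fun l => ‖(1 : DirichletCharacter ℂ N) (l : ℕ) * a l / ((l : ℕ) : ℂ) ^ s'‖ with hAdef
      set B : Nat.Primes → ℝ := fun l => ((l : ℕ) : ℝ) ^ (-3 : ℝ) with hBdef
      have hB0 : ∀ l, 0 ≤ B l := fun l => Real.rpow_nonneg (Nat.cast_nonneg _) _
      have hAB := hA.add hBs
      have hAB0 : ∀ l, 0 ≤ A l + B l := fun l => add_nonneg (norm_nonneg _) (hB0 l)
      set M : ℝ := ∑' l, (A l + B l) with hMdef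
      have hMl : ∀ l, A l + B l ≤ M := fun l => hAB.le_tsum l fun j _ => hAB0 j
      refine summable_fib (below N) (Nat.card X) hcard x
        (fun l => 2 * (A l + B l) * (1 + M) ^ (Nat.card X) + B l)
        (((hAB.mul_left 2).mul_right _).add hBs) fun v => ?_
      have hN := below_dvd N v
      obtain ⟨f, hf0, -, h4, -, h5⟩ := splitting (F := F) hζ hF (below N v).2 hN
      have h6 := h4 v.1 v.2.1 (below_mem N v)
      have hco : ((below N v : Nat.Primes) : ℕ).Coprime N := (Nat.Prime.coprime_iff_not_dvd (below N v).2).2 hN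
      have h7 : A (below N v) = ‖a (below N v) * (((below N v : Nat.Primes) : ℕ) : ℂ) ^ (-(s + k / 2))‖ := by
        rw [hAdef]
        show ‖_‖ = ‖_‖
        rw [← ZMod.coe_unitOfCoprime _ hco, MulChar.one_apply_coe, one_mul, ← hs', Complex.cpow_neg]
        rfl
      have h8 : f ≤ Nat.card X := by
        refine Nat.le_of_dvd Nat.card_pos ?_
        rw [← h5]
        exact Dvd.intro_left _ rfl
      show ‖xloc k ε a s (Ideal.absNorm v.1)‖ ≤ _
      rw [h6, h7]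
      refine xloc_bound hk hk0 ε a hs (below N v).2 hf0 h8 ?_
      have := hMl (below N v)
      rw [h7] at this
      exact this
    have h1 : ∀ l : Nat.Primes, (∏ v : {v : GoodPrime F N // below N v = l}, (1 + x v)) * G l = 1 := by
      intro l
      by_cases hN : (l : ℕ) ∣ N
      · have : IsEmpty {v : GoodPrime F N // below N v = l} := ⟨fun v => below_dvd N v.1 (by rw [v.2]; exact hN)⟩
        rw [Finset.prod_of_isEmpty, one_mul]
        refine Finset.prod_eq_one fun χ _ => ?_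
        have h2 : (χ : DirichletCharacter ℂ N) ((l : ℕ) : ZMod N) = 0 := by
          apply MulChar.map_nonunit
          rw [ZMod.isUnit_iff_coprime]
          intro h3
          exact (Nat.Prime.coprime_iff_not_dvd l.2).1 h3 hN
        rw [h2]
        simp
      · obtain ⟨f, hf0, h3, h4, -, h5⟩ := splitting (F := F) hζ hF l.2 hN
        have h6 : ∀ v : {v : GoodPrime F N // below N v = l}, 1 + x v = 1 + xloc k ε a s ((l : ℕ) ^ f) := by
          intro v
          show 1 + xloc k ε a s (Ideal.absNorm v.1.1) = _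
          rw [h4 v.1.1 v.1.2.1 (fib_mem N v.1 v.2)]
        rw [Finset.prod_congr rfl fun v _ => h6 v, Finset.prod_const, Finset.card_univ,
          ← Nat.card_eq_fintype_card, card_fib (F := F) hζ hF l hN]
        have h7 : {v : Ideal (𝓞 F) | v.IsPrime ∧ ((l : ℕ) : 𝓞 F) ∈ v}.ncard = Nat.card X / f := by
          rw [← h5, Nat.mul_div_cancel _ hf0]
        rw [h7, xloc_pow hk hk0 ε a s l.2 hf0, local_prod k X hε l.2 hN hf0 h3, ← hs']
        show _ * ∏ χ : X, _ = 1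
        rw [← Finset.prod_mul_distrib]
        refine Finset.prod_eq_one fun χ _ => ?_
        exact mul_inv_cancel₀ (euler_ne h (χ : DirichletCharacter ℂ N) (hnorm χ) l.2)
    have h2 := regroup (below N) x hx G hG h1
    refine h2.congr_fun ?_ |> id
    intro v
    show _ = (1 + xloc k ε a s (Ideal.absNorm v.1))⁻¹
    rw [xloc]
    congr 1
    ring
  · obtain ⟨m, hm⟩ := hord
    refine ⟨m, ?_⟩
    have h1 : AnalyticAt ℂ (fun s : ℂ => s + k / 2) 0 := by fun_prop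
    have h2 : deriv (fun s : ℂ => s + (k : ℂ) / 2) 0 ≠ 0 := by
      rw [deriv_add_const]
      simp
    have h3 := analyticOrderAt_comp_of_deriv_ne_zero (f := fun s => ∏ χ : X, D χ s) h1 h2
    have h4 : (fun s => ∏ χ : X, D χ s) ∘ (fun s : ℂ => s + k / 2) = fun s => ∏ χ : X, D χ (s + k / 2) := rfl
    rw [h4] at h3
    rw [h3]
    have h5 : (0 : ℂ) + (k : ℂ) / 2 = (((k : ℝ) / 2 : ℝ) : ℂ) := by
      push_cast
      ring
    show analyticOrderAt (fun s => ∏ χ : X, D χ s) (0 + (k : ℂ) / 2) = _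
    rw [h5]
    exact hm

include hζ in
theorem analytic (hF : F ≤ IntermediateField.adjoin ℚ {ζ}) {k : ℕ} (hk : Even k) (hk0 : 0 < k)
    {ε : DirichletCharacter ℂ N} {a : ℕ → ℂ} (h : Eig N k ε a) (D : DirichletCharacter ℂ N → ℂ → ℂ)
    (hD : ∀ χ, Differentiable ℂ (D χ))
    (hsum : ∀ χ, ∀ s : ℂ, (k : ℝ) / 2 + 1 < s.re → HasSum (fun n : ℕ => χ n * a n / (n : ℂ) ^ s) (D χ s))
    (hε : ε ∈ charGrp hζ F) (hsq : ∀ χ ∈ charGrp hζ F, χ * χ ≠ ε) :
    ∃ Λ : ℂ → ℂ, Differentiable ℂ Λ ∧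
      (∀ s : ℂ, 1 < s.re → HasProd (fun v : GoodPrime F N =>
        (1 - tBC k ε a (Ideal.absNorm v.1) * (Ideal.absNorm v.1 : ℂ) ^ (-1 - s) +
          (Ideal.absNorm v.1 : ℂ) ^ (-1 - 2 * s))⁻¹) (Λ s)) ∧
      ∃ m : ℕ, analyticOrderAt Λ 0 = ((2 * m : ℕ) : ℕ∞) :=
  analytic_gen hζ hF hk hk0 h D hD hsum hε
    (even_order h hD hsum (charGrp hζ F) hε hsq ((k : ℝ) / 2))

end Pool.Agent.H44.PC
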