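import Pool.Agent.H44.PC.Tl
import Pool.Agent.H44.PC.Adj
import Pool.Agent.H44.PC.HArith
import Pool.Agent.H44.PC.LMain
import Pool.Agent.H44.PC.FE
import Pool.Agent.H44.PC.ExtBC

/-!
# Hecke eigenforms
-/

set_option autoImplicit false
set_option linter.style.haveILetI false
set_option linter.unusedSectionVars false

open NumberField UpperHalfPlane ModularForm
open scoped MatrixGroups

namespace Pool.Agent.H44.PC

/-- the eigenvalues of a Hecke eigenform satisfy `conj a_ℓ = conj ε(ℓ) a_ℓ` -/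
theorem HeckeForm.adj {N k : ℕ} [NeZero N] (hk0 : 0 < k) {ε : DirichletCharacter ℂ N}
    {h : CuspForm ((CongruenceSubgroup.Gamma1 N).map (Matrix.SpecialLinearGroup.mapGL ℝ)) (k : ℤ)}
    (hh : HeckeForm ε h) {ℓ : ℕ} (hℓ : ℓ.Prime) (hN : ¬ ℓ ∣ N) :
    (starRingEnd ℂ) (coef h ℓ) = (starRingEnd ℂ) (ε (ℓ : ZMod N)) * coef h ℓ := by
  refine adj_of_TT hℓ hN ε h ?_ hh.neb _ (TT_eq hℓ ε hk0 h _ (hh.hecke ℓ hℓ hN))
  intro h0
  have h1 := hh.one
  have h2 : (h : ℍ → ℂ) = 0 := h0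
  rw [coef, h2, qExpansion_zero] at h1
  simp at h1

theorem HeckeForm.eig {N k : ℕ} [NeZero N] (hk0 : 0 < k) {ε : DirichletCharacter ℂ N}
    {h : CuspForm ((CongruenceSubgroup.Gamma1 N).map (Matrix.SpecialLinearGroup.mapGL ℝ)) (k : ℤ)}
    (hh : HeckeForm ε h) : Eig N k ε (coef h) :=
  eig_of_hecke hh.one hh.hecke fun _ hℓ hN => hh.adj hk0 hℓ hN

theorem Newf.raw {N M k : ℕ} [NeZero M] (hk : Even k) {w : ℂ}
    {h : CuspForm ((CongruenceSubgroup.Gamma1 M).map (Matrix.SpecialLinearGroup.mapGL ℝ)) (k : ℤ)}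
    (hh : Newf N w h) : Newf0 N w h where
  fricke z := by
    have hM : (0 : ℝ) < M := Nat.cast_pos.2 (NeZero.pos M)
    have him : 0 < (-1 / (M * (z : ℂ))).im := by
      have h1 : (-1 / ((M : ℂ) * (z : ℂ))) = ((-(M : ℝ)⁻¹ : ℝ) : ℂ) * (z : ℂ)⁻¹ := by
        push_cast
        rw [div_eq_mul_inv, mul_inv]
        ring
      rw [h1, Complex.im_ofReal_mul, Complex.inv_im]
      have h2 : 0 < Complex.normSq (z : ℂ) := Complex.normSq_pos.2 z.ne_zero
      have h3 : 0 < (z : ℂ).im := z.im_pos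
      have : -(M : ℝ)⁻¹ * (-(z : ℂ).im / Complex.normSq (z : ℂ)) = (M : ℝ)⁻¹ * ((z : ℂ).im / Complex.normSq (z : ℂ)) := by
        ring
      rw [this]
      positivity
    rw [ofComplex_apply_of_im_pos him]
    exact hh.fricke z ⟨_, him⟩ rfl
  euler l hl hlN := by
    obtain ⟨b, h1, h2⟩ := hh.euler l hl hlN
    refine ⟨b, h1, ?_⟩
    have hl0 : (l : ℂ) ≠ 0 := Nat.cast_ne_zero.2 hl.ne_zero
    obtain ⟨c, rfl⟩ := hk
    have e1 : (l : ℂ) ^ (-(((c + c : ℕ) : ℂ) / 2)) = ((l : ℂ) ^ c)⁻¹ := by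
      rw [Complex.cpow_neg]
      congr 1
      rw [← Complex.cpow_natCast]
      congr 1
      push_cast
      ring
    have e2 : (c + c) / 2 = c := by omega
    rw [e2] at h2
    rw [e1, ← mul_inv, ← pow_add, ← div_eq_mul_inv, ← div_eq_mul_inv]
    exact h2

/-- the twisted `L`-functions -/
theorem exists_D {N : ℕ} [NeZero N] {k : ℕ} (hk0 : 0 < k)
    (h : CuspForm ((CongruenceSubgroup.Gamma1 N).map (Matrix.SpecialLinearGroup.mapGL ℝ)) (k : ℤ)) :
    ∃ D : DirichletCharacter ℂ N → ℂ → ℂ, (∀ χ, Differentiable ℂ (D χ)) ∧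
      ∀ χ, ∀ s : ℂ, (k : ℝ) / 2 + 1 < s.re →
        HasSum (fun n : ℕ => χ n * coef h n / (n : ℂ) ^ s) (D χ s) := by
  choose D h1 h2 using fun χ : DirichletCharacter ℂ N => twist (by exact_mod_cast hk0) h (fun x => χ x)
  refine ⟨D, h1, fun χ s hs => h2 χ s ?_⟩
  push_cast
  exact hs

variable {F : IntermediateField ℚ (AlgebraicClosure ℚ)} [NumberField F] [IsGalois ℚ F] {N : ℕ} [NeZero N] {ζ : (AlgebraicClosure ℚ)}
  (hζ : IsPrimitiveRoot ζ N)

omit [NumberField F] [IsGalois ℚ F] in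
include hζ in
theorem isGalois_of_le (hF : F ≤ IntermediateField.adjoin ℚ {ζ}) : IsGalois ℚ F := by
  have h : F.fixingSubgroup.Normal := by
    constructor
    intro τ hτ σ
    have h1 : σ * τ * σ⁻¹ * τ⁻¹ ∈ F.fixingSubgroup := mem_of_cyc hζ hF (by
      rw [map_mul, map_mul, map_mul, map_inv, map_inv, mul_comm (cyc hζ σ), mul_inv_cancel_right, mul_inv_cancel])
    have h2 := F.fixingSubgroup.mul_mem h1 hτ
    rwa [inv_mul_cancel_right] at h2
  exact (InfiniteGalois.normal_iff_isGalois F).1 h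

end Pool.Agent.H44.PC
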