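import Pool.Agent.H44.PC.Sel

/-!
# Frobenius elements in the absolute Galois group of `ℚ`
-/

set_option autoImplicit false
set_option linter.style.haveILetI false

open NumberField
open scoped Pointwise

namespace Pool.Agent.H44.PC

noncomputable section

instance : Algebra.IsAlgebraic ℚ (AlgebraicClosure ℚ) := by
  have e : (DivisionRing.toRatAlgebra : Algebra ℚ (AlgebraicClosure ℚ)) = AlgebraicClosure.instAlgebra ℚ := Subsingleton.elim _ _
  rw [e]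
  exact AlgebraicClosure.isAlgebraic ℚ

instance : IsGalois ℚ (AlgebraicClosure ℚ) := by
  have : Algebra.IsSeparable ℚ (AlgebraicClosure ℚ) := inferInstance
  have : Normal ℚ (AlgebraicClosure ℚ) := by
    rw [normal_iff]
    intro x
    exact ⟨Algebra.IsAlgebraic.isIntegral.isIntegral x, IsAlgClosed.splits _⟩
  exact ⟨⟩

instance : Algebra.IsInvariant ℤ (𝓞 (AlgebraicClosure ℚ)) ((AlgebraicClosure ℚ) ≃ₐ[ℚ] (AlgebraicClosure ℚ)) where
  isInvariant b hb := by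
    have h1 : ∀ g : ((AlgebraicClosure ℚ) ≃ₐ[ℚ] (AlgebraicClosure ℚ)), g (b : (AlgebraicClosure ℚ)) = b := by
      intro g
      have := congrArg (fun z : 𝓞 (AlgebraicClosure ℚ) => (z : (AlgebraicClosure ℚ))) (hb g)
      exact this
    have h2 : (b : (AlgebraicClosure ℚ)) ∈ (⊥ : IntermediateField ℚ (AlgebraicClosure ℚ)) := (InfiniteGalois.mem_bot_iff_fixed (b : (AlgebraicClosure ℚ))).2 h1
    obtain ⟨q, hq⟩ := IntermediateField.mem_bot.1 h2
    have h3 : IsIntegral ℤ q := by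
      have h4 : IsIntegral ℤ (algebraMap ℚ (AlgebraicClosure ℚ) q) := by
        rw [hq]
        exact b.isIntegral_coe
      exact (isIntegral_algebraMap_iff (algebraMap ℚ (AlgebraicClosure ℚ)).injective).1 h4
    obtain ⟨n, hn⟩ := IsIntegrallyClosed.isIntegral_iff.1 h3
    refine ⟨n, ?_⟩
    apply RingOfIntegers.coe_injective
    show algebraMap (𝓞 (AlgebraicClosure ℚ)) (AlgebraicClosure ℚ) (algebraMap ℤ (𝓞 (AlgebraicClosure ℚ)) n) = (b : (AlgebraicClosure ℚ))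
    rw [← hq, ← hn]
    simp

/-- the discrete topology on `𝓞 ℚ̄` (local) -/
theorem contSMul : @ContinuousSMul ((AlgebraicClosure ℚ) ≃ₐ[ℚ] (AlgebraicClosure ℚ)) (𝓞 (AlgebraicClosure ℚ)) _ _ (⊥ : TopologicalSpace (𝓞 (AlgebraicClosure ℚ))) := by
  letI : TopologicalSpace (𝓞 (AlgebraicClosure ℚ)) := ⊥
  haveI : DiscreteTopology (𝓞 (AlgebraicClosure ℚ)) := ⟨rfl⟩
  rw [continuousSMul_iff_stabilizer_isOpen]
  intro x
  have h := stabilizer_isOpen_of_isIntegral (K := ℚ) (L := (AlgebraicClosure ℚ)) (x : (AlgebraicClosure ℚ))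
  have h2 : (MulAction.stabilizer ((AlgebraicClosure ℚ) ≃ₐ[ℚ] (AlgebraicClosure ℚ)) x : Set ((AlgebraicClosure ℚ) ≃ₐ[ℚ] (AlgebraicClosure ℚ))) = (MulAction.stabilizer ((AlgebraicClosure ℚ) ≃ₐ[ℚ] (AlgebraicClosure ℚ)) (x : (AlgebraicClosure ℚ)) : Set ((AlgebraicClosure ℚ) ≃ₐ[ℚ] (AlgebraicClosure ℚ))) := by
    ext g
    simp only [SetLike.mem_coe, MulAction.mem_stabilizer_iff]
    constructor
    · intro h
      exact congrArg (fun z : 𝓞 (AlgebraicClosure ℚ) => (z : (AlgebraicClosure ℚ))) h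
    · intro h
      exact RingOfIntegers.coe_injective h
  rw [h2]
  exact h

theorem exists_frob (P : Ideal (𝓞 (AlgebraicClosure ℚ))) [hP : P.IsPrime] {ℓ : ℕ} (hℓ : ℓ.Prime) (h : (ℓ : 𝓞 (AlgebraicClosure ℚ)) ∈ P) :
    ∃ τ : ((AlgebraicClosure ℚ) ≃ₐ[ℚ] (AlgebraicClosure ℚ)), ∀ x : 𝓞 (AlgebraicClosure ℚ), τ • x - x ^ ℓ ∈ P := by
  haveI : Fact ℓ.Prime := ⟨hℓ⟩
  letI : TopologicalSpace (𝓞 (AlgebraicClosure ℚ)) := ⊥
  haveI : DiscreteTopology (𝓞 (AlgebraicClosure ℚ)) := ⟨rfl⟩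
  haveI : ContinuousSMul ((AlgebraicClosure ℚ) ≃ₐ[ℚ] (AlgebraicClosure ℚ)) (𝓞 (AlgebraicClosure ℚ)) := contSMul
  haveI : CharP (𝓞 (AlgebraicClosure ℚ) ⧸ P) ℓ := by
    have h1 : ((ℓ : ℕ) : 𝓞 (AlgebraicClosure ℚ) ⧸ P) = 0 := by
      rw [← map_natCast (Ideal.Quotient.mk P), Ideal.Quotient.eq_zero_iff_mem]
      exact h
    exact (CharP.charP_iff_prime_eq_zero hℓ).2 h1
  haveI : PerfectRing (𝓞 (AlgebraicClosure ℚ) ⧸ P) ℓ := by
    refine PerfectRing.ofSurjective (𝓞 (AlgebraicClosure ℚ) ⧸ P) ℓ fun x => ?_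
    obtain ⟨x, rfl⟩ := Ideal.Quotient.mk_surjective x
    obtain ⟨y, hy⟩ := IsAlgClosed.exists_pow_nat_eq (x : (AlgebraicClosure ℚ)) hℓ.pos
    have hy2 : IsIntegral ℤ y := by
      refine IsIntegral.of_pow hℓ.pos ?_
      rw [hy]
      exact x.isIntegral_coe
    refine ⟨Ideal.Quotient.mk P ⟨y, hy2⟩, ?_⟩
    rw [frobenius_def, ← map_pow]
    congr 1
    apply RingOfIntegers.coe_injective
    exact hy
  let l : (𝓞 (AlgebraicClosure ℚ) ⧸ P) ≃ₐ[ℤ ⧸ P.under ℤ] 𝓞 (AlgebraicClosure ℚ) ⧸ P :=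
    { __ := frobeniusEquiv (𝓞 (AlgebraicClosure ℚ) ⧸ P) ℓ
      commutes' := by
        intro r
        obtain ⟨n, rfl⟩ := Ideal.Quotient.mk_surjective r
        show frobeniusEquiv (𝓞 (AlgebraicClosure ℚ) ⧸ P) ℓ ((Ideal.Quotient.mk P) (algebraMap ℤ (𝓞 (AlgebraicClosure ℚ)) n)) =
          (Ideal.Quotient.mk P) (algebraMap ℤ (𝓞 (AlgebraicClosure ℚ)) n)
        rw [frobeniusEquiv_apply, frobenius_def]
        simp only [algebraMap_int_eq, eq_intCast, map_intCast]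
        exact map_intCast (frobenius (𝓞 (AlgebraicClosure ℚ) ⧸ P) ℓ) n }
  obtain ⟨σ, hσ⟩ := Ideal.Quotient.stabilizerHom_surjective_of_profinite (G := ((AlgebraicClosure ℚ) ≃ₐ[ℚ] (AlgebraicClosure ℚ))) (P.under ℤ) P l
  refine ⟨σ, fun x => ?_⟩
  rw [← Ideal.Quotient.eq]
  have h1 := DFunLike.congr_fun hσ (Ideal.Quotient.mk P x)
  exact h1

end

end Pool.Agent.H44.PC
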