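import Mathlib

/-!
# Completion, localization and divided powers, with their functoriality

* `Cpl A p`: the `p`-adic completion of the ring `A`;
* `Loc A S`: the localization of `A` at the elements of the set `S`;
* `DP A I p`: the subring of `A[1/p]` generated by the image of `A` and the divided powers `x^n / n!` of the `x ∈ I`.
-/

set_option autoImplicit false
set_option linter.unusedSectionVars false

open Ideal

namespace Pool.Agent.H44.PC

noncomputable section

variable (A B : Type) [CommRing A] [CommRing B]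

/-! ### localization -/

/-- the localization of `A` at the elements of `S` -/
def Loc (S : Set A) : Type := Localization (Submonoid.closure S)

instance Loc.ring (S : Set A) : CommRing (Loc A S) :=
  (inferInstance : CommRing (Localization (Submonoid.closure S)))

/-- `A → Loc A S` -/
def Loc.of (S : Set A) : A →+* Loc A S := algebraMap A (Localization (Submonoid.closure S))

variable {A B}

theorem Loc.isUnit {S : Set A} {x : A} (hx : x ∈ S) : IsUnit (Loc.of A S x) :=
  IsLocalization.map_units (M := Submonoid.closure S) (Localization (Submonoid.closure S))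
    ⟨x, Submonoid.subset_closure hx⟩

theorem Loc.le {S : Set A} {T : Set B} (f : A →+* B) (h : ∀ x ∈ S, f x ∈ T) :
    Submonoid.closure S ≤ (Submonoid.closure T).comap f := by
  rw [Submonoid.closure_le]
  intro x hx
  exact Submonoid.subset_closure (h x hx)

/-- functoriality of `Loc` -/
def Loc.map {S : Set A} {T : Set B} (f : A →+* B) (h : ∀ x ∈ S, f x ∈ T) : Loc A S →+* Loc B T :=
  (IsLocalization.map (M := Submonoid.closure S) (T := Submonoid.closure T) (Localization (Submonoid.closure T)) f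
    (Loc.le f h) : Localization (Submonoid.closure S) →+* Localization (Submonoid.closure T))

theorem Loc.map_of {S : Set A} {T : Set B} (f : A →+* B) (h : ∀ x ∈ S, f x ∈ T) (x : A) :
    Loc.map f h (Loc.of A S x) = Loc.of B T (f x) :=
  IsLocalization.map_eq (M := Submonoid.closure S) (T := Submonoid.closure T)
    (S := Localization (Submonoid.closure S)) (Q := Localization (Submonoid.closure T)) (Loc.le f h) x

/-! ### completion -/

variable (A B) (p : ℕ)

/-- the `p`-adic completion of `A` -/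
def Cpl : Type := AdicCompletion (span {(p : A)}) A

instance Cpl.ring : CommRing (Cpl A p) := (inferInstance : CommRing (AdicCompletion (span {(p : A)}) A))

/-- `A → Cpl A p` -/
def Cpl.of : A →+* Cpl A p := algebraMap A (AdicCompletion (span {(p : A)}) A)

variable {A B}

theorem Cpl.le (f : A →+* B) (n : ℕ) : span {(p : A)} ^ n ≤ (span {(p : B)} ^ n).comap f := by
  rw [← Ideal.map_le_iff_le_comap, Ideal.map_pow, Ideal.map_span, Set.image_singleton, map_natCast]

/-- the map `Cpl A p → B / p^n` -/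
def Cpl.ev (f : A →+* B) (n : ℕ) : Cpl A p →+* B ⧸ span {(p : B)} ^ n :=
  (Ideal.quotientMap (span {(p : B)} ^ n) f (Cpl.le p f n)).comp
    (AdicCompletion.evalₐ (span {(p : A)}) n).toRingHom

theorem Cpl.ev_mk (f : A →+* B) (n : ℕ) (y : AdicCompletion.AdicCauchySequence (span {(p : A)}) A) :
    Cpl.ev p f n (AdicCompletion.mk (span {(p : A)}) A y : AdicCompletion (span {(p : A)}) A) =
      Ideal.Quotient.mk (span {(p : B)} ^ n) (f (y n)) := by
  show Ideal.quotientMap (span {(p : B)} ^ n) f (Cpl.le p f n)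
    (AdicCompletion.evalₐ (span {(p : A)}) n (AdicCompletion.mk (span {(p : A)}) A y)) = _
  rw [AdicCompletion.evalₐ_mk, Ideal.quotientMap_mk]

theorem Cpl.compat (f : A →+* B) {m n : ℕ} (hmn : m ≤ n) :
    (Ideal.Quotient.factorPow (span {(p : B)}) hmn).comp (Cpl.ev p f n) = Cpl.ev p f m := by
  refine RingHom.ext fun x => ?_
  obtain ⟨y, rfl⟩ := AdicCompletion.mk_surjective (span {(p : A)}) A x
  have h1 : (Ideal.Quotient.mk (span {(p : A)} ^ m)) (y n) =
      (Ideal.Quotient.mk (span {(p : A)} ^ m)) (y m) := AdicCompletion.Ideal.mk_eq_mk _ hmn y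
  have h2 := congrArg (Ideal.quotientMap (span {(p : B)} ^ m) f (Cpl.le p f m)) h1
  rw [Ideal.quotientMap_mk, Ideal.quotientMap_mk] at h2
  have h3 := Cpl.ev_mk p f n y
  have h4 := Cpl.ev_mk p f m y
  refine Eq.trans ?_ h4.symm
  exact (congrArg (Ideal.Quotient.factorPow (span {(p : B)}) hmn) h3).trans h2

/-- functoriality of `Cpl` -/
def Cpl.map (f : A →+* B) : Cpl A p →+* Cpl B p :=
  AdicCompletion.liftRingHom (span {(p : B)}) (Cpl.ev p f) (Cpl.compat p f)

theorem Cpl.map_of (f : A →+* B) (x : A) : Cpl.map p f (Cpl.of A p x) = Cpl.of B p (f x) := by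
  refine AdicCompletion.ext_evalₐ (I := span {(p : B)}) fun n => ?_
  have h1 : AdicCompletion.evalₐ (span {(p : B)}) n (Cpl.map p f (Cpl.of A p x)) =
      Cpl.ev p f n (Cpl.of A p x) := AdicCompletion.evalₐ_liftRingHom _ _ _ _ _
  rw [h1]
  show Ideal.quotientMap (span {(p : B)} ^ n) f (Cpl.le p f n) (AdicCompletion.evalₐ (span {(p : A)}) n
    (algebraMap A (AdicCompletion (span {(p : A)}) A) x)) =
      AdicCompletion.evalₐ (span {(p : B)}) n (algebraMap B (AdicCompletion (span {(p : B)}) B) (f x))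
  rw [AlgHom.commutes, AlgHom.commutes]
  rfl

/-! ### divided powers -/

variable (A)

/-- the subring of `A[1/p]` generated by the image of `A` and the divided powers `y = x^n/n!` of the `x ∈ I` -/
def DP (I : Ideal A) : Subring (Loc A {(p : A)}) :=
  Subring.closure (Set.range (Loc.of A {(p : A)}) ∪
    {y | ∃ (n : ℕ) (x : A), x ∈ I ∧ (n.factorial : Loc A {(p : A)}) * y = Loc.of A {(p : A)} x ^ n})

/-- the ring `DP A p I` as a type -/
def DPT (I : Ideal A) : Type := DP A p I

instance DPT.ring (I : Ideal A) : CommRing (DPT A p I) := (inferInstance : CommRing (DP A p I))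

theorem DP.of_mem (I : Ideal A) (x : A) : Loc.of A {(p : A)} x ∈ DP A p I :=
  Subring.subset_closure (Or.inl ⟨x, rfl⟩)

/-- `A → DPT A p I` -/
def DPT.of (I : Ideal A) : A →+* DPT A p I := (Loc.of A {(p : A)}).codRestrict (DP A p I) (DP.of_mem A p I)

variable {A}

theorem Loc.natCast_mem (f : A →+* B) : ∀ x ∈ ({(p : A)} : Set A), f x ∈ ({(p : B)} : Set B) := by
  rintro x rfl
  rw [map_natCast]
  rfl

theorem DP.le {I : Ideal A} {J : Ideal B} (f : A →+* B) (h : ∀ x ∈ I, f x ∈ J) :
    ∀ x ∈ DP A p I, Loc.map f (Loc.natCast_mem p f) x ∈ DP B p J := by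
  have h2 : DP A p I ≤ (DP B p J).comap (Loc.map f (Loc.natCast_mem p f)) := by
    rw [DP, Subring.closure_le]
    rintro y (⟨x, rfl⟩ | ⟨n, x, hx, hy⟩)
    · show Loc.map f _ _ ∈ DP B p J
      rw [Loc.map_of]
      exact Subring.subset_closure (Or.inl ⟨_, rfl⟩)
    · refine Subring.subset_closure (Or.inr ⟨n, f x, h x hx, ?_⟩)
      rw [← Loc.map_of f (Loc.natCast_mem p f), ← map_pow, ← hy, map_mul, map_natCast]
      rfl
  exact fun x hx => h2 hx

/-- functoriality of `DPT` -/
def DPT.map {I : Ideal A} {J : Ideal B} (f : A →+* B) (h : ∀ x ∈ I, f x ∈ J) : DPT A p I →+* DPT B p J :=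
  (Loc.map f (Loc.natCast_mem p f)).restrict (DP A p I) (DP B p J) (DP.le p f h)

theorem DPT.map_of {I : Ideal A} {J : Ideal B} (f : A →+* B) (h : ∀ x ∈ I, f x ∈ J) (x : A) :
    DPT.map p f h (DPT.of A p I x) = DPT.of B p J (f x) :=
  Subtype.ext (Loc.map_of f (Loc.natCast_mem p f) x)

/-! ### the crystalline construction -/

variable (A)

/-- the `p`-adic completion of `DPT A p I` -/
def Acr (I : Ideal A) : Type := Cpl (DPT A p I) p

instance Acr.ring (I : Ideal A) : CommRing (Acr A p I) := Cpl.ring (DPT A p I) p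

/-- `A → Acr A p I` -/
def Acr.of (I : Ideal A) : A →+* Acr A p I := (Cpl.of (DPT A p I) p).comp (DPT.of A p I)

variable {A}

/-- functoriality of `Acr` -/
def Acr.map {I : Ideal A} {J : Ideal B} (f : A →+* B) (h : ∀ x ∈ I, f x ∈ J) : Acr A p I →+* Acr B p J :=
  Cpl.map p (DPT.map p f h)

theorem Acr.map_of {I : Ideal A} {J : Ideal B} (f : A →+* B) (h : ∀ x ∈ I, f x ∈ J) (x : A) :
    Acr.map p f h (Acr.of A p I x) = Acr.of B p J (f x) := by
  show Cpl.map p (DPT.map p f h) (Cpl.of (DPT A p I) p (DPT.of A p I x)) = _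
  rw [Cpl.map_of, DPT.map_of]
  rfl

variable (A)

/-- the ring `Acr A p I` with `p` and the elements of `S ⊂ A` inverted -/
def Cr (I : Ideal A) (S : Set A) : Type := Loc (Acr A p I) (Acr.of A p I '' insert (p : A) S)

instance Cr.ring (I : Ideal A) (S : Set A) : CommRing (Cr A p I S) :=
  Loc.ring (Acr A p I) (Acr.of A p I '' insert (p : A) S)

/-- `A → Cr A p I S` -/
def Cr.of (I : Ideal A) (S : Set A) : A →+* Cr A p I S :=
  (Loc.of (Acr A p I) (Acr.of A p I '' insert (p : A) S)).comp (Acr.of A p I)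

variable {A}

theorem Cr.isUnit {I : Ideal A} {S : Set A} {x : A} (hx : x ∈ insert (p : A) S) : IsUnit (Cr.of A p I S x) :=
  Loc.isUnit ⟨x, hx, rfl⟩

theorem Cr.mem {I : Ideal A} {J : Ideal B} {S : Set A} {T : Set B} (f : A →+* B) (h : ∀ x ∈ I, f x ∈ J)
    (hS : ∀ x ∈ S, f x ∈ T) :
    ∀ x ∈ Acr.of A p I '' insert (p : A) S, Acr.map p f h x ∈ Acr.of B p J '' insert (p : B) T := by
  rintro _ ⟨x, hx, rfl⟩
  rw [Acr.map_of]
  refine ⟨f x, ?_, rfl⟩
  rcases hx with rfl | hx
  · rw [map_natCast]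
    exact Set.mem_insert _ _
  · exact Set.mem_insert_of_mem _ (hS x hx)

/-- functoriality of `Cr` -/
def Cr.map {I : Ideal A} {J : Ideal B} {S : Set A} {T : Set B} (f : A →+* B) (h : ∀ x ∈ I, f x ∈ J)
    (hS : ∀ x ∈ S, f x ∈ T) : Cr A p I S →+* Cr B p J T :=
  Loc.map (Acr.map p f h) (Cr.mem p f h hS)

theorem Cr.map_of {I : Ideal A} {J : Ideal B} {S : Set A} {T : Set B} (f : A →+* B) (h : ∀ x ∈ I, f x ∈ J)
    (hS : ∀ x ∈ S, f x ∈ T) (x : A) : Cr.map p f h hS (Cr.of A p I S x) = Cr.of B p J T (f x) := by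
  show Loc.map (Acr.map p f h) (Cr.mem p f h hS) (Loc.of (Acr A p I) _ (Acr.of A p I x)) = _
  rw [Loc.map_of, Acr.map_of]
  rfl

end

end Pool.Agent.H44.PC
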