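import Mathlib

/-!
# Representatives of the integral matrices of determinant a prime number
-/

set_option autoImplicit false

open Matrix
open scoped MatrixGroups

namespace Pool.Agent.H44.PC

/-- The integral matrices of determinant `l` with lower left entry divisible by `N`. -/
def Dl (N l : ℕ) : Set (Matrix (Fin 2) (Fin 2) ℤ) := {b | b.det = l ∧ (N : ℤ) ∣ b 1 0}

/-- The representatives. -/
def rp (l : ℕ) : Option (Fin l) → Matrix (Fin 2) (Fin 2) ℤ
  | some j => !![1, (j : ℕ); 0, (l : ℤ)]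
  | none => !![(l : ℤ), 0; 0, 1]

theorem rp_mem (N l : ℕ) (x : Option (Fin l)) : rp l x ∈ Dl N l := by
  cases x with
  | none => constructor <;> simp [rp, Matrix.det_fin_two]
  | some j => constructor <;> simp [rp, Matrix.det_fin_two]

theorem mul_mem {N l : ℕ} (g : SL(2, ℤ)) (hg : g ∈ CongruenceSubgroup.Gamma0 N)
    {b : Matrix (Fin 2) (Fin 2) ℤ} (hb : b ∈ Dl N l) :
    (g : Matrix (Fin 2) (Fin 2) ℤ) * b ∈ Dl N l := by
  constructor
  · rw [Matrix.det_mul, g.det_coe, one_mul]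
    exact hb.1
  · rw [Matrix.mul_apply, Fin.sum_univ_two]
    have h1 : (N : ℤ) ∣ (g : Matrix (Fin 2) (Fin 2) ℤ) 1 0 := by
      rw [CongruenceSubgroup.Gamma0_mem] at hg
      exact (ZMod.intCast_zmod_eq_zero_iff_dvd _ _).1 hg
    exact dvd_add (h1.mul_right _) (hb.2.mul_left _)

theorem adj_mem {N l : ℕ} {b : Matrix (Fin 2) (Fin 2) ℤ} (hb : b ∈ Dl N l) :
    b.adjugate ∈ Dl N l := by
  constructor
  · rw [Matrix.det_adjugate]
    simpa using hb.1
  · rw [Matrix.adjugate_fin_two]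
    simpa using hb.2

theorem adj_adj (b : Matrix (Fin 2) (Fin 2) ℤ) : b.adjugate.adjugate = b := by
  rw [Matrix.adjugate_fin_two, Matrix.adjugate_fin_two]
  ext i j
  fin_cases i <;> fin_cases j <;> simp

/-- The adjugate as a permutation of `Dl`. -/
def adjEquiv (N l : ℕ) : Dl N l ≃ Dl N l where
  toFun b := ⟨(b : Matrix (Fin 2) (Fin 2) ℤ).adjugate, adj_mem b.2⟩
  invFun b := ⟨(b : Matrix (Fin 2) (Fin 2) ℤ).adjugate, adj_mem b.2⟩
  left_inv _ := Subtype.ext (adj_adj _)
  right_inv _ := Subtype.ext (adj_adj _)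

theorem exists_fin {l : ℕ} (hl : l.Prime) {u : ℤ} (hu : ¬ (l : ℤ) ∣ u) (v : ℤ) :
    ∃ j : Fin l, (l : ℤ) ∣ v - ((j : ℕ) : ℤ) * u := by
  have hl0 : (0 : ℤ) < l := by exact_mod_cast hl.pos
  obtain ⟨x, y, hxy⟩ : IsCoprime u (l : ℤ) := by
    have h := (Nat.prime_iff_prime_int.1 hl).irreducible.coprime_iff_not_dvd.2 hu
    exact h.symm
  have h1 : 0 ≤ v * x % l := Int.emod_nonneg _ hl0.ne'
  have h2 : v * x % l < l := Int.emod_lt_of_pos _ hl0
  refine ⟨⟨(v * x % l).toNat, by omega⟩, ?_⟩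
  have h3 : (((v * x % l).toNat : ℕ) : ℤ) = v * x % l := Int.toNat_of_nonneg h1
  have h4 := Int.emod_add_mul_ediv (v * x) l
  change (l : ℤ) ∣ v - (((v * x % l).toNat : ℕ) : ℤ) * u
  rw [h3]
  refine ⟨v * y + (v * x / l) * u, ?_⟩
  linear_combination (-v) * hxy - u * h4

theorem bij_coset {N l : ℕ} (hl : l.Prime) (hN : ¬ l ∣ N) :
    Function.Bijective (fun x : CongruenceSubgroup.Gamma0 N × Option (Fin l) =>
      (⟨((x.1 : SL(2, ℤ)) : Matrix (Fin 2) (Fin 2) ℤ) * rp l x.2,
        mul_mem _ x.1.2 (rp_mem N l x.2)⟩ : Dl N l)) := by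
  have hl0 : (l : ℤ) ≠ 0 := by exact_mod_cast hl.ne_zero
  have hlp : Prime (l : ℤ) := Nat.prime_iff_prime_int.1 hl
  constructor
  · rintro ⟨⟨g, hg⟩, x⟩ ⟨⟨g', hg'⟩, x'⟩ h
    have h0 : (g : Matrix (Fin 2) (Fin 2) ℤ) * rp l x = (g' : Matrix (Fin 2) (Fin 2) ℤ) * rp l x' :=
      congrArg Subtype.val h
    have hdet := g.det_coe
    have hdet' := g'.det_coe
    rw [Matrix.det_fin_two] at hdet hdet'
    have e00 := congrFun (congrFun h0 0) 0
    have e01 := congrFun (congrFun h0 0) 1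
    have e10 := congrFun (congrFun h0 1) 0
    have e11 := congrFun (congrFun h0 1) 1
    simp only [Matrix.mul_apply, Fin.sum_univ_two] at e00 e01 e10 e11
    cases x with
    | none =>
      cases x' with
      | none =>
        simp only [rp, Matrix.of_apply, Matrix.cons_val_zero, Matrix.cons_val_one,
          Matrix.cons_val', Matrix.cons_val_fin_one, mul_zero, add_zero, mul_one, zero_add] at e00 e01 e10 e11
        have : g = g' := by
          ext i j
          fin_cases i <;> fin_cases j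
          · exact mul_right_cancel₀ hl0 e00
          · exact e01
          · exact mul_right_cancel₀ hl0 e10
          · exact e11
        subst this
        rfl
      | some j =>
        exfalso
        simp only [rp, Matrix.of_apply, Matrix.cons_val_zero, Matrix.cons_val_one,
          Matrix.cons_val', Matrix.cons_val_fin_one, mul_zero, add_zero, mul_one, zero_add] at e00 e01 e10 e11
        have h1 : (l : ℤ) ∣ 1 := by
          rw [← hdet', ← e00, ← e10]
          exact ⟨(g : Matrix (Fin 2) (Fin 2) ℤ) 0 0 * (g' : Matrix (Fin 2) (Fin 2) ℤ) 1 1 -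
            (g' : Matrix (Fin 2) (Fin 2) ℤ) 0 1 * (g : Matrix (Fin 2) (Fin 2) ℤ) 1 0, by ring⟩
        exact hlp.not_dvd_one h1
    | some j =>
      cases x' with
      | none =>
        exfalso
        simp only [rp, Matrix.of_apply, Matrix.cons_val_zero, Matrix.cons_val_one,
          Matrix.cons_val', Matrix.cons_val_fin_one, mul_zero, add_zero, mul_one, zero_add] at e00 e01 e10 e11
        have h1 : (l : ℤ) ∣ 1 := by
          rw [← hdet, e00, e10]
          exact ⟨(g' : Matrix (Fin 2) (Fin 2) ℤ) 0 0 * (g : Matrix (Fin 2) (Fin 2) ℤ) 1 1 -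
            (g : Matrix (Fin 2) (Fin 2) ℤ) 0 1 * (g' : Matrix (Fin 2) (Fin 2) ℤ) 1 0, by ring⟩
        exact hlp.not_dvd_one h1
      | some j' =>
        simp only [rp, Matrix.of_apply, Matrix.cons_val_zero, Matrix.cons_val_one,
          Matrix.cons_val', Matrix.cons_val_fin_one, mul_zero, add_zero, mul_one, zero_add] at e00 e01 e10 e11
        rw [e00] at e01 hdet
        rw [e10] at e11 hdet
        have h1 : (l : ℤ) ∣ ((j : ℕ) : ℤ) - ((j' : ℕ) : ℤ) := by
          have h2 : (g' : Matrix (Fin 2) (Fin 2) ℤ) 0 0 * (((j : ℕ) : ℤ) - ((j' : ℕ) : ℤ)) =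
              ((g' : Matrix (Fin 2) (Fin 2) ℤ) 0 1 - (g : Matrix (Fin 2) (Fin 2) ℤ) 0 1) * l := by
            linear_combination e01
          have h3 : (g' : Matrix (Fin 2) (Fin 2) ℤ) 1 0 * (((j : ℕ) : ℤ) - ((j' : ℕ) : ℤ)) =
              ((g' : Matrix (Fin 2) (Fin 2) ℤ) 1 1 - (g : Matrix (Fin 2) (Fin 2) ℤ) 1 1) * l := by
            linear_combination e11
          refine ⟨((g' : Matrix (Fin 2) (Fin 2) ℤ) 0 1 - (g : Matrix (Fin 2) (Fin 2) ℤ) 0 1) *
            (g' : Matrix (Fin 2) (Fin 2) ℤ) 1 1 - (g' : Matrix (Fin 2) (Fin 2) ℤ) 0 1 *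
            ((g' : Matrix (Fin 2) (Fin 2) ℤ) 1 1 - (g : Matrix (Fin 2) (Fin 2) ℤ) 1 1), ?_⟩
          linear_combination (-(((j : ℕ) : ℤ) - ((j' : ℕ) : ℤ))) * hdet' +
            (g' : Matrix (Fin 2) (Fin 2) ℤ) 1 1 * h2 - (g' : Matrix (Fin 2) (Fin 2) ℤ) 0 1 * h3
        have h2 : ((j : ℕ) : ℤ) = ((j' : ℕ) : ℤ) := by
          have hj := j.2
          have hj' := j'.2
          have h3 := Int.eq_zero_of_abs_lt_dvd h1 (by rw [abs_lt]; constructor <;> omega)
          omega
        have h3 : j = j' := by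
          apply Fin.ext
          exact_mod_cast h2
        subst h3
        have : g = g' := by
          ext i k
          fin_cases i <;> fin_cases k
          · exact e00
          · have := add_left_cancel e01
            exact mul_right_cancel₀ hl0 this
          · exact e10
          · have := add_left_cancel e11
            exact mul_right_cancel₀ hl0 this
        subst this
        rfl
  · rintro ⟨b, hb⟩
    obtain ⟨hdet, hN1⟩ := hb
    rw [Matrix.det_fin_two] at hdet
    by_cases hc : (l : ℤ) ∣ b 0 0 ∧ (l : ℤ) ∣ b 1 0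
    · obtain ⟨⟨a', ha'⟩, ⟨c', hc'⟩⟩ := hc
      have h1 : a' * b 1 1 - b 0 1 * c' = 1 := by
        apply mul_left_cancel₀ hl0
        rw [ha', hc'] at hdet
        linear_combination hdet
      have hdt : (!![a', b 0 1; c', b 1 1] : Matrix (Fin 2) (Fin 2) ℤ).det = 1 := by
        rw [Matrix.det_fin_two_of]
        exact h1
      let g : SL(2, ℤ) := ⟨!![a', b 0 1; c', b 1 1], hdt⟩
      have hNc : (N : ℤ) ∣ c' := by
        have hcop : IsCoprime (N : ℤ) (l : ℤ) := by
          rw [Nat.isCoprime_iff_coprime]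
          exact ((Nat.Prime.coprime_iff_not_dvd hl).2 hN).symm
        rw [hc'] at hN1
        exact hcop.dvd_of_dvd_mul_left hN1
      have hg : g ∈ CongruenceSubgroup.Gamma0 N := by
        rw [CongruenceSubgroup.Gamma0_mem]
        exact (ZMod.intCast_zmod_eq_zero_iff_dvd _ _).2 hNc
      refine ⟨(⟨g, hg⟩, none), Subtype.ext ?_⟩
      ext i j
      fin_cases i <;> fin_cases j <;> simp [g, rp, Matrix.mul_apply, Fin.sum_univ_two, ha', hc', mul_comm]
    · -- the unique `j`
      have hcase : ∃ j : Fin l, (l : ℤ) ∣ b 0 1 - (j : ℕ) * b 0 0 ∧ (l : ℤ) ∣ b 1 1 - (j : ℕ) * b 1 0 := by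
        have hd : (l : ℤ) ∣ b 0 0 * b 1 1 - b 0 1 * b 1 0 := by rw [hdet]
        by_cases ha : (l : ℤ) ∣ b 0 0
        · have hc1 : ¬ (l : ℤ) ∣ b 1 0 := fun h => hc ⟨ha, h⟩
          obtain ⟨j, hj⟩ := exists_fin hl hc1 (b 1 1)
          refine ⟨j, ?_, hj⟩
          have h1 : (l : ℤ) ∣ b 1 0 * (b 0 1 - ((j : ℕ) : ℤ) * b 0 0) := by
            obtain ⟨s, hs⟩ := hd
            obtain ⟨t, ht⟩ := hj
            exact ⟨b 0 0 * t - s, by linear_combination b 0 0 * ht - hs⟩
          exact (hlp.dvd_or_dvd h1).resolve_left hc1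
        · obtain ⟨j, hj⟩ := exists_fin hl ha (b 0 1)
          refine ⟨j, hj, ?_⟩
          have h1 : (l : ℤ) ∣ b 0 0 * (b 1 1 - ((j : ℕ) : ℤ) * b 1 0) := by
            obtain ⟨s, hs⟩ := hd
            obtain ⟨t, ht⟩ := hj
            exact ⟨b 1 0 * t + s, by linear_combination b 1 0 * ht + hs⟩
          exact (hlp.dvd_or_dvd h1).resolve_left ha
      obtain ⟨j, ⟨x, hx⟩, ⟨y, hy⟩⟩ := hcase
      have h1 : b 0 0 * y - x * b 1 0 = 1 := by
        apply mul_left_cancel₀ hl0
        have h2 : b 1 1 = l * y + (j : ℕ) * b 1 0 := by linear_combination hy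
        have h3 : b 0 1 = l * x + (j : ℕ) * b 0 0 := by linear_combination hx
        rw [h2, h3] at hdet
        linear_combination hdet
      have hdt : (!![b 0 0, x; b 1 0, y] : Matrix (Fin 2) (Fin 2) ℤ).det = 1 := by
        rw [Matrix.det_fin_two_of]
        exact h1
      let g : SL(2, ℤ) := ⟨!![b 0 0, x; b 1 0, y], hdt⟩
      have hg : g ∈ CongruenceSubgroup.Gamma0 N := by
        rw [CongruenceSubgroup.Gamma0_mem]
        exact (ZMod.intCast_zmod_eq_zero_iff_dvd _ _).2 hN1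
      refine ⟨(⟨g, hg⟩, some j), Subtype.ext ?_⟩
      have h2 : b 1 1 = b 1 0 * (j : ℕ) + y * l := by linear_combination hy
      have h3 : b 0 1 = b 0 0 * (j : ℕ) + x * l := by linear_combination hx
      ext i k
      fin_cases i <;> fin_cases k <;> simp [g, rp, Matrix.mul_apply, Fin.sum_univ_two, h2, h3]

end Pool.Agent.H44.PC
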