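import Pool.Agent.H44.PC.Gen

/-!
# Fontaine's ring `B_cris`

For a `p`-adically complete ring `R` (in the application `R = 𝒪_{ℂ_p}`), with `A_inf = W(R♭)` and Fontaine's map
`θ : A_inf → R` (Mathlib's `fontaineTheta`), `Bcris R p` is obtained from `A_inf` as follows: adjoin the divided powers
`x^n / n!` of the `x ∈ ker θ` inside `A_inf[1/p]`, complete `p`-adically (this is `A_cris`), and invert `p` and all
`[ε] - 1` where `ε ≠ 1` and `ε^♯ = 1`.

Ring automorphisms of `R` act on all these rings.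
-/

set_option autoImplicit false
set_option linter.unusedSectionVars false

open Ideal WittVector

namespace Pool.Agent.H44.PC

noncomputable section

variable (R : Type) [CommRing R] (p : ℕ) [Fact p.Prime] [Fact (¬ IsUnit (p : R))]
  [IsAdicComplete (span {(p : R)}) R]

/-- the kernel of Fontaine's map `θ : W(R♭) → R` -/
def kerTheta : Ideal (WittVector p (PreTilt R p)) := RingHom.ker (fontaineTheta R p)

/-- the elements `[ε] - 1` of `W(R♭)`, for `ε ≠ 1` with `ε^♯ = 1` -/
def epsSet : Set (WittVector p (PreTilt R p)) :=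
  {a | ∃ ε : PreTilt R p, ε.untilt = 1 ∧ ε ≠ 1 ∧ a = teichmuller p ε - 1}

/-- `B_cris` -/
def Bcris : Type := Cr (WittVector p (PreTilt R p)) p (kerTheta R p) (epsSet R p)

instance Bcris.ring : CommRing (Bcris R p) := Cr.ring (WittVector p (PreTilt R p)) p (kerTheta R p) (epsSet R p)

/-- `A_inf → B_cris` -/
def Bcris.of : WittVector p (PreTilt R p) →+* Bcris R p :=
  Cr.of (WittVector p (PreTilt R p)) p (kerTheta R p) (epsSet R p)

/-- `ℤ_p = W(𝔽_p) → A_inf → B_cris` -/
def Bcris.fromZp : ℤ_[p] →+* Bcris R p :=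
  (Bcris.of R p).comp ((WittVector.map (ZMod.castHom (dvd_refl p) (PreTilt R p))).comp
    ((WittVector.equiv p).symm : ℤ_[p] →+* WittVector p (ZMod p)))

theorem Bcris.isUnit_fromZp (y : nonZeroDivisors ℤ_[p]) : IsUnit (Bcris.fromZp R p (y : ℤ_[p])) := by
  have hy : (y : ℤ_[p]) ≠ 0 := nonZeroDivisors.ne_zero y.2
  rw [PadicInt.unitCoeff_spec hy, map_mul, map_pow, map_natCast]
  refine IsUnit.mul (Units.isUnit _ |>.map _) (IsUnit.pow _ ?_)
  have h : IsUnit (Bcris.of R p (p : WittVector p (PreTilt R p))) := Cr.isUnit p (Set.mem_insert _ _)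
  rwa [map_natCast] at h

/-- `ℚ_p → B_cris` -/
def Bcris.fromQp : ℚ_[p] →+* Bcris R p :=
  IsLocalization.lift (M := nonZeroDivisors ℤ_[p]) (Bcris.isUnit_fromZp R p)

instance Bcris.alg : Algebra ℚ_[p] (Bcris R p) := (Bcris.fromQp R p).toAlgebra

/-! ### functoriality -/

variable {R}

theorem modMap_le (φ : R ≃+* R) : span {(p : R)} ≤ (span {(p : R)}).comap (φ : R →+* R) := by
  rw [Ideal.span_le, Set.singleton_subset_iff]
  exact Ideal.mem_span_singleton.2 (by simp)

/-- the action on `R/p` -/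
def modMap (φ : R ≃+* R) : ModP R p →+* ModP R p :=
  Ideal.quotientMap (span {(p : R)}) (φ : R →+* R) (modMap_le p φ)

/-- the action on the tilt -/
def tiltMap (φ : R ≃+* R) : PreTilt R p →+* PreTilt R p := Perfection.map p (modMap p φ)

/-- the action on `A_inf` -/
def infMap (φ : R ≃+* R) : WittVector p (PreTilt R p) →+* WittVector p (PreTilt R p) :=
  WittVector.map (tiltMap p φ)

theorem modMap_mk (φ : R ≃+* R) (x : R) :
    modMap p φ (Ideal.Quotient.mk _ x) = Ideal.Quotient.mk _ (φ x) := rfl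

theorem coeff_tiltMap (φ : R ≃+* R) (x : PreTilt R p) (n : ℕ) :
    PreTilt.coeff n (tiltMap p φ x) = modMap p φ (PreTilt.coeff n x) := rfl

/-- naturality of the untilt -/
theorem untilt_tiltMap (φ : R ≃+* R) (x : PreTilt R p) : (tiltMap p φ x).untilt = φ x.untilt := by
  refine Perfection.teichmuller_spec fun n => ?_
  obtain ⟨z, hz⟩ := Ideal.Quotient.mk_surjective (PreTilt.coeff n x)
  refine ⟨φ z, ?_, ?_⟩
  · show _ = PreTilt.coeff n (tiltMap p φ x)
    rw [coeff_tiltMap, ← hz, modMap_mk]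
  · have h := Perfection.teichmuller_sModEq (I := span {(p : R)}) (x := x) (y := z) (n := n) hz
    rw [SModEq.sub_mem] at h ⊢
    have h2 : φ (Perfection.teichmuller p (span {(p : R)}) x - z ^ p ^ n) ∈ span {(p : R)} ^ (n + 1) := by
      have h3 : Ideal.map (φ : R →+* R) (span {(p : R)} ^ (n + 1)) ≤ span {(p : R)} ^ (n + 1) := by
        rw [Ideal.map_pow, Ideal.map_span, Set.image_singleton]
        simp
      exact h3 (Ideal.mem_map_of_mem (φ : R →+* R) h)
    rw [map_sub, map_pow] at h2
    have h4 := neg_mem h2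
    rw [neg_sub] at h4
    exact h4

theorem infMap_teichmuller (φ : R ≃+* R) (x : PreTilt R p) :
    infMap p φ (teichmuller p x) = teichmuller p (tiltMap p φ x) := by
  rw [infMap, WittVector.map_teichmuller]

/-- naturality of `θ` -/
theorem theta_infMap (φ : R ≃+* R) (x : WittVector p (PreTilt R p)) :
    fontaineTheta R p (infMap p φ x) = φ (fontaineTheta R p x) := by
  have key : ∀ n : ℕ, (Ideal.Quotient.mk (span {(p : R)} ^ n)).comp
      ((fontaineTheta R p).comp (infMap p φ)) =
      (Ideal.Quotient.mk (span {(p : R)} ^ n)).comp ((φ : R →+* R).comp (fontaineTheta R p)) := by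
    intro n
    refine eq_of_apply_teichmuller_eq _ _ ⟨n, ?_⟩ fun y => ?_
    · have : (p : R ⧸ span {(p : R)} ^ n) = Ideal.Quotient.mk _ (p : R) := by simp
      rw [this, ← map_pow, Ideal.Quotient.eq_zero_iff_mem]
      exact Ideal.pow_mem_pow (Ideal.mem_span_singleton_self _) _
    · simp only [RingHom.comp_apply]
      rw [infMap_teichmuller, fontaineTheta_teichmuller, fontaineTheta_teichmuller, untilt_tiltMap]
      rfl
  rw [IsHausdorff.eq_iff_smodEq (I := span {(p : R)})]
  intro n
  rw [smul_eq_mul, Ideal.mul_top]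
  have := congrArg (fun f : WittVector p (PreTilt R p) →+* _ => f x) (key n)
  exact this

theorem tiltMap_injective (φ : R ≃+* R) : Function.Injective (tiltMap p φ) := by
  have h : Function.LeftInverse (tiltMap p φ.symm) (tiltMap p φ) := by
    intro x
    refine Perfection.ext fun n => ?_
    show modMap p φ.symm (modMap p φ (PreTilt.coeff n x)) = PreTilt.coeff n x
    obtain ⟨z, hz⟩ := Ideal.Quotient.mk_surjective (PreTilt.coeff n x)
    rw [← hz, modMap_mk, modMap_mk, RingEquiv.symm_apply_apply]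
  exact h.injective

theorem infMap_ker (φ : R ≃+* R) : ∀ x ∈ kerTheta R p, infMap p φ x ∈ kerTheta R p := by
  intro x hx
  have hx' : fontaineTheta R p x = 0 := hx
  show fontaineTheta R p (infMap p φ x) = 0
  rw [theta_infMap, hx', map_zero]

theorem infMap_eps (φ : R ≃+* R) : ∀ x ∈ epsSet R p, infMap p φ x ∈ epsSet R p := by
  rintro _ ⟨ε, h1, h2, rfl⟩
  refine ⟨tiltMap p φ ε, ?_, ?_, ?_⟩
  · rw [untilt_tiltMap, h1, map_one]
  · intro h
    exact h2 (tiltMap_injective p φ (h.trans (map_one _).symm))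
  · rw [map_sub, map_one, infMap_teichmuller]

/-- the action on `B_cris` -/
def Bcris.map (φ : R ≃+* R) : Bcris R p →+* Bcris R p :=
  Cr.map p (infMap p φ) (infMap_ker p φ) (infMap_eps p φ)

theorem Bcris.map_of (φ : R ≃+* R) (x : WittVector p (PreTilt R p)) :
    Bcris.map p φ (Bcris.of R p x) = Bcris.of R p (infMap p φ x) :=
  Cr.map_of p (infMap p φ) (infMap_ker p φ) (infMap_eps p φ) x

theorem Bcris.map_fromZp (φ : R ≃+* R) (x : ℤ_[p]) : Bcris.map p φ (Bcris.fromZp R p x) = Bcris.fromZp R p x := by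
  simp only [Bcris.fromZp, RingHom.comp_apply]
  rw [Bcris.map_of]
  congr 1
  ext n
  rw [infMap, WittVector.map_coeff, WittVector.map_coeff, ← RingHom.comp_apply]
  congr 1
  exact Subsingleton.elim _ _

theorem Bcris.map_fromQp (φ : R ≃+* R) (x : ℚ_[p]) : Bcris.map p φ (Bcris.fromQp R p x) = Bcris.fromQp R p x := by
  have h : (Bcris.map p φ).comp (Bcris.fromQp R p) = Bcris.fromQp R p := by
    refine IsLocalization.ringHom_ext (nonZeroDivisors ℤ_[p]) ?_
    refine RingHom.ext fun y => ?_
    simp only [RingHom.comp_apply, Bcris.fromQp, IsLocalization.lift_eq]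
    exact Bcris.map_fromZp p φ y
  exact congrArg (fun f : ℚ_[p] →+* Bcris R p => f x) h

theorem Bcris.map_smul (φ : R ≃+* R) (c : ℚ_[p]) (x : Bcris R p) :
    Bcris.map p φ (c • x) = c • Bcris.map p φ x := by
  rw [Algebra.smul_def, map_mul, Algebra.smul_def]
  congr 1
  exact Bcris.map_fromQp p φ c

/-- the action of the automorphism `φ` of `R` on `B_cris`, a `ℚ_p`-linear map -/
def Bcris.lin (φ : R ≃+* R) : Bcris R p →ₗ[ℚ_[p]] Bcris R p where
  toFun := Bcris.map p φ
  map_add' := map_add (Bcris.map p φ)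
  map_smul' := Bcris.map_smul p φ

end

end Pool.Agent.H44.PC
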