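import Mathlib

/-!
# The product of `1 - χ(g) T` over a group of Dirichlet characters
-/

set_option autoImplicit false

namespace Pool.Agent.H44.PC

open Finset Polynomial

/-- evaluation at a unit -/
noncomputable def evU {N : ℕ} (g : (ZMod N)ˣ) : DirichletCharacter ℂ N →* ℂˣ where
  toFun χ := MulChar.toUnitHom χ g
  map_one' := by
    ext
    simp
  map_mul' χ ψ := by
    ext
    simp

lemma evU_coe {N : ℕ} (g : (ZMod N)ˣ) (χ : DirichletCharacter ℂ N) :
    ((evU g χ : ℂˣ) : ℂ) = χ (g : ZMod N) := MulChar.coe_toUnitHom χ g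

theorem prod_X {N : ℕ} [NeZero N] (X : Subgroup (DirichletCharacter ℂ N)) [Fintype X]
    (g : (ZMod N)ˣ) (f : ℕ) (hf0 : 0 < f)
    (hf : ∀ m : ℕ, (∀ χ ∈ X, χ (g : ZMod N) ^ m = 1) ↔ f ∣ m) (T : ℂ) :
    f ∣ Nat.card X ∧
      ∏ χ : X, (1 - (χ : DirichletCharacter ℂ N) (g : ZMod N) * T)
        = (1 - T ^ f) ^ (Nat.card X / f) := by
  classical
  let φ : X →* ℂˣ := (evU g).comp X.subtype
  have hφ : ∀ χ : X, ((φ χ : ℂˣ) : ℂ) = (χ : DirichletCharacter ℂ N) (g : ZMod N) :=
    fun χ => evU_coe g χ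
  -- the image
  let S : Finset ℂˣ := univ.image φ
  let S' : Finset ℂ := univ.image fun χ : X => (χ : DirichletCharacter ℂ N) (g : ZMod N)
  have hS' : S' = S.image (fun u : ℂˣ => (u : ℂ)) := by
    simp only [S', S, Finset.image_image]
    rfl
  have hcardS : S'.card = S.card := by
    rw [hS']
    exact Finset.card_image_of_injective _ Units.val_injective
  have hrange : Nat.card φ.range = S.card := by
    have h1 : (φ.range : Set ℂˣ) = (S : Set ℂˣ) := by
      ext u
      simp [S]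
    have h2 : Nat.card φ.range = Nat.card (S : Set ℂˣ) := by
      rw [← h1]
      rfl
    rw [h2]
    simp
  have hsub : S' ⊆ nthRootsFinset f (1 : ℂ) := by
    intro z hz
    obtain ⟨χ, -, rfl⟩ := Finset.mem_image.mp hz
    rw [mem_nthRootsFinset hf0]
    exact (hf f).mpr dvd_rfl χ χ.2
  have hle : (nthRootsFinset f (1 : ℂ)).card ≤ f := by
    rw [nthRootsFinset_def]
    exact (Multiset.toFinset_card_le _).trans (card_nthRoots f 1)
  have hdvd : f ∣ Nat.card φ.range := by
    rw [← hf]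
    intro χ hχ
    have h1 : (⟨φ ⟨χ, hχ⟩, ⟨⟨χ, hχ⟩, rfl⟩⟩ : φ.range) ^ Nat.card φ.range = 1 := pow_card_eq_one'
    have h2 : (φ ⟨χ, hχ⟩) ^ Nat.card φ.range = 1 := by
      have := congrArg (Subtype.val) h1
      simpa using this
    have h3 := congrArg (fun u : ℂˣ => (u : ℂ)) h2
    simpa [hφ] using h3
  have hpos : 0 < Nat.card φ.range := Nat.card_pos
  have hcard : S'.card = f := by
    apply le_antisymm ((Finset.card_le_card hsub).trans hle)
    rw [hcardS, ← hrange]
    exact Nat.le_of_dvd hpos hdvd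
  have hS'eq : S' = nthRootsFinset f (1 : ℂ) := by
    apply Finset.eq_of_subset_of_card_le hsub
    rw [hcard]
    exact hle
  have hXcard : Nat.card X = Nat.card φ.ker * f := by
    rw [← hcard, hcardS, ← hrange]
    rw [Subgroup.card_eq_card_quotient_mul_card_subgroup φ.ker, mul_comm]
    congr 1
    exact Nat.card_congr (QuotientGroup.quotientKerEquivRange φ).toEquiv
  refine ⟨⟨_, by rw [hXcard, mul_comm]⟩, ?_⟩
  have hq : Nat.card X / f = Nat.card φ.ker := by
    rw [hXcard, Nat.mul_div_cancel _ hf0]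
  rw [hq]
  -- fibres
  have hfib : ∀ z ∈ S', #{χ : X | (χ : DirichletCharacter ℂ N) (g : ZMod N) = z}
      = Nat.card φ.ker := by
    intro z hz
    obtain ⟨χ, -, rfl⟩ := Finset.mem_image.mp hz
    have h1 := MonoidHom.card_fiber_eq_of_mem_range φ (x := φ χ) (y := 1) ⟨χ, rfl⟩ ⟨1, map_one φ⟩
    have h2 : #{χ' : X | (χ' : DirichletCharacter ℂ N) (g : ZMod N)
        = (χ : DirichletCharacter ℂ N) (g : ZMod N)} = #{χ' : X | φ χ' = φ χ} := by
      congr 1
      ext χ'
      simp only [Finset.mem_filter, Finset.mem_univ, true_and]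
      rw [← hφ, ← hφ]
      exact ⟨fun h => Units.val_injective h, fun h => by rw [h]⟩
    rw [h2, h1]
    have h3 : Nat.card φ.ker = Nat.card ({χ' : X | φ χ' = 1} : Finset X) := by
      apply Nat.card_congr
      refine Equiv.subtypeEquivRight fun χ' => ?_
      simp [MonoidHom.mem_ker]
    rw [h3, Nat.card_eq_fintype_card, Fintype.card_coe]
  rw [Finset.prod_comp (fun z : ℂ => 1 - z * T)
    (fun χ : X => (χ : DirichletCharacter ℂ N) (g : ZMod N))]
  change ∏ b ∈ S', _ = _
  rw [Finset.prod_congr rfl fun z hz => by rw [hfib z hz], Finset.prod_pow, hS'eq]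
  congr 1
  have hprim : IsPrimitiveRoot (Complex.exp (2 * Real.pi * Complex.I / f)) f :=
    Complex.isPrimitiveRoot_exp f hf0.ne'
  have h4 := hprim.pow_sub_pow_eq_prod_sub_mul 1 T hf0
  rw [one_pow] at h4
  exact h4.symm

end Pool.Agent.H44.PC
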