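import Pool.Agent.H44.PC.Order
import Pool.Agent.H44.PC.ProdX

/-!
# Regrouping of Euler products, and the summability of the local terms
-/

set_option autoImplicit false

open Filter Topology

namespace Pool.Agent.H44.PC

theorem regroup {V : Type} (π : V → Nat.Primes) [∀ ℓ, Fintype {v // π v = ℓ}] (x : V → ℂ) (hx : Summable x)
    (G : Nat.Primes → ℂ) {Λ : ℂ} (hG : HasProd G Λ)
    (h1 : ∀ ℓ, (∏ v : {v // π v = ℓ}, (1 + x v)) * G ℓ = 1) :
    HasProd (fun v => (1 + x v)⁻¹) Λ := by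
  have hP := (Complex.multipliable_one_add_of_summable hx).hasProd
  set P := ∏' v, (1 + x v) with hPdef
  have h2 : HasProd (fun z : Σ ℓ : Nat.Primes, {v // π v = ℓ} => 1 + x z.2) P := by
    have h3 := (Equiv.hasProd_iff (Equiv.sigmaFiberEquiv π) (f := fun v => 1 + x v) (a := P)).2 hP
    exact h3
  have h4 := h2.sigma (g := fun ℓ => ∏ v : {v // π v = ℓ}, (1 + x v)) fun ℓ => hasProd_fintype _
  have h5 := h4.mul hG
  have h6 : HasProd (fun _ : Nat.Primes => (1 : ℂ)) (P * Λ) := by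
    refine h5.congr_fun ?_ |> id
    intro ℓ
    exact (h1 ℓ).symm
  have h7 : P * Λ = 1 := h6.unique hasProd_one
  have h8 : P ≠ 0 := left_ne_zero_of_mul_eq_one h7
  have h9 : Λ = P⁻¹ := eq_inv_of_mul_eq_one_right h7
  rw [h9]
  exact hP.inv₀ h8

/-- bound of the power sums -/
theorem psum_bound (a b u : ℂ) (f : ℕ) :
    ‖psum a b f * u ^ f‖ ≤ 2 * (1 + ‖a * u‖ + ‖b * u ^ 2‖) ^ f ∧
      (1 ≤ f → ‖psum a b f * u ^ f‖ ≤ 2 * (‖a * u‖ + ‖b * u ^ 2‖) * (1 + ‖a * u‖ + ‖b * u ^ 2‖) ^ (f - 1)) := by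
  set A := ‖a * u‖ with hA
  set B := ‖b * u ^ 2‖ with hB
  have hA0 : 0 ≤ A := norm_nonneg _
  have hB0 : 0 ≤ B := norm_nonneg _
  have hS : 1 ≤ 1 + A + B := by linarith
  induction f using Nat.strong_induction_on with
  | _ f ih =>
    match f with
    | 0 => simp [psum]
    | 1 =>
      have h1 : ‖psum a b 1 * u ^ 1‖ = A := by simp [psum, hA]
      refine ⟨?_, fun _ => ?_⟩
      · rw [h1, pow_one]
        linarith
      · rw [h1]
        simp only [Nat.sub_self, pow_zero, mul_one]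
        linarith
    | (f + 2) =>
      have h1 : psum a b (f + 2) * u ^ (f + 2) =
          (a * u) * (psum a b (f + 1) * u ^ (f + 1)) - (b * u ^ 2) * (psum a b f * u ^ f) := by
        simp only [psum]
        ring
      have h2 := (ih (f + 1) (by omega)).1
      have h3 := (ih f (by omega)).1
      have h4 : ‖psum a b (f + 2) * u ^ (f + 2)‖ ≤ 2 * (A + B) * (1 + A + B) ^ (f + 1) := by
        rw [h1]
        refine (norm_sub_le _ _).trans ?_
        rw [norm_mul (a * u), norm_mul (b * u ^ 2), ← hA, ← hB]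
        have h5 : (1 + A + B) ^ f ≤ (1 + A + B) ^ (f + 1) := pow_le_pow_right₀ hS (by omega)
        have h6 : A * ‖psum a b (f + 1) * u ^ (f + 1)‖ ≤ A * (2 * (1 + A + B) ^ (f + 1)) :=
          mul_le_mul_of_nonneg_left h2 hA0
        have h7 : B * ‖psum a b f * u ^ f‖ ≤ B * (2 * (1 + A + B) ^ (f + 1)) :=
          mul_le_mul_of_nonneg_left (h3.trans (by linarith)) hB0
        nlinarith
      refine ⟨h4.trans ?_, fun _ => ?_⟩
      · rw [pow_succ (1 + A + B) (f + 1)]
        have h8 : 0 ≤ (1 + A + B) ^ (f + 1) := by positivity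
        nlinarith
      · exact h4

/-- summability over a type fibred over the primes with finite fibres of bounded size -/
theorem summable_fib {V : Type} (π : V → Nat.Primes) [∀ ℓ, Fintype {v // π v = ℓ}] (n : ℕ)
    (hn : ∀ ℓ, Fintype.card {v // π v = ℓ} ≤ n) (x : V → ℂ) (c : Nat.Primes → ℝ) (hc : Summable c)
    (hx : ∀ v, ‖x v‖ ≤ c (π v)) : Summable x := by
  rw [← summable_norm_iff]
  have h1 : Summable (fun z : Σ ℓ : Nat.Primes, {v // π v = ℓ} => ‖x z.2‖) := by
    rw [summable_sigma_of_nonneg fun _ => norm_nonneg _]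
    refine ⟨fun ℓ => (hasSum_fintype _).summable, ?_⟩
    refine Summable.of_nonneg_of_le (fun ℓ => tsum_nonneg fun _ => norm_nonneg _) (fun ℓ => ?_)
      ((hc.abs).mul_left (n : ℝ))
    rw [tsum_fintype]
    have h2 : ∀ v : {v // π v = ℓ}, ‖x v‖ ≤ |c ℓ| := by
      rintro ⟨v, rfl⟩
      exact (hx v).trans (le_abs_self _)
    refine (Finset.sum_le_card_nsmul _ _ _ fun v _ => h2 v).trans ?_
    rw [nsmul_eq_mul]
    refine mul_le_mul_of_nonneg_right ?_ (abs_nonneg _)
    rw [Finset.card_univ]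
    exact_mod_cast hn ℓ
  exact (Equiv.summable_iff (Equiv.sigmaFiberEquiv π) (f := fun v => ‖x v‖)).1 h1

end Pool.Agent.H44.PC
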