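import Pool.Agent.H44.PC.Cp

/-!
# The Bloch–Kato Selmer group of a two-dimensional `p`-adic representation

`G` is a topological group acting on a field `Ω`. In the application `Ω = AlgebraicClosure ℚ`, and `G = F.fixingSubgroup`
is the absolute Galois group of a number field `F ⊂ Ω`.
-/

set_option autoImplicit false

open NumberField TensorProduct

namespace Pool.Agent.H44.PC

noncomputable section

/-! ### linear algebra -/

section linear

variable {K : Type} [Field K] {M : Type} [AddCommGroup M] [Module K M]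

/-- the space `Z` modulo the elements of `B` contained in it -/
def Quo (Z B : Submodule K M) : Type := Z ⧸ B.comap Z.subtype

instance Quo.add (Z B : Submodule K M) : AddCommGroup (Quo Z B) := (inferInstance : AddCommGroup (Z ⧸ B.comap Z.subtype))

instance Quo.module (Z B : Submodule K M) : Module K (Quo Z B) := (inferInstance : Module K (Z ⧸ B.comap Z.subtype))

variable {V B ι : Type} [AddCommGroup V] [Module K V] [AddCommGroup B] [Module K B]

/-- the elements `x i ⊗ e` of `V ⊗ B` form a coboundary, for the operators `f i ⊗ h i` -/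
def Dies (x : ι → V) (f : ι → V →ₗ[K] V) (h : ι → B →ₗ[K] B) (e : B) : Prop :=
  ∃ b : V ⊗[K] B, ∀ i : ι, x i ⊗ₜ[K] e = TensorProduct.map (f i) (h i) b - b

theorem Dies.add {x y : ι → V} {f : ι → V →ₗ[K] V} {h : ι → B →ₗ[K] B} {e : B} (hx : Dies x f h e)
    (hy : Dies y f h e) : Dies (x + y) f h e := by
  obtain ⟨m, hm⟩ := hx
  obtain ⟨m', hm'⟩ := hy
  refine ⟨m + m', fun i => ?_⟩
  rw [Pi.add_apply, TensorProduct.add_tmul, hm i, hm' i, map_add]
  abel

theorem Dies.zero {f : ι → V →ₗ[K] V} {h : ι → B →ₗ[K] B} {e : B} : Dies (0 : ι → V) f h e := by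
  refine ⟨0, fun i => ?_⟩
  rw [Pi.zero_apply, TensorProduct.zero_tmul, map_zero, sub_zero]

/-- transport by a linear map `T` of `V` -/
theorem Dies.map {ι' : Type} {x : ι → V} {f : ι → V →ₗ[K] V} {h : ι → B →ₗ[K] B} {e : B} (hx : Dies x f h e)
    (T : V →ₗ[K] V) (u : ι' → ι) {f' : ι' → V →ₗ[K] V} {h' : ι' → B →ₗ[K] B}
    (hf : ∀ i, f' i ∘ₗ T = T ∘ₗ f (u i)) (hh : ∀ i, h' i = h (u i)) :
    Dies (fun i => T (x (u i))) f' h' e := by
  obtain ⟨m, hm⟩ := hx
  refine ⟨TensorProduct.map T LinearMap.id m, fun i => ?_⟩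
  have h1 := congrArg (TensorProduct.map T (LinearMap.id : B →ₗ[K] B)) (hm (u i))
  rw [TensorProduct.map_tmul, LinearMap.id_apply, map_sub] at h1
  rw [h1]
  congr 1
  have h2 : (TensorProduct.map T (LinearMap.id : B →ₗ[K] B)) ∘ₗ TensorProduct.map (f (u i)) (h (u i)) =
      TensorProduct.map (f' i) (h' i) ∘ₗ TensorProduct.map T (LinearMap.id : B →ₗ[K] B) := by
    rw [← TensorProduct.map_comp, ← TensorProduct.map_comp, hf i, hh i, LinearMap.id_comp, LinearMap.comp_id]
  exact LinearMap.congr_fun h2 m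

end linear

/-! ### cocycles and coboundaries -/

section cocycles

variable {G : Type} {K : Type} [Field K] {V : Type} [AddCommGroup V] [Module K V] (ρ : G → V →ₗ[K] V)

/-- the coboundary `g ↦ ρ(g) m - m` -/
def cobd (m : V) : G → V := fun g => ρ g m - m

theorem cobd_add (a b : V) : cobd ρ (a + b) = cobd ρ a + cobd ρ b := by
  funext g
  simp only [cobd, Pi.add_apply, map_add]
  abel

theorem cobd_zero : cobd ρ 0 = 0 := by
  funext g
  simp [cobd]

theorem cobd_smul (x : K) (a : V) : cobd ρ (x • a) = x • cobd ρ a := by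
  funext g
  simp only [cobd, Pi.smul_apply, map_smul, smul_sub]

theorem cobd_add_mem {a b : G → V} (ha : a ∈ Set.range (cobd ρ)) (hb : b ∈ Set.range (cobd ρ)) :
    a + b ∈ Set.range (cobd ρ) := by
  obtain ⟨a, rfl⟩ := ha
  obtain ⟨b, rfl⟩ := hb
  exact ⟨a + b, cobd_add ρ a b⟩

theorem cobd_smul_mem (x : K) {a : G → V} (ha : a ∈ Set.range (cobd ρ)) : x • a ∈ Set.range (cobd ρ) := by
  obtain ⟨a, rfl⟩ := ha
  exact ⟨x • a, cobd_smul ρ x a⟩

/-- the space of the coboundaries -/
def B1 : Submodule K (G → V) where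
  carrier := Set.range (cobd ρ)
  add_mem' := cobd_add_mem ρ
  zero_mem' := ⟨0, cobd_zero ρ⟩
  smul_mem' := fun x _ h => cobd_smul_mem ρ x h

variable [Group G] {Ω : Type} [Field Ω] [MulSemiringAction G Ω]

/-- `c` is unramified at the prime `P` of the ring of integers of `Ω` : on the inertia group of `P` in `G` it is a
coboundary -/
def UnrAt (P : Ideal (𝓞 Ω)) (c : G → V) : Prop := ∃ m : V, ∀ g : G, (∀ x : 𝓞 Ω, g • x - x ∈ P) → c g = cobd ρ m g

variable {ρ} {P : Ideal (𝓞 Ω)} {a b : G → V}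

theorem UnrAt.add (ha : UnrAt ρ P a) (hb : UnrAt ρ P b) : UnrAt ρ P (a + b) := by
  obtain ⟨m, hm⟩ := ha
  obtain ⟨m', hm'⟩ := hb
  refine ⟨m + m', fun g hg => ?_⟩
  rw [Pi.add_apply, hm g hg, hm' g hg, cobd_add, Pi.add_apply]

theorem UnrAt.zero : UnrAt ρ P (0 : G → V) := ⟨0, fun g _ => by rw [cobd_zero]⟩

theorem UnrAt.smul (x : K) (ha : UnrAt ρ P a) : UnrAt ρ P (x • a) := by
  obtain ⟨m, hm⟩ := ha
  refine ⟨x • m, fun g hg => ?_⟩
  rw [Pi.smul_apply, hm g hg, cobd_smul, Pi.smul_apply]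

end cocycles

/-! ### Selmer groups -/

section selmer

variable {G : Type} [Group G] {Ω : Type} [Field Ω] [MulSemiringAction G Ω] {p : ℕ} [Fact p.Prime]

/-- the decomposition group in `G` of the place of `Ω` given by the embedding `j : Ω → ℂ_p` : it consists of the `g ∈ G`
which extend, along `j`, to an isometric automorphism `s` of `ℂ_p` -/
def Dec (G : Type) [Group G] [MulSemiringAction G Ω] (j : Ω →+* ℂ_[p]) : Type :=
  {q : G × IsoAut ℂ_[p] // ∀ x : Ω, q.2.toEquiv (j x) = j (q.1 • x)}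

variable {K : Type} [Field K] [Algebra ℚ_[p] K] {V : Type} [AddCommGroup V] [Module K V] [Module ℚ_[p] V]
  [IsScalarTower ℚ_[p] K V] (ρ : G → V →ₗ[K] V)

/-- `c` is crystalline at the place of `Ω` given by the embedding `j : Ω → ℂ_p` : its restriction to the decomposition
group becomes a coboundary in `V ⊗_{ℚ_p} B_cris` -/
def CrisAt (j : Ω →+* ℂ_[p]) (c : G → V) : Prop :=
  Dies (fun i : Dec G j => c i.1.1) (fun i => (ρ i.1.1).restrictScalars ℚ_[p]) (fun i => BC.act p i.1.2) (BC.one p)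

variable {ρ} {j : Ω →+* ℂ_[p]} {a b : G → V}

theorem CrisAt.add (ha : CrisAt ρ j a) (hb : CrisAt ρ j b) : CrisAt ρ j (a + b) := Dies.add ha hb

theorem CrisAt.zero : CrisAt ρ j (0 : G → V) := Dies.zero

theorem CrisAt.smul (x : K) (ha : CrisAt ρ j a) : CrisAt ρ j (x • a) := by
  refine Dies.map ha ((x • (LinearMap.id : V →ₗ[K] V)).restrictScalars ℚ_[p]) (fun i => i) (fun i => ?_) fun _ => rfl
  ext v
  simp

variable [TopologicalSpace G] [TopologicalSpace V]

/-- `c` is a continuous cocycle, unramified outside `p` and crystalline at `p` -/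
structure IsSelmer (Ω : Type) [Field Ω] [MulSemiringAction G Ω] (p : ℕ) [Fact p.Prime] [Algebra ℚ_[p] K]
    [Module ℚ_[p] V] [IsScalarTower ℚ_[p] K V] (ρ : G → V →ₗ[K] V) (c : G → V) : Prop where
  cont : Continuous c
  cocycle : ∀ g h, c (g * h) = c g + ρ g (c h)
  unr : ∀ P : Ideal (𝓞 Ω), P.IsPrime → P ≠ ⊥ → (p : 𝓞 Ω) ∉ P → UnrAt ρ P c
  cris : ∀ j : Ω →+* ℂ_[p], CrisAt ρ j c

variable [IsTopologicalAddGroup V] [ContinuousConstSMul K V]

omit [ContinuousConstSMul K V] in
theorem IsSelmer.add (ha : IsSelmer Ω p ρ a) (hb : IsSelmer Ω p ρ b) : IsSelmer Ω p ρ (a + b) := by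
  refine ⟨ha.1.add hb.1, fun g h => ?_, fun P hP h0 hp => (ha.3 P hP h0 hp).add (hb.3 P hP h0 hp),
    fun j => (ha.4 j).add (hb.4 j)⟩
  simp only [Pi.add_apply, ha.2, hb.2, map_add]
  abel

omit [ContinuousConstSMul K V] [IsTopologicalAddGroup V] in
theorem IsSelmer.zero : IsSelmer Ω p ρ 0 :=
  ⟨continuous_const, fun g h => by simp, fun _ _ _ _ => UnrAt.zero, fun _ => CrisAt.zero⟩

omit [IsTopologicalAddGroup V] in
theorem IsSelmer.smul (x : K) (ha : IsSelmer Ω p ρ a) : IsSelmer Ω p ρ (x • a) := by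
  refine ⟨ha.1.const_smul x, fun g h => ?_, fun P hP h0 hp => (ha.3 P hP h0 hp).smul x, fun j => (ha.4 j).smul x⟩
  simp only [Pi.smul_apply, ha.2, map_smul, smul_add]

/-- the space of the continuous cocycles, unramified outside `p` and crystalline at `p` -/
def Z1f (Ω : Type) [Field Ω] [MulSemiringAction G Ω] (p : ℕ) [Fact p.Prime] [Algebra ℚ_[p] K]
    [Module ℚ_[p] V] [IsScalarTower ℚ_[p] K V] (ρ : G → V →ₗ[K] V) : Submodule K (G → V) where
  carrier := {c | IsSelmer Ω p ρ c}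
  add_mem' := IsSelmer.add
  zero_mem' := IsSelmer.zero
  smul_mem' := fun x _ h => IsSelmer.smul x h

end selmer

section dim

variable {G : Type} [Group G] {K : Type} [NontriviallyNormedField K] (ρ : G →* Matrix (Fin 2) (Fin 2) K)

/-- the operators of the representation on `K²` -/
def vec (g : G) : (Fin 2 → K) →ₗ[K] (Fin 2 → K) := (ρ g).mulVecLin

/-- the dimension over `K` of the Bloch–Kato Selmer group `H^1_f(F, ρ)` of a two-dimensional representation `ρ` of `G`
over `K` -/
def selDim [TopologicalSpace G] (Ω : Type) [Field Ω] [MulSemiringAction G Ω] (p : ℕ) [Fact p.Prime]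
    [NormedAlgebra ℚ_[p] K] : ℕ :=
  Module.finrank K (Quo (Z1f Ω p (vec ρ)) (B1 (vec ρ)))

end dim

end

end Pool.Agent.H44.PC
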