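import Pool.Agent.H44.PC.Conj

/-!
# The splitting law in an abelian field in terms of its Dirichlet characters
-/

set_option autoImplicit false
set_option linter.style.haveILetI false
set_option linter.unusedSectionVars false

open NumberField
open scoped Pointwise

namespace Pool.Agent.H44.PC

theorem disc_aux (L : Type) [Field L] [NumberField L] (N : ℕ) [NeZero N] (hc : IsCyclotomicExtension {N} ℚ L)
    {l : ℕ} (hl : l.Prime) (hN : ¬ l ∣ N) : ¬ (l : ℤ) ∣ NumberField.discr L := by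
  haveI : Fact l.Prime := ⟨hl⟩
  rw [NumberField.not_dvd_discr_iff_forall_liesOver L (𝓞 L) (Nat.prime_iff_prime_int.1 hl)]
  intro P hP hPl
  haveI := hP
  haveI := hPl
  haveI : P.IsPrime := hP.isPrime
  have h := IsCyclotomicExtension.Rat.ramificationIdx_eq_of_not_dvd l L P hN
  exact Ideal.ramificationIdx_eq_one_iff.1 h

theorem cyc_inst (N : ℕ) [NeZero N] {ζ : (AlgebraicClosure ℚ)} (hζ : IsPrimitiveRoot ζ N) :
    IsCyclotomicExtension {N} ℚ (IntermediateField.adjoin ℚ {ζ}) := by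
  have h1 := hζ.intermediateField_adjoin_isCyclotomicExtension ℚ
  have e : (DivisionRing.toRatAlgebra : Algebra ℚ (IntermediateField.adjoin ℚ {ζ})) =
    (IntermediateField.adjoin ℚ {ζ}).algebra' := Subsingleton.elim _ _
  rw [e]
  exact h1

/-- primes not dividing `N` are unramified in the subfields of `ℚ(ζ_N)` -/
theorem disc_F (F : IntermediateField ℚ (AlgebraicClosure ℚ)) [NumberField F] (N : ℕ) [NeZero N] {ζ : (AlgebraicClosure ℚ)}
    (hζ : IsPrimitiveRoot ζ N) (hF : F ≤ IntermediateField.adjoin ℚ {ζ}) {l : ℕ} (hl : l.Prime)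
    (hN : ¬ l ∣ N) : ¬ (l : ℤ) ∣ NumberField.discr F := by
  have h1 := cyc_inst N hζ
  haveI : NumberField (IntermediateField.adjoin ℚ {ζ}) := by
    have := IsCyclotomicExtension.finiteDimensional {N} ℚ (IntermediateField.adjoin ℚ {ζ})
    exact ⟨⟩
  have h2 := disc_aux (IntermediateField.adjoin ℚ {ζ}) N h1 hl hN
  intro h3
  letI : Algebra F (IntermediateField.adjoin ℚ {ζ}) := (IntermediateField.inclusion hF).toAlgebra
  exact h2 (h3.trans (NumberField.discr_dvd_discr F (IntermediateField.adjoin ℚ {ζ})))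

noncomputable section

variable {N : ℕ} [NeZero N] {ζ : (AlgebraicClosure ℚ)} (hζ : IsPrimitiveRoot ζ N)

/-- the class `a` modulo `N` with `τ ζ = ζ^a` -/
def cyc : ((AlgebraicClosure ℚ) ≃ₐ[ℚ] (AlgebraicClosure ℚ)) →* (ZMod N)ˣ := hζ.autToPow ℚ

theorem cyc_spec (τ : ((AlgebraicClosure ℚ) ≃ₐ[ℚ] (AlgebraicClosure ℚ))) : ζ ^ (cyc hζ τ : ZMod N).val = τ ζ := hζ.autToPow_spec ℚ τ

theorem cyc_eq_iff (τ : ((AlgebraicClosure ℚ) ≃ₐ[ℚ] (AlgebraicClosure ℚ))) (n : ℕ) : τ ζ = ζ ^ n ↔ ((cyc hζ τ : (ZMod N)ˣ) : ZMod N) = n := by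
  rw [← cyc_spec hζ τ]
  have h1 := (hζ.isOfFinOrder (NeZero.ne N)).pow_inj_mod (n := (cyc hζ τ : ZMod N).val) (m := n)
  rw [h1, ← hζ.eq_orderOf, ← ZMod.natCast_eq_natCast_iff', ZMod.natCast_zmod_val]

theorem cyc_surj : Function.Surjective (cyc hζ) := by
  intro u
  have h1 : IsPrimitiveRoot (ζ ^ (u : ZMod N).val) N := by
    refine hζ.pow_of_coprime _ ?_
    exact ZMod.val_coe_unit_coprime u
  have h2 : minpoly ℚ (ζ ^ (u : ZMod N).val) = minpoly ℚ ζ := by
    rw [← Polynomial.cyclotomic_eq_minpoly_rat h1 (NeZero.pos N),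
      ← Polynomial.cyclotomic_eq_minpoly_rat hζ (NeZero.pos N)]
  have h3 := (Normal.minpoly_eq_iff_mem_orbit (F := ℚ) (AlgebraicClosure ℚ)).1 h2
  obtain ⟨τ, hτ⟩ := h3
  refine ⟨τ, Units.ext ?_⟩
  have h4 : τ ζ = ζ ^ (u : ZMod N).val := hτ
  rw [cyc_eq_iff hζ] at h4
  rw [h4, ZMod.natCast_zmod_val]

variable (F : IntermediateField ℚ (AlgebraicClosure ℚ))

/-- the group of Dirichlet characters modulo `N` attached to the subfield `F` of `ℚ(ζ_N)` -/
def charGrp : Subgroup (DirichletCharacter ℂ N) where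
  carrier := {χ | ∀ τ ∈ F.fixingSubgroup, χ ((cyc hζ τ : (ZMod N)ˣ) : ZMod N) = 1}
  mul_mem' := by
    intro a b ha hb τ hτ
    rw [MulChar.mul_apply, ha τ hτ, hb τ hτ, mul_one]
  one_mem' := by
    intro τ _
    exact MulChar.one_apply_coe _
  inv_mem' := by
    intro a ha τ hτ
    rw [MulChar.inv_apply_eq_inv', ha τ hτ, inv_one]

theorem mem_charGrp (χ : DirichletCharacter ℂ N) : χ ∈ charGrp hζ F ↔ CharOf ζ F χ := by
  constructor
  · intro h τ hτ n hn
    have h1 := (cyc_eq_iff hζ τ n).1 hn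
    rw [← h1]
    exact h τ hτ
  · intro h τ hτ
    have h1 := h τ hτ (cyc hζ τ : ZMod N).val (cyc_spec hζ τ).symm
    rwa [ZMod.natCast_zmod_val] at h1

theorem charGrp_eq : charGrp hζ F =
    (MulChar.subgroupOrderIsoSubgroupMulChar (ZMod N) ℂ (F.fixingSubgroup.map (cyc hζ))).ofDual := by
  ext χ
  rw [MulChar.mem_subgroupOrderIsoSubgroupMulChar_iff]
  constructor
  · rintro h _ ⟨τ, hτ, rfl⟩
    exact h τ hτ
  · intro h τ hτ
    exact h _ ⟨τ, hτ, rfl⟩

variable {F}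

theorem mem_of_cyc (hF : F ≤ IntermediateField.adjoin ℚ {ζ}) {τ : ((AlgebraicClosure ℚ) ≃ₐ[ℚ] (AlgebraicClosure ℚ))} (h : cyc hζ τ = 1) : τ ∈ F.fixingSubgroup := by
  have h1 : τ ζ = ζ := by
    have h2 := cyc_spec hζ τ
    rw [h] at h2
    have h3 : τ ζ = ζ ^ 1 := by
      rw [cyc_eq_iff hζ, h]
      simp
    rw [h3, pow_one]
  have h4 : τ ∈ (IntermediateField.adjoin ℚ {ζ}).fixingSubgroup := by
    rw [IntermediateField.mem_fixingSubgroup_iff]
    intro x hx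
    have h5 : IntermediateField.adjoin ℚ {ζ} ≤ IntermediateField.fixedField (Subgroup.zpowers τ) := by
      rw [IntermediateField.adjoin_le_iff, Set.singleton_subset_iff]
      intro g
      obtain ⟨g, n, rfl⟩ := g
      have h6 : τ ∈ MulAction.stabilizer ((AlgebraicClosure ℚ) ≃ₐ[ℚ] (AlgebraicClosure ℚ)) ζ := h1
      exact (MulAction.stabilizer ((AlgebraicClosure ℚ) ≃ₐ[ℚ] (AlgebraicClosure ℚ)) ζ).zpow_mem h6 n
    exact (h5 hx) ⟨τ, Subgroup.mem_zpowers τ⟩
  exact IntermediateField.fixingSubgroup_antitone hF h4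

theorem cyc_mem_iff (hF : F ≤ IntermediateField.adjoin ℚ {ζ}) (τ : ((AlgebraicClosure ℚ) ≃ₐ[ℚ] (AlgebraicClosure ℚ))) :
    cyc hζ τ ∈ F.fixingSubgroup.map (cyc hζ) ↔ τ ∈ F.fixingSubgroup := by
  constructor
  · rintro ⟨σ, hσ, h⟩
    have h1 : σ⁻¹ * τ ∈ F.fixingSubgroup := mem_of_cyc hζ hF (by rw [map_mul, map_inv, h, inv_mul_cancel])
    have h2 := F.fixingSubgroup.mul_mem hσ h1
    rwa [mul_inv_cancel_left] at h2
  · intro h
    exact ⟨τ, h, rfl⟩

/-- characters detect membership in `G_F` -/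
theorem mem_GF_iff (hF : F ≤ IntermediateField.adjoin ℚ {ζ}) (τ : ((AlgebraicClosure ℚ) ≃ₐ[ℚ] (AlgebraicClosure ℚ))) :
    τ ∈ F.fixingSubgroup ↔ ∀ χ ∈ charGrp hζ F, χ ((cyc hζ τ : (ZMod N)ˣ) : ZMod N) = 1 := by
  rw [← cyc_mem_iff hζ hF, charGrp_eq]
  conv_lhs =>
    rw [← (MulChar.subgroupOrderIsoSubgroupMulChar (ZMod N) ℂ).symm_apply_apply (F.fixingSubgroup.map (cyc hζ))]
  rw [← OrderDual.toDual_ofDual ((MulChar.subgroupOrderIsoSubgroupMulChar (ZMod N) ℂ) (F.fixingSubgroup.map (cyc hζ)))]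
  exact MulChar.mem_subgroupOrderIsoSubgroupMulChar_symm_iff

theorem card_charGrp (hF : F ≤ IntermediateField.adjoin ℚ {ζ}) :
    Nat.card (charGrp hζ F) = Module.finrank ℚ F := by
  rw [charGrp_eq, MulChar.card_subgroupOrderIsoSubgroupMulChar]
  have h1 : (F.fixingSubgroup.map (cyc hζ)).comap (cyc hζ) = F.fixingSubgroup := by
    ext τ
    rw [Subgroup.mem_comap]
    exact cyc_mem_iff hζ hF τ
  have h2 := (F.fixingSubgroup.map (cyc hζ)).index_comap_of_surjective (cyc_surj hζ)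
  rw [h1] at h2
  have h3 := IntermediateField.finrank_eq_fixingSubgroup_index (AlgebraicClosure ℚ) F
  have h4 : Module.finrank ℚ F = F.fixingSubgroup.index := h3
  rw [h4, h2]
  rfl

end

end Pool.Agent.H44.PC
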