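import Pool.Agent.H44.PC.Unfold

/-!
# The Hecke operator on coefficients
-/

set_option autoImplicit false
set_option linter.style.haveILetI false

open UpperHalfPlane Matrix ModularForm ComplexConjugate
open scoped MatrixGroups

namespace Pool.Agent.H44.PC

noncomputable section

variable {N l : ℕ}

theorem rp_pos (hl : l.Prime) (x : Option (Fin l)) : 0 < ((gl (rp l x)).det.val : ℝ) := by
  rw [det_gl (det_ne (N := 1) hl (rp_mem 1 l x)), (rp_mem 1 l x).1]
  exact_mod_cast hl.pos

theorem rp_det (hl : l.Prime) (x : Option (Fin l)) : ((gl (rp l x)).det.val : ℝ) = l := by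
  rw [det_gl (det_ne (N := 1) hl (rp_mem 1 l x)), (rp_mem 1 l x).1]
  simp

theorem rp_val (hl : l.Prime) (x : Option (Fin l)) :
    ((gl (rp l x) : GL (Fin 2) ℝ) : Matrix (Fin 2) (Fin 2) ℝ) = (rp l x).map (Int.castRingHom ℝ) :=
  gl_val (det_ne (N := 1) hl (rp_mem 1 l x))

theorem coe_some (hl : l.Prime) (j : Fin l) (z : ℍ) :
    ((gl (rp l (some j)) • z : ℍ) : ℂ) = ((z : ℂ) + (j : ℕ)) / l := by
  rw [coe_smul_of_det_pos (rp_pos hl _), num, denom, rp_val hl]
  simp [rp]

theorem coe_none (hl : l.Prime) (z : ℍ) : ((gl (rp l none) • z : ℍ) : ℂ) = l * z := by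
  rw [coe_smul_of_det_pos (rp_pos hl _), num, denom, rp_val hl]
  simp [rp]

theorem slash_some (hl : l.Prime) (k : ℤ) (f : ℍ → ℂ) (j : Fin l) (z : ℍ) :
    (f ∣[k] gl (rp l (some j))) z = f (gl (rp l (some j)) • z) * (l : ℂ)⁻¹ := by
  have hl0 : (l : ℂ) ≠ 0 := Nat.cast_ne_zero.2 hl.ne_zero
  have h7 : ∀ c, σ (gl (rp l (some j))) c = c := sigma_gl (N := 1) hl (rp_mem 1 l _)
  have h8 : denom (gl (rp l (some j))) z = l := by
    rw [denom, rp_val hl]
    simp [rp]
  rw [slash_def]
  simp only [h7, h8, rp_det hl, Nat.abs_cast]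
  rw [mul_assoc]
  congr 1
  push_cast
  rw [← zpow_add₀ hl0, ← _root_.zpow_neg_one]
  congr 1
  ring

theorem slash_none (hl : l.Prime) (k : ℤ) (f : ℍ → ℂ) (z : ℍ) :
    (f ∣[k] gl (rp l none)) z = f (gl (rp l none) • z) * (l : ℂ) ^ (k - 1) := by
  have h7 : ∀ c, σ (gl (rp l none)) c = c := sigma_gl (N := 1) hl (rp_mem 1 l _)
  have h8 : denom (gl (rp l none)) z = 1 := by
    rw [denom, rp_val hl]
    simp [rp]
  rw [slash_def]
  simp only [h7, h8, rp_det hl, Nat.abs_cast, _root_.one_zpow, mul_one]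
  push_cast
  rfl

theorem geom_root (hl : l.Prime) (n : ℕ) :
    ∑ j : Fin l, (Complex.exp (2 * Real.pi * Complex.I / l) ^ n) ^ (j : ℕ) = if l ∣ n then (l : ℂ) else 0 := by
  have hu : IsPrimitiveRoot (Complex.exp (2 * Real.pi * Complex.I / l)) l :=
    Complex.isPrimitiveRoot_exp l hl.ne_zero
  rw [Fin.sum_univ_eq_sum_range fun j => (Complex.exp (2 * Real.pi * Complex.I / l) ^ n) ^ j]
  split_ifs with h
  · rw [(hu.pow_eq_one_iff_dvd n).2 h]
    simp
  · have h1 : Complex.exp (2 * Real.pi * Complex.I / l) ^ n ≠ 1 := fun h2 => h ((hu.pow_eq_one_iff_dvd n).1 h2)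
    have h2 : (Complex.exp (2 * Real.pi * Complex.I / l) ^ n) ^ l = 1 := by
      rw [← pow_mul, mul_comm n l, pow_mul, hu.pow_eq_one, one_pow]
    rw [geom_sum_eq h1, h2, sub_self, zero_div]

/-- **`T_ℓ` on coefficients** -/
theorem TT_eq [NeZero N] (hl : l.Prime) (ε : DirichletCharacter ℂ N) {k : ℕ} (hk : 0 < k)
    (h : CuspForm ((CongruenceSubgroup.Gamma1 N).map (Matrix.SpecialLinearGroup.mapGL ℝ)) (k : ℤ)) (A : ℂ)
    (hA : ∀ n : ℕ, 0 < n → (qExpansion 1 h).coeff (l * n) +
      (if l ∣ n then ε (l : ZMod N) * (l : ℂ) ^ (k - 1) * (qExpansion 1 h).coeff (n / l) else 0) =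
        A * (qExpansion 1 h).coeff n) :
    TT ε (k : ℤ) l h = fun z => A * h z := by
  have hl0 : (l : ℂ) ≠ 0 := Nat.cast_ne_zero.2 hl.ne_zero
  have hper : (1 : ℝ) ∈ ((CongruenceSubgroup.Gamma1 N).map (Matrix.SpecialLinearGroup.mapGL ℝ)).strictPeriods := by
    rw [CongruenceSubgroup.strictPeriods_Gamma1]
    exact AddSubgroup.mem_zmultiples 1
  have hq : ∀ τ : ℍ, HasSum (fun n : ℕ => (qExpansion 1 h).coeff n * Complex.exp (2 * Real.pi * Complex.I * τ) ^ n)
      (h τ) := by
    intro τ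
    have h1 := ModularForm.hasSum_qExpansion (k := (k : ℤ)) h one_pos hper τ
    simpa [Function.Periodic.qParam, smul_eq_mul] using h1
  have ha0 : (qExpansion 1 h).coeff 0 = 0 := by
    rw [qExpansion_coeff_zero one_pos]
    · exact (CuspFormClass.zero_at_infty h).valueAtInfty_eq_zero
    · exact ModularFormClass.analyticAt_cuspFunction_zero h one_pos hper
    · exact SlashInvariantFormClass.periodic_comp_ofComplex h hper
  have hA' : ∀ n : ℕ, (qExpansion 1 h).coeff (l * n) +
      (if l ∣ n then ε (l : ZMod N) * (l : ℂ) ^ (k - 1) * (qExpansion 1 h).coeff (n / l) else 0) =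
        A * (qExpansion 1 h).coeff n := by
    intro n
    rcases Nat.eq_zero_or_pos n with rfl | hn
    · simp [ha0]
    · exact hA n hn
  funext z
  set q : ℂ := Complex.exp (2 * Real.pi * Complex.I * z) with hqdef
  -- the translates
  have h1 : HasSum (fun m : ℕ => (qExpansion 1 h).coeff (l * m) * q ^ m)
      (∑ j : Fin l, h (gl (rp l (some j)) • z) * (l : ℂ)⁻¹) := by
    have h2 : HasSum (fun n : ℕ => ∑ j : Fin l, ((qExpansion 1 h).coeff n *
        Complex.exp (2 * Real.pi * Complex.I * ((gl (rp l (some j)) • z : ℍ) : ℂ)) ^ n) * (l : ℂ)⁻¹)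
        (∑ j : Fin l, h (gl (rp l (some j)) • z) * (l : ℂ)⁻¹) :=
      hasSum_sum fun j _ => (hq _).mul_right _
    have h3 : ∀ n : ℕ, (∑ j : Fin l, ((qExpansion 1 h).coeff n *
        Complex.exp (2 * Real.pi * Complex.I * ((gl (rp l (some j)) • z : ℍ) : ℂ)) ^ n) * (l : ℂ)⁻¹) =
        if l ∣ n then (qExpansion 1 h).coeff n * Complex.exp (2 * Real.pi * Complex.I * z / l) ^ n else 0 := by
      intro n
      have h4 : ∀ j : Fin l, ((qExpansion 1 h).coeff n *
          Complex.exp (2 * Real.pi * Complex.I * ((gl (rp l (some j)) • z : ℍ) : ℂ)) ^ n) * (l : ℂ)⁻¹ =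
          ((qExpansion 1 h).coeff n * Complex.exp (2 * Real.pi * Complex.I * z / l) ^ n * (l : ℂ)⁻¹) *
            (Complex.exp (2 * Real.pi * Complex.I / l) ^ n) ^ (j : ℕ) := by
        intro j
        have h5 : Complex.exp (2 * Real.pi * Complex.I * ((gl (rp l (some j)) • z : ℍ) : ℂ)) =
            Complex.exp (2 * Real.pi * Complex.I * z / l) * Complex.exp (2 * Real.pi * Complex.I / l) ^ (j : ℕ) := by
          rw [coe_some hl, ← Complex.exp_nat_mul, ← Complex.exp_add]
          congr 1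
          ring
        rw [h5, mul_pow, ← pow_mul, ← pow_mul, mul_comm (j : ℕ) n]
        ring
      rw [Finset.sum_congr rfl fun j _ => h4 j, ← Finset.mul_sum, geom_root hl]
      split_ifs
      · field_simp
      · ring
    simp only [h3] at h2
    have hinj : Function.Injective fun m : ℕ => l * m := fun a b hab => Nat.eq_of_mul_eq_mul_left hl.pos hab
    rw [← hinj.hasSum_iff] at h2
    · refine h2.congr_fun ?_ |> id
      intro m
      show _ = if l ∣ l * m then _ else _
      rw [if_pos (dvd_mul_right l m), hqdef, pow_mul]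
      congr 2
      rw [← Complex.exp_nat_mul]
      congr 1
      field_simp
    · intro n hn
      rw [if_neg]
      rintro ⟨m, rfl⟩
      exact hn ⟨m, rfl⟩
  have h2 : HasSum (fun m : ℕ => (if l ∣ m then ε (l : ZMod N) * (l : ℂ) ^ (k - 1) *
      (qExpansion 1 h).coeff (m / l) else 0) * q ^ m)
      (ε (l : ZMod N) * (h (gl (rp l none) • z) * (l : ℂ) ^ (k - 1))) := by
    have hinj : Function.Injective fun m : ℕ => l * m := fun a b hab => Nat.eq_of_mul_eq_mul_left hl.pos hab
    rw [← hinj.hasSum_iff]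
    · have h3 := ((hq (gl (rp l none) • z)).mul_right ((l : ℂ) ^ (k - 1))).mul_left (ε (l : ZMod N))
      refine h3.congr_fun ?_ |> id
      intro m
      show (if l ∣ l * m then _ else _) * _ = _
      rw [if_pos (dvd_mul_right l m), Nat.mul_div_cancel_left _ hl.pos, coe_none hl, hqdef, pow_mul,
        ← Complex.exp_nat_mul _ l]
      have : (l : ℂ) * (2 * Real.pi * Complex.I * z) = 2 * Real.pi * Complex.I * (l * z) := by ring
      rw [this]
      ring
    · intro n hn
      rw [if_neg, zero_mul]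
      rintro ⟨m, rfl⟩
      exact hn ⟨m, rfl⟩
  have h3 := h1.add h2
  have h4 : HasSum (fun m : ℕ => A * ((qExpansion 1 h).coeff m * q ^ m)) (A * h z) := (hq z).mul_left A
  have h5 : (fun m : ℕ => (qExpansion 1 h).coeff (l * m) * q ^ m + (if l ∣ m then ε (l : ZMod N) *
      (l : ℂ) ^ (k - 1) * (qExpansion 1 h).coeff (m / l) else 0) * q ^ m) =
      fun m : ℕ => A * ((qExpansion 1 h).coeff m * q ^ m) := by
    funext m
    rw [← add_mul, hA', mul_assoc]
  rw [h5] at h3
  have h6 := h3.unique h4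
  rw [← h6, TT, Fintype.sum_option]
  have e0 : ε ((rp l none 0 0 : ℤ) : ZMod N) = ε (l : ZMod N) := by simp [rp]
  have e1 : ∀ j : Fin l, ε ((rp l (some j) 0 0 : ℤ) : ZMod N) = 1 := by
    intro j
    simp [rp]
  rw [e0, slash_none hl, add_comm]
  have e2 : ((l : ℂ)) ^ ((k : ℤ) - 1) = (l : ℂ) ^ (k - 1) := by
    rw [← zpow_natCast]
    congr 1
    omega
  rw [e2]
  congr 1
  refine Finset.sum_congr rfl fun j _ => ?_
  rw [e1, one_mul, slash_some hl]

end

end Pool.Agent.H44.PC
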