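import Pool.Agent.H44.PC.Dens

/-!
# Functions on `G_F` which agree on the powers of the Frobenius elements of degree one are equal
-/

set_option autoImplicit false
set_option linter.style.haveILetI false

open NumberField
open scoped Pointwise

namespace Pool.Agent.H44.PC

variable {F : IntermediateField ℚ (AlgebraicClosure ℚ)} [NumberField F]

/-- density of the powers of the Frobenius elements of degree one -/
theorem eq_of_frob {X : Type*} [TopologicalSpace X] [T2Space X] (a b : F.fixingSubgroup → X) (ha : Continuous a)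
    (hb : Continuous b) (B : ℕ)
    (h : ∀ (p : ℕ) (P : Ideal (𝓞 (AlgebraicClosure ℚ))) (τ : F.fixingSubgroup) (j : ℕ), p.Prime → B < p → P.IsPrime → (p : 𝓞 (AlgebraicClosure ℚ)) ∈ P →
      (∀ x : 𝓞 (AlgebraicClosure ℚ), (τ : ((AlgebraicClosure ℚ) ≃ₐ[ℚ] (AlgebraicClosure ℚ))) • x - x ^ p ∈ P) → a (τ ^ j) = b (τ ^ j)) : a = b := by
  have hcl : IsClosed {g | a g = b g} := isClosed_eq ha hb
  funext g
  suffices hg : g ∈ closure {g | a g = b g} by
    rw [hcl.closure_eq] at hg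
    exact hg
  rw [mem_closure_iff_nhds]
  intro V hV
  -- pull back to a neighbourhood of one in the full group
  rw [nhds_subtype_eq_comap, Filter.mem_comap] at hV
  obtain ⟨W, hW, hWV⟩ := hV
  have h1 : (fun x : ((AlgebraicClosure ℚ) ≃ₐ[ℚ] (AlgebraicClosure ℚ)) => (g : ((AlgebraicClosure ℚ) ≃ₐ[ℚ] (AlgebraicClosure ℚ))) * x) ⁻¹' W ∈ nhds (1 : ((AlgebraicClosure ℚ) ≃ₐ[ℚ] (AlgebraicClosure ℚ))) := by
    have hc : Continuous fun x : ((AlgebraicClosure ℚ) ≃ₐ[ℚ] (AlgebraicClosure ℚ)) => (g : ((AlgebraicClosure ℚ) ≃ₐ[ℚ] (AlgebraicClosure ℚ))) * x := continuous_const.mul continuous_id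
    apply hc.continuousAt
    show W ∈ nhds ((g : ((AlgebraicClosure ℚ) ≃ₐ[ℚ] (AlgebraicClosure ℚ))) * 1)
    rw [mul_one]
    exact hW
  rw [krullTopology_mem_nhds_one_iff] at h1
  obtain ⟨E, hE, hE2⟩ := h1
  haveI := hE
  -- the Galois closure of `E F`
  let L : IntermediateField ℚ (AlgebraicClosure ℚ) := IntermediateField.normalClosure ℚ (E ⊔ F : IntermediateField ℚ (AlgebraicClosure ℚ)) (AlgebraicClosure ℚ)
  haveI : FiniteDimensional ℚ L := normalClosure.is_finiteDimensional ℚ (E ⊔ F : IntermediateField ℚ (AlgebraicClosure ℚ)) (AlgebraicClosure ℚ)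
  haveI : Normal ℚ L := normalClosure.normal ℚ (E ⊔ F : IntermediateField ℚ (AlgebraicClosure ℚ)) (AlgebraicClosure ℚ)
  haveI : IsGalois ℚ L := ⟨⟩
  have hEL : E ≤ L := le_sup_left.trans (IntermediateField.le_normalClosure _)
  have hFL : F ≤ L := le_sup_right.trans (IntermediateField.le_normalClosure _)
  obtain ⟨p, P, τ, i, j, hp, hpB, hP, hpP, hτ, hj, hi⟩ := frob_approx L (g : ((AlgebraicClosure ℚ) ≃ₐ[ℚ] (AlgebraicClosure ℚ))) B
  have hτF : τ ∈ F.fixingSubgroup := by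
    rw [IntermediateField.mem_fixingSubgroup_iff]
    intro x hx
    rw [hi x (hFL hx)]
    have h2 : (g : ((AlgebraicClosure ℚ) ≃ₐ[ℚ] (AlgebraicClosure ℚ))) ^ i ∈ F.fixingSubgroup := pow_mem g.2 i
    exact (IntermediateField.mem_fixingSubgroup_iff _ _).1 h2 x hx
  refine ⟨(⟨τ, hτF⟩ : F.fixingSubgroup) ^ j, hWV ?_, h p P ⟨τ, hτF⟩ j hp hpB hP hpP hτ⟩
  show ((((⟨τ, hτF⟩ : F.fixingSubgroup) ^ j : F.fixingSubgroup)) : ((AlgebraicClosure ℚ) ≃ₐ[ℚ] (AlgebraicClosure ℚ))) ∈ W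
  have h3 : (g : ((AlgebraicClosure ℚ) ≃ₐ[ℚ] (AlgebraicClosure ℚ)))⁻¹ * τ ^ j ∈ (fun x : ((AlgebraicClosure ℚ) ≃ₐ[ℚ] (AlgebraicClosure ℚ)) => (g : ((AlgebraicClosure ℚ) ≃ₐ[ℚ] (AlgebraicClosure ℚ))) * x) ⁻¹' W := by
    apply hE2
    rw [SetLike.mem_coe, IntermediateField.mem_fixingSubgroup_iff]
    intro x hx
    show (g : ((AlgebraicClosure ℚ) ≃ₐ[ℚ] (AlgebraicClosure ℚ)))⁻¹ ((τ ^ j) x) = x
    rw [hj x (hEL hx)]
    show ((g : ((AlgebraicClosure ℚ) ≃ₐ[ℚ] (AlgebraicClosure ℚ)))⁻¹ * (g : ((AlgebraicClosure ℚ) ≃ₐ[ℚ] (AlgebraicClosure ℚ)))) x = x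
    rw [inv_mul_cancel]
    rfl
  simpa using h3

theorem card_eq_of_pow (k : Type) [CommRing k] [IsDomain k] [Finite k] {p : ℕ} (hp : p.Prime) (h0 : (p : k) = 0)
    (h : ∀ x : k, x ^ p = x) : Nat.card k = p := by
  classical
  haveI : Fintype k := Fintype.ofFinite k
  haveI : CharP k p := (CharP.charP_iff_prime_eq_zero hp).2 h0
  refine le_antisymm ?_ (Nat.le_of_dvd Nat.card_pos ?_)
  · rw [Nat.card_eq_fintype_card, ← Finset.card_univ]
    have h4 : (Finset.univ : Finset k) ⊆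
        (Polynomial.X ^ p - Polynomial.X : Polynomial k).roots.toFinset := by
      intro x _
      rw [Multiset.mem_toFinset, Polynomial.mem_roots']
      refine ⟨fun h5 => ?_, ?_⟩
      · have h6 := congrArg (fun q : Polynomial k => q.coeff 1) h5
        simp [Polynomial.coeff_X_pow, hp.one_lt.ne] at h6
      · simp [Polynomial.IsRoot, h x]
    refine (Finset.card_le_card h4).trans ((Multiset.toFinset_card_le _).trans
      ((Polynomial.card_roots' _).trans ?_))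
    refine (Polynomial.natDegree_sub_le _ _).trans (max_le ?_ ?_)
    · exact (Polynomial.natDegree_X_pow_le _)
    · exact Polynomial.natDegree_X_le.trans hp.one_lt.le
  · have h6 : ((Nat.card k : ℕ) : k) = 0 := by
      rw [Nat.card_eq_fintype_card]
      exact Nat.cast_card_eq_zero _
    exact (CharP.cast_eq_zero_iff _ p _).1 h6

/-- the norm of the prime of `F` below `P` is `p` if a Frobenius element at `P` lies in `G_F` -/
theorem absNorm_eq {p : ℕ} (hp : p.Prime) (P : Ideal (𝓞 (AlgebraicClosure ℚ))) [hP : P.IsPrime] (hpP : (p : 𝓞 (AlgebraicClosure ℚ)) ∈ P)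
    (τ : F.fixingSubgroup) (hτ : ∀ x : 𝓞 (AlgebraicClosure ℚ), (τ : ((AlgebraicClosure ℚ) ≃ₐ[ℚ] (AlgebraicClosure ℚ))) • x - x ^ p ∈ P) :
    Ideal.absNorm (P.comap (algebraMap (𝓞 F) (𝓞 (AlgebraicClosure ℚ)))) = p := by
  haveI : Fact p.Prime := ⟨hp⟩
  set v := P.comap (algebraMap (𝓞 F) (𝓞 (AlgebraicClosure ℚ))) with hv
  haveI : v.IsPrime := Ideal.comap_isPrime _ _
  have hpv : (p : 𝓞 F) ∈ v := by
    rw [hv, Ideal.mem_comap, map_natCast]
    exact hpP
  have hv0 : v ≠ ⊥ := by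
    intro h0
    rw [h0, Ideal.mem_bot, Nat.cast_eq_zero] at hpv
    exact hp.ne_zero hpv
  haveI : Finite (𝓞 F ⧸ v) := Ideal.finiteQuotientOfFreeOfNeBot v hv0
  have hall : ∀ x : 𝓞 F ⧸ v, x ^ p = x := by
    intro x
    obtain ⟨y, rfl⟩ := Ideal.Quotient.mk_surjective x
    have h2 := hτ (algebraMap (𝓞 F) (𝓞 (AlgebraicClosure ℚ)) y)
    have h3 : (τ : ((AlgebraicClosure ℚ) ≃ₐ[ℚ] (AlgebraicClosure ℚ))) • algebraMap (𝓞 F) (𝓞 (AlgebraicClosure ℚ)) y = algebraMap (𝓞 F) (𝓞 (AlgebraicClosure ℚ)) y := by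
      apply RingOfIntegers.coe_injective
      exact (IntermediateField.mem_fixingSubgroup_iff _ _).1 τ.2 _ (y : F).2
    rw [h3, ← map_pow, ← map_sub] at h2
    rw [← map_pow, eq_comm, Ideal.Quotient.eq]
    exact h2
  have h0 : (p : 𝓞 F ⧸ v) = 0 := by
    rw [← map_natCast (Ideal.Quotient.mk v), Ideal.Quotient.eq_zero_iff_mem]
    exact hpv
  exact card_eq_of_pow (𝓞 F ⧸ v) hp h0 hall

end Pool.Agent.H44.PC
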