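import Mathlib

/-!
# Additive twists: entire continuation of `∑ φ(n) a_n n^{-s}`

`f` a cusp form on `Γ₁(N)` of weight `k > 0`, `φ : ZMod N → ℂ` any function.  The Dirichlet series
`∑ φ(n) a_n(f) n^{-s}` has an entire continuation.  Proof: `φ` is a linear combination of the
additive characters `n ↦ e(-an/N)`; `∑ e(-an/N) a_n q^n` is the `q`-expansion of `f(τ - a/N)`, a
cusp form on a conjugate (arithmetic) group, and Mathlib's `CuspForm.hasSum_L`,
`CuspForm.differentiable_L` apply.
-/

set_option autoImplicit false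

open UpperHalfPlane hiding I
open ModularForm Complex Matrix.SpecialLinearGroup ConjAct Pointwise Matrix.GeneralLinearGroup
open scoped MatrixGroups Real CongruenceSubgroup

namespace Pool.Agent.H44.PC

noncomputable section


/-- strict periods are unchanged by conjugation by a translation -/
lemma strictPeriods_conj (Γ : Subgroup (GL (Fin 2) ℝ)) (x : ℝ) :
    (toConjAct (upperRightHom x)⁻¹ • Γ).strictPeriods = Γ.strictPeriods := by
  ext y
  rw [Subgroup.mem_strictPeriods_iff, Subgroup.mem_strictPeriods_iff,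
    Subgroup.mem_pointwise_smul_iff_inv_smul_mem]
  have : (toConjAct (upperRightHom x)⁻¹)⁻¹ • (upperRightHom y : GL (Fin 2) ℝ)
      = upperRightHom y := by
    rw [← map_inv, inv_inv, ConjAct.toConjAct_smul, ← AddChar.map_add_eq_mul,
      ← AddChar.map_neg_eq_inv, ← AddChar.map_add_eq_mul]
    congr 1
    ring
  rw [this]

lemma strictWidth_of_strictPeriods {Γ : Subgroup (GL (Fin 2) ℝ)}
    (h : Γ.strictPeriods = AddSubgroup.zmultiples 1) : Γ.strictWidthInfty = 1 := by
  have : DiscreteTopology Γ.strictPeriods := by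
    rw [h]
    infer_instance
  rw [Subgroup.strictPeriods_eq_zmultiples_strictWidthInfty, Eq.comm,
    AddSubgroup.zmultiples_eq_zmultiples_iff (not_isOfFinAddOrder_of_isAddTorsionFree one_ne_zero)]
    at h
  grind [Subgroup.strictWidthInfty_nonneg]

/-- conjugating an arithmetic group by a rational translation gives an arithmetic group -/
lemma isArithmetic_conj (Γ : Subgroup (GL (Fin 2) ℝ)) [Γ.IsArithmetic] (r : ℚ) :
    (toConjAct (upperRightHom (r : ℝ))⁻¹ • Γ).IsArithmetic := by
  have h := Subgroup.IsArithmetic.conj Γ (upperRightHom (-r))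
  have h2 : (upperRightHom (-r) : GL (Fin 2) ℚ).map (Rat.castHom ℝ)
      = (upperRightHom (r : ℝ))⁻¹ := by
    rw [← AddChar.map_neg_eq_inv]
    ext i j
    fin_cases i <;> fin_cases j <;> simp
  rwa [h2] at h

/-- slash by a translation -/
lemma slash_translation (f : ℍ → ℂ) (k : ℤ) (x : ℝ) (τ : ℍ) :
    (f ∣[k] (upperRightHom x : GL (Fin 2) ℝ)) τ = f (x +ᵥ τ) := by
  have h : (upperRightHom x : GL (Fin 2) ℝ) • τ = x +ᵥ τ := by
    ext
    simp [σ, num, denom, coe_vadd, UpperHalfPlane.coe_smul, num, add_comm]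
  rw [slash_apply, h]
  simp [σ, denom, Matrix.GeneralLinearGroup.val_det_apply]

lemma qParam_vadd (x : ℝ) (τ : ℍ) :
    Function.Periodic.qParam 1 ((x +ᵥ τ : ℍ) : ℂ) = cexp (2 * π * I * x) * Function.Periodic.qParam 1 (τ : ℂ) := by
  simp only [Function.Periodic.qParam, coe_vadd, ← Complex.exp_add]
  congr 1
  push_cast
  ring

section

variable {N : ℕ} [NeZero N] {k : ℤ}
  (f : CuspForm ((CongruenceSubgroup.Gamma1 N).map (Matrix.SpecialLinearGroup.mapGL ℝ)) k)

/-- `q`-expansion of the translate -/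
lemma coeff_translate (r : ℚ) (n : ℕ) :
    (qExpansion 1 (CuspForm.translate f (upperRightHom (r : ℝ)))).coeff n
      = cexp (2 * π * I * r) ^ n * (qExpansion 1 f).coeff n := by
  symm
  have hper : (1 : ℝ) ∈ (toConjAct (upperRightHom (r : ℝ))⁻¹ •
      ((CongruenceSubgroup.Gamma1 N).map (Matrix.SpecialLinearGroup.mapGL ℝ))).strictPeriods := by
    rw [strictPeriods_conj, CongruenceSubgroup.strictPeriods_Gamma1]
    exact AddSubgroup.mem_zmultiples 1
  refine ModularFormClass.qExpansion_coeff_unique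
    (f := CuspForm.translate f (upperRightHom (r : ℝ))) (k := k)
    (c := fun n => cexp (2 * π * I * r) ^ n * (qExpansion 1 f).coeff n) one_pos hper
    (fun τ => ?_) n
  have h1 : (1 : ℝ) ∈ ((CongruenceSubgroup.Gamma1 N).map
      (Matrix.SpecialLinearGroup.mapGL ℝ)).strictPeriods := by
    rw [CongruenceSubgroup.strictPeriods_Gamma1]
    exact AddSubgroup.mem_zmultiples 1
  have h2 := ModularForm.hasSum_qExpansion (k := k) f one_pos h1 ((r : ℝ) +ᵥ τ)
  have h3 : (CuspForm.translate f (upperRightHom (r : ℝ))) τ = f ((r : ℝ) +ᵥ τ) :=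
    slash_translation f k r τ
  rw [h3]
  convert h2 using 2 with m
  rw [qParam_vadd, mul_pow, smul_eq_mul]
  push_cast
  ring

/-- the additive twist by `e(rn)` has an entire continuation -/
theorem additive (hk : 0 < k) (r : ℚ) :
    ∃ D : ℂ → ℂ, Differentiable ℂ D ∧ ∀ s : ℂ, (k : ℝ) / 2 + 1 < s.re →
      HasSum (fun n : ℕ => cexp (2 * π * I * r) ^ n * (qExpansion 1 f).coeff n / (n : ℂ) ^ s)
        (D s) := by
  set Γ' : Subgroup (GL (Fin 2) ℝ) := toConjAct (upperRightHom (r : ℝ))⁻¹ •
      ((CongruenceSubgroup.Gamma1 N).map (Matrix.SpecialLinearGroup.mapGL ℝ)) with hΓ'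
  have : Γ'.IsArithmetic := isArithmetic_conj _ r
  have hw : Γ'.strictWidthInfty = 1 := by
    apply strictWidth_of_strictPeriods
    rw [hΓ', strictPeriods_conj, CongruenceSubgroup.strictPeriods_Gamma1]
  let g : CuspForm Γ' k := CuspForm.translate f (upperRightHom (r : ℝ))
  refine ⟨fun s => ModularForm.L hk g s, CuspForm.differentiable_L hk g, fun s hs => ?_⟩
  have h := CuspForm.hasSum_L (Γ := Γ') hk g (s := s) (by simpa using hs)
  rw [hw] at h
  simp only [ofReal_one, one_cpow, one_mul] at h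
  convert h using 2 with n
  rw [← coeff_translate]

end

/-- **The twist lemma.** For a cusp form `f` of weight `k > 0` on `Γ₁(N)` and any function `φ` on
`ZMod N`, the Dirichlet series `∑ φ(n) a_n(f) n^{-s}` (convergent for `re s > k/2 + 1`) has an
entire continuation. -/
theorem twist {N : ℕ} [NeZero N] {k : ℤ} (hk : 0 < k)
    (f : CuspForm ((CongruenceSubgroup.Gamma1 N).map (Matrix.SpecialLinearGroup.mapGL ℝ)) k)
    (φ : ZMod N → ℂ) :
    ∃ D : ℂ → ℂ, Differentiable ℂ D ∧ ∀ s : ℂ, (k : ℝ) / 2 + 1 < s.re →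
      HasSum (fun n : ℕ => φ n * (qExpansion 1 f).coeff n / (n : ℂ) ^ s) (D s) := by
  choose D hD hs using fun j : ZMod N => additive f hk ((j.val : ℚ) / N)
  refine ⟨fun s => ∑ j : ZMod N, ((N : ℂ)⁻¹ * ZMod.dft φ j) * D j s, ?_, fun s h => ?_⟩
  · exact Differentiable.fun_sum fun j _ => (hD j).const_mul _
  · have h1 := hasSum_sum (s := Finset.univ) (fun (j : ZMod N) _ =>
      (hs j s h).mul_left ((N : ℂ)⁻¹ * ZMod.dft φ j))
    have hkey : ∀ n : ℕ, φ n * (qExpansion 1 f).coeff n / (n : ℂ) ^ s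
        = ∑ j : ZMod N, ((N : ℂ)⁻¹ * ZMod.dft φ j) *
          (cexp (2 * π * I * (((j.val : ℚ) / N : ℚ) : ℂ)) ^ n * (qExpansion 1 f).coeff n /
            (n : ℂ) ^ s) := ?_
    · simpa only [hkey] using h1
    intro n
    have h2 : φ n = (N : ℂ)⁻¹ * ∑ j : ZMod N, ZMod.stdAddChar (j * (n : ZMod N)) *
        ZMod.dft φ j := by
      conv_lhs => rw [← ZMod.dft.symm_apply_apply φ]
      rw [ZMod.invDFT_apply]
      simp only [smul_eq_mul]
    have h3 : ∀ j : ZMod N, ZMod.stdAddChar (j * (n : ZMod N))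
        = cexp (2 * π * I * (((j.val : ℚ) / N : ℚ) : ℂ)) ^ n := by
      intro j
      have h4 : j * (n : ZMod N) = ((j.val * n : ℤ) : ZMod N) := by
        push_cast
        rw [ZMod.natCast_zmod_val]
      rw [h4, ZMod.stdAddChar_coe, ← Complex.exp_nat_mul]
      congr 1
      push_cast
      ring
    rw [h2, Finset.mul_sum, Finset.sum_mul, Finset.sum_div]
    refine Finset.sum_congr rfl fun j _ => ?_
    rw [h3 j]
    ring

end

end Pool.Agent.H44.PC
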