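import Pool.Agent.H44.PC.HeckeCoset

/-!
# The adjoint of the Hecke operator `T_ℓ` for the Petersson product, by unfolding
-/

set_option autoImplicit false
set_option linter.style.haveILetI false

open UpperHalfPlane Matrix ModularForm MeasureTheory ComplexConjugate
open scoped MatrixGroups

namespace Pool.Agent.H44.PC

noncomputable section

/-- the real matrix -/
def gl (b : Matrix (Fin 2) (Fin 2) ℤ) : GL (Fin 2) ℝ :=
  if h : b.det ≠ 0 then
    Matrix.GeneralLinearGroup.mkOfDetNeZero (b.map (Int.castRingHom ℝ)) (by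
      have h1 : (b.map (Int.castRingHom ℝ)).det = ((b.det : ℤ) : ℝ) := ((Int.castRingHom ℝ).map_det b).symm
      rw [h1]
      exact_mod_cast h)
  else 1

theorem gl_val {b : Matrix (Fin 2) (Fin 2) ℤ} (h : b.det ≠ 0) :
    ((gl b : GL (Fin 2) ℝ) : Matrix (Fin 2) (Fin 2) ℝ) = b.map (Int.castRingHom ℝ) := by
  rw [gl, dif_pos h]
  rfl

theorem gl_mul {a b : Matrix (Fin 2) (Fin 2) ℤ} (ha : a.det ≠ 0) (hb : b.det ≠ 0) :
    gl (a * b) = gl a * gl b := by
  apply Units.ext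
  rw [Units.val_mul, gl_val ha, gl_val hb, gl_val (by rw [Matrix.det_mul]; exact mul_ne_zero ha hb)]
  exact Matrix.map_mul

theorem gl_SL (g : SL(2, ℤ)) : gl (g : Matrix (Fin 2) (Fin 2) ℤ) = (g : GL (Fin 2) ℝ) := by
  apply Units.ext
  rw [gl_val (by rw [g.det_coe]; exact one_ne_zero)]
  rfl

theorem det_gl {b : Matrix (Fin 2) (Fin 2) ℤ} (h : b.det ≠ 0) :
    ((Matrix.GeneralLinearGroup.det (gl b) : ℝˣ) : ℝ) = b.det := by
  rw [Matrix.GeneralLinearGroup.val_det_apply, gl_val h]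
  exact ((Int.castRingHom ℝ).map_det b).symm

variable {N l : ℕ}

theorem det_ne {b : Matrix (Fin 2) (Fin 2) ℤ} (hl : l.Prime) (hb : b ∈ Dl N l) : b.det ≠ 0 := by
  rw [hb.1]
  exact_mod_cast hl.ne_zero

theorem hasSum_fin_prod {X G : Type*} [Fintype X] {E : Type*} [AddCommMonoid E] [TopologicalSpace E]
    [ContinuousAdd E] {F : G × X → E} {S : X → E} (h : ∀ x, HasSum (fun g => F (g, x)) (S x)) :
    HasSum F (∑ x, S x) := by
  classical
  have h1 : ∀ y : X, HasSum (fun q : G × X => if q.2 = y then F q else 0) (S y) := by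
    intro y
    have hinj : Function.Injective (fun g : G => (g, y)) := fun a b hab => (Prod.ext_iff.1 hab).1
    refine (hinj.hasSum_iff ?_).1 ?_
    · rintro ⟨g, x⟩ hq
      rw [if_neg]
      rintro rfl
      exact hq ⟨g, rfl⟩
    · refine (h y).congr_fun ?_ |> id
      intro g
      simp
  have h2 := hasSum_sum (s := Finset.univ) fun y _ => h1 y
  refine h2.congr_fun ?_ |> id
  intro q
  simp

theorem countable_Gamma0 : Countable (CongruenceSubgroup.Gamma0 N) := by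
  haveI : Countable (Matrix (Fin 2) (Fin 2) ℤ) := inferInstanceAs (Countable (Fin 2 → Fin 2 → ℤ))
  haveI : Countable SL(2, ℤ) := inferInstanceAs (Countable {A : Matrix (Fin 2) (Fin 2) ℤ // A.det = 1})
  exact inferInstance

/-- **the unfolding identity** -/
theorem unfold_hasSum (hl : l.Prime) (hN : ¬ l ∣ N) {w : ℍ → ℝ} (hwm : Measurable w) (hw0 : ∀ z, 0 ≤ w z)
    (hwi : Integrable w)
    (hw1 : ∀ᵐ z, HasSum (fun g : CongruenceSubgroup.Gamma0 N => w ((g : SL(2, ℤ)) • z)) 1)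
    (Φ : Dl N l → ℍ → ℂ)
    (hinv : ∀ (g : CongruenceSubgroup.Gamma0 N) (b : Dl N l), Φ ⟨_, mul_mem g g.2 b.2⟩ = Φ b)
    (hm : ∀ b, Continuous (Φ b)) {C : ℝ} (hC : ∀ b z, ‖Φ b z‖ ≤ C) :
    HasSum (fun b : Dl N l => ∫ z, (w z * w (gl b • z) : ℝ) • Φ b z)
      (∫ z, w z • ∑ x : Option (Fin l), Φ ⟨_, rp_mem N l x⟩ z) := by
  classical
  haveI := countable_Gamma0 (N := N)
  have hmul : ∀ g : GL (Fin 2) ℝ, Measurable fun z : ℍ => g • z := fun g => measurable_const_smul g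
  have hqmp : ∀ g : GL (Fin 2) ℝ, MeasurePreserving (fun z : ℍ => g • z) volume volume :=
    fun g => measurePreserving_smul g volume
  let e : CongruenceSubgroup.Gamma0 N × Option (Fin l) ≃ Dl N l := Equiv.ofBijective _ (bij_coset hl hN)
  rw [← e.hasSum_iff]
  have he : ∀ q, ((e q : Dl N l) : Matrix (Fin 2) (Fin 2) ℤ) = ((q.1 : SL(2, ℤ)) : Matrix (Fin 2) (Fin 2) ℤ) * rp l q.2 :=
    fun q => rfl
  have hΦ : ∀ q, Φ (e q) = Φ ⟨_, rp_mem N l q.2⟩ := fun q => hinv q.1 ⟨_, rp_mem N l q.2⟩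
  have hgl : ∀ q (z : ℍ), gl ((e q : Dl N l) : Matrix (Fin 2) (Fin 2) ℤ) • z = (q.1 : SL(2, ℤ)) • (gl (rp l q.2) • z) := by
    intro q z
    rw [he, gl_mul (by rw [(q.1 : SL(2, ℤ)).det_coe]; exact one_ne_zero) (det_ne hl (rp_mem N l q.2)), gl_SL, mul_smul]
    rfl
  have hsum1 : ∀ᵐ z : ℍ, ∀ x : Option (Fin l), HasSum
      (fun g : CongruenceSubgroup.Gamma0 N => w ((g : SL(2, ℤ)) • (gl (rp l x) • z))) 1 := by
    rw [ae_all_iff]
    intro x
    exact (hqmp (gl (rp l x))).quasiMeasurePreserving.ae hw1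
  have hC0 : 0 ≤ C := (norm_nonneg _).trans (hC ⟨_, rp_mem N l none⟩ UpperHalfPlane.I)
  refine hasSum_integral_of_dominated_convergence
    (fun q z => C * (w z * w (gl ((e q : Dl N l) : Matrix (Fin 2) (Fin 2) ℤ) • z))) ?_ ?_ ?_ ?_ ?_
  · intro q
    have h1 : AEStronglyMeasurable (fun z : ℍ => w z * w (gl ((e q : Dl N l) : Matrix (Fin 2) (Fin 2) ℤ) • z)) volume :=
      (hwm.mul (hwm.comp (hmul _))).aestronglyMeasurable
    exact h1.smul (hm (e q)).aestronglyMeasurable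
  · intro q
    refine Filter.Eventually.of_forall fun z => ?_
    rw [norm_smul, Real.norm_of_nonneg (mul_nonneg (hw0 _) (hw0 _)), mul_comm]
    exact mul_le_mul_of_nonneg_right (hC _ _) (mul_nonneg (hw0 _) (hw0 _))
  · filter_upwards [hsum1] with z hz
    have h1 : HasSum (fun q : CongruenceSubgroup.Gamma0 N × Option (Fin l) =>
        C * (w z * w (gl ((e q : Dl N l) : Matrix (Fin 2) (Fin 2) ℤ) • z)))
        (∑ x : Option (Fin l), C * (w z * 1)) := by
      refine hasSum_fin_prod fun x => ?_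
      simp only [hgl]
      exact ((hz x).mul_left _).mul_left _
    exact h1.summable
  · have h2 : (fun z => ∑' q : CongruenceSubgroup.Gamma0 N × Option (Fin l),
        C * (w z * w (gl ((e q : Dl N l) : Matrix (Fin 2) (Fin 2) ℤ) • z))) =ᵐ[volume]
        fun z => (∑ x : Option (Fin l), C) * w z := by
      filter_upwards [hsum1] with z hz
      have h1 : HasSum (fun q : CongruenceSubgroup.Gamma0 N × Option (Fin l) =>
          C * (w z * w (gl ((e q : Dl N l) : Matrix (Fin 2) (Fin 2) ℤ) • z)))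
          (∑ x : Option (Fin l), C * (w z * 1)) := by
        refine hasSum_fin_prod fun x => ?_
        simp only [hgl]
        exact ((hz x).mul_left _).mul_left _
      rw [h1.tsum_eq, Finset.sum_mul]
      simp
    exact (hwi.const_mul _).congr h2.symm
  · filter_upwards [hsum1] with z hz
    have h1 : HasSum (fun q : CongruenceSubgroup.Gamma0 N × Option (Fin l) =>
        (w z * w (gl ((e q : Dl N l) : Matrix (Fin 2) (Fin 2) ℤ) • z) : ℝ) • Φ (e q) z)
        (∑ x : Option (Fin l), w z • Φ ⟨_, rp_mem N l x⟩ z) := by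
      refine hasSum_fin_prod fun x => ?_
      have h2 : HasSum (fun g : CongruenceSubgroup.Gamma0 N => w z * w ((g : SL(2, ℤ)) • (gl (rp l x) • z)))
          (w z) := by
        have := (hz x).mul_left (w z)
        rwa [mul_one] at this
      have h3 := h2.smul_const (Φ ⟨_, rp_mem N l x⟩ z)
      refine h3.congr_fun ?_ |> id
      intro g
      rw [hgl, hΦ]
    rw [← Finset.smul_sum] at h1
    exact h1

/-- the Hecke operator `T_ℓ` on functions of weight `k` and nebentypus `ε`: the sum of `ε(a) f|_k β` over the matrices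
`β = (a b; 0 d)` = `(1 j; 0 ℓ)`, `0 ≤ j < ℓ`, and `(ℓ 0; 0 1)` -/
def TT (ε : DirichletCharacter ℂ N) (k : ℤ) (l : ℕ) (f : ℍ → ℂ) : ℍ → ℂ := fun z =>
  ∑ x : Option (Fin l), ε ((rp l x 0 0 : ℤ) : ZMod N) * (f ∣[k] gl (rp l x)) z

theorem sigma_gl {b : Matrix (Fin 2) (Fin 2) ℤ} (hl : l.Prime) (hb : b ∈ Dl N l) (c : ℂ) : σ (gl b) c = c := by
  have h1 : 0 < (gl b).det.val := by
    rw [det_gl (det_ne hl hb), hb.1]
    exact_mod_cast hl.pos
  simp only [σ, h1, ↓reduceIte]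
  rfl

theorem adj_two (b : Matrix (Fin 2) (Fin 2) ℤ) : b.adjugate = !![b 1 1, -b 0 1; -b 1 0, b 0 0] :=
  Matrix.adjugate_fin_two b

theorem scal_det (hl : l.Prime) : ((l : ℤ) • (1 : Matrix (Fin 2) (Fin 2) ℤ)).det ≠ 0 := by
  rw [Matrix.det_smul, Matrix.det_one, mul_one]
  exact pow_ne_zero _ (by exact_mod_cast hl.ne_zero)

theorem scal_val (hl : l.Prime) : ((gl ((l : ℤ) • (1 : Matrix (Fin 2) (Fin 2) ℤ)) : GL (Fin 2) ℝ) :
    Matrix (Fin 2) (Fin 2) ℝ) = !![(l : ℝ), 0; 0, (l : ℝ)] := by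
  rw [gl_val (scal_det hl)]
  ext i j
  rw [Matrix.map_apply, Matrix.smul_apply]
  fin_cases i <;> fin_cases j <;> simp

theorem scal_det' (hl : l.Prime) :
    ((gl ((l : ℤ) • (1 : Matrix (Fin 2) (Fin 2) ℤ))).det.val : ℝ) = (l : ℝ) ^ 2 := by
  rw [det_gl (scal_det hl), Matrix.det_smul, Matrix.det_one, mul_one]
  push_cast
  simp

theorem scal_pos (hl : l.Prime) : 0 < ((gl ((l : ℤ) • (1 : Matrix (Fin 2) (Fin 2) ℤ))).det.val : ℝ) := by
  rw [scal_det' hl]
  have : (0 : ℝ) < l := by exact_mod_cast hl.pos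
  positivity

theorem scal_smul (hl : l.Prime) (z : ℍ) : gl ((l : ℤ) • (1 : Matrix (Fin 2) (Fin 2) ℤ)) • z = z := by
  have hl0 : (l : ℂ) ≠ 0 := Nat.cast_ne_zero.2 hl.ne_zero
  ext
  rw [coe_smul_of_det_pos (scal_pos hl), num, denom, scal_val hl]
  simp [hl0]

theorem gl_adj_smul {b : Matrix (Fin 2) (Fin 2) ℤ} (hl : l.Prime) (hb : b ∈ Dl N l) (z : ℍ) :
    gl b • gl b.adjugate • z = z := by
  rw [← mul_smul, ← gl_mul (det_ne hl hb) (det_ne hl (adj_mem hb)), Matrix.mul_adjugate, hb.1]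
  exact scal_smul hl z

/-- scalar matrices -/
theorem slash_scalar (hl : l.Prime) (k : ℤ) (f : ℍ → ℂ) (z : ℍ) :
    (f ∣[k] gl ((l : ℤ) • (1 : Matrix (Fin 2) (Fin 2) ℤ))) z = (l : ℂ) ^ (k - 2) * f z := by
  have hl0 : (l : ℂ) ≠ 0 := Nat.cast_ne_zero.2 hl.ne_zero
  have h7 : ∀ c, σ (gl ((l : ℤ) • (1 : Matrix (Fin 2) (Fin 2) ℤ))) c = c := by
    intro c
    simp only [σ, scal_pos hl, ↓reduceIte]
    rfl
  have h8 : denom (gl ((l : ℤ) • (1 : Matrix (Fin 2) (Fin 2) ℤ))) z = l := by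
    rw [denom, scal_val hl]
    simp
  rw [slash_def]
  simp only [scal_smul hl, h7, h8, scal_det' hl, abs_of_nonneg (sq_nonneg (l : ℝ))]
  push_cast
  rw [← zpow_natCast, ← _root_.zpow_mul, mul_comm (f z), mul_right_comm, ← zpow_add₀ hl0]
  congr 2
  push_cast
  ring

theorem petersson_adj {b : Matrix (Fin 2) (Fin 2) ℤ} (hl : l.Prime) (hb : b ∈ Dl N l) (k : ℤ) (f g : ℍ → ℂ)
    (z : ℍ) : petersson k (f ∣[k] gl b) g (gl b.adjugate • z) = petersson k f (g ∣[k] gl b.adjugate) z := by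
  have h1 := det_ne hl hb
  have h2 := det_ne hl (adj_mem hb)
  have hl0 : (l : ℂ) ≠ 0 := Nat.cast_ne_zero.2 hl.ne_zero
  have key := petersson_slash k (f ∣[k] gl b) g (gl b.adjugate) z
  rw [sigma_gl hl (adj_mem hb), det_gl h2, (adj_mem hb).1, ← SlashAction.slash_mul, ← gl_mul h1 h2,
    Matrix.mul_adjugate, hb.1] at key
  have h3 : petersson k (f ∣[k] gl ((l : ℤ) • (1 : Matrix (Fin 2) (Fin 2) ℤ))) (g ∣[k] gl b.adjugate) z =
      (l : ℂ) ^ (k - 2) * petersson k f (g ∣[k] gl b.adjugate) z := by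
    rw [petersson, slash_scalar hl, petersson, map_mul, map_zpow₀, Complex.conj_natCast]
    ring
  rw [h3] at key
  have h4 : ((|(((l : ℕ) : ℤ) : ℝ)| : ℝ) : ℂ) ^ (k - 2) = (l : ℂ) ^ (k - 2) := by
    rw [Int.cast_natCast, Nat.abs_cast]
    simp
  rw [h4] at key
  exact (mul_left_cancel₀ (zpow_ne_zero _ hl0) key).symm

theorem norm_petersson_le (k : ℤ) (f g : ℍ → ℂ) (z : ℍ) :
    ‖petersson k f g z‖ ≤ ‖petersson k f f z‖ + ‖petersson k g g z‖ := by
  have h1 : ∀ u v : ℍ → ℂ, ‖petersson k u v z‖ = ‖u z‖ * ‖v z‖ * ‖((z.im : ℂ)) ^ k‖ := by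
    intro u v
    rw [petersson, norm_mul, norm_mul, Complex.norm_conj]
  rw [h1, h1, h1, ← add_mul]
  refine mul_le_mul_of_nonneg_right ?_ (norm_nonneg _)
  nlinarith [sq_nonneg (‖f z‖ - ‖g z‖), norm_nonneg (f z), norm_nonneg (g z), mul_nonneg (norm_nonneg (f z)) (norm_nonneg (g z))]

theorem norm_petersson_slash {b : Matrix (Fin 2) (Fin 2) ℤ} (hl : l.Prime) (hb : b ∈ Dl N l) (k : ℤ) (f : ℍ → ℂ)
    {C : ℝ} (hC : ∀ z, ‖petersson k f f z‖ ≤ C) (z : ℍ) :
    ‖petersson k (f ∣[k] gl b) (f ∣[k] gl b) z‖ ≤ (l : ℝ) ^ (k - 2) * C := by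
  have hl0 : (0 : ℝ) < l := by exact_mod_cast hl.pos
  rw [petersson_slash, sigma_gl hl hb, det_gl (det_ne hl hb), hb.1, norm_mul]
  have h1 : ‖((|(((l : ℕ) : ℤ) : ℝ)| : ℝ) : ℂ) ^ (k - 2)‖ = (l : ℝ) ^ (k - 2) := by
    rw [norm_zpow, Complex.norm_real, Int.cast_natCast, Nat.abs_cast, Real.norm_of_nonneg hl0.le]
  rw [h1]
  exact mul_le_mul_of_nonneg_left (hC _) (zpow_nonneg hl0.le _)

/-- `ε(ad) = 1` for `(a b; c d) ∈ Γ_0(N)` -/
theorem eps_gamma (ε : DirichletCharacter ℂ N) (g : SL(2, ℤ)) (hg : g ∈ CongruenceSubgroup.Gamma0 N) :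
    ε ((g 0 0 : ℤ) : ZMod N) * ε ((g 1 1 : ℤ) : ZMod N) = 1 := by
  rw [← map_mul, ← map_one ε]
  congr 1
  have h1 : g 0 0 * g 1 1 - g 0 1 * g 1 0 = 1 := by
    have := g.det_coe
    rwa [Matrix.det_fin_two] at this
  have h2 : ((g 1 0 : ℤ) : ZMod N) = 0 := CongruenceSubgroup.Gamma0_mem.1 hg
  have h3 := congrArg (fun n : ℤ => (n : ZMod N)) h1
  simp only [Int.cast_sub, Int.cast_mul, h2, mul_zero, sub_zero, Int.cast_one] at h3
  exact h3

theorem conj_eps [NeZero N] (ε : DirichletCharacter ℂ N) {x y : ZMod N} (h : ε x * ε y = 1) : conj (ε x) = ε y := by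
  have hx : ε x ≠ 0 := left_ne_zero_of_mul_eq_one h
  have h1 : ‖ε x‖ = 1 := by
    have hu : IsUnit x := by
      by_contra h0
      exact hx (ε.map_nonunit h0)
    obtain ⟨u, rfl⟩ := hu
    exact DirichletCharacter.unit_norm_eq_one ε u
  have h2 : ε x * conj (ε x) = 1 := by
    rw [Complex.mul_conj, Complex.normSq_eq_norm_sq, h1]
    norm_num
  exact mul_left_cancel₀ hx (h2.trans h.symm)

/-- **The adjoint of `T_ℓ`.** -/
theorem petersson_TT [NeZero N] (hl : l.Prime) (hN : ¬ l ∣ N) {w : ℍ → ℝ} (hwm : Measurable w)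
    (hw0 : ∀ z, 0 ≤ w z) (hwi : Integrable w)
    (hw1 : ∀ᵐ z, HasSum (fun g : CongruenceSubgroup.Gamma0 N => w ((g : SL(2, ℤ)) • z)) 1)
    (ε : DirichletCharacter ℂ N) (k : ℤ) {f g : ℍ → ℂ} (hf : Continuous f) (hg : Continuous g)
    (hfb : ∀ b : GL (Fin 2) ℝ, Continuous (f ∣[k] b)) (hgb : ∀ b : GL (Fin 2) ℝ, Continuous (g ∣[k] b))
    (nf : ∀ r : SL(2, ℤ), r ∈ CongruenceSubgroup.Gamma0 N → ∀ z, (f ∣[k] r) z = ε ((r 1 1 : ℤ) : ZMod N) * f z)
    (ng : ∀ r : SL(2, ℤ), r ∈ CongruenceSubgroup.Gamma0 N → ∀ z, (g ∣[k] r) z = ε ((r 1 1 : ℤ) : ZMod N) * g z)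
    {C : ℝ} (hCf : ∀ z, ‖petersson k f f z‖ ≤ C) (hCg : ∀ z, ‖petersson k g g z‖ ≤ C) :
    ∫ z, w z • petersson k (TT ε k l f) g z = conj (ε (l : ZMod N)) * ∫ z, w z • petersson k f (TT ε k l g) z := by
  have hlr : (0 : ℝ) < l := by exact_mod_cast hl.pos
  -- a function with nebentypus, slashed by `γ b`
  have hsl : ∀ (u : ℍ → ℂ), (∀ r : SL(2, ℤ), r ∈ CongruenceSubgroup.Gamma0 N → ∀ z,
      (u ∣[k] r) z = ε ((r 1 1 : ℤ) : ZMod N) * u z) → ∀ (r : CongruenceSubgroup.Gamma0 N) (b : Dl N l) (z : ℍ),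
      (u ∣[k] gl (((r : SL(2, ℤ)) : Matrix (Fin 2) (Fin 2) ℤ) * b)) z =
        ε (((r : SL(2, ℤ)) 1 1 : ℤ) : ZMod N) * (u ∣[k] gl b) z := by
    intro u hu r b z
    have h1 : u ∣[k] ((r : SL(2, ℤ)) : GL (Fin 2) ℝ) = ε (((r : SL(2, ℤ)) 1 1 : ℤ) : ZMod N) • u := by
      funext z
      have := hu r r.2 z
      rw [SL_slash] at this
      rw [this]
      rfl
    rw [gl_mul (by rw [(r : SL(2, ℤ)).det_coe]; exact one_ne_zero) (det_ne hl b.2), SlashAction.slash_mul, gl_SL, h1,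
      smul_slash, sigma_gl hl b.2]
    rfl
  have hentry : ∀ (r : CongruenceSubgroup.Gamma0 N) (b : Dl N l),
      ε (((((r : SL(2, ℤ)) : Matrix (Fin 2) (Fin 2) ℤ) * (b : Matrix (Fin 2) (Fin 2) ℤ)) 0 0 : ℤ) : ZMod N) =
        ε (((r : SL(2, ℤ)) 0 0 : ℤ) : ZMod N) * ε (((b : Matrix (Fin 2) (Fin 2) ℤ) 0 0 : ℤ) : ZMod N) := by
    intro r b
    rw [← map_mul]
    congr 1
    rw [Matrix.mul_apply, Fin.sum_univ_two]
    have h1 : (((b : Matrix (Fin 2) (Fin 2) ℤ) 1 0 : ℤ) : ZMod N) = 0 :=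
      (ZMod.intCast_zmod_eq_zero_iff_dvd _ _).2 b.2.2
    push_cast
    rw [h1, mul_zero, add_zero]
  let Φ1 : Dl N l → ℍ → ℂ := fun b z =>
    conj (ε (((b : Matrix (Fin 2) (Fin 2) ℤ) 0 0 : ℤ) : ZMod N)) * petersson k (f ∣[k] gl b) g z
  let Φ2 : Dl N l → ℍ → ℂ := fun b z =>
    ε (((b : Matrix (Fin 2) (Fin 2) ℤ) 0 0 : ℤ) : ZMod N) * petersson k f (g ∣[k] gl b) z
  have hε1 : ∀ x : ZMod N, ‖ε x‖ ≤ 1 := fun x => DirichletCharacter.norm_le_one ε x
  set C' : ℝ := (l : ℝ) ^ (k - 2) * C + C with hC'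
  have hA := unfold_hasSum hl hN hwm hw0 hwi hw1 Φ1 (by
      intro r b
      funext z
      show conj (ε _) * petersson k (f ∣[k] gl (((r : SL(2, ℤ)) : Matrix (Fin 2) (Fin 2) ℤ) * b)) g z = _
      rw [hentry, petersson, hsl f nf, map_mul, map_mul]
      have h1 := eps_gamma ε r r.2
      have h2 := congrArg conj h1
      rw [map_mul, map_one] at h2
      show _ = conj (ε _) * (conj ((f ∣[k] gl b) z) * g z * _)
      linear_combination (conj (ε (((b : Matrix (Fin 2) (Fin 2) ℤ) 0 0 : ℤ) : ZMod N)) *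
        (conj ((f ∣[k] gl b) z) * g z * (z.im : ℂ) ^ k)) * h2)
    (fun b => continuous_const.mul (petersson_continuous k (hfb _) hg)) (C := C') (by
      intro b z
      show ‖conj _ * _‖ ≤ _
      rw [norm_mul, Complex.norm_conj]
      refine (mul_le_of_le_one_left (norm_nonneg _) (hε1 _)).trans ?_
      refine (norm_petersson_le k _ _ z).trans ?_
      exact add_le_add (norm_petersson_slash hl b.2 k f hCf z) (hCg z))
  have hB := unfold_hasSum hl hN hwm hw0 hwi hw1 Φ2 (by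
      intro r b
      funext z
      show ε _ * petersson k f (g ∣[k] gl (((r : SL(2, ℤ)) : Matrix (Fin 2) (Fin 2) ℤ) * b)) z = _
      rw [hentry, petersson, hsl g ng]
      have h1 := eps_gamma ε r r.2
      show _ = ε _ * (conj (f z) * (g ∣[k] gl b) z * _)
      linear_combination (ε (((b : Matrix (Fin 2) (Fin 2) ℤ) 0 0 : ℤ) : ZMod N) *
        (conj (f z) * (g ∣[k] gl b) z * (z.im : ℂ) ^ k)) * h1)
    (fun b => continuous_const.mul (petersson_continuous k hf (hgb _))) (C := C') (by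
      intro b z
      show ‖_ * _‖ ≤ _
      rw [norm_mul]
      refine (mul_le_of_le_one_left (norm_nonneg _) (hε1 _)).trans ?_
      refine (norm_petersson_le k _ _ z).trans ?_
      rw [add_comm]
      exact add_le_add (norm_petersson_slash hl b.2 k g hCg z) (hCf z))
  have hadj2 : ∀ b : Matrix (Fin 2) (Fin 2) ℤ, b.adjugate.adjugate = b := by
    intro b
    rw [Matrix.adjugate_fin_two, Matrix.adjugate_fin_two]
    ext i j
    fin_cases i <;> fin_cases j <;> simp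
  let e : Dl N l ≃ Dl N l :=
    { toFun := fun b => ⟨_, adj_mem b.2⟩
      invFun := fun b => ⟨_, adj_mem b.2⟩
      left_inv := fun b => Subtype.ext (hadj2 b)
      right_inv := fun b => Subtype.ext (hadj2 b) }
  have hrel : ∀ b : Dl N l, ∫ z, (w z * w (gl b • z) : ℝ) • Φ1 b z =
      conj (ε (l : ZMod N)) * ∫ z, (w z * w (gl (e b : Matrix (Fin 2) (Fin 2) ℤ) • z) : ℝ) • Φ2 (e b) z := by
    intro b
    rw [← integral_smul_eq_self (μ := (volume : Measure ℍ)) (fun z => (w z * w (gl b • z) : ℝ) • Φ1 b z)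
      (g := gl ((b : Matrix (Fin 2) (Fin 2) ℤ).adjugate)), ← integral_const_mul]
    refine integral_congr_ae (Filter.Eventually.of_forall fun z => ?_)
    show (w (gl ((b : Matrix (Fin 2) (Fin 2) ℤ).adjugate) • z) *
      w (gl b • gl ((b : Matrix (Fin 2) (Fin 2) ℤ).adjugate) • z) : ℝ) •
        (conj (ε (((b : Matrix (Fin 2) (Fin 2) ℤ) 0 0 : ℤ) : ZMod N)) *
          petersson k (f ∣[k] gl b) g (gl ((b : Matrix (Fin 2) (Fin 2) ℤ).adjugate) • z)) =
      conj (ε (l : ZMod N)) * ((w z * w (gl ((b : Matrix (Fin 2) (Fin 2) ℤ).adjugate) • z) : ℝ) •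
        (ε (((b : Matrix (Fin 2) (Fin 2) ℤ).adjugate 0 0 : ℤ) : ZMod N) *
          petersson k f (g ∣[k] gl ((b : Matrix (Fin 2) (Fin 2) ℤ).adjugate)) z))
    rw [gl_adj_smul hl b.2, petersson_adj hl b.2, mul_comm (w (_ • z)) (w z)]
    have h1 : (b : Matrix (Fin 2) (Fin 2) ℤ).adjugate 0 0 = (b : Matrix (Fin 2) (Fin 2) ℤ) 1 1 := by
      rw [adj_two]
      rfl
    have h2 : ε (((b : Matrix (Fin 2) (Fin 2) ℤ) 0 0 : ℤ) : ZMod N) *
        ε (((b : Matrix (Fin 2) (Fin 2) ℤ) 1 1 : ℤ) : ZMod N) = ε (l : ZMod N) := by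
      rw [← map_mul]
      congr 1
      have h3 := b.2.1
      rw [Matrix.det_fin_two] at h3
      have h4 : (((b : Matrix (Fin 2) (Fin 2) ℤ) 1 0 : ℤ) : ZMod N) = 0 :=
        (ZMod.intCast_zmod_eq_zero_iff_dvd _ _).2 b.2.2
      have h5 := congrArg (fun n : ℤ => (n : ZMod N)) h3
      simp only [Int.cast_sub, Int.cast_mul, h4, mul_zero, sub_zero, Int.cast_natCast] at h5
      exact h5
    have h6 : ε (l : ZMod N) * conj (ε (l : ZMod N)) = 1 := by
      have hco : l.Coprime N := (Nat.Prime.coprime_iff_not_dvd hl).2 hN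
      rw [← ZMod.coe_unitOfCoprime l hco, Complex.mul_conj, Complex.normSq_eq_norm_sq,
        DirichletCharacter.unit_norm_eq_one]
      norm_num
    have h7 : conj (ε (((b : Matrix (Fin 2) (Fin 2) ℤ) 0 0 : ℤ) : ZMod N)) =
        conj (ε (l : ZMod N)) * ε (((b : Matrix (Fin 2) (Fin 2) ℤ) 1 1 : ℤ) : ZMod N) := by
      have hx0 : ε (((b : Matrix (Fin 2) (Fin 2) ℤ) 0 0 : ℤ) : ZMod N) ≠ 0 := by
        intro h0
        rw [h0, zero_mul] at h2
        rw [← h2, zero_mul] at h6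
        exact zero_ne_one h6
      have h8 : ε (((b : Matrix (Fin 2) (Fin 2) ℤ) 0 0 : ℤ) : ZMod N) *
          conj (ε (((b : Matrix (Fin 2) (Fin 2) ℤ) 0 0 : ℤ) : ZMod N)) = 1 := by
        have hu : IsUnit ((((b : Matrix (Fin 2) (Fin 2) ℤ) 0 0 : ℤ) : ZMod N)) := by
          by_contra h9
          exact hx0 (ε.map_nonunit h9)
        obtain ⟨u, hu⟩ := hu
        rw [← hu, Complex.mul_conj, Complex.normSq_eq_norm_sq, DirichletCharacter.unit_norm_eq_one]
        norm_num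
      apply mul_left_cancel₀ hx0
      rw [h8]
      linear_combination -h6 - conj (ε (l : ZMod N)) * h2
    rw [h1, h7]
    simp only [Complex.real_smul]
    ring
  have hB' := hB.mul_left (conj (ε (l : ZMod N)))
  rw [← e.hasSum_iff] at hB'
  have hAB : HasSum (fun b : Dl N l => ∫ z, (w z * w (gl b • z) : ℝ) • Φ1 b z)
      (conj (ε (l : ZMod N)) * ∫ z, w z • ∑ x : Option (Fin l), Φ2 ⟨_, rp_mem N l x⟩ z) := by
    refine hB'.congr_fun ?_ |> id
    intro b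
    exact hrel b
  have hfin := hA.unique hAB
  have e1 : ∀ z, ∑ x : Option (Fin l), Φ1 ⟨_, rp_mem N l x⟩ z = petersson k (TT ε k l f) g z := by
    intro z
    rw [petersson, TT, map_sum, Finset.sum_mul, Finset.sum_mul]
    refine Finset.sum_congr rfl fun x _ => ?_
    show conj (ε _) * (conj ((f ∣[k] gl (rp l x)) z) * g z * _) = _
    rw [map_mul]
    ring
  have e2 : ∀ z, ∑ x : Option (Fin l), Φ2 ⟨_, rp_mem N l x⟩ z = petersson k f (TT ε k l g) z := by
    intro z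
    rw [petersson, TT, Finset.mul_sum, Finset.sum_mul]
    refine Finset.sum_congr rfl fun x _ => ?_
    show ε _ * (conj (f z) * (g ∣[k] gl (rp l x)) z * _) = _
    ring
  simp only [e1, e2] at hfin
  exact hfin

end

end Pool.Agent.H44.PC
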